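import Pool.Agent.Lib.EQD.DefsD
import Pool.Agent.Lib.EQD.AAB

/-!
# Pointwise convergence for families of polynomials with a base: definitions

`GDeg P e i₀`: the general class (all distances `deg (P l - P i₀)`, `l ≠ i₀`, and `deg P i₀` are distinct; `e l` = scale exponent of the
structure of the slot `l`). `MidG`, `LowG`: the two halves of the approximation, with a vector of widths `κ`.
`Sw Q c lam V`: `V z y` is bounded by `c`, has the period `Q` in `y` and varies slowly in `z`: a shift by `u` changes it by at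
most `lam (u + Q)`.
-/

set_option autoImplicit false

open Finset Polynomial

namespace Pool.Agent.EQD.G

open Pool.Agent.HLT Pool.Agent.NLT Pool.Agent.NLG Pool.Agent.EQD

/-- The general class. -/
structure GDeg {n : ℕ} (P : Fin n → ℤ[X]) (e : Fin n → ℕ) (i₀ : Fin n) : Prop where
  pos : ∀ l, 1 ≤ e l
  le : ∀ l, e l ≤ (P l).natDegree
  base : ∀ l, (P l - P i₀).natDegree ≤ e l
  dmin : ∀ l, (P i₀).natDegree ≤ (P l).natDegree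
  top : ∀ l, (P i₀).natDegree < (P l).natDegree → e l = (P l).natDegree
  inv : InvP P e

/-- The averages may be replaced by the averages of the functions `E[Q_(t(j)), 2 ^ (-κ l) N ^ e l]`. -/
def MidG {n : ℕ} (P : Fin n → ℤ[X]) (e : Fin n → ℕ) : Prop :=
  ∃ B₀ : ℕ, 1 ≤ B₀ ∧ ∀ B : ℕ, B₀ ≤ B → ∀ ε : ℝ, 0 < ε → ∃ κ : Fin n → ℕ, ∃ J₀ : ℕ, ∀ J₁ : ℕ,
    ∃ M₀ : ℕ, 1 ≤ M₀ ∧ ∀ (M : ℕ) [NeZero M], M₀ ∣ M → ∀ N : ℕ → ℕ, Sc N → ∀ f : Fin n → ZMod M → ℂ,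
    (∀ l, Bd (f l)) → ∀ c : ZMod M → ℕ, Ch J₀ J₁ c →
    avr (fun x => ‖AA (N (c x)) P f x -
      AA (N (c x)) P (fun l => Ew B (tj (c x)) (tj (c x)) (N (c x) ^ e l / 2 ^ κ l) (f l)) x‖) ≤ ε

/-- The modulus `Q_(t(j))` may be replaced by a bounded modulus `Q_(t₀)`. -/
def LowG {n : ℕ} (P : Fin n → ℤ[X]) (e : Fin n → ℕ) : Prop :=
  ∀ B : ℕ, 1 ≤ B → ∀ (κ : Fin n → ℕ) (ε : ℝ), 0 < ε → ∃ t₀ : ℕ, ∃ J₀ : ℕ, (∀ j, J₀ ≤ j → t₀ ≤ tj j) ∧ ∀ J₁ : ℕ,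
    ∃ M₀ : ℕ, 1 ≤ M₀ ∧ ∀ (M : ℕ) [NeZero M], M₀ ∣ M → ∀ N : ℕ → ℕ, Sc N → ∀ f : Fin n → ZMod M → ℂ,
    (∀ l, Bd (f l)) → ∀ c : ZMod M → ℕ, Ch J₀ J₁ c →
    avr (fun x => ‖AA (N (c x)) P (fun l => Ew B (tj (c x)) (tj (c x)) (N (c x) ^ e l / 2 ^ κ l) (f l)) x -
      AA (N (c x)) P (fun l => Ew B t₀ (tj (c x)) (N (c x) ^ e l / 2 ^ κ l) (f l)) x‖) ≤ ε

/-- Slowly varying in the first variable, periodic in the second. -/
structure Sw {M : ℕ} [NeZero M] (Q : ℕ) (c lam : ℝ) (V : ZMod M → ZMod M → ℂ) : Prop where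
  bd : ∀ z y, ‖V z y‖ ≤ c
  per : ∀ z y, V z (y + (Q : ZMod M)) = V z y
  slow : ∀ z y (u : ℕ), ‖V (z + (u : ZMod M)) y - V z y‖ ≤ lam * ((u : ℝ) + Q)

end Pool.Agent.EQD.G
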