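import Pool.Agent.Lib.EQG.Defs
import Pool.Agent.Lib.EQD.L2loc

/-!
# Module GL2f: the gain on the fibre for the class `GDeg`

Copy of the last part of `EQD/L2loc` (`N = M`: the improving inequality holds for every polynomial of degree at least one).
-/

set_option autoImplicit false

open Finset Polynomial

namespace Pool.Agent.EQD.G

open Pool.Agent.HLT Pool.Agent.NLT Pool.Agent.NLG Pool.Agent.EQD

namespace GL2fAux

open Pool.Agent.EQD.L2locAux

/-- A common constant for the improving inequality. -/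
lemma improve_all {n : ℕ} (P : Fin n → ℤ[X]) (hD : ∀ i, 1 ≤ (P i).natDegree) :
    ∃ C₀ : ℕ, 1 ≤ C₀ ∧ ∀ (M : ℕ) [NeZero M] (N r : ℕ), 1 ≤ r → 1 ≤ N → M ≤ N → ∀ (i : Fin n)
      (E : Finset (ZMod M)), E.card * r ^ C₀ ≤ M →
      avr (fun x => AR N (P i) (ind E) x ^ 2) ≤ C₀ * ((E.card : ℝ) / M) / r := by
  have hex : ∀ i : Fin n, ∃ C : ℕ, 1 ≤ C ∧ ∀ (M : ℕ) [NeZero M] (N R : ℕ), 1 ≤ R → 1 ≤ N → M ≤ 1 * N ^ (P i).natDegree →
      ∀ E : Finset (ZMod M), E.card * R ^ C ≤ M →
      avr (fun x => AR N (P i) (fun y => if y ∈ E then 1 else 0) x ^ 2) ≤ C * ((E.card : ℝ) / M) / R :=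
    fun i => Pool.Agent.EQD.improve (P i) (P i).natDegree rfl (hD i) 1
  choose C hC1 hC using hex
  refine ⟨1 + ∑ i, C i, by omega, ?_⟩
  intro M _ N r hr hN hM i E hE
  have hCi : C i ≤ 1 + ∑ i, C i := by
    have := Finset.single_le_sum (f := C) (fun j _ => Nat.zero_le _) (mem_univ i)
    omega
  have hM' : M ≤ 1 * N ^ (P i).natDegree := by
    rw [one_mul]
    exact hM.trans (Nat.le_self_pow (by have := hD i; omega) N)
  have h1 := hC i M N r hr hN hM' E
    ((Nat.mul_le_mul_left _ (Nat.pow_le_pow_right hr hCi)).trans hE)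
  have h2 : (fun x => AR N (P i) (ind E) x ^ 2) =
      fun x => AR N (P i) (fun y => if y ∈ E then 1 else 0) x ^ 2 := rfl
  rw [h2]
  refine h1.trans ?_
  refine div_le_div_of_nonneg_right ?_ (Nat.cast_nonneg _)
  refine mul_le_mul_of_nonneg_right ?_ (by positivity)
  exact_mod_cast hCi

/-- The common part of the two theorems. -/
lemma common {n : ℕ} (P : Fin n → ℤ[X]) (hD : ∀ i, 1 ≤ (P i).natDegree) :
    ∃ C' : ℕ, 1 ≤ C' ∧ ∀ (M : ℕ) [NeZero M] (N R R' : ℕ), 2 ≤ R → R ^ C' ≤ R' → 1 ≤ N → M ≤ N →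
      ∀ (i : Fin n) (β : ℤ →₀ ℂ), mass β ≤ 4 → ∀ g : Fin n → ZMod M → ℂ, (∀ l, Bd (g l)) →
      (∀ F : ZMod M → ℂ, Bd F → avr (fun x => ‖AA N P (Function.update g i (cv β F)) x‖) ≤ 4 / R') →
      (∀ l, l ≠ i → ∀ F : ZMod M → ℂ, Bd F →
        avr (fun x => ‖AA N P (Function.update (Function.update g i (cv β (g i))) l F) x‖) ≤ 4 / R') →
      ∀ F : ZMod M → ℂ, n2 (AA N P (Function.update g i (cv β F))) ≤ C' * n2 F / R ∧
      ∀ l, l ≠ i → n2 (AA N P (Function.update (Function.update g i (cv β (g i))) l F)) ≤ C' * n2 F / R := by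
  obtain ⟨C₀, hC₀1, hC₀⟩ := improve_all P hD
  have hC₀r : (1 : ℝ) ≤ C₀ := by exact_mod_cast hC₀1
  obtain ⟨C', hC'1, hC'⟩ := levels C₀ hC₀1 (16 * C₀) (by positivity)
  refine ⟨C', hC'1, ?_⟩
  intro M _ N R R' hR hR' hN hM i β hβ g hg hA hB F
  have hm0 : 0 ≤ mass β := mass_nonneg β
  have hM0 : (0 : ℝ) < M := by exact_mod_cast Nat.pos_of_ne_zero (NeZero.ne M)
  constructor
  · refine hC' M (fun F => AA N P (Function.update g i (cv β F))) R R' hR hR' ?_ ?_ ?_ ?_ F
    · intro F G
      funext x
      have h : cv β (fun x => F x + G x) = fun y => cv β F y + cv β G y := funext (fun y => cv_fun_add β F G y)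
      rw [h, AA_update_add]
    · intro c F
      funext x
      have h : cv β (fun x => c * F x) = fun y => c * cv β F y := funext (fun y => cv_fun_mul β c F y)
      rw [h, AA_update_mul]
    · intro F lam S r hlam hr hF hS hcard
      have h1 : n2 (AA N P (Function.update g i (cv β F))) ≤
          avr (fun x => AR N (P i) (fun y => ‖cv β F y‖) x ^ 2) := by
        unfold n2
        refine avr_mono (fun x => ?_)
        exact pow_le_pow_left₀ (norm_nonneg _) (norm_A_le N P g hg i _ x) 2
      have h2 := avr_AR_cv_sq_le N (P i) β F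
      have h3 := avr_AR_sq_le N (P i) F lam S hF hS
      have h4 := hC₀ M N r hr hN hM i S hcard
      have h5 : mass β ^ 2 ≤ 16 := by nlinarith
      have h6 : 0 ≤ avr (fun x => AR N (P i) (ind S) x ^ 2) := avr_nonneg (fun x => sq_nonneg _)
      calc n2 (AA N P (Function.update g i (cv β F)))
          ≤ mass β ^ 2 * avr (fun x => AR N (P i) (fun y => ‖F y‖) x ^ 2) := h1.trans h2
        _ ≤ 16 * (lam ^ 2 * (C₀ * ((S.card : ℝ) / M) / r)) := by
            refine mul_le_mul h5 (h3.trans (mul_le_mul_of_nonneg_left h4 (by positivity)))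
              (avr_nonneg (fun x => sq_nonneg _)) (by norm_num)
        _ = 16 * C₀ * lam ^ 2 * ((S.card : ℝ) / M) / r := by ring
    · intro F lam hlam hF
      refine level_two (fun F => AA N P (Function.update g i (cv β F))) ?_ R' (16 * C₀) (by linarith) ?_ hA F lam
        hlam hF
      · intro c F
        funext x
        have h : cv β (fun x => c * F x) = fun y => c * cv β F y := funext (fun y => cv_fun_mul β c F y)
        rw [h, AA_update_mul]
      · intro F lam hlam hF x
        refine norm_A_le_const N P g hg i _ (4 * lam) (by positivity) (fun y => ?_) x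
        exact (norm_cv_le β F lam hF y).trans (mul_le_mul_of_nonneg_right hβ hlam)
  · intro l hl
    have hq : Bd (fun y => (1 / 4 : ℂ) * cv β (g i) y) := quarter_Bd β hβ (g i) (hg i)
    have hall : ∀ k, Bd (Function.update g i (fun y => (1 / 4 : ℂ) * cv β (g i) y) k) := by
      intro k
      by_cases hk : k = i
      · subst hk
        rw [Function.update_self]
        exact hq
      · rw [Function.update_of_ne hk]
        exact hg k
    have hbound : ∀ (F : ZMod M → ℂ) (x : ZMod M),
        ‖AA N P (Function.update (Function.update g i (cv β (g i))) l F) x‖ ≤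
          4 * AR N (P l) (fun y => ‖F y‖) x := by
      intro F x
      rw [second_eq N P g hl]
      exact mul_le_mul_of_nonneg_left (norm_A_le N P _ hall l F x) (by norm_num)
    refine hC' M (fun F => AA N P (Function.update (Function.update g i (cv β (g i))) l F)) R R' hR hR' ?_ ?_ ?_ ?_ F
    · intro F G
      funext x
      exact AA_update_add N P _ l F G x
    · intro c F
      funext x
      exact AA_update_mul N P _ l c F x
    · intro F lam S r hlam hr hF hS hcard
      have h1 : n2 (AA N P (Function.update (Function.update g i (cv β (g i))) l F)) ≤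
          16 * avr (fun x => AR N (P l) (fun y => ‖F y‖) x ^ 2) := by
        unfold n2
        rw [← avr_mul_left]
        refine avr_mono (fun x => ?_)
        calc ‖AA N P (Function.update (Function.update g i (cv β (g i))) l F) x‖ ^ 2
            ≤ (4 * AR N (P l) (fun y => ‖F y‖) x) ^ 2 :=
              pow_le_pow_left₀ (norm_nonneg _) (hbound F x) 2
          _ = 16 * AR N (P l) (fun y => ‖F y‖) x ^ 2 := by ring
      have h3 := avr_AR_sq_le N (P l) F lam S hF hS
      have h4 := hC₀ M N r hr hN hM l S hcard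
      calc n2 (AA N P (Function.update (Function.update g i (cv β (g i))) l F))
          ≤ 16 * avr (fun x => AR N (P l) (fun y => ‖F y‖) x ^ 2) := h1
        _ ≤ 16 * (lam ^ 2 * (C₀ * ((S.card : ℝ) / M) / r)) :=
            mul_le_mul_of_nonneg_left (h3.trans (mul_le_mul_of_nonneg_left h4 (by positivity))) (by norm_num)
        _ = 16 * C₀ * lam ^ 2 * ((S.card : ℝ) / M) / r := by ring
    · intro F lam hlam hF
      refine level_two (fun F => AA N P (Function.update (Function.update g i (cv β (g i))) l F)) ?_ R' (16 * C₀)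
        (by linarith) ?_ (hB l hl) F lam hlam hF
      · intro c F
        funext x
        exact AA_update_mul N P _ l c F x
      · intro F lam hlam hF x
        refine (hbound F x).trans (mul_le_mul_of_nonneg_left ?_ (by norm_num))
        unfold AR
        exact tvr_le N hlam (fun t _ => hF _)

end GL2fAux

open L2locAux GL2fAux in
/-- The fibre: `N = M`; the function in slot `i` is `F - E F`, `E` the average over the subgroup `Q ZMod M`, all `q ≤ R ^ C` divide `Q`. -/
theorem l2fib {n : ℕ} {P : Fin n → ℤ[X]} {e : Fin n → ℕ} {i₀ : Fin n} (h : GDeg P e i₀) :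
    ∃ C : ℕ, 1 ≤ C ∧ ∀ (M : ℕ) [NeZero M] (R Q : ℕ), 2 ≤ R → Q ∣ M → (∀ q, 1 ≤ q → q ≤ R ^ C → q ∣ Q) → ∀ (i : Fin n)
      (g : Fin n → ZMod M → ℂ), (∀ l, Bd (g l)) → ∀ F : ZMod M → ℂ,
      n2 (AA M P (Function.update g i (fun y => F y - Eb Q M F y))) ≤ C * n2 F / R ∧
      ∀ l, l ≠ i → n2 (AA M P (Function.update (Function.update g i (fun y => g i y - Eb Q M (g i) y)) l F)) ≤ C * n2 F / R := by
  obtain ⟨C', hC'1, hC'⟩ := common P (fun i => (h.pos i).trans (h.le i))
  obtain ⟨Cg, hCg1, hCg⟩ := gainC P e h.pos h.inv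
  refine ⟨C' * Cg, Nat.mul_pos hC'1 hCg1, ?_⟩
  intro M _ R Q hR hQ hq i g hg F
  have hR1 : 1 ≤ R := by omega
  have hR2 : 2 ≤ R ^ C' := by
    calc 2 ≤ R := hR
      _ = R ^ 1 := (pow_one R).symm
      _ ≤ R ^ C' := Nat.pow_le_pow_right hR1 hC'1
  have hM1 : 1 ≤ M := NeZero.pos M
  have hMD : M ≤ M := le_rfl
  set β : ℤ →₀ ℂ := dlt - bk Q M with hβd
  have hβ : mass β ≤ 4 := by
    have h1 := mass_sub_le dlt (bk Q M)
    have h2 := mass_bk_le Q M
    rw [mass_dlt] at h1
    linarith
  have hvan : ∀ (G : ZMod M → ℂ) (q : ℕ), 1 ≤ q → q ≤ (R ^ C') ^ Cg → ∀ x, Eb q M (cv β G) x = 0 := by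
    intro G q hq1 hq2 x
    rw [← pow_mul] at hq2
    rw [hβd, cv_fib]
    exact Eb_sub_eq_zero q Q (hq q hq1 hq2) G x
  have hA : ∀ F : ZMod M → ℂ, Bd F →
      avr (fun x => ‖AA M P (Function.update g i (cv β F)) x‖) ≤ 4 / ((R ^ C' : ℕ) : ℝ) := by
    intro F hF
    have h1 := hCg M (R ^ C') hR2 i (Function.update g i (fun y => (1 / 4 : ℂ) * cv β F y)) ?_ ?_
    · have h2 : (fun x => ‖AA M P (Function.update g i (cv β F)) x‖) =
          fun x => 4 * ‖AA M P (Function.update g i (fun y => (1 / 4 : ℂ) * cv β F y)) x‖ :=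
        funext (fun x => A_quarter M P g i (cv β F) x)
      rw [h2, avr_mul_left]
      have h3 : (4 : ℝ) / ((R ^ C' : ℕ) : ℝ) = 4 * (1 / ((R ^ C' : ℕ) : ℝ)) := by ring
      rw [h3]
      exact mul_le_mul_of_nonneg_left h1 (by norm_num)
    · intro l
      by_cases hl : l = i
      · subst hl
        rw [Function.update_self]
        exact quarter_Bd β hβ F hF
      · rw [Function.update_of_ne hl]
        exact hg l
    · intro q hq1 hq2 x
      rw [Function.update_self]
      exact Eb_quarter q _ x (hvan F q hq1 hq2 x)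
  have hB : ∀ l, l ≠ i → ∀ F : ZMod M → ℂ, Bd F →
      avr (fun x => ‖AA M P (Function.update (Function.update g i (cv β (g i))) l F) x‖) ≤
        4 / ((R ^ C' : ℕ) : ℝ) := by
    intro l hl F hF
    have h1 := hCg M (R ^ C') hR2 i
      (Function.update (Function.update g i (fun y => (1 / 4 : ℂ) * cv β (g i) y)) l F) ?_ ?_
    · have h2 : (fun x => ‖AA M P (Function.update (Function.update g i (cv β (g i))) l F) x‖) =
          fun x => 4 * ‖AA M P (Function.update (Function.update g i
            (fun y => (1 / 4 : ℂ) * cv β (g i) y)) l F) x‖ :=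
        funext (fun x => second_eq M P g hl (cv β (g i)) F x)
      rw [h2, avr_mul_left]
      have h3 : (4 : ℝ) / ((R ^ C' : ℕ) : ℝ) = 4 * (1 / ((R ^ C' : ℕ) : ℝ)) := by ring
      rw [h3]
      exact mul_le_mul_of_nonneg_left h1 (by norm_num)
    · intro k
      by_cases hk : k = l
      · subst hk
        rw [Function.update_self]
        exact hF
      · rw [Function.update_of_ne hk]
        by_cases hki : k = i
        · subst hki
          rw [Function.update_self]
          exact quarter_Bd β hβ _ (hg k)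
        · rw [Function.update_of_ne hki]
          exact hg k
    · intro q hq1 hq2 x
      rw [Function.update_of_ne (Ne.symm hl), Function.update_self]
      exact Eb_quarter q _ x (hvan (g i) q hq1 hq2 x)
  obtain ⟨h1, h2⟩ := hC' M M R (R ^ C') hR le_rfl hM1 hMD i β hβ g hg hA hB F
  have hle : (C' : ℝ) * n2 F / R ≤ ((C' * Cg : ℕ) : ℝ) * n2 F / R := by
    refine div_le_div_of_nonneg_right ?_ (Nat.cast_nonneg _)
    refine mul_le_mul_of_nonneg_right ?_ (n2_nonneg F)
    exact_mod_cast Nat.le_mul_of_pos_right C' (by omega)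
  rw [← cv_fib, ← cv_fib]
  exact ⟨h1.trans hle, fun l hl => (h2 l hl).trans hle⟩

end Pool.Agent.EQD.G
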