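import Pool.Agent.Lib.EQG.Defs
import Pool.Agent.Lib.EQD.MuA

/-!
# Module GMu: class sums: bound one, average over a subgroup
-/

set_option autoImplicit false

open Finset Polynomial

namespace Pool.Agent.EQD.G

open Pool.Agent.HLT Pool.Agent.NLT Pool.Agent.NLG Pool.Agent.EQD

section group

variable {M : ℕ} [NeZero M]

theorem mU_le_one (q L : ℕ) (hq : 1 ≤ q) (hqL : q ∣ L) (hL : 1 ≤ L) (hqM : q ∣ M) (s : ZMod M) (f : ZMod M → ℂ) (hf : Bd f)
    (z y : ZMod M) : ‖mU q L s f z y‖ ≤ 1 := by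
  obtain ⟨K, rfl⟩ := hqL
  have hq0 : (0 : ℝ) < q := by exact_mod_cast hq
  have hL0 : (0 : ℝ) < ((q * K : ℕ) : ℝ) := by exact_mod_cast hL
  have hK : 1 ≤ K := Nat.pos_of_ne_zero (by rintro rfl; omega)
  have h1 : ‖∑ h ∈ range (q * K), MuAAux.G q f (z + s) y h‖ ≤ K := by
    have h2 : ‖∑ h ∈ Ico 0 (0 + q * K), MuAAux.G q f (z + s) y h‖ ≤
        ∑ h ∈ Ico 0 (0 + q * K), if q ∣ (z + s - y).val + h then (1 : ℝ) else 0 := by
      refine norm_sum_le_of_le _ (fun h _ => ?_)
      unfold MuAAux.G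
      have e : z + s + (h : ZMod M) - y = (z + s - y) + (h : ZMod M) := by ring
      rw [e]
      by_cases hc : q ∣ (z + s - y).val + h
      · rw [if_pos ((MuAAux.dvd_val_add_nat hqM _ _).2 hc), if_pos hc]
        exact hf _
      · rw [if_neg (fun hh => hc ((MuAAux.dvd_val_add_nat hqM _ _).1 hh)), if_neg hc]
        simp
    rw [← Finset.sum_filter, Finset.sum_const, nsmul_eq_mul, mul_one] at h2
    have h3 := MuAAux.cnt q hq ((z + s - y).val) (q * K) 0
    have h4 : ((Ico 0 (0 + q * K)).filter (fun h => q ∣ (z + s - y).val + h)).card ≤ K := by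
      have h5 : q * ((Ico 0 (0 + q * K)).filter (fun h => q ∣ (z + s - y).val + h)).card < q * (K + 1) := by
        rw [Nat.mul_add, Nat.mul_one]
        exact h3
      have := Nat.lt_of_mul_lt_mul_left h5
      omega
    rw [Finset.range_eq_Ico]
    rw [zero_add] at h2 h4
    exact h2.trans (by exact_mod_cast h4)
  rw [MuAAux.mU_eq, norm_mul, norm_div, Complex.norm_natCast, Complex.norm_natCast]
  calc (q : ℝ) / ((q * K : ℕ) : ℝ) * ‖∑ h ∈ range (q * K), MuAAux.G q f (z + s) y h‖ ≤ (q : ℝ) / ((q * K : ℕ) : ℝ) * K :=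
        mul_le_mul_of_nonneg_left h1 (by positivity)
    _ = 1 := by
        have hK0 : (0 : ℝ) < K := by exact_mod_cast hK
        push_cast
        field_simp

/-- Average over the subgroup `q ZMod M` of a class sum of modulus `q'`. -/
theorem Eb_mU {q q' : ℕ} (hq : 1 ≤ q') (hqq : q ∣ q') (hqM : q' ∣ M) (L : ℕ) (s : ZMod M) (f : ZMod M → ℂ) (z y : ZMod M) :
    Eb q M (fun y => mU q' L s f z y) y = mU q L s f z y := by
  have hM0 : M ≠ 0 := NeZero.ne M
  have hMc : (M : ℂ) ≠ 0 := by exact_mod_cast hM0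
  obtain ⟨g, hg⟩ := hqq
  have hq0 : q ≠ 0 := by
    rintro rfl
    rw [zero_mul] at hg
    omega
  have hg0 : g ≠ 0 := by
    rintro rfl
    rw [mul_zero] at hg
    omega
  have : NeZero g := ⟨hg0⟩
  have hqM' : q ∣ M := (Dvd.intro _ hg.symm).trans hqM
  have hgM : g ∣ M := (Dvd.intro_left _ hg.symm).trans hqM
  have hqc : (q : ℂ) ≠ 0 := by exact_mod_cast hq0
  have hgc : (g : ℂ) ≠ 0 := by exact_mod_cast hg0
  -- the count
  have hcount : ∀ (w : ZMod M) (F : ℂ),
      ∑ i ∈ range M, (if q' ∣ (w - ((q * i : ℕ) : ZMod M)).val then F else 0) =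
        if q ∣ w.val then (M : ℂ) / g * F else 0 := by
    intro w F
    by_cases hw : q ∣ w.val
    · rw [if_pos hw]
      obtain ⟨n', hn'⟩ := hw
      have key : ∀ i : ℕ, (q' ∣ (w - ((q * i : ℕ) : ZMod M)).val) ↔ ((n' : ℕ) : ZMod g) = ((1 * i : ℕ) : ZMod g) := by
        intro i
        have h1 : w - ((q * i : ℕ) : ZMod M) = (((w.val : ℤ) - (q * i : ℕ) : ℤ) : ZMod M) := by
          push_cast
          rw [ZMod.natCast_zmod_val]
        rw [h1, MuAAux.dvd_val_iff hqM, map_intCast, ZMod.intCast_zmod_eq_zero_iff_dvd, hn', one_mul]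
        have h2 : (((q * n' : ℕ) : ℤ) - ((q * i : ℕ) : ℤ)) = (q : ℤ) * ((n' : ℤ) - i) := by
          push_cast
          ring
        rw [h2, hg]
        push_cast
        rw [mul_dvd_mul_iff_left (by exact_mod_cast hq0)]
        rw [← ZMod.intCast_zmod_eq_zero_iff_dvd]
        push_cast
        rw [sub_eq_zero]
      have h3 : ∑ i ∈ range M, (if q' ∣ (w - ((q * i : ℕ) : ZMod M)).val then F else 0) =
          ∑ i ∈ range (g * (M / g)), (if ((n' : ℕ) : ZMod g) = ((1 * i : ℕ) : ZMod g) then F else 0) := by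
        rw [Nat.mul_div_cancel' hgM]
        refine Finset.sum_congr rfl (fun i _ => ?_)
        by_cases hi : ((n' : ℕ) : ZMod g) = ((1 * i : ℕ) : ZMod g)
        · rw [if_pos ((key i).2 hi), if_pos hi]
        · rw [if_neg (fun hh => hi ((key i).1 hh)), if_neg hi]
      rw [h3, MuAAux.many_periods g 1 (M / g) (Nat.coprime_one_left g)]
      rw [Nat.cast_div hgM hgc]
    · rw [if_neg hw]
      refine Finset.sum_eq_zero (fun i _ => ?_)
      rw [if_neg]
      intro h
      apply hw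
      have h1 : q ∣ (w - ((q * i : ℕ) : ZMod M)).val := (Dvd.intro _ hg.symm).trans h
      exact (MuAAux.dvd_val_sub hqM' w (q * i) (Dvd.intro _ rfl)).1 h1
  have h1 : Eb q M (fun y => mU q' L s f z y) y =
      (∑ h ∈ range L, (q' : ℂ) / L * ∑ i ∈ range M,
        (if q' ∣ ((z + s + (h : ZMod M) - y) - ((q * i : ℕ) : ZMod M)).val then f (z + s + (h : ZMod M)) else 0)) / M := by
    unfold Eb tv mU
    congr 1
    rw [← Finset.mul_sum, ← Finset.mul_sum, Finset.sum_comm]
    congr 1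
    refine Finset.sum_congr rfl (fun h _ => Finset.sum_congr rfl (fun i _ => ?_))
    have e : z + s + (h : ZMod M) - (y + ((q * i : ℕ) : ZMod M)) = (z + s + (h : ZMod M) - y) - ((q * i : ℕ) : ZMod M) := by ring
    rw [e]
  rw [h1]
  simp only [hcount]
  unfold mU
  rw [← Finset.mul_sum, mul_div_right_comm]
  have h2 : ∑ h ∈ range L, (if q ∣ (z + s + (h : ZMod M) - y).val then (M : ℂ) / g * f (z + s + (h : ZMod M)) else 0) =
      (M : ℂ) / g * ∑ h ∈ range L, (if q ∣ (z + s + (h : ZMod M) - y).val then f (z + s + (h : ZMod M)) else 0) := by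
    rw [Finset.mul_sum]
    refine Finset.sum_congr rfl (fun h _ => ?_)
    split_ifs
    · rfl
    · rw [mul_zero]
  rw [h2, ← mul_assoc]
  congr 1
  have hq' : (q' : ℂ) = q * g := by rw [hg]; push_cast; ring
  rw [hq']
  field_simp

end group

end Pool.Agent.EQD.G
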