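import Pool.Agent.Lib.EQG.MBlkB
import Pool.Agent.Lib.EQG.GL2f
import Pool.Agent.Lib.EQD.T3s

/-!
# Module GSg: the structured gain

All slots are structured functions `V l x x` (`Sw`: period `Q`, slowly varying at the scale `N ^ e l / W`), the slot `i` is killed by the average over
`q ZMod M` and all `r ≤ R ^ C` divide `q`.  Then the mean square of the multilinear average is at most `C / R` times the mean square of any slot, up to a
tiny error.

PROOF. Blocks (`blocks`, `S` = about `N ^ (1 / C₁)` blocks); on a block the shifts `P l - P i₀` are frozen; `blkB`; `diag_n2`; `l2fib` in the fibre.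
-/

set_option autoImplicit false

open Finset Polynomial

namespace Pool.Agent.EQD.G

open Pool.Agent.HLT Pool.Agent.NLT Pool.Agent.NLG Pool.Agent.EQD

namespace GSgAux

section group

variable {M : ℕ} [NeZero M]

lemma n2_nn (f : ZMod M → ℂ) : 0 ≤ n2 f := avr_nonneg (fun x => by positivity)

lemma n2_tv_le (H : ℕ) (F : ℕ → ZMod M → ℂ) (c : ℝ) (hc : 0 ≤ c) (h : ∀ m, n2 (F m) ≤ c) :
    n2 (fun x => tv H (fun m => F m x)) ≤ c := by
  have h1 : n2 (fun x => tv H (fun m => F m x)) ≤ avr (fun x => tvr H (fun m => ‖F m x‖ ^ 2)) :=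
    avr_mono (fun x => norm_tv_sq_le _ _)
  exact h1.trans (AABAux.avr_tvr_le H (fun m x => ‖F m x‖ ^ 2) c hc h)

lemma n2_blocks (N S : ℕ) (hS : 1 ≤ S) (hN : S ≤ N) (F : ZMod M → ℕ → ℂ) (c : ℝ)
    (h : ∀ b < S, n2 (fun x => tv ((b + 1) * N / S - b * N / S) (fun m => F x (b * N / S + m))) ≤ c) :
    n2 (fun x => tv N (F x)) ≤ 4 * c := by
  have hS0 : (0 : ℝ) < S := by exact_mod_cast hS
  have h1 : ∀ x, ‖tv N (F x)‖ ^ 2 ≤
      4 / S * ∑ b ∈ range S, ‖tv ((b + 1) * N / S - b * N / S) (fun m => F x (b * N / S + m))‖ ^ 2 := by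
    intro x
    have h2 := blocks N S hS hN (F x)
    have h3 := pow_le_pow_left₀ (norm_nonneg _) h2 2
    refine h3.trans ?_
    have h4 := sq_sum_le_card_mul_sum_sq (s := range S)
      (f := fun b => ‖tv ((b + 1) * N / S - b * N / S) (fun m => F x (b * N / S + m))‖)
    rw [card_range] at h4
    rw [mul_pow, div_pow]
    calc (2 : ℝ) ^ 2 / (S : ℝ) ^ 2 *
          (∑ b ∈ range S, ‖tv ((b + 1) * N / S - b * N / S) (fun m => F x (b * N / S + m))‖) ^ 2
        ≤ (2 : ℝ) ^ 2 / (S : ℝ) ^ 2 * (S *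
          ∑ b ∈ range S, ‖tv ((b + 1) * N / S - b * N / S) (fun m => F x (b * N / S + m))‖ ^ 2) :=
          mul_le_mul_of_nonneg_left h4 (by positivity)
      _ = _ := by
          field_simp
          ring
  have h5 : n2 (fun x => tv N (F x)) ≤
      4 / S * ∑ b ∈ range S, n2 (fun x => tv ((b + 1) * N / S - b * N / S) (fun m => F x (b * N / S + m))) := by
    refine (avr_mono h1).trans (le_of_eq ?_)
    rw [avr_mul_left, avr_sum]
    rfl
  refine h5.trans ?_
  have h6 : ∑ b ∈ range S, n2 (fun x => tv ((b + 1) * N / S - b * N / S) (fun m => F x (b * N / S + m))) ≤ S * c := by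
    refine (Finset.sum_le_card_nsmul _ _ c (fun b hb => h b (mem_range.mp hb))).trans (le_of_eq ?_)
    rw [card_range, nsmul_eq_mul]
  refine (mul_le_mul_of_nonneg_left h6 (by positivity)).trans (le_of_eq ?_)
  field_simp

lemma sw_sl {Q : ℕ} {lam : ℝ} {V : ZMod M → ZMod M → ℂ} (hQ : Q ∣ M) (h : Sw Q 4 lam V) :
    Sl 4 Q (lam * (1 + Q)) V := by
  have hQ1 : 1 ≤ Q := Nat.pos_of_ne_zero (fun h0 => NeZero.ne M (Nat.eq_zero_of_zero_dvd (h0 ▸ hQ)))
  refine ⟨Unit, inferInstance, fun _ => V, fun _ => Q, by simp, fun _ => ⟨hQ1, le_rfl, hQ⟩, fun _ => h.per,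
    fun _ z y => ?_, fun _ z y => ?_, fun z y => by simp⟩
  · have := h.bd z y
    push_cast
    exact this
  · have := h.slow z y 1
    rwa [Nat.cast_one, Nat.cast_one] at this

lemma slow_int {Q : ℕ} {c lam : ℝ} {V : ZMod M → ZMod M → ℂ} (h : Sw Q c lam V) (z y : ZMod M) (u : ℤ) :
    ‖V (z + (u : ZMod M)) y - V z y‖ ≤ lam * (|(u : ℝ)| + Q) := by
  rcases Int.eq_nat_or_neg u with ⟨m, rfl | rfl⟩
  · have h1 := h.slow z y m
    have e1 : |(((m : ℤ)) : ℝ)| = (m : ℝ) := by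
      rw [Int.cast_natCast, Nat.abs_cast]
    rw [e1, Int.cast_natCast]
    exact h1
  · have h1 := h.slow (z + ((-(m : ℤ) : ℤ) : ZMod M)) y m
    have e1 : |(((-(m : ℤ) : ℤ)) : ℝ)| = (m : ℝ) := by
      rw [Int.cast_neg, Int.cast_natCast, abs_neg, Nat.abs_cast]
    have e2 : z + ((-(m : ℤ) : ℤ) : ZMod M) + (m : ZMod M) = z := by
      push_cast
      ring
    rw [e2] at h1
    rw [e1, norm_sub_rev]
    exact h1

/-- The gain in one fibre. -/
lemma fib_le {n : ℕ} {P : Fin n → ℤ[X]} {C₂ R q : ℕ}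
    (hC₂ : ∀ (i : Fin n) (g : Fin n → ZMod M → ℂ), (∀ l, Bd (g l)) → ∀ F : ZMod M → ℂ,
      n2 (AA M P (Function.update g i (fun y => F y - Eb q M F y))) ≤ C₂ * n2 F / R ∧
      ∀ l, l ≠ i → n2 (AA M P (Function.update (Function.update g i (fun y => g i y - Eb q M (g i) y)) l F)) ≤ C₂ * n2 F / R)
    (U : Fin n → ZMod M → ℂ) (hU : ∀ l x, ‖U l x‖ ≤ 4) (i : Fin n) (hi : ∀ y, Eb q M (U i) y = 0) (l : Fin n) :
    n2 (AA M P U) ≤ 16 ^ n * (C₂ / R * n2 (U l)) := by
  set g : Fin n → ZMod M → ℂ := fun k y => (1 / 4 : ℂ) * U k y with hg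
  have hgb : ∀ k, Bd (g k) := by
    intro k y
    rw [hg]
    dsimp only
    rw [norm_mul]
    have h1 : ‖(1 / 4 : ℂ)‖ = 1 / 4 := by simp
    rw [h1]
    have := hU k y
    linarith
  have hgi : ∀ y, Eb q M (g i) y = 0 := by
    intro y
    have h1 := hi y
    unfold Eb at h1 ⊢
    rw [hg]
    dsimp only
    rw [tv_mul_left, h1, mul_zero]
  have hgi' : (fun y => g i y - Eb q M (g i) y) = g i := by
    funext y
    rw [hgi, sub_zero]
  have hUi' : (fun y => U i y - Eb q M (U i) y) = U i := by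
    funext y
    rw [hi, sub_zero]
  have hR : (0 : ℝ) ≤ C₂ / R := by positivity
  have hn := n2_nn (U l)
  -- `AA U = 4 ^ (n - 1) AA (update g l (U l))`
  have hn1 : 1 ≤ n := Nat.succ_le_of_lt (Nat.lt_of_le_of_lt (Nat.zero_le _) l.isLt)
  have hAA : AA M P U = fun x => (4 : ℂ) ^ (n - 1) * AA M P (Function.update g l (U l)) x := by
    funext x
    unfold AA
    rw [← tv_mul_left]
    congr 1
    funext t
    rw [← Finset.mul_prod_erase univ _ (mem_univ l), ← Finset.mul_prod_erase univ (fun k =>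
      Function.update g l (U l) k (x + pz M (P k) t)) (mem_univ l), Function.update_self]
    have h2 : ∏ k ∈ univ.erase l, Function.update g l (U l) k (x + pz M (P k) t) =
        ∏ k ∈ univ.erase l, ((1 / 4 : ℂ) * U k (x + pz M (P k) t)) := by
      refine Finset.prod_congr rfl (fun k hk => ?_)
      rw [Function.update_of_ne (Finset.ne_of_mem_erase hk)]
    rw [h2, Finset.prod_mul_distrib, Finset.prod_const, Finset.card_erase_of_mem (mem_univ l), Finset.card_univ,
      Fintype.card_fin]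
    have h3 : (4 : ℂ) ^ (n - 1) * (1 / 4) ^ (n - 1) = 1 := by
      rw [← mul_pow]
      norm_num
    calc U l (x + pz M (P l) t) * ∏ k ∈ univ.erase l, U k (x + pz M (P k) t)
        = ((4 : ℂ) ^ (n - 1) * (1 / 4) ^ (n - 1)) *
          (U l (x + pz M (P l) t) * ∏ k ∈ univ.erase l, U k (x + pz M (P k) t)) := by rw [h3, one_mul]
      _ = _ := by ring
  have hb : n2 (AA M P (Function.update g l (U l))) ≤ C₂ / R * n2 (U l) := by
    by_cases hl : l = i
    · subst hl
      have h1 := (hC₂ l g hgb (U l)).1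
      rw [hUi'] at h1
      refine h1.trans (le_of_eq ?_)
      ring
    · have h1 := (hC₂ i g hgb (U l)).2 l hl
      rw [hgi', Function.update_eq_self] at h1
      refine h1.trans (le_of_eq ?_)
      ring
  have h4 : n2 (AA M P U) = 16 ^ (n - 1) * n2 (AA M P (Function.update g l (U l))) := by
    have h5 : n2 (fun x => (4 : ℂ) ^ (n - 1) * AA M P (Function.update g l (U l)) x) =
        ‖(4 : ℂ) ^ (n - 1)‖ ^ 2 * n2 (AA M P (Function.update g l (U l))) := BlkBAux.n2_cmul _ _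
    rw [hAA, h5]
    congr 1
    rw [norm_pow, ← pow_mul, mul_comm, pow_mul]
    norm_num
  rw [h4]
  calc (16 : ℝ) ^ (n - 1) * n2 (AA M P (Function.update g l (U l)))
      ≤ 16 ^ n * (C₂ / R * n2 (U l)) := by
        refine mul_le_mul ?_ hb (n2_nn _) (by positivity)
        exact pow_le_pow_right₀ (by norm_num) (by omega)

end group

/-- Number of blocks. -/
lemma exists_S (C N : ℕ) (hC : 1 ≤ C) (hN : 2 ^ C ≤ N) : ∃ S : ℕ, 1 ≤ S ∧ (2 * S) ^ C ≤ N ∧ N < (4 * S) ^ C := by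
  classical
  have hP : (fun s => (2 * s) ^ C ≤ N) (Nat.findGreatest (fun s => (2 * s) ^ C ≤ N) N) :=
    Nat.findGreatest_spec (P := fun s => (2 * s) ^ C ≤ N) (m := 1)
      ((Nat.one_le_two_pow).trans hN) (by simpa using hN)
  set S := Nat.findGreatest (fun s => (2 * s) ^ C ≤ N) N with hS
  have hN1 : 1 ≤ N := Nat.one_le_two_pow.trans hN
  have hS1 : 1 ≤ S := Nat.le_findGreatest (P := fun s => (2 * s) ^ C ≤ N) hN1 (by simpa using hN)
  refine ⟨S, hS1, hP, ?_⟩
  have hSN : S < N := by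
    have h1 : 2 * S ≤ (2 * S) ^ C := Nat.le_self_pow (by omega) _
    have h2 : (2 * S) ^ C ≤ N := hP
    omega
  have h3 : ¬ (2 * (S + 1)) ^ C ≤ N := by
    intro h
    have := Nat.le_findGreatest (P := fun s => (2 * s) ^ C ≤ N) (show S + 1 ≤ N by omega) h
    omega
  have h4 : (2 * (S + 1)) ^ C ≤ (4 * S) ^ C := Nat.pow_le_pow_left (by omega) C
  omega

/-- The final comparison. -/
lemma final (C₁ a m A X N S : ℕ) (η : ℝ) (hC₁ : 1 ≤ C₁) (hm : 1 ≤ m) (hX : 1 ≤ X) (hS : 1 ≤ S)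
    (hXN : X ^ (4 * C₁ * (a + 1) * m) ≤ N) (hAN : (16 * A) ^ (4 * C₁ * (a + 1) * m) ≤ N) (hN : N < (4 * S) ^ C₁)
    (hη : 0 ≤ η) (hηN : 1 ≤ η ^ (4 * C₁ * (a + 1) * m) * N) : 4 * (A * (X : ℝ) ^ a / S) ≤ η := by
  set C : ℕ := 4 * C₁ * (a + 1) * m with hC
  have hC1 : 1 ≤ C := by
    rw [hC]
    exact Nat.mul_pos (Nat.mul_pos (by omega) (by omega)) hm
  have hS0 : (0 : ℝ) < S := by exact_mod_cast hS
  have hN1 : 1 ≤ N := (Nat.one_le_pow _ _ hX).trans hXN
  by_contra hcon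
  push Not at hcon
  have h1 : (N : ℝ) * η ^ C * (4 * S) ^ C < N * (16 * A * (X : ℝ) ^ a) ^ C := by
    have h2 : η * (4 * S) < 16 * A * (X : ℝ) ^ a := by
      have h3 : 4 * (A * (X : ℝ) ^ a / S) * (4 * S) = 16 * A * (X : ℝ) ^ a := by
        field_simp
        ring
      rw [← h3]
      exact mul_lt_mul_of_pos_right hcon (by positivity)
    have h4 : (η * (4 * S)) ^ C < (16 * A * (X : ℝ) ^ a) ^ C := pow_lt_pow_left₀ h2 (by positivity) (by omega)
    rw [mul_pow] at h4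
    rw [mul_assoc]
    exact mul_lt_mul_of_pos_left h4 (by exact_mod_cast hN1)
  have h2 : ((4 * S : ℕ) : ℝ) ^ C < N * (16 * A * (X : ℝ) ^ a) ^ C := by
    refine lt_of_le_of_lt ?_ h1
    have h3 : (0 : ℝ) ≤ (4 * S) ^ C := by positivity
    push_cast
    nlinarith
  have h3 : (4 * S) ^ C < N * (16 * A * X ^ a) ^ C := by exact_mod_cast h2
  have h4 : N * (16 * A * X ^ a) ^ C ≤ N ^ (a + 2) := by
    calc N * (16 * A * X ^ a) ^ C = N * (((16 * A) ^ C) * (X ^ C) ^ a) := by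
          rw [mul_pow, ← pow_mul, ← pow_mul, mul_comm a C]
      _ ≤ N * (N * N ^ a) := Nat.mul_le_mul_left _ (Nat.mul_le_mul hAN (Nat.pow_le_pow_left hXN a))
      _ = N ^ (a + 2) := by ring
  have h5 : N ^ (a + 2) ≤ (4 * S) ^ C := by
    calc N ^ (a + 2) ≤ N ^ (4 * (a + 1) * m) := Nat.pow_le_pow_right hN1 (by nlinarith)
      _ ≤ ((4 * S) ^ C₁) ^ (4 * (a + 1) * m) := Nat.pow_le_pow_left hN.le _
      _ = (4 * S) ^ C := by
          rw [← pow_mul]
          congr 1
          rw [hC]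
          ring
  omega

end GSgAux

open GSgAux in
theorem sgain {n : ℕ} {P : Fin n → ℤ[X]} {e : Fin n → ℕ} {i₀ : Fin n} (h : GDeg P e i₀) : ∃ C N₀ : ℕ, 1 ≤ C ∧
    ∀ (M : ℕ) [NeZero M] (N R Q q W : ℕ) (lam : Fin n → ℝ) (V : Fin n → ZMod M → ZMod M → ℂ), N₀ ≤ N → 2 ≤ R → Q ∣ M → 1 ≤ W →
      (Q * W) ^ C ≤ N → (∀ l, 0 ≤ lam l ∧ lam l * (N : ℝ) ^ e l ≤ W) → (∀ l, Sw Q 4 (lam l) (V l)) → q ∣ Q →
      (∀ r, 1 ≤ r → r ≤ R ^ C → r ∣ q) → ∀ i, (∀ z y, Eb q M (V i z) y = 0) →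
      ∀ (l : Fin n) (η : ℝ), 0 ≤ η → 1 ≤ η ^ C * N →
      n2 (AA N P (fun k x => V k x x)) ≤ C / R * n2 (fun x => V l x x) + η := by
  classical
  obtain ⟨C₁, N₁, hC₁, hblk⟩ := blkB h
  obtain ⟨C₂, hC₂1, hC₂⟩ := l2fib h
  set Cp : ℕ := 1 + ∑ l : Fin n, e l * ∑ j ∈ range (e l + 1), ((P l - P i₀).coeff j).natAbs with hCp
  set A : ℕ := 2 * n ^ 2 * 16 ^ n * (Cp + 1) ^ 2 + 2 + 1024 * 16 ^ n * C₂ + 16 * n * 256 ^ n with hA
  set a : ℕ := 2 * n + 3 with ha
  set m : ℕ := 16 * 16 ^ n * C₂ with hm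
  have hm1 : 1 ≤ m := Nat.mul_pos (Nat.mul_pos (by norm_num) (by positivity)) hC₂1
  set C : ℕ := 4 * C₁ * (a + 1) * m with hC
  have h4C1 : 1 ≤ 4 * C₁ * (a + 1) := Nat.mul_pos (by omega) (by omega)
  have hCm : m ≤ C := Nat.le_mul_of_pos_left _ h4C1
  have hC4 : 4 * C₁ * (a + 1) ≤ C := Nat.le_mul_of_pos_right _ hm1
  have hCC₂ : C₂ ≤ C := by
    refine le_trans ?_ hCm
    rw [hm]
    exact Nat.le_mul_of_pos_left _ (by positivity)
  have hC1 : 1 ≤ C := h4C1.trans hC4
  refine ⟨C, max N₁ ((16 * A) ^ C), hC1, ?_⟩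
  intro M _ N R Q q W lam V hN0 hR hQM hW hQW hlam hV hqQ hr i hi l η hη hηN
  have hN₁ : N₁ ≤ N := (le_max_left _ _).trans hN0
  have hAN : (16 * A) ^ C ≤ N := (le_max_right _ _).trans hN0
  have hQ1 : 1 ≤ Q := Nat.pos_of_ne_zero (fun h0 => NeZero.ne M (Nat.eq_zero_of_zero_dvd (h0 ▸ hQM)))
  set X : ℕ := Q * W with hX
  have hX1 : 1 ≤ X := Nat.mul_pos hQ1 hW
  have hA2 : 2 ≤ A := by rw [hA]; omega
  have hN1 : 1 ≤ N := (Nat.one_le_pow _ _ hX1).trans hQW
  have hNr : (1 : ℝ) ≤ N := by exact_mod_cast hN1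
  have hn1 : 1 ≤ n := Nat.succ_le_of_lt (Nat.lt_of_le_of_lt (Nat.zero_le _) i₀.isLt)
  have hqM : q ∣ M := hqQ.trans hQM
  -- the number of blocks
  obtain ⟨S, hS1, hS2, hS3⟩ := exists_S C₁ N hC₁ (by
    refine le_trans ?_ hAN
    calc 2 ^ C₁ ≤ (16 * A) ^ C₁ := Nat.pow_le_pow_left (by omega) _
      _ ≤ (16 * A) ^ C := Nat.pow_le_pow_right (by omega) (by nlinarith))
  have hSN : S ≤ N := by
    have h1 : 2 * S ≤ (2 * S) ^ C₁ := Nat.le_self_pow (by omega) _
    omega
  have hS0 : (0 : ℝ) < S := by exact_mod_cast hS1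
  have hSr : (1 : ℝ) ≤ S := by exact_mod_cast hS1
  have hSNr : (S : ℝ) ≤ N := by exact_mod_cast hSN
  have hXr : (1 : ℝ) ≤ X := by exact_mod_cast hX1
  have hQr : (1 : ℝ) ≤ Q := by exact_mod_cast hQ1
  have hWr : (1 : ℝ) ≤ W := by exact_mod_cast hW
  have hXe : (X : ℝ) = Q * W := by rw [hX]; push_cast; ring
  -- the Lipschitz constants
  have hlamN : ∀ k, lam k ≤ W / N := by
    intro k
    rw [le_div_iff₀ (by linarith)]
    refine le_trans ?_ (hlam k).2
    refine mul_le_mul_of_nonneg_left ?_ (hlam k).1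
    calc (N : ℝ) = (N : ℝ) ^ 1 := (pow_one _).symm
      _ ≤ (N : ℝ) ^ e k := pow_le_pow_right₀ hNr (h.pos k)
  set κ : ℝ := 2 * X / N with hκ
  have hκ0 : 0 ≤ κ := by positivity
  have hκl : ∀ k, lam k * (1 + Q) ≤ κ := by
    intro k
    calc lam k * (1 + Q) ≤ W / N * (2 * Q) :=
          mul_le_mul (hlamN k) (by linarith) (by positivity) (by positivity)
      _ = κ := by rw [hκ, hXe]; ring
  have hSl : ∀ k, Sl 4 Q κ (V k) := fun k => sl_mono (sw_sl hQM (hV k)) le_rfl le_rfl (hκl k)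
  -- one block
  have key : ∀ b < S, n2 (fun x => tv ((b + 1) * N / S - b * N / S) (fun t =>
      ∏ k, V k (x + pz M (P k) (b * N / S + t)) (x + pz M (P k) (b * N / S + t)))) ≤
      4 * 16 ^ n * (C₂ / R) * n2 (fun x => V l x x) + A * (X : ℝ) ^ a / S := by
    intro b hb
    set m₀ : ℕ := b * N / S with hm₀
    set H : ℕ := (b + 1) * N / S - m₀ with hH
    set V' : Fin n → ZMod M → ZMod M → ℂ := fun k z y => V k (z + pz M (P k - P i₀) m₀) y with hV'
    set Z : ZMod M → ZMod M → ℂ := fun z y => AA M P (fun k => V' k z) y with hZ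
    -- the three parts
    set u1 : ZMod M → ℂ := fun x => tv H (fun t =>
      ∏ k, V k (x + pz M (P k) (m₀ + t)) (x + pz M (P k) (m₀ + t)) -
      ∏ k, V' k (x + pz M (P i₀) (m₀ + t)) (x + pz M (P k) (m₀ + t))) with hu1
    set u2 : ZMod M → ℂ := fun x => tv H (fun t =>
      ∏ k, V' k (x + pz M (P i₀) (m₀ + t)) (x + pz M (P k) (m₀ + t)) -
        AA M P (fun k => V' k (x + pz M (P i₀) (m₀ + t))) x) with hu2
    set u3 : ZMod M → ℂ := fun x => tv H (fun t => Z (x + pz M (P i₀) (m₀ + t)) x) with hu3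
    have hsplit : (fun x => tv H (fun t => ∏ k, V k (x + pz M (P k) (m₀ + t)) (x + pz M (P k) (m₀ + t)))) =
        fun x => u1 x + (u2 x + u3 x) := by
      funext x
      rw [hu1, hu2, hu3]
      dsimp only
      rw [tv_sub, tv_sub]
      ring
    have hn2 : n2 (fun x => u1 x + (u2 x + u3 x)) ≤ 2 * (n2 u1 + 2 * (n2 u2 + n2 u3)) := by
      have h1 := T3bAux.n2_add_le u1 (fun x => u2 x + u3 x)
      have h2 := T3bAux.n2_add_le u2 u3
      linarith
    -- first part
    have hn4 : 0 ≤ (n : ℝ) * 4 ^ n := by positivity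
    set ε : ℝ := (Cp + 1) * X / S with hε
    have hε0 : 0 ≤ ε := by positivity
    have hb1 : ∀ x, ‖u1 x‖ ≤ n * 4 ^ n * ε := by
      intro x
      rw [hu1]
      dsimp only
      refine (norm_tv_le _ _).trans (tvr_le _ (by positivity) (fun t ht => ?_))
      have hkey := BlkAAux.prod_diff (univ : Finset (Fin n))
        (fun k => V k (x + pz M (P k) (m₀ + t)) (x + pz M (P k) (m₀ + t)))
        (fun k => V' k (x + pz M (P i₀) (m₀ + t)) (x + pz M (P k) (m₀ + t))) 4 ε (by norm_num) hε0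
        (fun k _ => (hV k).bd _ _) (fun k _ => (hV k).bd _ _) (fun k _ => ?_)
      · rwa [Finset.card_univ, Fintype.card_fin] at hkey
      · rw [hV']
        dsimp only
        set δ : ℤ := (P k - P i₀).eval (((m₀ + t : ℕ)) : ℤ) - (P k - P i₀).eval ((m₀ : ℕ) : ℤ) with hδ
        have e1 : x + pz M (P k) (m₀ + t) = (x + pz M (P i₀) (m₀ + t) + pz M (P k - P i₀) m₀) + (δ : ZMod M) := by
          rw [hδ]
          unfold pz
          rw [Polynomial.eval_sub, Polynomial.eval_sub]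
          push_cast
          ring
        have h2 := slow_int (hV k) (x + pz M (P i₀) (m₀ + t) + pz M (P k - P i₀) m₀) (x + pz M (P k) (m₀ + t)) δ
        rw [← e1] at h2
        refine h2.trans ?_
        have h3 := BlkAAux.eval_diff (P k - P i₀) (e k) N m₀ t (h.pos k) (h.base k)
          (BlkAAux.block_end N S b hS1 hb t ht) hN1
        rw [← hδ] at h3
        have h4 : (e k : ℤ) * (∑ j ∈ range (e k + 1), |(P k - P i₀).coeff j|) ≤ Cp := by
          have h5 : e k * ∑ j ∈ range (e k + 1), ((P k - P i₀).coeff j).natAbs ≤ Cp := by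
            have h6 := Finset.single_le_sum (f := fun l : Fin n => e l * ∑ j ∈ range (e l + 1), ((P l - P i₀).coeff j).natAbs)
              (fun l _ => Nat.zero_le _) (mem_univ k)
            exact h6.trans (Nat.le_add_left _ _)
          have h6 : (e k : ℤ) * (∑ j ∈ range (e k + 1), |(P k - P i₀).coeff j|) =
              ((e k * ∑ j ∈ range (e k + 1), ((P k - P i₀).coeff j).natAbs : ℕ) : ℤ) := by
            push_cast
            rfl
          rw [h6]
          exact_mod_cast h5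
        have h5 : |δ| ≤ (Cp : ℤ) * (N : ℤ) ^ (e k - 1) * t :=
          h3.trans (mul_le_mul_of_nonneg_right (mul_le_mul_of_nonneg_right h4 (by positivity)) (by positivity))
        have h6 : |(δ : ℝ)| ≤ (Cp : ℝ) * (N : ℝ) ^ (e k - 1) * t := by
          have : ((|δ| : ℤ) : ℝ) ≤ (((Cp : ℤ) * (N : ℤ) ^ (e k - 1) * t : ℤ) : ℝ) := by exact_mod_cast h5
          rw [Int.cast_abs] at this
          refine this.trans (le_of_eq ?_)
          push_cast
          ring
        have h7 : (t : ℝ) ≤ N / S := by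
          have h8 : t ≤ N / S := BlkAAux.block_len N S b hS1 t ht
          calc (t : ℝ) ≤ ((N / S : ℕ) : ℝ) := by exact_mod_cast h8
            _ ≤ N / S := Nat.cast_div_le
        have h8 : |(δ : ℝ)| ≤ Cp * ((N : ℝ) ^ e k / S) := by
          refine h6.trans ?_
          calc (Cp : ℝ) * (N : ℝ) ^ (e k - 1) * t ≤ (Cp : ℝ) * (N : ℝ) ^ (e k - 1) * (N / S) := by gcongr
            _ = Cp * ((N : ℝ) ^ (e k - 1) * N / S) := by ring
            _ = Cp * ((N : ℝ) ^ e k / S) := by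
                rw [← pow_succ, Nat.sub_add_cancel (h.pos k)]
        have h9 : lam k * (|(δ : ℝ)| + Q) ≤ Cp * (W / S) + X / S := by
          have h10 : lam k * |(δ : ℝ)| ≤ Cp * (W / S) := by
            calc lam k * |(δ : ℝ)| ≤ lam k * (Cp * ((N : ℝ) ^ e k / S)) := mul_le_mul_of_nonneg_left h8 (hlam k).1
              _ = Cp * ((lam k * (N : ℝ) ^ e k) / S) := by ring
              _ ≤ Cp * (W / S) := by
                  refine mul_le_mul_of_nonneg_left ?_ (Nat.cast_nonneg _)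
                  exact div_le_div_of_nonneg_right (hlam k).2 hS0.le
          have h11 : lam k * Q ≤ X / S := by
            calc lam k * Q ≤ W / N * Q := mul_le_mul_of_nonneg_right (hlamN k) (by positivity)
              _ = X / N := by rw [hXe]; ring
              _ ≤ X / S := div_le_div_of_nonneg_left (by positivity) hS0 hSNr
          rw [mul_add]
          exact add_le_add h10 h11
        refine h9.trans ?_
        have h10 : (Cp : ℝ) * (W / S) ≤ Cp * (X / S) := by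
          refine mul_le_mul_of_nonneg_left (div_le_div_of_nonneg_right ?_ hS0.le) (Nat.cast_nonneg _)
          rw [hXe]
          nlinarith
        have h11 : (Cp : ℝ) * (X / S) + X / S = ε := by rw [hε]; ring
        linarith
    have hu1' : n2 u1 ≤ (n * 4 ^ n * ε) ^ 2 := by
      unfold n2
      refine avr_le (fun x => ?_)
      exact pow_le_pow_left₀ (norm_nonneg _) (hb1 x) 2
    -- second part
    have hu2' : n2 u2 ≤ 1 / (2 * S) := by
      have h1 := hblk M N 4 Q H m₀ κ hN₁ (by norm_num) hQ1 ?_ ?_ ?_ hκ0 ?_ V' (fun k => sl_shift (hSl k) _)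
      · have hu0 : 0 ≤ n2 u2 := n2_nn _
        have h2 : (n2 u2 * (2 * S)) ^ C₁ ≤ 1 := by
          rw [mul_pow]
          refine le_trans (mul_le_mul_of_nonneg_left ?_ (pow_nonneg hu0 _)) h1
          exact_mod_cast hS2
        have h3 : n2 u2 * (2 * S) ≤ 1 := by
          by_contra hcon
          push Not at hcon
          have := one_lt_pow₀ hcon (by omega : C₁ ≠ 0)
          linarith
        rw [le_div_iff₀ (by positivity)]
        exact h3
      · -- (4 Q) ^ C₁ ≤ N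
        have h2 : ((4 * Q) ^ C₁) ^ 2 ≤ N ^ 2 := by
          calc ((4 * Q) ^ C₁) ^ 2 = 16 ^ C₁ * Q ^ (2 * C₁) := by
                rw [← pow_mul, mul_comm C₁ 2, mul_pow, pow_mul 4 2 C₁]
                norm_num
            _ ≤ N * N := by
                refine Nat.mul_le_mul ?_ ?_
                · refine le_trans ?_ hAN
                  calc 16 ^ C₁ ≤ (16 * A) ^ C₁ := Nat.pow_le_pow_left (by omega) _
                    _ ≤ (16 * A) ^ C := Nat.pow_le_pow_right (by omega) (by nlinarith)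
                · refine le_trans ?_ hQW
                  calc Q ^ (2 * C₁) ≤ X ^ (2 * C₁) := Nat.pow_le_pow_left (Nat.le_mul_of_pos_right _ hW) _
                    _ ≤ X ^ C := Nat.pow_le_pow_right hX1 (by nlinarith)
            _ = N ^ 2 := by ring
        exact (Nat.pow_le_pow_iff_left (by norm_num : (2 : ℕ) ≠ 0)).mp h2
      · -- m₀ + H ≤ N
        have h2 : (b + 1) * N / S ≤ N := by
          refine Nat.div_le_of_le_mul ?_
          exact Nat.mul_le_mul_right N (by omega)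
        have h3 : m₀ ≤ (b + 1) * N / S := Nat.div_le_div_right (Nat.mul_le_mul_right _ (Nat.le_succ b))
        omega
      · exact T3bAux.pow_lb N S H C₁ hC₁ hN1 (T3bAux.block_lb N S b hS1 hSN) hS2
      · -- (n κ) ^ 4 N ^ 3 ≤ 1
        have e2 : (n * κ) ^ 4 * (N : ℝ) ^ 3 = (2 * n * X) ^ 4 / N := by
          rw [hκ]
          field_simp
        rw [e2, div_le_one (by linarith)]
        have h2 : ((2 * n * X) ^ 4) ^ 2 ≤ N ^ 2 := by
          calc ((2 * n * X) ^ 4) ^ 2 = (2 * n) ^ 8 * X ^ 8 := by ring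
            _ ≤ N * N := by
                have h8 : 8 ≤ C := by
                  refine le_trans ?_ hC4
                  rw [ha]
                  nlinarith
                refine Nat.mul_le_mul ?_ ?_
                · refine le_trans ?_ hAN
                  have hnA : n ≤ A := by
                    have h3 : n ≤ 2 * n ^ 2 * 16 ^ n * (Cp + 1) ^ 2 := by
                      calc n ≤ n ^ 2 := Nat.le_self_pow (by norm_num) n
                        _ ≤ 2 * n ^ 2 := by omega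
                        _ ≤ 2 * n ^ 2 * 16 ^ n := Nat.le_mul_of_pos_right _ (by positivity)
                        _ ≤ 2 * n ^ 2 * 16 ^ n * (Cp + 1) ^ 2 := Nat.le_mul_of_pos_right _ (by positivity)
                    rw [hA]
                    omega
                  calc (2 * n) ^ 8 ≤ (16 * A) ^ 8 := Nat.pow_le_pow_left (by omega) _
                    _ ≤ (16 * A) ^ C := Nat.pow_le_pow_right (by omega) h8
                · exact (Nat.pow_le_pow_right hX1 h8).trans hQW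
            _ = N ^ 2 := by ring
        have h3 := (Nat.pow_le_pow_iff_left (by norm_num : (2 : ℕ) ≠ 0)).mp h2
        exact_mod_cast h3
    -- third part
    have hZl : Sl (4 ^ n) (Q ^ n) (n * ((4 : ℕ) : ℝ) ^ n * κ) Z :=
      sl_fib hκ0 (by norm_num) hQ1 P V' (fun k => sl_shift (hSl k) _)
    have hfz : ∀ z, n2 (Z z) ≤ 16 ^ n * (C₂ / R * n2 (V' l z)) := by
      intro z
      refine fib_le (fun i g hg F => hC₂ M R q hR hqM (fun r h1 h2 =>
        hr r h1 (h2.trans (Nat.pow_le_pow_right (by omega) hCC₂))) i g hg F) (fun k => V' k z)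
        (fun k x => (hV k).bd _ _) i (fun y => hi _ y) l
    have hCR : (0 : ℝ) ≤ C₂ / R := by positivity
    have hCR1 : (C₂ : ℝ) / R ≤ C₂ := by
      have : (2 : ℝ) ≤ R := by exact_mod_cast hR
      exact div_le_self (Nat.cast_nonneg _) (by linarith)
    have hdV : avr (fun z => n2 (V l z)) ≤ n2 (fun x => V l x x) + 2 * ((4 : ℕ) : ℝ) ^ 3 * (Q : ℝ) ^ 2 * κ := by
      have h1 := diag_n2 hκ0 (hSl l)
      rw [abs_le] at h1
      linarith
    have hav : avr (fun z => n2 (Z z)) ≤ 16 ^ n * (C₂ / R * (n2 (fun x => V l x x) + 2 * ((4 : ℕ) : ℝ) ^ 3 * (Q : ℝ) ^ 2 * κ)) := by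
      refine (avr_mono hfz).trans ?_
      rw [avr_mul_left, avr_mul_left]
      refine mul_le_mul_of_nonneg_left (mul_le_mul_of_nonneg_left ?_ hCR) (by positivity)
      have h1 : avr (fun z => n2 (V' l z)) = avr (fun z => n2 (V l z)) :=
        avr_shift (fun z => n2 (V l z)) (pz M (P l - P i₀) m₀)
      rw [h1]
      exact hdV
    set E : ℝ := 2 * ((4 ^ n : ℕ) : ℝ) ^ 3 * ((Q ^ n : ℕ) : ℝ) ^ 2 * (n * ((4 : ℕ) : ℝ) ^ n * κ) with hE
    have hE0 : 0 ≤ E := by positivity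
    have hu3' : n2 u3 ≤ 16 ^ n * (C₂ / R * (n2 (fun x => V l x x) + 2 * ((4 : ℕ) : ℝ) ^ 3 * (Q : ℝ) ^ 2 * κ)) + E := by
      have h0 : 0 ≤ avr (fun z => n2 (Z z)) := avr_nonneg (fun z => n2_nn _)
      refine n2_tv_le H (fun t x => Z (x + pz M (P i₀) (m₀ + t)) x) _ (by linarith) (fun t => ?_)
      have h1 := (abs_le.mp (diag_n2 (by positivity) (sl_shift hZl (pz M (P i₀) (m₀ + t))))).2
      have h2 : avr (fun z => n2 (fun y => Z (z + pz M (P i₀) (m₀ + t)) y)) = avr (fun z => n2 (Z z)) :=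
        avr_shift (fun z => n2 (Z z)) (pz M (P i₀) (m₀ + t))
      have h3 : n2 (fun x => Z (x + pz M (P i₀) (m₀ + t)) x) -
          avr (fun z => n2 (fun y => Z (z + pz M (P i₀) (m₀ + t)) y)) ≤ E := h1
      rw [h2] at h3
      linarith
    -- numbers
    rw [hsplit]
    refine hn2.trans ?_
    have hd0 : 0 ≤ n2 (fun x => V l x x) := n2_nn _
    have hX2 : ∀ c : ℕ, c ≤ a → (X : ℝ) ^ c ≤ (X : ℝ) ^ a := fun c hc => pow_le_pow_right₀ hXr hc
    have g1 : 2 * (n * 4 ^ n * ε) ^ 2 ≤ (2 * (n : ℝ) ^ 2 * 16 ^ n * (Cp + 1) ^ 2) * (X : ℝ) ^ a / S := by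
      have e2 : 2 * (n * 4 ^ n * ε) ^ 2 = (2 * (n : ℝ) ^ 2 * 16 ^ n * (Cp + 1) ^ 2) * ((X : ℝ) ^ 2 / (S : ℝ) ^ 2) := by
        have e3 : ((4 : ℝ) ^ n) ^ 2 = 16 ^ n := by
          rw [← pow_mul, mul_comm, pow_mul]; norm_num
        rw [hε, mul_pow, mul_pow, e3, div_pow, mul_pow]
        ring
      rw [e2, mul_div_assoc]
      refine mul_le_mul_of_nonneg_left ?_ (by positivity)
      refine div_le_div₀ (by positivity) (hX2 2 (by omega)) hS0 ?_
      nlinarith
    have g2 : 4 * (1 / (2 * (S : ℝ))) ≤ 2 * (X : ℝ) ^ a / S := by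
      have e2 : 4 * (1 / (2 * (S : ℝ))) = 2 / S := by
        field_simp
        norm_num
      rw [e2]
      refine div_le_div_of_nonneg_right ?_ hS0.le
      have := one_le_pow₀ (n := a) hXr
      linarith
    have hκS : κ ≤ 2 * X / S := by
      rw [hκ]
      exact div_le_div_of_nonneg_left (by positivity) hS0 hSNr
    have hQX : (Q : ℝ) ≤ X := by
      rw [hXe]
      nlinarith
    have g3 : 4 * (16 ^ n * (C₂ / R * (2 * ((4 : ℕ) : ℝ) ^ 3 * (Q : ℝ) ^ 2 * κ))) ≤
        (1024 * 16 ^ n * C₂) * (X : ℝ) ^ a / S := by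
      calc 4 * (16 ^ n * (C₂ / R * (2 * ((4 : ℕ) : ℝ) ^ 3 * (Q : ℝ) ^ 2 * κ)))
          ≤ 4 * (16 ^ n * (C₂ * (2 * ((4 : ℕ) : ℝ) ^ 3 * (X : ℝ) ^ 2 * (2 * X / S)))) := by
            gcongr
        _ = (1024 * 16 ^ n * C₂) * ((X : ℝ) ^ 3 / S) := by
            push_cast
            ring
        _ ≤ (1024 * 16 ^ n * C₂) * ((X : ℝ) ^ a / S) := by
            refine mul_le_mul_of_nonneg_left ?_ (by positivity)
            exact div_le_div_of_nonneg_right (hX2 3 (by omega)) hS0.le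
        _ = _ := by ring
    have g4 : 4 * E ≤ (16 * (n : ℝ) * 256 ^ n) * (X : ℝ) ^ a / S := by
      calc 4 * E ≤ 4 * (2 * ((4 ^ n : ℕ) : ℝ) ^ 3 * ((X : ℝ) ^ n) ^ 2 * (n * ((4 : ℕ) : ℝ) ^ n * (2 * X / S))) := by
            rw [hE]
            push_cast
            gcongr
        _ = (16 * (n : ℝ) * 256 ^ n) * ((X : ℝ) ^ (2 * n + 1) / S) := by
            have e3 : ((4 : ℝ) ^ n) ^ 3 * 4 ^ n = 256 ^ n := by
              rw [← pow_succ, ← pow_mul, mul_comm, pow_mul]; norm_num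
            rw [← e3]
            push_cast
            ring
        _ ≤ (16 * (n : ℝ) * 256 ^ n) * ((X : ℝ) ^ a / S) := by
            refine mul_le_mul_of_nonneg_left ?_ (by positivity)
            exact div_le_div_of_nonneg_right (hX2 _ (by omega)) hS0.le
        _ = _ := by ring
    have g5 : (A : ℝ) * (X : ℝ) ^ a / S = (2 * (n : ℝ) ^ 2 * 16 ^ n * (Cp + 1) ^ 2) * (X : ℝ) ^ a / S +
        2 * (X : ℝ) ^ a / S + (1024 * 16 ^ n * C₂) * (X : ℝ) ^ a / S + (16 * (n : ℝ) * 256 ^ n) * (X : ℝ) ^ a / S := by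
      rw [hA]
      push_cast
      ring
    rw [g5]
    have g6 : 4 * (16 ^ n * (C₂ / R * (n2 (fun x => V l x x) + 2 * ((4 : ℕ) : ℝ) ^ 3 * (Q : ℝ) ^ 2 * κ))) =
        4 * 16 ^ n * (C₂ / R) * n2 (fun x => V l x x) +
        4 * (16 ^ n * (C₂ / R * (2 * ((4 : ℕ) : ℝ) ^ 3 * (Q : ℝ) ^ 2 * κ))) := by ring
    linarith
  -- conclusion
  have h1 := n2_blocks N S hS1 hSN (fun x t => ∏ k, V k (x + pz M (P k) t) (x + pz M (P k) t)) _ key
  have h2 : n2 (AA N P (fun k x => V k x x)) =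
      n2 (fun x => tv N (fun t => ∏ k, V k (x + pz M (P k) t) (x + pz M (P k) t))) := rfl
  rw [h2]
  refine h1.trans ?_
  have h3 := final C₁ a m A X N S η hC₁ hm1 hX1 hS1 hQW hAN hS3 hη hηN
  have h4 : 4 * (4 * 16 ^ n * (C₂ / R) * n2 (fun x => V l x x)) ≤ C / R * n2 (fun x => V l x x) := by
    have h5 : 4 * (4 * 16 ^ n * ((C₂ : ℝ) / R) * n2 (fun x => V l x x)) = (m : ℝ) / R * n2 (fun x => V l x x) := by
      rw [hm]
      push_cast
      ring
    rw [h5]
    refine mul_le_mul_of_nonneg_right (div_le_div_of_nonneg_right ?_ (Nat.cast_nonneg _)) (n2_nn _)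
    exact_mod_cast hCm
  linarith

end Pool.Agent.EQD.G
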