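import Pool.Agent.Lib.EQG.Defs
import Pool.Agent.Lib.EQD.WeyB
import Pool.Agent.Lib.EQD.WeylS

/-!
# Module GWey: the exponential sum estimates for a base polynomial of degree at least one

`weyl_block`, `weyl_dec` as in `EQD/WeyB` with `1 ≤ D` instead of `2 ≤ D`; `weyl_slow` (file `EQD/WeylS`) with `1 ≤ D` and the additional
hypothesis `Q R ^ C ≤ V` (needed for `D = 1`).
-/

set_option autoImplicit false

open Finset Polynomial

namespace Pool.Agent.EQD.G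

open Pool.Agent.HLT Pool.Agent.NLT Pool.Agent.NLG Pool.Agent.EQD

namespace GWeyAux

open Pool.Agent.EQD.Lo.WeylSAux

lemma lin_sum (H : ℕ) (γ δ : ℝ) : ‖tv H (fun m => ex ((m : ℝ) * γ + δ))‖ * (2 * H * nrm γ) ≤ 1 := by
  have h := geo_Ico 0 H γ δ
  rw [Nat.Ico_zero_eq_range] at h
  unfold tv
  rw [norm_div, Complex.norm_natCast]
  rcases Nat.eq_zero_or_pos H with h0 | h0
  · subst h0
    simp
  · have hH : (0 : ℝ) < H := by exact_mod_cast h0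
    have e : ‖∑ t ∈ range H, ex ((t : ℝ) * γ + δ)‖ / H * (2 * H * nrm γ) =
        2 * nrm γ * ‖∑ t ∈ range H, ex ((t : ℝ) * γ + δ)‖ * ((H : ℝ) / H) := by ring
    rw [e, div_self hH.ne', mul_one]
    exact h

lemma eval_lin (p : ℤ[X]) (hp : p.natDegree = 1) (x : ℤ) : p.eval x = p.coeff 1 * x + p.coeff 0 := by
  conv_lhs => rw [Polynomial.eq_X_add_C_of_natDegree_le_one hp.le]
  simp

lemma coeff_ne (p : ℤ[X]) (hp : p.natDegree = 1) : 1 ≤ (p.coeff 1).natAbs := by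
  have h1 : p.coeff 1 ≠ 0 := by
    rw [← hp]
    intro h
    have h2 : p.leadingCoeff = 0 := h
    rw [Polynomial.leadingCoeff_eq_zero] at h2
    rw [h2, Polynomial.natDegree_zero] at hp
    omega
  exact Int.natAbs_pos.mpr h1

theorem weyl_block1 (p : ℤ[X]) (hp : p.natDegree = 1) : ∃ C N₀ : ℕ, 1 ≤ C ∧ ∀ (N q H m₀ b : ℕ) (β : ℝ), N₀ ≤ N →
    1 ≤ q → q ^ C ≤ N → m₀ + H ≤ N → N ^ (C - 1) ≤ H ^ C → |β| ^ 2 * N ≤ 1 → ¬ q ∣ b →
    ‖tv H (fun m => ex ((b : ℝ) * ((m₀ + m : ℕ) : ℝ) / q + β * ((p.eval ((m₀ + m : ℕ) : ℤ) : ℤ) : ℝ)))‖ ^ C * N ≤ 1 := by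
  set a : ℕ := (p.coeff 1).natAbs with ha
  have ha1 : 1 ≤ a := coeff_ne p hp
  refine ⟨4, 16 * a ^ 4 + 1, by norm_num, ?_⟩
  intro N q H m₀ b β hN hq hqN hmH hNH hβ hb
  have hN1 : 1 ≤ N := by omega
  have hH1 : 1 ≤ H := by
    rcases Nat.eq_zero_or_pos H with h | h
    · rw [h] at hNH
      have h1 : 1 ≤ N ^ (4 - 1) := Nat.one_le_pow _ _ hN1
      simp only [ne_eq, OfNat.ofNat_ne_zero, not_false_eq_true, zero_pow] at hNH
      omega
    · exact h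
  have hNr : (1 : ℝ) ≤ N := by exact_mod_cast hN1
  have hqr : (1 : ℝ) ≤ q := by exact_mod_cast hq
  have hHr : (1 : ℝ) ≤ H := by exact_mod_cast hH1
  have har : (1 : ℝ) ≤ a := by exact_mod_cast ha1
  -- the frequency
  set γ : ℝ := (b : ℝ) / q + β * (p.coeff 1 : ℝ) with hγ
  have h4 : (4 * (a : ℝ) ^ 2 * (q : ℝ) ^ 2) ≤ N := by
    have h1 : (4 * a ^ 2 * q ^ 2) ^ 2 ≤ N ^ 2 := by
      calc (4 * a ^ 2 * q ^ 2) ^ 2 = (16 * a ^ 4) * q ^ 4 := by ring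
        _ ≤ N * N := Nat.mul_le_mul (by omega) hqN
        _ = N ^ 2 := by ring
    have h2 := (Nat.pow_le_pow_iff_left (by norm_num : (2 : ℕ) ≠ 0)).mp h1
    exact_mod_cast h2
  have habs : |β * (p.coeff 1 : ℝ)| = |β| * a := by
    rw [abs_mul, ha, Nat.cast_natAbs]
    push_cast
    rfl
  have h5 : |β| * a * (2 * q) ≤ 1 := by
    have h0 : 0 ≤ |β| * a * (2 * q) := by positivity
    have h1 : (|β| * a * (2 * q)) ^ 2 ≤ 1 := by
      calc (|β| * a * (2 * q)) ^ 2 = |β| ^ 2 * (4 * (a : ℝ) ^ 2 * (q : ℝ) ^ 2) := by ring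
        _ ≤ |β| ^ 2 * N := mul_le_mul_of_nonneg_left h4 (by positivity)
        _ ≤ 1 := hβ
    nlinarith
  have hnf := nrm_frac hq hb
  have hnγ : 1 / (2 * (q : ℝ)) ≤ nrm γ := by
    have h1 : nrm ((b : ℝ) / q) ≤ nrm γ + |β| * a := by
      have h2 : (b : ℝ) / q = γ + (-(β * (p.coeff 1 : ℝ))) := by rw [hγ]; ring
      rw [h2]
      refine (nrm_add_le _ _).trans (add_le_add_right ?_ _)
      rw [nrm_ng]
      exact (nrm_le_abs _).trans habs.le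
    have h3 : |β| * a ≤ 1 / (2 * (q : ℝ)) := by
      rw [le_div_iff₀ (by positivity)]
      exact h5
    have h6 : (1 : ℝ) / q = 1 / (2 * q) + 1 / (2 * q) := by
      field_simp
      norm_num
    linarith
  have hfun : (fun m : ℕ => ex ((b : ℝ) * ((m₀ + m : ℕ) : ℝ) / q + β * ((p.eval ((m₀ + m : ℕ) : ℤ) : ℤ) : ℝ))) =
      fun m : ℕ => ex ((m : ℝ) * γ + ((b : ℝ) * m₀ / q + β * ((p.coeff 1 : ℝ) * m₀ + (p.coeff 0 : ℝ)))) := by
    funext m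
    congr 1
    rw [eval_lin p hp, hγ]
    push_cast
    ring
  rw [hfun]
  have h6 := lin_sum H γ ((b : ℝ) * m₀ / q + β * ((p.coeff 1 : ℝ) * m₀ + (p.coeff 0 : ℝ)))
  set T : ℝ := ‖tv H (fun m => ex ((m : ℝ) * γ + ((b : ℝ) * m₀ / q + β * ((p.coeff 1 : ℝ) * m₀ + (p.coeff 0 : ℝ)))))‖ with hT
  have hT0 : 0 ≤ T := norm_nonneg _
  have h7 : T * H ≤ q := by
    have h8 : T * (2 * H * (1 / (2 * (q : ℝ)))) ≤ 1 :=
      (mul_le_mul_of_nonneg_left (mul_le_mul_of_nonneg_left hnγ (by positivity)) hT0).trans h6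
    have h9 : T * (2 * H * (1 / (2 * (q : ℝ)))) = T * H / q := by
      field_simp
    rw [h9, div_le_one (by positivity)] at h8
    exact h8
  have h8 : (T * H) ^ 4 ≤ (q : ℝ) ^ 4 := pow_le_pow_left₀ (by positivity) h7 4
  have h9 : ((q : ℝ)) ^ 4 ≤ N := by exact_mod_cast hqN
  have h10 : (N : ℝ) ^ 3 ≤ (H : ℝ) ^ 4 := by exact_mod_cast hNH
  have hH4 : (0 : ℝ) < (H : ℝ) ^ 4 := by positivity
  have h11 : T ^ 4 * N * (H : ℝ) ^ 4 ≤ 1 * (H : ℝ) ^ 4 := by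
    calc T ^ 4 * N * (H : ℝ) ^ 4 = (T * H) ^ 4 * N := by ring
      _ ≤ (N : ℝ) * N := mul_le_mul_of_nonneg_right (h8.trans h9) (by positivity)
      _ ≤ (N : ℝ) ^ 3 := by nlinarith [mul_nonneg (by linarith : (0:ℝ) ≤ N) (by linarith : (0:ℝ) ≤ (N:ℝ) - 1)]
      _ ≤ 1 * (H : ℝ) ^ 4 := by rw [one_mul]; exact h10
  exact le_of_mul_le_mul_right h11 hH4

theorem weyl_dec1 (p : ℤ[X]) (hp : p.natDegree = 1) (A₄ : ℕ) : ∃ A : ℕ, 1 ≤ A ∧
    ∀ (N lam b : ℕ) (β : ℝ), 2 ≤ lam → lam ^ A ≤ N → b < lam ^ A₄ → |β| * (lam : ℝ) ^ A ≤ 1 → (lam : ℝ) ^ A ≤ |β| * (N : ℝ) ^ 1 →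
    ‖wm p (lam ^ A₄) b N β‖ ≤ 1 / lam := by
  set a : ℕ := (p.coeff 1).natAbs with ha
  have ha1 : 1 ≤ a := coeff_ne p hp
  refine ⟨A₄ + 2 + 2 * a, by omega, ?_⟩
  intro N lam b β hlam hN hb hβ hβN
  set A : ℕ := A₄ + 2 + 2 * a with hA
  set S : ℕ := lam ^ A₄ with hS
  have hlam1 : 1 ≤ lam := by omega
  have hS1 : 1 ≤ S := Nat.one_le_pow _ _ hlam1
  have hN1 : 1 ≤ N := (Nat.one_le_pow _ _ hlam1).trans hN
  have hNS : 2 * S ≤ N := by
    calc 2 * S ≤ lam * lam ^ A₄ := Nat.mul_le_mul_right _ hlam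
      _ = lam ^ (A₄ + 1) := by ring
      _ ≤ lam ^ A := Nat.pow_le_pow_right hlam1 (by omega)
      _ ≤ N := hN
  set H : ℕ := (b + 1) * N / S - b * N / S with hH
  have hHN : N / S ≤ H := by
    have h1 : b * N / S + N / S ≤ (b * N + N) / S := Nat.div_add_div_le_add_div
    have h2 : (b + 1) * N = b * N + N := by ring
    rw [hH, h2]
    omega
  have hNr : (1 : ℝ) ≤ N := by exact_mod_cast hN1
  have hSr : (1 : ℝ) ≤ S := by exact_mod_cast hS1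
  have hlr : (2 : ℝ) ≤ lam := by exact_mod_cast hlam
  have har : (1 : ℝ) ≤ a := by exact_mod_cast ha1
  have hH2 : (N : ℝ) ≤ 2 * S * H := by
    have h1 : N < N / S * S + S := Nat.lt_div_mul_add (by omega)
    have h2 : N ≤ 2 * S * H := by
      have h3 : N / S * S ≤ H * S := Nat.mul_le_mul_right _ hHN
      have h4 : S ≤ H * S := by
        have h5 : 1 ≤ N / S := (Nat.one_le_div_iff (by omega)).mpr (by omega)
        calc S = 1 * S := (one_mul _).symm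
          _ ≤ H * S := Nat.mul_le_mul_right _ (h5.trans hHN)
      have h6 : 2 * S * H = H * S + H * S := by ring
      omega
    exact_mod_cast h2
  have hlA : (0 : ℝ) < (lam : ℝ) ^ A := by positivity
  have h2a : (2 * a : ℝ) ≤ (lam : ℝ) ^ A := by
    have h1 : 2 * a ≤ lam ^ A := by
      calc 2 * a ≤ 2 ^ (2 * a) := Nat.lt_two_pow_self.le
        _ ≤ lam ^ (2 * a) := Nat.pow_le_pow_left hlam _
        _ ≤ lam ^ A := Nat.pow_le_pow_right hlam1 (by omega)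
    exact_mod_cast h1
  have habs : |β * (p.coeff 1 : ℝ)| = |β| * a := by
    rw [abs_mul, ha, Nat.cast_natAbs]
    push_cast
    rfl
  have hβ0 : 0 ≤ |β| := abs_nonneg β
  have hhalf : |β * (p.coeff 1 : ℝ)| ≤ 1 / 2 := by
    rw [habs]
    have h1 : |β| * (2 * a) ≤ 1 := (mul_le_mul_of_nonneg_left h2a hβ0).trans hβ
    linarith
  have hn : (lam : ℝ) ^ A / N ≤ nrm (β * (p.coeff 1 : ℝ)) := by
    refine le_trans ?_ (abs_le_nrm hhalf)
    rw [habs, div_le_iff₀ (by positivity)]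
    rw [pow_one] at hβN
    have h1 : |β| * N ≤ |β| * a * N := by
      have h2 : 0 ≤ |β| * N := by positivity
      nlinarith
    linarith
  have hfun : (fun m : ℕ => ex (β * ((p.eval ((b * N / S + m : ℕ) : ℤ) : ℤ) : ℝ))) =
      fun m : ℕ => ex ((m : ℝ) * (β * (p.coeff 1 : ℝ)) + (β * ((p.coeff 1 : ℝ) * ((b * N / S : ℕ) : ℝ) + (p.coeff 0 : ℝ)))) := by
    generalize b * N / S = m₀
    funext m
    congr 1
    rw [eval_lin p hp]
    push_cast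
    ring
  have h6 := lin_sum H (β * (p.coeff 1 : ℝ)) (β * ((p.coeff 1 : ℝ) * ((b * N / S : ℕ) : ℝ) + (p.coeff 0 : ℝ)))
  rw [← hfun] at h6
  have hwm : wm p S b N β = tv H (fun m : ℕ => ex (β * ((p.eval ((b * N / S + m : ℕ) : ℤ) : ℤ) : ℝ))) := rfl
  rw [← hwm] at h6
  set T : ℝ := ‖wm p S b N β‖ with hT
  have hT0 : 0 ≤ T := norm_nonneg _
  have h7 : T * (2 * H * ((lam : ℝ) ^ A / N)) ≤ 1 :=
    (mul_le_mul_of_nonneg_left (mul_le_mul_of_nonneg_left hn (by positivity)) hT0).trans h6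
  have h8 : T * (lam : ℝ) ^ A ≤ S := by
    have h9 : T * (2 * H * ((lam : ℝ) ^ A / N)) = T * (lam : ℝ) ^ A * (2 * H / N) := by ring
    rw [h9] at h7
    have h10 : 1 / (S : ℝ) ≤ 2 * H / N := by
      rw [div_le_div_iff₀ (by positivity) (by positivity)]
      linarith
    have h11 : T * (lam : ℝ) ^ A * (1 / S) ≤ 1 :=
      (mul_le_mul_of_nonneg_left h10 (by positivity)).trans h7
    rw [mul_one_div, div_le_one (by positivity)] at h11
    exact h11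
  have h9 : (S : ℝ) * lam ≤ (lam : ℝ) ^ A := by
    have h10 : S * lam ≤ lam ^ A := by
      calc S * lam = lam ^ (A₄ + 1) := by rw [hS, pow_succ]
        _ ≤ lam ^ A := Nat.pow_le_pow_right hlam1 (by omega)
    exact_mod_cast h10
  rw [le_div_iff₀ (by positivity)]
  have h10 : T * lam * (lam : ℝ) ^ A ≤ 1 * (lam : ℝ) ^ A := by
    calc T * lam * (lam : ℝ) ^ A = T * (lam : ℝ) ^ A * lam := by ring
      _ ≤ S * lam := mul_le_mul_of_nonneg_right h8 (by positivity)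
      _ ≤ 1 * (lam : ℝ) ^ A := by rw [one_mul]; exact h9
  exact le_of_mul_le_mul_right h10 hlA

/-- the claim for linear polynomials -/
lemma claim1 (P : ℤ[X]) (hP : P.natDegree = 1) :
    ∃ C : ℕ, ∀ (N R V Q a : ℕ), 2 ≤ R → R ^ C ≤ N → R ^ C ≤ V → 1 ≤ Q →
      Q * R ^ C ≤ N → Q * R ^ C ≤ V → ¬ Q ∣ a → ∀ θ : ℝ, ‖dk V θ‖ * ‖W N Q a P θ‖ ≤ 1 / (R : ℝ) := by
  set p : ℕ := (P.coeff 1).natAbs with hp
  have hp1 : 1 ≤ p := coeff_ne P hP
  refine ⟨p + 1, ?_⟩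
  intro N R V Q a hR hRN hRV hQ hQN hQV ha θ
  have hR0 : (0 : ℝ) < R := by
    have : 0 < R := by omega
    exact_mod_cast this
  have hR2 : (2 : ℝ) ≤ R := by exact_mod_cast hR
  have hR1 : (1 : ℝ) ≤ R := by linarith
  have hpR : (p : ℝ) ≤ (R : ℝ) ^ p := by
    have h1 : p ≤ R ^ p := (Nat.lt_pow_self (by omega : 1 < R)).le
    exact_mod_cast h1
  have hQ0 : (1 : ℝ) ≤ Q := by exact_mod_cast hQ
  have hQN' : (Q : ℝ) * (R : ℝ) ^ (p + 1) ≤ N := by exact_mod_cast hQN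
  have hQV' : (Q : ℝ) * (R : ℝ) ^ (p + 1) ≤ V := by exact_mod_cast hQV
  have hRV' : (R : ℝ) ^ (p + 1) ≤ V := by exact_mod_cast hRV
  have hpw : (1 : ℝ) ≤ (R : ℝ) ^ (p + 1) := one_le_pow₀ hR1
  have hV0 : (0 : ℝ) < V := by linarith
  have hV1 : 1 ≤ V := by exact_mod_cast (show (0 : ℝ) < V from hV0)
  have hN0 : (0 : ℝ) < N := lt_of_lt_of_le (by positivity) hQN'
  have hdk := Pool.Agent.EQD.Lo.norm_dk_le_one V θ
  have hW := norm_W_le N Q a P θ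
  have hdk0 := norm_nonneg (dk V θ)
  have hW0 := norm_nonneg (W N Q a P θ)
  by_contra hcon
  rw [not_le] at hcon
  have hd1 : 1 / (R : ℝ) < ‖dk V θ‖ := by nlinarith
  have hW1 : 1 / (R : ℝ) < ‖W N Q a P θ‖ := by nlinarith
  -- step 1
  have hn : nrm θ ≤ R / (2 * V) := by
    rcases (nrm_nonneg θ).lt_or_eq with h | h
    · have h1 := (hd1.trans_le (Pool.Agent.EQD.Lo.norm_dk_le V hV1 θ h)).le
      rw [div_le_div_iff₀ hR0 (by positivity)] at h1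
      rw [le_div_iff₀ (by positivity)]
      nlinarith
    · rw [← h]
      positivity
  obtain ⟨t, ht⟩ : ∃ t : ℝ, t = θ - round θ := ⟨_, rfl⟩
  have ht1 : |t| ≤ R / (2 * V) := by rw [ht]; exact hn
  rw [W_round, ← ht] at hW1
  -- step 2: the frequency
  have habs : |t * (P.coeff 1 : ℝ)| = |t| * p := by
    rw [abs_mul, hp, Nat.cast_natAbs]
    push_cast
    rfl
  have h3 : |t| * p ≤ 1 / (2 * (Q : ℝ)) := by
    calc |t| * p ≤ R / (2 * V) * (R : ℝ) ^ p :=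
          mul_le_mul ht1 hpR (by positivity) (by positivity)
      _ = (R : ℝ) ^ (p + 1) / (2 * V) := by rw [pow_succ]; ring
      _ ≤ 1 / (2 * (Q : ℝ)) := by
          rw [div_le_div_iff₀ (by positivity) (by positivity)]
          nlinarith
  set γ : ℝ := (a : ℝ) / Q + t * (P.coeff 1 : ℝ) with hγ
  have hnf := nrm_frac hQ ha
  have hnγ : 1 / (2 * (Q : ℝ)) ≤ nrm γ := by
    have h1 : nrm ((a : ℝ) / Q) ≤ nrm γ + |t| * p := by
      have h2 : (a : ℝ) / Q = γ + (-(t * (P.coeff 1 : ℝ))) := by rw [hγ]; ring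
      rw [h2]
      refine (nrm_add_le _ _).trans (add_le_add_right ?_ _)
      rw [nrm_ng]
      exact (nrm_le_abs _).trans habs.le
    have h6 : (1 : ℝ) / Q = 1 / (2 * Q) + 1 / (2 * Q) := by
      field_simp
      norm_num
    linarith
  have hfun : (fun m : ℕ => ex ((a : ℝ) * (m : ℝ) / (Q : ℝ)) * ex (t * ((P.eval (m : ℤ) : ℤ) : ℝ))) =
      fun m : ℕ => ex ((m : ℝ) * γ + t * (P.coeff 0 : ℝ)) := by
    funext m
    rw [← ex_add, eval_lin P hP, hγ]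
    congr 1
    push_cast
    ring
  have hW2 : W N Q a P t = tv N (fun m : ℕ => ex ((m : ℝ) * γ + t * (P.coeff 0 : ℝ))) := by
    unfold W
    rw [hfun]
  have h6 := lin_sum N γ (t * (P.coeff 0 : ℝ))
  rw [← hW2] at h6
  set T : ℝ := ‖W N Q a P t‖ with hT
  have hT0 : 0 ≤ T := norm_nonneg _
  have h7 : T * (2 * N * (1 / (2 * (Q : ℝ)))) ≤ 1 :=
    (mul_le_mul_of_nonneg_left (mul_le_mul_of_nonneg_left hnγ (by positivity)) hT0).trans h6
  have h8 : T * N ≤ Q := by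
    have h9 : T * (2 * N * (1 / (2 * (Q : ℝ)))) = T * N / Q := by
      field_simp
    rw [h9, div_le_one (by positivity)] at h7
    exact h7
  have h9 : T ≤ 1 / R := by
    rw [le_div_iff₀ hR0]
    have h10 : T * R * N ≤ 1 * N := by
      calc T * R * N = T * N * R := by ring
        _ ≤ Q * R := mul_le_mul_of_nonneg_right h8 hR0.le
        _ ≤ Q * (R : ℝ) ^ (p + 1) := by
            refine mul_le_mul_of_nonneg_left ?_ (by positivity)
            calc (R : ℝ) = (R : ℝ) ^ 1 := (pow_one _).symm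
              _ ≤ (R : ℝ) ^ (p + 1) := pow_le_pow_right₀ hR1 (by omega)
        _ ≤ 1 * N := by rw [one_mul]; exact hQN'
    exact le_of_mul_le_mul_right h10 hN0
  linarith

end GWeyAux

open GWeyAux

theorem weyl_block (D : ℕ) (hD : 1 ≤ D) (p : ℤ[X]) (hp : p.natDegree = D) : ∃ C N₀ : ℕ, 1 ≤ C ∧ ∀ (N q H m₀ b : ℕ) (β : ℝ), N₀ ≤ N →
    1 ≤ q → q ^ C ≤ N → m₀ + H ≤ N → N ^ (C - 1) ≤ H ^ C → |β| ^ 2 * N ≤ 1 → ¬ q ∣ b →
    ‖tv H (fun m => ex ((b : ℝ) * ((m₀ + m : ℕ) : ℝ) / q + β * ((p.eval ((m₀ + m : ℕ) : ℤ) : ℤ) : ℝ)))‖ ^ C * N ≤ 1 := by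
  rcases Nat.lt_or_ge 1 D with h | h
  · exact Pool.Agent.EQD.weyl_block D h p hp
  · exact weyl_block1 p (by omega)

theorem weyl_dec (D : ℕ) (hD : 1 ≤ D) (p : ℤ[X]) (hp : p.natDegree = D) (A₄ : ℕ) : ∃ A : ℕ, 1 ≤ A ∧
    ∀ (N lam b : ℕ) (β : ℝ), 2 ≤ lam → lam ^ A ≤ N → b < lam ^ A₄ → |β| * (lam : ℝ) ^ A ≤ 1 → (lam : ℝ) ^ A ≤ |β| * (N : ℝ) ^ D →
    ‖wm p (lam ^ A₄) b N β‖ ≤ 1 / lam := by
  rcases Nat.lt_or_ge 1 D with h | h
  · exact Pool.Agent.EQD.weyl_dec D h p hp A₄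
  · have hD1 : D = 1 := by omega
    subst hD1
    exact weyl_dec1 p hp A₄

open Pool.Agent.EQD.Lo.WeylSAux in
/-- the claim of `WeylS` for `1 ≤ D` -/
theorem weyl_claim (D : ℕ) (hD : 1 ≤ D) (P : ℤ[X]) (hP : P.natDegree = D) :
    ∃ C : ℕ, ∀ (N R V Q a : ℕ), 2 ≤ R → R ^ C ≤ N → R ^ C ≤ V → 1 ≤ Q →
      Q * R ^ C ≤ N → Q * R ^ C ≤ V → ¬ Q ∣ a → ∀ θ : ℝ, ‖dk V θ‖ * ‖W N Q a P θ‖ ≤ 1 / (R : ℝ) := by
  rcases Nat.lt_or_ge 1 D with h | h
  · obtain ⟨C, hC⟩ := claim D h P hP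
    exact ⟨C, fun N R V Q a h1 h2 h3 h4 h5 _ h6 => hC N R V Q a h1 h2 h3 h4 h5 h6⟩
  · exact claim1 P (by omega)

end Pool.Agent.EQD.G
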