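import Pool.Agent.Lib.EQG.Defs
import Pool.Agent.Lib.EQD.InvF

/-!
# Module InvG: families with a base belong to the class `GDeg`

`base_b`: change of the base function to the slot `b` (shift `x` by `- P b t`); `base_0`: no change.
-/

set_option autoImplicit false

open Finset Polynomial

namespace Pool.Agent.EQD.G

open Pool.Agent.HLT Pool.Agent.NLT Pool.Agent.NLG Pool.Agent.EQD

/-- Degree of a point of the family seen from the base `i₀` (the point `i₀` stands for the point `0`). -/
noncomputable def dst {n : ℕ} (P : Fin n → ℤ[X]) (i₀ : Fin n) (j : Fin n) : ℕ :=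
  if j = i₀ then (P i₀).natDegree else (P j - P i₀).natDegree

/-- The exponents: the distance to the base, and for the base the smallest distance. -/
noncomputable def edst {n : ℕ} (P : Fin n → ℤ[X]) (i₀ : Fin n) (j : Fin n) : ℕ :=
  if j = i₀ then univ.inf' ⟨i₀, mem_univ i₀⟩ (dst P i₀) else dst P i₀ j

namespace InvGAux

open InvFAux

/-- `core` for an injective degree function. -/
lemma coreI {n : ℕ} (a : Fin n → ℕ) (ha : Function.Injective a) (h1 : ∀ j, 1 ≤ a j) (Q : Fin n → ℤ[X])
    (hQ : ∀ j, (Q j).natDegree = a j) :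
    ∃ C : ℕ, ∀ (M : ℕ) [NeZero M] (H R : ℕ), 2 ≤ R → R ^ C ≤ H →
      ∀ g0 : ZMod M → ℂ, Bd g0 → ∀ g : Fin n → ZMod M → ℂ, (∀ j, Bd (g j)) →
      1 / (R : ℝ) ≤ ‖TP H (fun _ => 1) Q g0 g‖ → ∀ j, Star C R H (a j) (g j) := by
  obtain ⟨σ, hσ⟩ : ∃ σ : Equiv.Perm (Fin n), StrictMono (a ∘ σ) :=
    ⟨Tuple.sort a, (Tuple.monotone_sort a).strictMono_of_injective (ha.comp (Tuple.sort a).injective)⟩
  obtain ⟨C, hC⟩ := core n (a ∘ σ) hσ (fun j => h1 _) (fun j => Q (σ j)) (fun j => hQ _)
  refine ⟨C, ?_⟩
  intro M _ H R hR hRH g0 hg0 g hg hav j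
  have e1 : TP H (fun _ => 1) Q g0 g = TP H (fun _ => 1) (fun j => Q (σ j)) g0 (fun j => g (σ j)) := by
    rw [TP_eq, TP_eq]
    congr 1
    funext t
    congr 1
    funext x
    rw [← Equiv.prod_comp σ (fun j => g j (x + pz M (Q j) t))]
  rw [e1] at hav
  have h2 := hC M H R hR hRH g0 hg0 (fun j => g (σ j)) (fun j => hg _) hav (σ.symm j)
  simpa using h2

/-- base `0` -/
lemma base_zero {n : ℕ} (P : Fin n → ℤ[X]) (hi : Function.Injective (fun j => (P j).natDegree))
    (h1 : ∀ j, 1 ≤ (P j).natDegree) :
    ∃ C : ℕ, ∀ (M : ℕ) [NeZero M] (H R : ℕ), 2 ≤ R → R ^ C ≤ H →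
      ∀ f0 : ZMod M → ℂ, Bd f0 → ∀ f : Fin n → ZMod M → ℂ, (∀ j, Bd (f j)) →
      1 / (R : ℝ) ≤ ‖av (fun x => f0 x * AA H P f x)‖ → ∀ j, Star C R H (P j).natDegree (f j) := by
  obtain ⟨C, hC⟩ := coreI (fun j => (P j).natDegree) hi h1 P (fun _ => rfl)
  refine ⟨C, ?_⟩
  intro M _ H R hR hRH f0 hf0 f hf hav
  refine hC M H R hR hRH f0 hf0 f hf (le_of_le_of_eq hav ?_)
  congr 1
  rw [TP_eq, av_AA H P f0 f (fun _ => 0)]
  simp only [sub_zero]

/-- the family seen from the slot `b` -/
noncomputable def fam {n : ℕ} (P : Fin n → ℤ[X]) (b j : Fin n) : ℤ[X] := if j = b then -P b else P j - P b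

/-- base `b` -/
lemma base_slot {n : ℕ} (P : Fin n → ℤ[X]) (b : Fin n) (a : Fin n → ℕ) (ha : Function.Injective a)
    (h1 : ∀ j, 1 ≤ a j) (hQ : ∀ j, (fam P b j).natDegree = a j) :
    ∃ C : ℕ, ∀ (M : ℕ) [NeZero M] (H R : ℕ), 2 ≤ R → R ^ C ≤ H →
      ∀ f0 : ZMod M → ℂ, Bd f0 → ∀ f : Fin n → ZMod M → ℂ, (∀ j, Bd (f j)) →
      1 / (R : ℝ) ≤ ‖av (fun x => f0 x * AA H P f x)‖ → ∀ j, j ≠ b → Star C R H (a j) (f j) := by
  obtain ⟨C, hC⟩ := coreI a ha h1 (fam P b) hQ
  refine ⟨C, ?_⟩
  intro M _ H R hR hRH f0 hf0 f hf hav j hj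
  have h2 := hC M H R hR hRH (f b) (hf b) (Function.update f b f0) (by
      intro k
      by_cases hk : k = b
      · subst hk
        simpa using hf0
      · rw [Function.update_of_ne hk]
        exact hf k) (by
      refine le_of_le_of_eq hav ?_
      congr 1
      rw [TP_eq, av_AA H P f0 f (fun t => pz M (P b) t)]
      congr 1
      funext t
      congr 1
      funext x
      have p1 : ∏ i, f i (x - pz M (P b) t + pz M (P i) t) =
          f b x * ∏ i ∈ univ.erase b, f i (x + pz M (fam P b i) t) := by
        rw [← Finset.mul_prod_erase univ _ (mem_univ b), sub_add_cancel]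
        congr 1
        refine Finset.prod_congr rfl (fun i hi => ?_)
        rw [fam, if_neg (Finset.ne_of_mem_erase hi), pz_sub]
        congr 1
        ring
      have p2 : ∏ i, Function.update f b f0 i (x + pz M (fam P b i) t) =
          f0 (x - pz M (P b) t) * ∏ i ∈ univ.erase b, f i (x + pz M (fam P b i) t) := by
        rw [← Finset.mul_prod_erase univ _ (mem_univ b), Function.update_self]
        congr 1
        · rw [fam, if_pos rfl, pz_neg, sub_eq_add_neg]
        · refine Finset.prod_congr rfl (fun i hi => ?_)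
          rw [Function.update_of_ne (Finset.ne_of_mem_erase hi)]
      rw [p1, p2]
      ring) j
  rwa [Function.update_of_ne hj] at h2

end InvGAux

open InvGAux InvFAux in
theorem gdeg_of {n : ℕ} (P : Fin n → ℤ[X]) (i₀ : Fin n) (hpos : ∀ j, 1 ≤ dst P i₀ j)
    (hinj : Function.Injective (dst P i₀)) : GDeg P (edst P i₀) i₀ := by
  have hd0 : dst P i₀ i₀ = (P i₀).natDegree := by rw [dst, if_pos rfl]
  have hdj : ∀ j, j ≠ i₀ → dst P i₀ j = (P j - P i₀).natDegree := fun j hj => by rw [dst, if_neg hj]
  -- degrees of the polynomials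
  have hlt : ∀ j, j ≠ i₀ → dst P i₀ j < (P i₀).natDegree → (P j).natDegree = (P i₀).natDegree := by
    intro j hj h
    have e : P j = P i₀ + (P j - P i₀) := by ring
    rw [e]
    exact Polynomial.natDegree_add_eq_left_of_natDegree_lt (by rw [← hdj j hj]; exact h)
  have hgt : ∀ j, j ≠ i₀ → (P i₀).natDegree < dst P i₀ j → (P j).natDegree = dst P i₀ j := by
    intro j hj h
    have e : P j = P i₀ + (P j - P i₀) := by ring
    rw [e, hdj j hj]
    exact Polynomial.natDegree_add_eq_right_of_natDegree_lt (by rw [← hdj j hj]; exact h)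
  have htri : ∀ j, j ≠ i₀ → dst P i₀ j < (P i₀).natDegree ∨ (P i₀).natDegree < dst P i₀ j := by
    intro j hj
    have : dst P i₀ j ≠ (P i₀).natDegree := by
      intro h
      exact hj (hinj (h.trans hd0.symm))
    omega
  obtain ⟨b, -, hb⟩ := Finset.exists_mem_eq_inf' (⟨i₀, mem_univ i₀⟩ : (univ : Finset (Fin n)).Nonempty) (dst P i₀)
  have hbm : ∀ j, dst P i₀ b ≤ dst P i₀ j := fun j => by
    rw [← hb]; exact Finset.inf'_le _ (mem_univ j)
  have he0 : edst P i₀ i₀ = dst P i₀ b := by rw [edst, if_pos rfl, hb]
  have hej : ∀ j, j ≠ i₀ → edst P i₀ j = dst P i₀ j := fun j hj => by rw [edst, if_neg hj]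
  have hle : ∀ j, edst P i₀ j ≤ dst P i₀ j := by
    intro j
    by_cases hj : j = i₀
    · subst hj
      rw [he0]
      exact hbm _
    · exact (hej j hj).le
  -- the degree of `P j` is at least both `dst` and the degree of the base
  have hmx : ∀ j, dst P i₀ j ≤ (P j).natDegree ∧ (P i₀).natDegree ≤ (P j).natDegree := by
    intro j
    by_cases hj : j = i₀
    · subst hj
      rw [hd0]
      exact ⟨le_rfl, le_rfl⟩
    · rcases htri j hj with h | h
      · rw [hlt j hj h]
        exact ⟨h.le, le_rfl⟩
      · rw [hgt j hj h]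
        exact ⟨le_rfl, h.le⟩
  refine
    { pos := ?_
      le := fun j => (hle j).trans (hmx j).1
      base := ?_
      dmin := fun j => (hmx j).2
      top := ?_
      inv := ?_ }
  · intro j
    by_cases hj : j = i₀
    · subst hj
      rw [he0]
      exact hpos b
    · rw [hej j hj]
      exact hpos j
  · intro j
    by_cases hj : j = i₀
    · subst hj
      rw [sub_self, Polynomial.natDegree_zero]
      exact Nat.zero_le _
    · rw [hej j hj, hdj j hj]
  · intro j hlt'
    have hj : j ≠ i₀ := by
      rintro rfl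
      exact lt_irrefl _ hlt'
    rcases htri j hj with h | h
    · have := hlt j hj h
      omega
    · rw [hej j hj, hgt j hj h]
  -- the inverse theorem
  · have hfam0 : ∀ j, (fam P i₀ j).natDegree = dst P i₀ j := by
      intro j
      by_cases hj : j = i₀
      · subst hj
        rw [fam, if_pos rfl, Polynomial.natDegree_neg, hd0]
      · rw [fam, if_neg hj, hdj j hj]
    obtain ⟨C1, hC1⟩ := base_slot P i₀ (dst P i₀) hinj hpos hfam0
    by_cases hbi : b = i₀
    · -- the closest point is `0`
      have hgt' : ∀ j, (P j).natDegree = dst P i₀ j := by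
        intro j
        by_cases hj : j = i₀
        · subst hj
          rw [hd0]
        · rcases htri j hj with h | h
          · have h3 := hbm j
            rw [hbi, hd0] at h3
            omega
          · exact hgt j hj h
      obtain ⟨C2, hC2⟩ := base_zero P (by
          intro i j hij
          simp only [hgt'] at hij
          exact hinj hij) (fun j => by rw [hgt']; exact hpos j)
      refine ⟨max C1 C2, ?_⟩
      intro M _ H R hR hRH f0 hf0 f hf hav j
      have hR1 : 1 ≤ R := by omega
      by_cases hj : j = i₀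
      · rw [hj, he0, hbi, ← hgt' i₀]
        exact star_mono (le_max_right _ _) hR1
          (hC2 M H R hR ((Nat.pow_le_pow_right hR1 (le_max_right _ _)).trans hRH) f0 hf0 f hf hav i₀)
      · rw [hej j hj]
        exact star_mono (le_max_left _ _) hR1
          (hC1 M H R hR ((Nat.pow_le_pow_right hR1 (le_max_left _ _)).trans hRH) f0 hf0 f hf hav j hj)
    · -- the closest point is the slot `b`
      have hblt : dst P i₀ b < (P i₀).natDegree := by
        have h3 := hbm i₀
        rw [hd0] at h3
        rcases htri b hbi with h | h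
        · exact h
        · omega
      have hPb : (P b).natDegree = (P i₀).natDegree := hlt b hbi hblt
      -- degrees seen from `b`
      have hfamb : ∀ j, (fam P b j).natDegree = (if j = b then dst P i₀ i₀ else if j = i₀ then dst P i₀ b else dst P i₀ j) := by
        intro j
        by_cases hj : j = b
        · subst hj
          rw [fam, if_pos rfl, if_pos rfl, Polynomial.natDegree_neg, hd0, hPb]
        · rw [fam, if_neg hj, if_neg hj]
          by_cases hj2 : j = i₀
          · subst hj2
            rw [if_pos rfl, hdj b hbi, ← Polynomial.natDegree_neg, neg_sub]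
          · rw [if_neg hj2, hdj j hj2]
            have e : P j - P b = (P j - P i₀) - (P b - P i₀) := by ring
            rw [e]
            refine Polynomial.natDegree_sub_eq_left_of_natDegree_lt ?_
            rw [← hdj j hj2, ← hdj b hbi]
            refine lt_of_le_of_ne (hbm j) (fun h => hj (hinj h).symm)
      obtain ⟨C2, hC2⟩ := base_slot P b
        (fun j => if j = b then dst P i₀ i₀ else if j = i₀ then dst P i₀ b else dst P i₀ j) (by
          have : (fun j => if j = b then dst P i₀ i₀ else if j = i₀ then dst P i₀ b else dst P i₀ j) =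
              dst P i₀ ∘ (Equiv.swap b i₀) := by
            funext j
            simp only [Function.comp]
            by_cases hj : j = b
            · subst hj
              rw [if_pos rfl, Equiv.swap_apply_left]
            · rw [if_neg hj]
              by_cases hj2 : j = i₀
              · subst hj2
                rw [if_pos rfl, Equiv.swap_apply_right]
              · rw [if_neg hj2, Equiv.swap_apply_of_ne_of_ne hj hj2]
          rw [this]
          exact hinj.comp (Equiv.injective _)) (by
          intro j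
          split_ifs
          · exact hpos _
          · exact hpos _
          · exact hpos _) hfamb
      refine ⟨max C1 C2, ?_⟩
      intro M _ H R hR hRH f0 hf0 f hf hav j
      have hR1 : 1 ≤ R := by omega
      by_cases hj : j = i₀
      · rw [hj, he0]
        have h4 := hC2 M H R hR ((Nat.pow_le_pow_right hR1 (le_max_right _ _)).trans hRH) f0 hf0 f hf hav i₀ (Ne.symm hbi)
        rw [if_neg (Ne.symm hbi), if_pos rfl] at h4
        exact star_mono (le_max_right _ _) hR1 h4
      · rw [hej j hj]
        exact star_mono (le_max_left _ _) hR1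
          (hC1 M H R hR ((Nat.pow_le_pow_right hR1 (le_max_left _ _)).trans hRH) f0 hf0 f hf hav j hj)

end Pool.Agent.EQD.G
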