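import Pool.Agent.Lib.EQG.Defs
import Pool.Agent.Lib.EQD.MuA
import Pool.Agent.Lib.EQD.SlC

/-!
# Module TSw: slowly varying functions

PROOFS. `sw_mU`: `norm_mU_le`, `mU_per` (`q ∣ Q`: iterate), `mU_shift` (`2 (u + q) / L ≤ 2 (u + Q) / L`). `sw_sl`: one index, `K`, period `Q`, Lipschitz constant `lam (1 + Q) ≤ 2 lam Q`.
`sw_int`: for a negative shift use `slow` at the shifted point. `Ew_mU`: `mU_diag_dvd`, `L / QB B t = (X / QB B T) (QB B T / QB B t)` for `L = X / QB B T * QB B T`.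
-/

set_option autoImplicit false

open Finset Polynomial

namespace Pool.Agent.EQD.G

open Pool.Agent.HLT Pool.Agent.NLT Pool.Agent.NLG

namespace TSwAux

theorem QB_dvd (B t t' : ℕ) (h : t ≤ t') : QB B t ∣ QB B t' := by
  unfold QB
  exact (pow_dvd_pow_of_dvd (Nat.factorial_dvd_factorial (Nat.pow_le_pow_right (by norm_num) h)) _).trans
    (pow_dvd_pow _ (Nat.mul_le_mul_left B h))

theorem QB_pos (B t : ℕ) : 1 ≤ QB B t := Nat.pos_of_ne_zero (pow_ne_zero _ (Nat.factorial_ne_zero _))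

end TSwAux

variable {M : ℕ} [NeZero M]

theorem sw_mU {q Q L : ℕ} (hq : 1 ≤ q) (hqQ : q ∣ Q) (hQ : 1 ≤ Q) (hQM : Q ∣ M) (hL : Q ≤ L) (f : ZMod M → ℂ) (hf : Bd f) :
    Sw Q 2 (2 / L) (mU q L 0 f) := by
  have hqM : q ∣ M := hqQ.trans hQM
  have hqL : q ≤ L := (Nat.le_of_dvd hQ hqQ).trans hL
  have hL1 : 1 ≤ L := hQ.trans hL
  have hqQ' : (q : ℝ) ≤ Q := by exact_mod_cast Nat.le_of_dvd hQ hqQ
  have hL0 : (0 : ℝ) < L := by exact_mod_cast hL1
  refine ⟨fun z y => norm_mU_le q L hq hqL hqM 0 f hf z y, fun z y => ?_, fun z y u => ?_⟩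
  · exact MuAAux.mU_per_dvd hqM hqQ L 0 f z y
  · refine (mU_shift q L hq hL1 hqM 0 f hf z y u).trans ?_
    have e : 2 / (L : ℝ) * ((u : ℝ) + Q) = 2 * ((u : ℝ) + Q) / L := by ring
    rw [e]
    gcongr

theorem sw_sub {Q : ℕ} {c c' lam lam' : ℝ} {V V' : ZMod M → ZMod M → ℂ} (h : Sw Q c lam V) (h' : Sw Q c' lam' V') :
    Sw Q (c + c') (lam + lam') (fun z y => V z y - V' z y) := by
  refine ⟨fun z y => ?_, fun z y => ?_, fun z y u => ?_⟩
  · exact (norm_sub_le _ _).trans (add_le_add (h.bd z y) (h'.bd z y))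
  · simp only [h.per, h'.per]
  · have e : V (z + (u : ZMod M)) y - V' (z + (u : ZMod M)) y - (V z y - V' z y) =
        (V (z + (u : ZMod M)) y - V z y) - (V' (z + (u : ZMod M)) y - V' z y) := by ring
    rw [e, add_mul]
    exact (norm_sub_le _ _).trans (add_le_add (h.slow z y u) (h'.slow z y u))

theorem sw_mono {Q : ℕ} {c c' lam lam' : ℝ} {V : ZMod M → ZMod M → ℂ} (h : Sw Q c lam V) (hc : c ≤ c') (hl : lam ≤ lam') :
    Sw Q c' lam' V := by
  refine ⟨fun z y => (h.bd z y).trans hc, h.per, fun z y u => (h.slow z y u).trans ?_⟩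
  exact mul_le_mul_of_nonneg_right hl (by positivity)

/-- Integer shifts. -/
theorem sw_int {Q : ℕ} {c lam : ℝ} {V : ZMod M → ZMod M → ℂ} (h : Sw Q c lam V) (z y : ZMod M) (u : ℤ) :
    ‖V (z + (u : ZMod M)) y - V z y‖ ≤ lam * ((u.natAbs : ℝ) + Q) := by
  obtain ⟨n, rfl | rfl⟩ := u.eq_nat_or_neg
  · have := h.slow z y n
    simpa using this
  · have h1 := h.slow (z + ((-(n : ℤ) : ℤ) : ZMod M)) y n
    have e : z + ((-(n : ℤ) : ℤ) : ZMod M) + (n : ZMod M) = z := by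
      push_cast
      ring
    rw [e, norm_sub_rev] at h1
    simpa using h1

theorem sw_sl {Q K : ℕ} {c lam : ℝ} {V : ZMod M → ZMod M → ℂ} (h : Sw Q c lam V) (hQ : 1 ≤ Q) (hQM : Q ∣ M) (hlam : 0 ≤ lam)
    (hK : 1 ≤ K) (hc : c ≤ K) : Sl K Q (2 * lam * Q) V := by
  have hQ' : (1 : ℝ) ≤ Q := by exact_mod_cast hQ
  refine ⟨Unit, inferInstance, fun _ => V, fun _ => Q, by simpa using hK, fun _ => ⟨hQ, le_rfl, hQM⟩,
    fun _ z y => h.per z y, fun _ z y => (h.bd z y).trans hc, fun _ z y => ?_, fun z y => by simp⟩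
  have h1 := h.slow z y 1
  rw [Nat.cast_one, Nat.cast_one] at h1
  refine h1.trans ?_
  have e : 2 * lam * (Q : ℝ) = lam * (Q + Q) := by ring
  rw [e]
  exact mul_le_mul_of_nonneg_left (by linarith) hlam

/-- The average over a progression as the diagonal of a class sum. -/
theorem Ew_mU (B t T X : ℕ) (ht : t ≤ T) (hM : QB B T ∣ M) (hX : QB B T ≤ X) (f : ZMod M → ℂ) (x : ZMod M) :
    Ew B t T X f x = mU (QB B t) (X / QB B T * QB B T) 0 f x x := by
  have hT := TSwAux.QB_pos B T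
  have hd := TSwAux.QB_dvd B t T ht
  have ht0 := TSwAux.QB_pos B t
  have hdiv : 1 ≤ X / QB B T := Nat.div_pos hX hT
  have hL : 1 ≤ X / QB B T * QB B T := Nat.mul_pos hdiv hT
  rw [mU_diag_dvd (QB B t) (X / QB B T * QB B T) ht0 (hd.trans hM) (hd.trans (Dvd.intro_left _ rfl)) hL]
  unfold Ew
  rw [Nat.mul_div_assoc _ hd]

end Pool.Agent.EQD.G
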