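import Pool.Agent.Lib.EQD.BlkA
import Pool.Agent.Lib.EQG.Defs

/-!
# Module MBlkA: the module BlkA for the general class (same proof)
-/

set_option autoImplicit false

open Finset Polynomial

namespace Pool.Agent.EQD.G

open Pool.Agent.HLT Pool.Agent.NLT Pool.Agent.NLG

open BlkAAux

theorem blkA {n : ℕ} {P : Fin n → ℤ[X]} {e : Fin n → ℕ} {i₀ : Fin n} (h : GDeg P e i₀) : ∃ C : ℕ, 1 ≤ C ∧
    ∀ (M : ℕ) [NeZero M] (Q a k qm N S b : ℕ) (Ps : Finset ℕ) (L : Fin n → ℕ) (ty : Fin n → ℕ) (η : ℝ), WS M Q a Ps →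
      (∀ U, U ⊆ Ps → U.card ≤ k → qU Q a U ≤ qm) → 1 ≤ qm → (∀ l, qm ≤ L l) → 1 ≤ S → S ≤ N → b < S →
      (∀ l, ((N : ℝ) ^ e l / S + qm) / L l ≤ η) → ∀ f : Fin n → ZMod M → ℂ, (∀ l, Bd (f l)) → ∀ x : ZMod M,
      ‖tv ((b + 1) * N / S - b * N / S) (fun m =>
          ∏ l, vT Q a k (L l) Ps (ty l) 0 (f l) (x + pz M (P l) (b * N / S + m)) (x + pz M (P l) (b * N / S + m)) -
          ∏ l, vT Q a k (L l) Ps (ty l) (pz M (P l - P i₀) (b * N / S)) (f l) (x + pz M (P i₀) (b * N / S + m))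
            (x + pz M (P l) (b * N / S + m)))‖ ≤ C * (2 * (4 * ((Ps.card : ℝ) + 2)) ^ (k + 1)) ^ n * η := by
  classical
  have hn : 1 ≤ n := Nat.succ_le_of_lt (Nat.lt_of_le_of_lt (Nat.zero_le _) i₀.isLt)
  set C₁ : ℕ := 1 + ∑ l : Fin n, e l * ∑ j ∈ range (e l + 1), ((P l - P i₀).coeff j).natAbs with hC₁
  refine ⟨n * C₁, Nat.mul_pos hn (by omega), ?_⟩
  intro M _ Q a k qm N S b Ps L ty η hWS hqm hqm1 hL hS hSN hb hη f hf x
  have hN1 : 1 ≤ N := hS.trans hSN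
  have hS0 : (0 : ℝ) < S := by exact_mod_cast hS
  have hη0 : 0 ≤ η := le_trans (by positivity) (hη i₀)
  set G : ℝ := 2 * (4 * ((Ps.card : ℝ) + 2)) ^ (k + 1) with hG
  have hG0 : 0 ≤ G := by positivity
  refine (norm_tv_le _ _).trans (tvr_le _ (by positivity) (fun m hm => ?_))
  have hkey := prod_diff (univ : Finset (Fin n))
    (fun l => vT Q a k (L l) Ps (ty l) 0 (f l) (x + pz M (P l) (b * N / S + m)) (x + pz M (P l) (b * N / S + m)))
    (fun l => vT Q a k (L l) Ps (ty l) (pz M (P l - P i₀) (b * N / S)) (f l) (x + pz M (P i₀) (b * N / S + m))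
            (x + pz M (P l) (b * N / S + m))) G (C₁ * η) hG0 (by positivity)
    (fun l _ => norm_vT_le hWS hqm (hL l) (ty l) _ (f l) (hf l) _ _)
    (fun l _ => norm_vT_le hWS hqm (hL l) (ty l) _ (f l) (hf l) _ _) (fun l _ => ?_)
  · rw [Finset.card_univ, Fintype.card_fin] at hkey
    refine hkey.trans (le_of_eq ?_)
    push_cast
    ring
  · have hLl : (0 : ℝ) < L l := by exact_mod_cast (by have := hL l; omega : 0 < L l)
    rw [vT_move Q a k (L l) Ps (ty l) (pz M (P l - P i₀) (b * N / S))]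
    set m₀ : ℕ := b * N / S with hm₀
    set δ : ℤ := (P l - P i₀).eval (((m₀ + m : ℕ)) : ℤ) - (P l - P i₀).eval ((m₀ : ℕ) : ℤ) with hδ
    have e1 : x + pz M (P l) (m₀ + m) = (x + pz M (P i₀) (m₀ + m) + pz M (P l - P i₀) m₀) + (δ : ZMod M) := by
      rw [hδ]
      unfold pz
      rw [Polynomial.eval_sub, Polynomial.eval_sub]
      push_cast
      ring
    have h2 := vT_shift hWS hqm (hL l) hqm1 (ty l) 0 (f l) (hf l)
      (x + pz M (P i₀) (m₀ + m) + pz M (P l - P i₀) m₀) (x + pz M (P l) (m₀ + m)) δ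
    rw [← e1] at h2
    refine h2.trans (mul_le_mul_of_nonneg_left ?_ hG0)
    have h3 := eval_diff (P l - P i₀) (e l) N m₀ m (h.pos l) (h.base l) (block_end N S b hS hb m hm) hN1
    rw [← hδ] at h3
    have h4 : (e l : ℤ) * (∑ j ∈ range (e l + 1), |(P l - P i₀).coeff j|) ≤ C₁ := by
      have h5 : e l * ∑ j ∈ range (e l + 1), ((P l - P i₀).coeff j).natAbs ≤ C₁ := by
        have h6 := Finset.single_le_sum (f := fun l : Fin n => e l * ∑ j ∈ range (e l + 1), ((P l - P i₀).coeff j).natAbs)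
          (fun l _ => Nat.zero_le _) (mem_univ l)
        exact h6.trans (Nat.le_add_left _ _)
      have h6 : (e l : ℤ) * (∑ j ∈ range (e l + 1), |(P l - P i₀).coeff j|) =
          ((e l * ∑ j ∈ range (e l + 1), ((P l - P i₀).coeff j).natAbs : ℕ) : ℤ) := by
        push_cast
        rfl
      rw [h6]
      exact_mod_cast h5
    have h5 : |δ| ≤ (C₁ : ℤ) * (N : ℤ) ^ (e l - 1) * m :=
      h3.trans (mul_le_mul_of_nonneg_right (mul_le_mul_of_nonneg_right h4 (by positivity)) (by positivity))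
    have h6 : |(δ : ℝ)| ≤ (C₁ : ℝ) * (N : ℝ) ^ (e l - 1) * m := by
      have : ((|δ| : ℤ) : ℝ) ≤ (((C₁ : ℤ) * (N : ℤ) ^ (e l - 1) * m : ℤ) : ℝ) := by exact_mod_cast h5
      rw [Int.cast_abs] at this
      refine this.trans (le_of_eq ?_)
      push_cast
      ring
    have h7 : (m : ℝ) ≤ N / S := by
      have h8 : m ≤ N / S := block_len N S b hS m hm
      calc (m : ℝ) ≤ ((N / S : ℕ) : ℝ) := by exact_mod_cast h8
        _ ≤ N / S := Nat.cast_div_le
    have h8 : |(δ : ℝ)| ≤ C₁ * ((N : ℝ) ^ e l / S) := by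
      refine h6.trans ?_
      calc (C₁ : ℝ) * (N : ℝ) ^ (e l - 1) * m ≤ (C₁ : ℝ) * (N : ℝ) ^ (e l - 1) * (N / S) := by gcongr
        _ = C₁ * ((N : ℝ) ^ (e l - 1) * N / S) := by ring
        _ = C₁ * ((N : ℝ) ^ e l / S) := by
          rw [← pow_succ, Nat.sub_add_cancel (h.pos l)]
    have hC1 : (1 : ℝ) ≤ C₁ := by exact_mod_cast (by omega : 1 ≤ C₁)
    calc (|(δ : ℝ)| + qm) / L l ≤ (C₁ * ((N : ℝ) ^ e l / S) + C₁ * qm) / L l := by
          have h9 : (qm : ℝ) ≤ C₁ * qm := le_mul_of_one_le_left (Nat.cast_nonneg _) hC1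
          gcongr
      _ = C₁ * (((N : ℝ) ^ e l / S + qm) / L l) := by ring
      _ ≤ C₁ * η := mul_le_mul_of_nonneg_left (hη l) (by positivity)

end Pool.Agent.EQD.G
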