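import Pool.Agent.Lib.EQG.GWey

/-!
# Module MWey: exponential sums over short blocks, all degrees `≥ 1`

The theorems `weyl_block`, `weyl_dec` (namespace `Pool.Agent.EQD.G`) are proved in `EQG.GWey`.
-/
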