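import Pool.Agent.Lib.EQD.Equ
import Pool.Agent.Lib.EQG.MWey

/-!
# Module MEqu: the module Equ for the general class (same proof)
-/

set_option autoImplicit false

open Finset Polynomial

namespace Pool.Agent.EQD.G

open Pool.Agent.HLT Pool.Agent.NLT Pool.Agent.NLG

open EquAux

theorem equi (D : ℕ) (hD : 1 ≤ D) (p : ℤ[X]) (hp : p.natDegree = D) : ∃ C N₀ : ℕ, 1 ≤ C ∧ ∀ (M : ℕ) [NeZero M] (N q H m₀ : ℕ) (κ : ℝ),
    N₀ ≤ N → 1 ≤ q → q ∣ M → q ^ C ≤ N → m₀ + H ≤ N → N ^ (C - 1) ≤ H ^ C → 0 ≤ κ → κ ^ 4 * (N : ℝ) ^ 3 ≤ 1 →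
    ∀ Ψ : ZMod M → ZMod M → ZMod M → ℂ, (∀ z y r, ‖Ψ z y r‖ ≤ 1) → (∀ z y r, Ψ z (y + (q : ZMod M)) r = Ψ z y r) →
      (∀ z y r, Ψ z y (r + (q : ZMod M)) = Ψ z y r) → (∀ z y r, ‖Ψ (z + 1) y r - Ψ z y r‖ ≤ κ) →
      n2 (fun x => tv H (fun m => Ψ (x + pz M p (m₀ + m)) x ((m₀ + m : ℕ) : ZMod M) -
        av (fun r => Ψ (x + pz M p (m₀ + m)) x r))) ^ C * N ≤ 1 := by
  obtain ⟨C₁, N₁, hC₁, hw⟩ := weyl_block D hD p hp
  refine ⟨20 * C₁, max N₁ (2 ^ (20 * C₁)), by omega, ?_⟩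
  intro M _ N q H m₀ κ hN hq hqM hqN hmH hH hκ0 hκ Ψ hΨ hy hr hz
  have hN1 : N₁ ≤ N := (le_max_left _ _).trans hN
  have hN2 : 2 ^ (20 * C₁) ≤ N := (le_max_right _ _).trans hN
  have hNpos : 0 < N := lt_of_lt_of_le (by positivity) hN2
  have : NeZero q := ⟨by omega⟩
  obtain ⟨u, hu2, hqu, huN⟩ := nums C₁ hC₁ N q hN2 hqN
  have hu0 : 0 < u := by linarith
  have hu1 : 1 ≤ u := by linarith
  have hN0 : (0 : ℝ) < N := by exact_mod_cast hNpos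
  have hqC : q ^ C₁ ≤ N := (Nat.pow_le_pow_right hq (by omega)).trans hqN
  have hHN : H ≤ N := by omega
  have hHC : N ^ (C₁ - 1) ≤ H ^ C₁ := by
    have e1 : 20 * C₁ - 1 = (C₁ - 1) + 19 * C₁ := by omega
    have e2 : 20 * C₁ = C₁ + 19 * C₁ := by omega
    rw [e1, e2, pow_add, pow_add] at hH
    have h3 : H ^ C₁ * H ^ (19 * C₁) ≤ H ^ C₁ * N ^ (19 * C₁) := Nat.mul_le_mul_left _ (Nat.pow_le_pow_left hHN _)
    exact Nat.le_of_mul_le_mul_right (hH.trans h3) (by positivity)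
  -- the multipliers
  have hδ : ∀ ξ : ZMod q, ξ ≠ 0 → ∀ β : ℝ, |β| ^ 2 * N ≤ 1 →
      ‖tv H (fun m => chi ξ ((m₀ + m : ℕ) : ZMod q) * ex (β * ((p.eval ((m₀ + m : ℕ) : ℤ) : ℤ) : ℝ)))‖ ≤ 1 / u ^ 20 := by
    intro ξ hξ β hβ
    have hb : ¬ q ∣ ξ.val := by
      intro hd
      have h1 : ξ.val < q := ZMod.val_lt ξ
      have h2 : ξ.val = 0 := Nat.eq_zero_of_dvd_of_lt hd h1
      exact hξ ((ZMod.val_eq_zero ξ).mp h2)
    have h1 := hw N q H m₀ ξ.val β hN1 hq hqC hmH hHC hβ hb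
    have e1 : (fun m : ℕ => ex ((ξ.val : ℝ) * ((m₀ + m : ℕ) : ℝ) / q + β * ((p.eval ((m₀ + m : ℕ) : ℤ) : ℤ) : ℝ))) =
        fun m : ℕ => chi ξ ((m₀ + m : ℕ) : ZMod q) * ex (β * ((p.eval ((m₀ + m : ℕ) : ℤ) : ℤ) : ℝ)) := by
      funext m
      have h2 := chi_int ξ ((m₀ + m : ℕ) : ℤ)
      rw [Int.cast_natCast, Int.cast_natCast] at h2
      rw [h2, ← ex_add]
      congr 1
      ring
    rw [e1] at h1
    set T : ℝ := ‖tv H (fun m => chi ξ ((m₀ + m : ℕ) : ZMod q) * ex (β * ((p.eval ((m₀ + m : ℕ) : ℤ) : ℤ) : ℝ)))‖ with hT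
    have h3 : (T * u ^ 20) ^ C₁ ≤ 1 := by
      rw [mul_pow, ← pow_mul, huN]
      exact h1
    have hT0 : 0 ≤ T := norm_nonneg _
    have h4 : T * u ^ 20 ≤ 1 := by
      by_contra h5
      push Not at h5
      have h6 : 1 < (T * u ^ 20) ^ C₁ := one_lt_pow₀ h5 (by omega)
      linarith
    rw [le_div_iff₀ (by positivity)]
    exact h4
  have hκ2 : (N : ℝ) * κ ^ 2 * u ^ 10 ≤ 1 := by
    have h1 : u ^ 20 ≤ (N : ℝ) := by
      rw [← huN]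
      exact pow_le_pow_right₀ hu1 (by omega)
    have h2 : ((N : ℝ) * κ ^ 2 * u ^ 10) ^ 2 ≤ 1 := by
      calc ((N : ℝ) * κ ^ 2 * u ^ 10) ^ 2 = (κ ^ 4 * (N : ℝ) ^ 2) * u ^ 20 := by ring
        _ ≤ (κ ^ 4 * (N : ℝ) ^ 2) * N := mul_le_mul_of_nonneg_left h1 (by positivity)
        _ = κ ^ 4 * (N : ℝ) ^ 3 := by ring
        _ ≤ 1 := hκ
    have h3 : 0 ≤ (N : ℝ) * κ ^ 2 * u ^ 10 := by positivity
    nlinarith
  set G : ℝ := (1 / u ^ 20) ^ 2 + N * κ ^ 2 / 16 with hG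
  have hG0 : 0 ≤ G := by positivity
  have hmain := dev_le hqM H m₀ (fun m => pz M p (m₀ + m)) Ψ hy hr G hG0 (by
    intro ξ hξ s t
    exact n2_Tw_le p N H m₀ (fun m => chi ξ ((m₀ + m : ℕ) : ZMod q)) (fun m => (norm_chi _ _).le)
      (fun z => Ψ z ((t.val : ℕ) : ZMod M) ((s.val : ℕ) : ZMod M)) (fun z => hΨ _ _ _) κ (1 / u ^ 20)
      (fun z => hz _ _ _) (hδ ξ hξ))
  set E : ℝ := n2 (fun x => tv H (fun m => Ψ (x + pz M p (m₀ + m)) x ((m₀ + m : ℕ) : ZMod M) -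
        av (fun r => Ψ (x + pz M p (m₀ + m)) x r))) with hE
  have hE0 : 0 ≤ E := n2_nonneg _
  have hEu : E * u ≤ 1 := by
    have h1 : G * u ^ 10 ≤ 2 := by
      have h2 : (1 / u ^ 20) ^ 2 * u ^ 10 ≤ 1 := by
        have h3 : (1 / u ^ 20) ^ 2 * u ^ 10 = 1 / u ^ 30 := by
          field_simp
        rw [h3, div_le_one (by positivity)]
        exact one_le_pow₀ hu1
      rw [hG, add_mul]
      linarith
    have h2 : (q : ℝ) ^ 3 ≤ u ^ 3 := pow_le_pow_left₀ (Nat.cast_nonneg q) hqu 3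
    have h3 : E ≤ u ^ 3 * G := hmain.trans (mul_le_mul_of_nonneg_right h2 hG0)
    have h4 : E * u * u ^ 6 ≤ 2 := by
      calc E * u * u ^ 6 ≤ (u ^ 3 * G) * u * u ^ 6 := by
            refine mul_le_mul_of_nonneg_right (mul_le_mul_of_nonneg_right h3 hu0.le) (by positivity)
        _ = G * u ^ 10 := by ring
        _ ≤ 2 := h1
    have h5 : (2 : ℝ) ≤ u ^ 6 := by
      calc (2 : ℝ) ≤ 2 ^ 6 := by norm_num
        _ ≤ u ^ 6 := pow_le_pow_left₀ (by norm_num) hu2 6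
    have h6 : 0 ≤ E * u := by positivity
    nlinarith
  calc E ^ (20 * C₁) * N = (E * u) ^ (20 * C₁) := by rw [mul_pow, huN]
    _ ≤ 1 := pow_le_one₀ (by positivity) hEu

end Pool.Agent.EQD.G
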