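import Pool.Agent.Lib.EQD.BlkB
import Pool.Agent.Lib.EQG.MEqu
import Pool.Agent.Lib.EQG.Defs

/-!
# Module MBlkB: the module BlkB for the general class (same proof)
-/

set_option autoImplicit false

open Finset Polynomial

namespace Pool.Agent.EQD.G

open Pool.Agent.HLT Pool.Agent.NLT Pool.Agent.NLG

open BlkBAux

theorem blkB {n : ℕ} {P : Fin n → ℤ[X]} {e : Fin n → ℕ} {i₀ : Fin n} (h : GDeg P e i₀) : ∃ C N₀ : ℕ, 1 ≤ C ∧
    ∀ (M : ℕ) [NeZero M] (N K q H m₀ : ℕ) (κ : ℝ), N₀ ≤ N → 1 ≤ K → 1 ≤ q → (K * q) ^ C ≤ N → m₀ + H ≤ N → N ^ (C - 1) ≤ H ^ C →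
      0 ≤ κ → (n * κ) ^ 4 * (N : ℝ) ^ 3 ≤ 1 → ∀ V : Fin n → ZMod M → ZMod M → ℂ, (∀ l, Sl K q κ (V l)) →
      n2 (fun x => tv H (fun m => ∏ l, V l (x + pz M (P i₀) (m₀ + m)) (x + pz M (P l) (m₀ + m)) -
        AA M P (fun l => V l (x + pz M (P i₀) (m₀ + m))) x)) ^ C * N ≤ 1 := by
  obtain ⟨C₁, N₁, hC₁, hequi⟩ := equi (P i₀).natDegree ((h.pos i₀).trans (h.le i₀)) (P i₀) rfl
  refine ⟨C₁ * (4 * n + 1), max N₁ 1, ?_, ?_⟩
  · exact Nat.succ_le_of_lt (Nat.mul_pos hC₁ (Nat.succ_pos _))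
  intro M _ N K q H m₀ κ hN hK hq hKq hmH hNH hκ hκN V hV
  have hN1 : N₁ ≤ N := (le_max_left _ _).trans hN
  have hNpos : 1 ≤ N := (le_max_right _ _).trans hN
  have hNr : (0 : ℝ) < N := by exact_mod_cast hNpos
  choose ι hι φ d hcard hd hper hbd hlip hsum using hV
  letI : ∀ l, Fintype (ι l) := hι
  -- exponents
  have hE1 : N ^ (C₁ - 1) ≤ H ^ C₁ := by
    obtain ⟨c, rfl⟩ : ∃ c, C₁ = c + 1 := ⟨C₁ - 1, by omega⟩
    obtain ⟨c', hc'⟩ : ∃ c', (c + 1) * (4 * n + 1) = c' + 1 :=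
      ⟨(c + 1) * (4 * n + 1) - 1, (Nat.sub_add_cancel (Nat.mul_pos (Nat.succ_pos c) (Nat.succ_pos (4 * n)))).symm⟩
    rw [hc'] at hNH
    rw [Nat.add_sub_cancel] at hNH ⊢
    refine exps N H c c' hNpos ?_ hNH
    nlinarith
  have hq1 : ∀ d' : ℕ, d' ≤ q ^ n → d' ^ C₁ ≤ N := by
    intro d' hd'
    have hKq1 : 1 ≤ K * q := Nat.mul_pos hK hq
    calc d' ^ C₁ ≤ (q ^ n) ^ C₁ := Nat.pow_le_pow_left hd' _
      _ ≤ ((K * q) ^ n) ^ C₁ := Nat.pow_le_pow_left (Nat.pow_le_pow_left (Nat.le_mul_of_pos_left q hK) _) _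
      _ = (K * q) ^ (n * C₁) := by rw [← pow_mul]
      _ ≤ (K * q) ^ (C₁ * (4 * n + 1)) := Nat.pow_le_pow_right hKq1 (by nlinarith)
      _ ≤ N := hKq
  have hKN : (K : ℝ) ^ (C₁ * (4 * n + 1)) ≤ N := by
    have h1 : K ^ (C₁ * (4 * n + 1)) ≤ N :=
      (Nat.pow_le_pow_left (Nat.le_mul_of_pos_right K hq) _).trans hKq
    exact_mod_cast h1
  -- one tuple
  set g : (∀ l, ι l) → ZMod M → ℂ := fun a x => tv H (fun m =>
    Psi K P (fun l => φ l (a l)) (x + pz M (P i₀) (m₀ + m)) x ((m₀ + m : ℕ) : ZMod M) -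
      av (fun r => Psi K P (fun l => φ l (a l)) (x + pz M (P i₀) (m₀ + m)) x r)) with hg
  have hga : ∀ a, n2 (g a) ^ C₁ * N ≤ 1 := by
    intro a
    set d' : ℕ := univ.lcm (fun l => d l (a l)) with hd'
    have hdv : ∀ l, d l (a l) ∣ d' := fun l => Finset.dvd_lcm (mem_univ l)
    have hdM : d' ∣ M := Finset.lcm_dvd (fun l _ => (hd l (a l)).2.2)
    have hd1 : 1 ≤ d' := Nat.pos_of_ne_zero (fun h0 => NeZero.ne M (Nat.eq_zero_of_zero_dvd (h0 ▸ hdM)))
    have hdq : d' ≤ q ^ n := by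
      have h1 : d' ∣ ∏ l, d l (a l) := Finset.lcm_dvd_prod _ _
      have h2 : 0 < ∏ l, d l (a l) := Finset.prod_pos (fun l _ => (hd l (a l)).1)
      refine (Nat.le_of_dvd h2 h1).trans ?_
      calc ∏ l, d l (a l) ≤ ∏ _l : Fin n, q := Finset.prod_le_prod' (fun l _ => (hd l (a l)).2.1)
        _ = q ^ n := by rw [Finset.prod_const, Finset.card_univ, Fintype.card_fin]
    refine hequi M N d' H m₀ (n * κ) hN1 hd1 hdM (hq1 d' hdq) hmH hE1 (by positivity) hκN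
      (Psi K P (fun l => φ l (a l))) ?_ ?_ ?_ ?_
    · exact Psi_norm hK P _ (fun l z y => hbd l (a l) z y)
    · exact Psi_y P _ d' (fun l => d l (a l)) hdv (fun l z y => hper l (a l) z y)
    · exact Psi_r P _ d' (fun l => d l (a l)) hdv (fun l z y => hper l (a l) z y)
    · exact Psi_lip hK P _ κ hκ (fun l z y => hbd l (a l) z y) (fun l z y => hlip l (a l) z y)
  -- the sum over the tuples
  have hexp : ∀ (z y : ZMod M) (t : ℕ), ∏ l, V l z (y + pz M (P l) t) =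
      ∑ a : (∀ l, ι l), ∏ l, φ l (a l) z (y + pz M (P l) t) := by
    intro z y t
    have h1 : ∀ l, V l z (y + pz M (P l) t) = ∑ b, φ l b z (y + pz M (P l) t) := fun l => hsum l z _
    simp only [h1]
    rw [Finset.prod_univ_sum, Fintype.piFinset_univ]
  have hG : (fun x => tv H (fun m => ∏ l, V l (x + pz M (P i₀) (m₀ + m)) (x + pz M (P l) (m₀ + m)) -
        AA M P (fun l => V l (x + pz M (P i₀) (m₀ + m))) x)) = fun x => ∑ a, (K : ℂ) ^ n * g a x := by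
    funext x
    have h2 : ∀ m : ℕ, ∏ l, V l (x + pz M (P i₀) (m₀ + m)) (x + pz M (P l) (m₀ + m)) -
        AA M P (fun l => V l (x + pz M (P i₀) (m₀ + m))) x =
        ∑ a : (∀ l, ι l), (K : ℂ) ^ n * (Psi K P (fun l => φ l (a l)) (x + pz M (P i₀) (m₀ + m)) x ((m₀ + m : ℕ) : ZMod M) -
          av (fun r => Psi K P (fun l => φ l (a l)) (x + pz M (P i₀) (m₀ + m)) x r)) := by
      intro m
      simp only [mul_sub]
      rw [Finset.sum_sub_distrib]
      congr 1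
      · rw [hexp]
        exact Finset.sum_congr rfl (fun a _ => (Psi_at hK P (fun l => φ l (a l)) _ _ _).symm)
      · have h3 : AA M P (fun l => V l (x + pz M (P i₀) (m₀ + m))) x =
            tv M (fun t => ∑ a : (∀ l, ι l), ∏ l, φ l (a l) (x + pz M (P i₀) (m₀ + m)) (x + pz M (P l) t)) := by
          unfold AA
          congr 1
          funext t
          exact hexp _ _ _
        rw [h3]
        have h4 : ∀ a : (∀ l, ι l), (K : ℂ) ^ n * av (fun r => Psi K P (fun l => φ l (a l)) (x + pz M (P i₀) (m₀ + m)) x r) =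
            tv M (fun t => ∏ l, φ l (a l) (x + pz M (P i₀) (m₀ + m)) (x + pz M (P l) t)) :=
          fun a => Psi_av hK P (fun l => φ l (a l)) _ _
        simp only [h4]
        unfold tv
        rw [← Finset.sum_div, Finset.sum_comm]
    simp only [h2, hg]
    unfold tv
    simp only [mul_div_assoc']
    rw [← Finset.sum_div, Finset.sum_comm]
    congr 1
    refine Finset.sum_congr rfl (fun a _ => ?_)
    rw [Finset.mul_sum]
  rw [hG]
  have hcd : (Fintype.card (∀ l, ι l) : ℝ) ≤ (K : ℝ) ^ n := by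
    rw [Fintype.card_pi]
    have h5 : ∏ l, Fintype.card (ι l) ≤ K ^ n := by
      calc ∏ l, Fintype.card (ι l) ≤ ∏ _l : Fin n, K := Finset.prod_le_prod' (fun l _ => hcard l)
        _ = K ^ n := by rw [Finset.prod_const, Finset.card_univ, Fintype.card_fin]
    exact_mod_cast h5
  have hbig := n2_sum_le (fun (a : (∀ l, ι l)) x => (K : ℂ) ^ n * g a x)
  simp only [n2_cmul] at hbig
  rcases isEmpty_or_nonempty (∀ l, ι l) with hemp | hne
  · have h6 : n2 (fun x => ∑ a, (K : ℂ) ^ n * g a x) ≤ 0 := by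
      refine hbig.trans (le_of_eq ?_)
      rw [Fintype.card_eq_zero]
      simp
    have h7 : n2 (fun x => ∑ a, (K : ℂ) ^ n * g a x) = 0 := le_antisymm h6 (n2_nn _)
    rw [h7, zero_pow (by positivity), zero_mul]
    exact zero_le_one
  · obtain ⟨a₀, -, ha₀⟩ := Finset.exists_max_image (univ : Finset (∀ l, ι l)) (fun a => n2 (g a)) Finset.univ_nonempty
    refine fin_bound N K n C₁ hNpos (n2 (g a₀)) _ (n2_nn _) (n2_nn _) ?_ (hga a₀) hKN
    refine hbig.trans ?_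
    have h8 : ∑ a, ‖(K : ℂ) ^ n‖ ^ 2 * n2 (g a) ≤ Fintype.card (∀ l, ι l) * (((K : ℝ) ^ n) ^ 2 * n2 (g a₀)) := by
      calc ∑ a, ‖(K : ℂ) ^ n‖ ^ 2 * n2 (g a) ≤ ∑ _a : (∀ l, ι l), ((K : ℝ) ^ n) ^ 2 * n2 (g a₀) := by
            refine Finset.sum_le_sum (fun a ha => ?_)
            rw [norm_pow, Complex.norm_natCast]
            exact mul_le_mul_of_nonneg_left (ha₀ a ha) (by positivity)
        _ = Fintype.card (∀ l, ι l) * (((K : ℝ) ^ n) ^ 2 * n2 (g a₀)) := by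
            rw [Finset.sum_const, Finset.card_univ, nsmul_eq_mul]
    have h9 : 0 ≤ ((K : ℝ) ^ n) ^ 2 * n2 (g a₀) := mul_nonneg (by positivity) (n2_nn _)
    have hc0 : (0 : ℝ) ≤ Fintype.card (∀ l, ι l) := Nat.cast_nonneg _
    calc (Fintype.card (∀ l, ι l) : ℝ) * ∑ a, ‖(K : ℂ) ^ n‖ ^ 2 * n2 (g a) ≤
          (K : ℝ) ^ n * ((K : ℝ) ^ n * (((K : ℝ) ^ n) ^ 2 * n2 (g a₀))) := by
          refine mul_le_mul hcd (h8.trans (mul_le_mul_of_nonneg_right hcd h9)) ?_ (by positivity)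
          exact Finset.sum_nonneg (fun a _ => mul_nonneg (by positivity) (n2_nn _))
      _ = (K : ℝ) ^ (4 * n) * n2 (g a₀) := by
          rw [show 4 * n = n + (n + (n + n)) by ring, pow_add, pow_add, pow_add]
          ring

end Pool.Agent.EQD.G
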