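import Pool.Agent.Lib.EQD.EnA
import Pool.Agent.Lib.EQG.MWey

/-!
# Module MEnA: the module EnA for the general class (same proof)
-/

set_option autoImplicit false

open Finset Polynomial

namespace Pool.Agent.EQD.G

open Pool.Agent.HLT Pool.Agent.NLT Pool.Agent.NLG

open EnAAux

theorem en_wm (D : ℕ) (hD : 1 ≤ D) (p : ℤ[X]) (hp : p.natDegree = D) (A₄ : ℕ) (hA : 1 ≤ A₄) : ∃ (G : ℝ) (K₀ : ℕ), 0 ≤ G ∧
    ∀ (K b : ℕ) (N : ℕ → ℕ) (β : ℝ), K₀ ≤ K → Sc N → b < 2 ^ (K * A₄) → |β| * 2 ^ (2 ^ K / 2) ≤ 1 →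
    ∀ k < K, ∑ q ∈ range (2 ^ (K - k - 1)),
      ‖wm p (2 ^ (K * A₄)) b (N (2 ^ (K + 1) - 1 - (2 * q + 1) * 2 ^ k)) β -
        wm p (2 ^ (K * A₄)) b (N (2 ^ (K + 1) - 1 - 2 * q * 2 ^ k)) β‖ ^ 2 ≤ G * K := by
  obtain ⟨Aw, hAw, hdec⟩ := weyl_dec D hD p hp A₄
  obtain ⟨C₁, hC₁, hnear⟩ := wm_near D p hp
  obtain ⟨G, hG, hen⟩ := en_abs (Aw + D) C₁
  refine ⟨G, 2 * (Aw + A₄) + 4, hG, ?_⟩
  intro K b N β hK hN hb hβ k hk
  have hK4 : 4 ≤ K := by omega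
  have hhalf := mul_le_half K (Aw + A₄) hK
  have hhalf2 : 2 ^ K / 2 ≤ 2 ^ K := Nat.div_le_self _ _
  have hKA4 : K * A₄ ≤ 2 ^ K / 2 := le_trans (Nat.mul_le_mul_left K (by omega)) hhalf
  have hKAw : K * Aw ≤ 2 ^ K / 2 := le_trans (Nat.mul_le_mul_left K (by omega)) hhalf
  refine hen K D (|β| * 2 ^ D) (fun j => wm p (2 ^ (K * A₄)) b (N j) β) (by omega) (by omega)
    (by positivity) ?_ k hk
  intro j hj1 hj2
  obtain ⟨hN1, hN2⟩ := hN j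
  have hS1 : 1 ≤ 2 ^ (K * A₄) := Nat.one_le_two_pow
  have hSN : 2 ^ (K * A₄) ≤ N j :=
    (Nat.pow_le_pow_right (by norm_num) (by omega)).trans hN1
  have hnr := hnear (N j) (2 ^ (K * A₄)) b β hS1 hSN hb
  refine ⟨norm_wm_le_one _ _ _ _ _, hnr.1.trans ?_, fun hbig => ?_⟩
  · refine mul_le_mul_of_nonneg_left ?_ (Nat.cast_nonneg _)
    have h1 : (N j : ℝ) ≤ 2 ^ (j + 1) := by exact_mod_cast hN2.le
    have h2 : (N j : ℝ) ^ D ≤ (2 ^ (j + 1)) ^ D := pow_le_pow_left₀ (Nat.cast_nonneg _) h1 D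
    calc |β| * (N j : ℝ) ^ D ≤ |β| * (2 ^ (j + 1)) ^ D :=
          mul_le_mul_of_nonneg_left h2 (abs_nonneg _)
      _ = |β| * 2 ^ D * 2 ^ (D * j) := by
          rw [← pow_mul, mul_assoc, ← pow_add]
          congr 2
          ring
  · have hlam : ((2 ^ K : ℕ) : ℝ) = 2 ^ K := by push_cast; rfl
    have h2lam : 2 ≤ 2 ^ K := by
      calc 2 = 2 ^ 1 := rfl
        _ ≤ 2 ^ K := Nat.pow_le_pow_right (by norm_num) (by omega)
    have hS : (2 ^ K) ^ A₄ = 2 ^ (K * A₄) := (pow_mul 2 K A₄).symm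
    have hd := hdec (N j) (2 ^ K) b β h2lam ?_ ?_ ?_ ?_
    · rw [hS, hlam] at hd
      exact hd
    · rw [← pow_mul]
      exact (Nat.pow_le_pow_right (by norm_num) (by omega)).trans hN1
    · rw [hS]
      exact hb
    · rw [hlam, ← pow_mul]
      refine le_trans (mul_le_mul_of_nonneg_left ?_ (abs_nonneg _)) hβ
      exact pow_le_pow_right₀ (by norm_num) hKAw
    · rw [hlam, ← pow_mul]
      have h1 : ((2 : ℝ) ^ j) ^ D ≤ (N j : ℝ) ^ D := by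
        refine pow_le_pow_left₀ (by positivity) ?_ D
        exact_mod_cast hN1
      have h2 : (2 : ℝ) ^ (K * Aw) * 2 ^ D ≤ |β| * 2 ^ D * 2 ^ (D * j) := by
        refine le_trans ?_ hbig
        rw [← pow_add]
        refine pow_le_pow_right₀ (by norm_num) ?_
        have : D ≤ K * D := Nat.le_mul_of_pos_left D (by omega)
        rw [mul_add]
        omega
      have h3 : (2 : ℝ) ^ (K * Aw) ≤ |β| * 2 ^ (D * j) := by
        have h4 : (0 : ℝ) < 2 ^ D := by positivity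
        refine le_of_mul_le_mul_right ?_ h4
        calc (2 : ℝ) ^ (K * Aw) * 2 ^ D ≤ |β| * 2 ^ D * 2 ^ (D * j) := h2
          _ = |β| * 2 ^ (D * j) * 2 ^ D := by ring
      refine h3.trans (mul_le_mul_of_nonneg_left ?_ (abs_nonneg _))
      rw [mul_comm D j, pow_mul]
      exact h1

theorem en_wb (D : ℕ) (hD : 1 ≤ D) (p : ℤ[X]) (hp : p.natDegree = D) (A₄ : ℕ) (hA : 1 ≤ A₄) : ∃ (G : ℝ) (K₀ : ℕ), 0 ≤ G ∧
    ∀ (M : ℕ) [NeZero M] (K b : ℕ) (N : ℕ → ℕ) (g : ZMod M → ℂ) (κ : ℝ), K₀ ≤ K → Sc N → b < 2 ^ (K * A₄) →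
    (∀ x, ‖g (x + 1) - g x‖ ≤ κ) → ∀ k < K, ∑ q ∈ range (2 ^ (K - k - 1)),
      n2 (fun x => wb p (2 ^ (K * A₄)) b (N (2 ^ (K + 1) - 1 - (2 * q + 1) * 2 ^ k)) g x -
        wb p (2 ^ (K * A₄)) b (N (2 ^ (K + 1) - 1 - 2 * q * 2 ^ k)) g x) ≤ G * K * n2 g + 2 ^ K * 4 * (2 ^ (2 ^ K / 2) * κ) ^ 2 := by
  obtain ⟨G, K₀, hG, hwm⟩ := en_wm D hD p hp A₄ hA
  refine ⟨G, K₀, hG, ?_⟩
  intro M _ K b N g κ hK hN hb hg k hk
  set S := 2 ^ (K * A₄) with hS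
  set T : ℝ := 2 ^ (2 ^ K / 2) with hT
  have hT0 : 0 < T := by positivity
  have hκ : 0 ≤ κ := (norm_nonneg _).trans (hg 0)
  -- the square sum of the multipliers
  set W : ZMod M → ℝ := fun ξ => ∑ q ∈ range (2 ^ (K - k - 1)),
      ‖wm p S b (N (2 ^ (K + 1) - 1 - (2 * q + 1) * 2 ^ k)) ((ξ.val : ℝ) / M) -
        wm p S b (N (2 ^ (K + 1) - 1 - 2 * q * 2 ^ k)) ((ξ.val : ℝ) / M)‖ ^ 2 with hW
  have h1 : ∑ q ∈ range (2 ^ (K - k - 1)),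
      n2 (fun x => wb p S b (N (2 ^ (K + 1) - 1 - (2 * q + 1) * 2 ^ k)) g x -
        wb p S b (N (2 ^ (K + 1) - 1 - 2 * q * 2 ^ k)) g x) = ∑ ξ, W ξ * ‖ft g ξ‖ ^ 2 := by
    have h2 : ∀ q : ℕ, n2 (fun x => wb p S b (N (2 ^ (K + 1) - 1 - (2 * q + 1) * 2 ^ k)) g x -
        wb p S b (N (2 ^ (K + 1) - 1 - 2 * q * 2 ^ k)) g x) =
        ∑ ξ : ZMod M, ‖wm p S b (N (2 ^ (K + 1) - 1 - (2 * q + 1) * 2 ^ k)) ((ξ.val : ℝ) / M) -
        wm p S b (N (2 ^ (K + 1) - 1 - 2 * q * 2 ^ k)) ((ξ.val : ℝ) / M)‖ ^ 2 * ‖ft g ξ‖ ^ 2 := by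
      intro q
      rw [n2_eq_ft]
      refine sum_congr rfl fun ξ _ => ?_
      rw [ft_sub (wb p S b (N (2 ^ (K + 1) - 1 - (2 * q + 1) * 2 ^ k)) g)
        (wb p S b (N (2 ^ (K + 1) - 1 - 2 * q * 2 ^ k)) g), ft_wb, ft_wb, ← sub_mul, norm_mul,
        mul_pow]
    rw [sum_congr rfl (fun q _ => h2 q), sum_comm]
    refine sum_congr rfl fun ξ _ => ?_
    rw [hW, sum_mul]
  have h3 : ∀ ξ : ZMod M, W ξ * ‖ft g ξ‖ ^ 2 ≤ G * K * ‖ft g ξ‖ ^ 2 +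
      2 ^ K * 4 * T ^ 2 * ‖ft (fun x => g (x + 1) - g x) ξ‖ ^ 2 := by
    intro ξ
    have hf0 : 0 ≤ ‖ft g ξ‖ ^ 2 := sq_nonneg _
    rcases le_or_gt (nrm ((ξ.val : ℝ) / M) * T) 1 with h | h
    · have h4 : W ξ ≤ G * K := by
        have h5 := hwm K b N ((ξ.val : ℝ) / M - round ((ξ.val : ℝ) / M)) hK hN hb h k hk
        simp only [wm_sub_int] at h5
        exact h5
      have h6 : W ξ * ‖ft g ξ‖ ^ 2 ≤ G * K * ‖ft g ξ‖ ^ 2 := mul_le_mul_of_nonneg_right h4 hf0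
      have h7 : 0 ≤ 2 ^ K * 4 * T ^ 2 * ‖ft (fun x => g (x + 1) - g x) ξ‖ ^ 2 := by positivity
      linarith
    · have h4 : W ξ ≤ 2 ^ K * 4 := by
        have h5 : W ξ ≤ (range (2 ^ (K - k - 1))).card • (4 : ℝ) := by
          refine sum_le_card_nsmul _ _ _ fun q _ => ?_
          have h6 := norm_wm_le_one p S b (N (2 ^ (K + 1) - 1 - (2 * q + 1) * 2 ^ k))
            ((ξ.val : ℝ) / M)
          have h7 := norm_wm_le_one p S b (N (2 ^ (K + 1) - 1 - 2 * q * 2 ^ k)) ((ξ.val : ℝ) / M)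
          have h8 := (norm_sub_le (wm p S b (N (2 ^ (K + 1) - 1 - (2 * q + 1) * 2 ^ k))
            ((ξ.val : ℝ) / M)) (wm p S b (N (2 ^ (K + 1) - 1 - 2 * q * 2 ^ k))
            ((ξ.val : ℝ) / M))).trans (add_le_add h6 h7)
          calc _ ≤ ((1 : ℝ) + 1) ^ 2 := pow_le_pow_left₀ (norm_nonneg _) h8 2
            _ = 4 := by norm_num
        rw [card_range, nsmul_eq_mul] at h5
        refine h5.trans (mul_le_mul_of_nonneg_right ?_ (by norm_num))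
        have h6 : 2 ^ (K - k - 1) ≤ 2 ^ K := Nat.pow_le_pow_right (by norm_num) (by omega)
        exact_mod_cast h6
      have h5 : 1 ≤ T * ‖ex ((ξ.val : ℝ) / M) - 1‖ := by
        have h6 := four_nrm_le ((ξ.val : ℝ) / M)
        have h7 := nrm_nonneg ((ξ.val : ℝ) / M)
        nlinarith
      have h6 : ‖ft g ξ‖ ≤ T * ‖ft (fun x => g (x + 1) - g x) ξ‖ := by
        rw [ft_diff, norm_mul, ← mul_assoc]
        exact le_mul_of_one_le_left (norm_nonneg _) h5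
      have h7 : ‖ft g ξ‖ ^ 2 ≤ T ^ 2 * ‖ft (fun x => g (x + 1) - g x) ξ‖ ^ 2 := by
        rw [← mul_pow]
        exact pow_le_pow_left₀ (norm_nonneg _) h6 2
      calc W ξ * ‖ft g ξ‖ ^ 2 ≤ 2 ^ K * 4 * ‖ft g ξ‖ ^ 2 := mul_le_mul_of_nonneg_right h4 hf0
        _ ≤ 2 ^ K * 4 * (T ^ 2 * ‖ft (fun x => g (x + 1) - g x) ξ‖ ^ 2) :=
            mul_le_mul_of_nonneg_left h7 (by positivity)
        _ = 0 + 2 ^ K * 4 * T ^ 2 * ‖ft (fun x => g (x + 1) - g x) ξ‖ ^ 2 := by ring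
        _ ≤ _ := add_le_add (by positivity) le_rfl
  rw [h1]
  refine (sum_le_sum fun ξ _ => h3 ξ).trans ?_
  rw [sum_add_distrib, ← mul_sum, ← mul_sum, ← n2_eq_ft, ← n2_eq_ft]
  refine add_le_add le_rfl ?_
  have h8 : n2 (fun x => g (x + 1) - g x) ≤ κ ^ 2 :=
    avr_le fun x => pow_le_pow_left₀ (norm_nonneg _) (hg x) 2
  calc 2 ^ K * 4 * T ^ 2 * n2 (fun x => g (x + 1) - g x) ≤ 2 ^ K * 4 * T ^ 2 * κ ^ 2 :=
        mul_le_mul_of_nonneg_left h8 (by positivity)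
    _ = 2 ^ K * 4 * (T * κ) ^ 2 := by ring

end Pool.Agent.EQD.G
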