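import Pool.Agent.Lib.EQD.L2loc
import Pool.Agent.Lib.EQG.GL2f

/-!
# Module MLoc: gain in L2 for the general class

PROOF. The same as in `EQD.L2loc` (its auxiliary lemmas can be used; `common` has to be repeated with the degrees `(P l).natDegree`, which may be different). `l2loc`: only the slot `i` of the kernel is used, so
`improve` is needed only for `P i` with `M ≤ B N ^ deg (P i)` (first half of `common`). `l2fib` is in `EQG.GL2f`.
-/

set_option autoImplicit false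

open Finset Polynomial

namespace Pool.Agent.EQD.G

open Pool.Agent.HLT Pool.Agent.NLT Pool.Agent.NLG

namespace MLocAux

open Pool.Agent.EQD.L2locAux

/-- A common constant for the improving inequality; the degrees may be different. -/
lemma improve_all {n : ℕ} (P : Fin n → ℤ[X]) (hdeg : ∀ i, 1 ≤ (P i).natDegree) (B : ℕ) :
    ∃ C₀ : ℕ, 1 ≤ C₀ ∧ ∀ (i : Fin n) (M : ℕ) [NeZero M] (N r : ℕ), 1 ≤ r → 1 ≤ N → M ≤ B * N ^ (P i).natDegree → ∀
      (E : Finset (ZMod M)), E.card * r ^ C₀ ≤ M →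
      avr (fun x => AR N (P i) (ind E) x ^ 2) ≤ C₀ * ((E.card : ℝ) / M) / r := by
  have hex : ∀ i : Fin n, ∃ C : ℕ, 1 ≤ C ∧ ∀ (M : ℕ) [NeZero M] (N R : ℕ), 1 ≤ R → 1 ≤ N →
      M ≤ B * N ^ (P i).natDegree → ∀ E : Finset (ZMod M), E.card * R ^ C ≤ M →
      avr (fun x => AR N (P i) (fun y => if y ∈ E then 1 else 0) x ^ 2) ≤ C * ((E.card : ℝ) / M) / R :=
    fun i => improve (P i) (P i).natDegree rfl (hdeg i) B
  choose C hC1 hC using hex
  refine ⟨1 + ∑ i, C i, by omega, ?_⟩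
  intro i M _ N r hr hN hM E hE
  have hCi : C i ≤ 1 + ∑ i, C i := by
    have := Finset.single_le_sum (f := C) (fun j _ => Nat.zero_le _) (mem_univ i)
    omega
  have h1 := hC i M N r hr hN hM E
    ((Nat.mul_le_mul_left _ (Nat.pow_le_pow_right hr hCi)).trans hE)
  have h2 : (fun x => AR N (P i) (ind E) x ^ 2) =
      fun x => AR N (P i) (fun y => if y ∈ E then 1 else 0) x ^ 2 := rfl
  rw [h2]
  refine h1.trans ?_
  refine div_le_div_of_nonneg_right ?_ (Nat.cast_nonneg _)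
  refine mul_le_mul_of_nonneg_right ?_ (by positivity)
  exact_mod_cast hCi

/-- The filter acts on the free slot `i`. -/
lemma common_one {n : ℕ} (P : Fin n → ℤ[X]) (hdeg : ∀ i, 1 ≤ (P i).natDegree) (B : ℕ) :
    ∃ C' : ℕ, 1 ≤ C' ∧ ∀ (i : Fin n) (M : ℕ) [NeZero M] (N R R' : ℕ), 2 ≤ R → R ^ C' ≤ R' → 1 ≤ N →
      M ≤ B * N ^ (P i).natDegree →
      ∀ (β : ℤ →₀ ℂ), mass β ≤ 4 → ∀ g : Fin n → ZMod M → ℂ, (∀ l, Bd (g l)) →
      (∀ F : ZMod M → ℂ, Bd F → avr (fun x => ‖AA N P (Function.update g i (cv β F)) x‖) ≤ 4 / R') →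
      ∀ F : ZMod M → ℂ, n2 (AA N P (Function.update g i (cv β F))) ≤ C' * n2 F / R := by
  obtain ⟨C₀, hC₀1, hC₀⟩ := improve_all P hdeg B
  have hC₀r : (1 : ℝ) ≤ C₀ := by exact_mod_cast hC₀1
  obtain ⟨C', hC'1, hC'⟩ := levels C₀ hC₀1 (16 * C₀) (by positivity)
  refine ⟨C', hC'1, ?_⟩
  intro i M _ N R R' hR hR' hN hM β hβ g hg hA F
  have hm0 : 0 ≤ mass β := mass_nonneg β
  have hM0 : (0 : ℝ) < M := by exact_mod_cast Nat.pos_of_ne_zero (NeZero.ne M)
  refine hC' M (fun F => AA N P (Function.update g i (cv β F))) R R' hR hR' ?_ ?_ ?_ ?_ F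
  · intro F G
    funext x
    have h : cv β (fun x => F x + G x) = fun y => cv β F y + cv β G y := funext (fun y => cv_fun_add β F G y)
    rw [h, AA_update_add]
  · intro c F
    funext x
    have h : cv β (fun x => c * F x) = fun y => c * cv β F y := funext (fun y => cv_fun_mul β c F y)
    rw [h, AA_update_mul]
  · intro F lam S r hlam hr hF hS hcard
    have h1 : n2 (AA N P (Function.update g i (cv β F))) ≤
        avr (fun x => AR N (P i) (fun y => ‖cv β F y‖) x ^ 2) := by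
      unfold n2
      refine avr_mono (fun x => ?_)
      exact pow_le_pow_left₀ (norm_nonneg _) (norm_A_le N P g hg i _ x) 2
    have h2 := avr_AR_cv_sq_le N (P i) β F
    have h3 := avr_AR_sq_le N (P i) F lam S hF hS
    have h4 := hC₀ i M N r hr hN hM S hcard
    have h5 : mass β ^ 2 ≤ 16 := by nlinarith
    calc n2 (AA N P (Function.update g i (cv β F)))
        ≤ mass β ^ 2 * avr (fun x => AR N (P i) (fun y => ‖F y‖) x ^ 2) := h1.trans h2
      _ ≤ 16 * (lam ^ 2 * (C₀ * ((S.card : ℝ) / M) / r)) := by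
          refine mul_le_mul h5 (h3.trans (mul_le_mul_of_nonneg_left h4 (by positivity)))
            (avr_nonneg (fun x => sq_nonneg _)) (by norm_num)
      _ = 16 * C₀ * lam ^ 2 * ((S.card : ℝ) / M) / r := by ring
  · intro F lam hlam hF
    refine level_two (fun F => AA N P (Function.update g i (cv β F))) ?_ R' (16 * C₀) (by linarith) ?_ hA F lam
      hlam hF
    · intro c F
      funext x
      have h : cv β (fun x => c * F x) = fun y => c * cv β F y := funext (fun y => cv_fun_mul β c F y)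
      rw [h, AA_update_mul]
    · intro F lam hlam hF x
      refine norm_A_le_const N P g hg i _ (4 * lam) (by positivity) (fun y => ?_) x
      exact (norm_cv_le β F lam hF y).trans (mul_le_mul_of_nonneg_right hβ hlam)

lemma deg_pos {n : ℕ} {P : Fin n → ℤ[X]} {e : Fin n → ℕ} {i₀ : Fin n} (h : GDeg P e i₀) (i : Fin n) :
    1 ≤ (P i).natDegree := (h.pos i).trans (h.le i)

lemma le_step {C' Cg : ℕ} (hCg : 1 ≤ Cg) (R : ℕ) {M : ℕ} [NeZero M] (F : ZMod M → ℂ) (C : ℕ) (hC : C' * Cg ≤ C) :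
    (C' : ℝ) * n2 F / R ≤ (C : ℝ) * n2 F / R := by
  refine div_le_div_of_nonneg_right ?_ (Nat.cast_nonneg _)
  refine mul_le_mul_of_nonneg_right ?_ (n2_nonneg F)
  exact_mod_cast (Nat.le_mul_of_pos_right C' (by omega)).trans hC

end MLocAux

open Pool.Agent.EQD.L2locAux MLocAux in
theorem l2loc {n : ℕ} {P : Fin n → ℤ[X]} {e : Fin n → ℕ} {i₀ : Fin n} (h : GDeg P e i₀) (B : ℕ) :
    ∃ C : ℕ, 1 ≤ C ∧ ∀ (M : ℕ) [NeZero M] (N R : ℕ) (i : Fin n), 2 ≤ R → R ^ C ≤ N → M ≤ B * N ^ (P i).natDegree → ∀ (β : ℤ →₀ ℂ),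
      mass β ≤ 4 → NS C R (N ^ e i) β → ∀ g : Fin n → ZMod M → ℂ, (∀ l, Bd (g l)) → ∀ F : ZMod M → ℂ,
      n2 (AA N P (Function.update g i (cv β F))) ≤ C * n2 F / R := by
  obtain ⟨C', hC'1, hC'⟩ := common_one P (deg_pos h) B
  obtain ⟨Cg, hCg1, hCg⟩ := gainB P e h.pos h.inv
  refine ⟨C' * Cg, Nat.mul_pos hC'1 hCg1, ?_⟩
  intro M _ N R i hR hN hM β hβ hNS g hg F
  have hR1 : 1 ≤ R := by omega
  have hR2 : 2 ≤ R ^ C' := by
    calc 2 ≤ R := hR
      _ = R ^ 1 := (pow_one R).symm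
      _ ≤ R ^ C' := Nat.pow_le_pow_right hR1 hC'1
  have hN1 : 1 ≤ N := (Nat.one_le_pow _ _ hR1).trans hN
  have hNS' : NS Cg (R ^ C') (N ^ e i) β := by
    intro r hr1 hr2 θ
    rw [← pow_mul] at hr2 ⊢
    have := hNS r hr1 hr2 θ
    push_cast
    rw [← pow_mul]
    exact this
  obtain ⟨hA, -⟩ := hCg M N (R ^ C') hR2 (by rw [← pow_mul]; exact hN) i β hβ hNS' g hg
  have h1 := hC' i M N R (R ^ C') hR le_rfl hN1 hM β hβ g hg hA F
  exact h1.trans (le_step hCg1 R F _ le_rfl)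

end Pool.Agent.EQD.G
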