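import Pool.Agent.Lib.EQD.FGn
import Pool.Agent.Lib.EQG.MLoc

/-!
# Module MFGn: the module FGn for the general class (same proof)
-/

set_option autoImplicit false

open Finset Polynomial

namespace Pool.Agent.EQD.G

open Pool.Agent.HLT Pool.Agent.NLT Pool.Agent.NLG

open FGnAux

theorem fibre_gain {n : ℕ} {P : Fin n → ℤ[X]} {e : Fin n → ℕ} {i₀ : Fin n} (h : GDeg P e i₀) : ∃ C : ℕ, 1 ≤ C ∧ ∀ W : ℕ,
    ∃ r₀ C' : ℕ, 1 ≤ r₀ ∧ ∀ r, r₀ ≤ r → ∀ (M : ℕ) [NeZero M] (R Q lam : ℕ) (K : ℝ), 2 ≤ R → Q ∣ M →
      (∀ q, 1 ≤ q → q ≤ R ^ C → q ∣ Q) → 2 ≤ lam → 1 ≤ K → K ≤ lam → ∀ (i : Fin n) (v : Fin n → ZMod M → ℂ),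
      (∀ l, nq (2 * r) (v l) ≤ K) → (∀ y, Eb Q M (v i) y = 0) → ∀ l,
      n2 (AA M P v) ≤ C * (lam : ℝ) ^ (2 * n) / R * n2 (v l) + C' / (lam : ℝ) ^ W := by
  classical
  obtain ⟨Cf, hCf1, hCf⟩ := l2fib h
  refine ⟨2 * Cf, by omega, ?_⟩
  intro W
  refine ⟨(W + 1) * n + W + 1 + 2 * n + n, 2 * n ^ 2 * 4 ^ n * (1 + 2 * n), by omega, ?_⟩
  intro r hr M _ R Q lam K hR hQ hq hlam hK1 hKlam i v hv hEb l
  have hn : 1 ≤ n := i.pos
  have hnr : n ≤ r := by omega
  have hlamr : (2 : ℝ) ≤ lam := by exact_mod_cast hlam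
  have hlam0 : (0 : ℝ) < lam := by linarith
  have hlam1 : (1 : ℝ) ≤ lam := by linarith
  have hR0 : (0 : ℝ) < R := by exact_mod_cast (by omega : 0 < R)
  have hqf : ∀ q, 1 ≤ q → q ≤ R ^ Cf → q ∣ Q := fun q h1 h2 =>
    hq q h1 (h2.trans (Nat.pow_le_pow_right (by omega) (by omega)))
  -- the truncated functions
  set u : Fin n → ZMod M → ℂ := fun k => lo (lam : ℝ) (v k) with hu
  set w : Fin n → ZMod M → ℂ := fun k => if k = l then v l else
    if k = i then (fun y => u i y - Eb Q M (u i) y) else u k with hw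
  set g : Fin n → ZMod M → ℂ := fun k y => (1 / (lam : ℂ)) * u k y with hg
  have hlamc : (lam : ℂ) ≠ 0 := by exact_mod_cast (by omega : lam ≠ 0)
  have hgBd : ∀ k, Bd (g k) := by
    intro k x
    rw [hg]
    simp only
    rw [norm_mul, norm_div, norm_one, Complex.norm_natCast, one_div, inv_mul_le_iff₀ hlam0, mul_one]
    exact norm_lo_le hlam0.le (v k) x
  -- the main term
  have hmain : n2 (AA M P w) ≤ (lam : ℝ) ^ (2 * n) * (Cf * n2 (v l) / R) := by
    set c : Fin n → ℂ := fun k => if k = l then 1 else (lam : ℂ) with hc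
    have hcn : ‖∏ k, c k‖ ≤ (lam : ℝ) ^ n := by
      rw [norm_prod]
      calc ∏ k, ‖c k‖ ≤ ∏ _k : Fin n, (lam : ℝ) := by
            refine prod_le_prod (fun k _ => norm_nonneg _) (fun k _ => ?_)
            rw [hc]
            simp only
            split_ifs
            · rw [norm_one]; exact hlam1
            · rw [Complex.norm_natCast]
        _ = (lam : ℝ) ^ n := by rw [prod_const, card_univ, Fintype.card_fin]
    have hc2 : ‖∏ k, c k‖ ^ 2 ≤ (lam : ℝ) ^ (2 * n) := by
      calc ‖∏ k, c k‖ ^ 2 ≤ ((lam : ℝ) ^ n) ^ 2 := pow_le_pow_left₀ (norm_nonneg _) hcn 2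
        _ = (lam : ℝ) ^ (2 * n) := by rw [← pow_mul, mul_comm]
    have hlu : ∀ k y, (lam : ℂ) * g k y = u k y := by
      intro k y
      rw [hg]
      simp only
      field_simp
    by_cases hli : l = i
    · subst hli
      have hwg : w = fun k y => c k *
          (Function.update g l (fun y => v l y - Eb Q M (v l) y)) k y := by
        funext k y
        rw [hw, hc]
        simp only
        by_cases hk : k = l
        · subst hk
          rw [if_pos rfl, if_pos rfl, Function.update_self, hEb y, sub_zero, one_mul]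
        · rw [if_neg hk, if_neg hk, if_neg hk, Function.update_of_ne hk, hlu]
      have h1 : AA M P w = fun x => (∏ k, c k) *
          AA M P (Function.update g l (fun y => v l y - Eb Q M (v l) y)) x := by
        funext x
        rw [hwg]
        exact AA_scale M P c _ x
      rw [h1, n2_mul]
      exact mul_le_mul hc2 (hCf M R Q hR hQ hqf l g hgBd (v l)).1 (n2_nonneg _) (by positivity)
    · have hwg : w = fun k y => c k *
          (Function.update (Function.update g i (fun y => g i y - Eb Q M (g i) y)) l (v l)) k y := by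
        funext k y
        rw [hw, hc]
        simp only
        by_cases hk : k = l
        · subst hk
          rw [if_pos rfl, if_pos rfl, Function.update_self, one_mul]
        · rw [if_neg hk, if_neg hk, Function.update_of_ne hk]
          by_cases hki : k = i
          · subst hki
            rw [if_pos rfl, Function.update_self]
            have h2 : Eb Q M (u k) y = (lam : ℂ) * Eb Q M (g k) y := by
              rw [← Eb_smul]
              congr 1
              funext z
              exact (hlu k z).symm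
            rw [h2, ← hlu k y]
            ring
          · rw [if_neg hki, Function.update_of_ne hki, hlu]
      have h1 : AA M P w = fun x => (∏ k, c k) *
          AA M P (Function.update (Function.update g i (fun y => g i y - Eb Q M (g i) y)) l (v l)) x := by
        funext x
        rw [hwg]
        exact AA_scale M P c _ x
      rw [h1, n2_mul]
      exact mul_le_mul hc2 ((hCf M R Q hR hQ hqf i g hgBd (v l)).2 l hli) (n2_nonneg _) (by positivity)
  -- moments
  have hv2 : ∀ k, nq (2 * n) (v k) ≤ 1 + K := fun k =>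
    (nq_le_one_add hnr (v k)).trans (by linarith [hv k])
  have h4n : (1 : ℝ) ≤ 4 ^ n := one_le_pow₀ (by norm_num)
  have hB0 : (0 : ℝ) ≤ 1 + K := by linarith
  have hv4 : ∀ k, nq (2 * n) (v k) ≤ 4 ^ n * (1 + K) := fun k =>
    (hv2 k).trans (le_mul_of_one_le_left hB0 h4n)
  have hu2 : ∀ k, nq (2 * n) (u k) ≤ 1 + K := fun k => (nq_lo_le _ _ _).trans (hv2 k)
  have hw4 : ∀ k, nq (2 * n) (w k) ≤ 4 ^ n * (1 + K) := by
    intro k
    rw [hw]
    simp only
    split_ifs with h1 h2
    · exact hv4 l
    · exact (nq_fib_le n hn Q M (u i)).trans (mul_le_mul_of_nonneg_left (hu2 i) (by positivity))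
    · exact (hu2 k).trans (le_mul_of_one_le_left hB0 h4n)
  have hden : (0 : ℝ) < (lam : ℝ) ^ (2 * r - 2 * n) := by positivity
  have hhi : ∀ k, nq (2 * n) (hi (lam : ℝ) (v k)) ≤ K / (lam : ℝ) ^ (2 * r - 2 * n) := fun k =>
    (nq_hi_le hn hnr hlam1 (v k)).trans (div_le_div_of_nonneg_right (hv k) hden.le)
  have hKd : 0 ≤ K / (lam : ℝ) ^ (2 * r - 2 * n) := by positivity
  have hd4 : ∀ k, nq (2 * n) (fun y => v k y - w k y) ≤ 4 ^ n * (K / (lam : ℝ) ^ (2 * r - 2 * n)) := by
    intro k
    rw [hw]
    simp only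
    by_cases hk : k = l
    · subst hk
      have h1 : (fun y => v k y - (if k = k then v k else
          if k = i then (fun y => u i y - Eb Q M (u i) y) else u k) y) = fun _ => (0 : ℂ) := by
        funext y
        rw [if_pos rfl, sub_self]
      rw [h1]
      have h2 : nq (2 * n) (fun _ : ZMod M => (0 : ℂ)) = 0 := by
        unfold nq
        simp only [norm_zero]
        rw [zero_pow (by omega), avr_const]
      rw [h2]
      positivity
    · by_cases hki : k = i
      · subst hki
        have h1 : (fun y => v k y - (if k = l then v l else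
            if k = k then (fun y => u k y - Eb Q M (u k) y) else u k) y) =
            fun y => hi (lam : ℝ) (v k) y - Eb Q M (hi (lam : ℝ) (v k)) y := by
          funext y
          rw [if_neg hk, if_pos rfl, Eb_lo Q M (lam : ℝ) (v k) y (hEb y), ← sub_lo]
          rw [hu]
          ring
        rw [h1]
        exact (nq_fib_le n hn Q M _).trans (mul_le_mul_of_nonneg_left (hhi k) (by positivity))
      · have h1 : (fun y => v k y - (if k = l then v l else
            if k = i then (fun y => u i y - Eb Q M (u i) y) else u k) y) =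
            hi (lam : ℝ) (v k) := by
          funext y
          rw [if_neg hk, if_neg hki, ← sub_lo]
        rw [h1]
        exact (hhi k).trans (le_mul_of_one_le_left hKd h4n)
  -- the telescoping terms
  set G : Fin n → ZMod M → ℂ := fun j => AA M P
    (Function.update (fun l' => if l' < j then w l' else v l') j (fun y => v j y - w j y)) with hG
  have hGj : ∀ j, n2 (G j) ≤ (4 ^ n * (1 + 2 * n) : ℝ) / (lam : ℝ) ^ W := by
    intro j
    have hδ0 : (0 : ℝ) < 1 / (lam : ℝ) ^ (W + 1) := by positivity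
    have hδ1 : (1 : ℝ) / (lam : ℝ) ^ (W + 1) ≤ 1 := by
      rw [div_le_one (by positivity)]
      exact one_le_pow₀ hlam1
    have h1 := AA_young2 M P
      (Function.update (fun l' => if l' < j then w l' else v l') j (fun y => v j y - w j y)) j
      (1 / (lam : ℝ) ^ (W + 1)) hδ0 hδ1
    rw [Function.update_self] at h1
    refine h1.trans ?_
    have h2 : ∑ k ∈ univ.erase j, nq (2 * n) (Function.update (fun l' => if l' < j then w l' else v l') j
        (fun y => v j y - w j y) k) ≤ n * (4 ^ n * (1 + K)) := by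
      calc ∑ k ∈ univ.erase j, nq (2 * n) (Function.update (fun l' => if l' < j then w l' else v l') j
            (fun y => v j y - w j y) k) ≤ ∑ _k ∈ univ.erase j, (4 ^ n * (1 + K) : ℝ) := by
            refine sum_le_sum (fun k hk => ?_)
            rw [Function.update_of_ne (ne_of_mem_erase hk)]
            split_ifs
            · exact hw4 k
            · exact hv4 k
        _ = ((univ.erase j).card : ℝ) * (4 ^ n * (1 + K)) := by rw [sum_const, nsmul_eq_mul]
        _ ≤ n * (4 ^ n * (1 + K)) := by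
            refine mul_le_mul_of_nonneg_right ?_ (by positivity)
            have h3 := card_le_card (erase_subset j (univ : Finset (Fin n)))
            rw [card_univ, Fintype.card_fin] at h3
            exact_mod_cast h3
    have h3 : (1 / (1 / (lam : ℝ) ^ (W + 1))) ^ n * nq (2 * n) (fun y => v j y - w j y) ≤
        4 ^ n / (lam : ℝ) ^ W := by
      rw [one_div_one_div, ← pow_mul]
      calc (lam : ℝ) ^ ((W + 1) * n) * nq (2 * n) (fun y => v j y - w j y)
          ≤ (lam : ℝ) ^ ((W + 1) * n) * (4 ^ n * (K / (lam : ℝ) ^ (2 * r - 2 * n))) :=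
            mul_le_mul_of_nonneg_left (hd4 j) (by positivity)
        _ = 4 ^ n * ((lam : ℝ) ^ ((W + 1) * n) * K) / (lam : ℝ) ^ (2 * r - 2 * n) := by ring
        _ ≤ 4 ^ n * ((lam : ℝ) ^ ((W + 1) * n) * lam) / (lam : ℝ) ^ (2 * r - 2 * n) := by
            refine div_le_div_of_nonneg_right ?_ hden.le
            refine mul_le_mul_of_nonneg_left ?_ (by positivity)
            exact mul_le_mul_of_nonneg_left hKlam (by positivity)
        _ ≤ 4 ^ n / (lam : ℝ) ^ W := by
            rw [div_le_div_iff₀ hden (by positivity), mul_assoc]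
            refine mul_le_mul_of_nonneg_left ?_ (by positivity)
            rw [← pow_succ, ← pow_add]
            exact pow_le_pow_right₀ hlam1 (by omega)
    have h4 : (1 / (lam : ℝ) ^ (W + 1)) * (n * (4 ^ n * (1 + K))) ≤ 2 * n * 4 ^ n / (lam : ℝ) ^ W := by
      have h5 : 1 + K ≤ 2 * lam := by linarith
      calc (1 / (lam : ℝ) ^ (W + 1)) * (n * (4 ^ n * (1 + K)))
          ≤ (1 / (lam : ℝ) ^ (W + 1)) * (n * (4 ^ n * (2 * lam))) := by
            refine mul_le_mul_of_nonneg_left ?_ hδ0.le
            refine mul_le_mul_of_nonneg_left ?_ (Nat.cast_nonneg _)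
            exact mul_le_mul_of_nonneg_left h5 (by positivity)
        _ = 2 * n * 4 ^ n / (lam : ℝ) ^ W := by
            rw [pow_succ]
            field_simp
    have h5 := mul_le_mul_of_nonneg_left h2 hδ0.le
    have h6 : (4 ^ n * (1 + 2 * n) : ℝ) / (lam : ℝ) ^ W =
        4 ^ n / (lam : ℝ) ^ W + 2 * n * 4 ^ n / (lam : ℝ) ^ W := by ring
    rw [h6]
    linarith
  have hdiff : n2 (fun x => AA M P v x - AA M P w x) ≤
      n * (n * ((4 ^ n * (1 + 2 * n) : ℝ) / (lam : ℝ) ^ W)) := by
    have h1 : (fun x => AA M P v x - AA M P w x) = fun x => ∑ j, G j x := by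
      funext x
      rw [AA_telescope]
    rw [h1]
    refine (n2_sum_le G).trans (mul_le_mul_of_nonneg_left ?_ (Nat.cast_nonneg _))
    calc ∑ j, n2 (G j) ≤ ∑ _j : Fin n, (4 ^ n * (1 + 2 * n) : ℝ) / (lam : ℝ) ^ W :=
          sum_le_sum (fun j _ => hGj j)
      _ = n * ((4 ^ n * (1 + 2 * n) : ℝ) / (lam : ℝ) ^ W) := by
          rw [sum_const, card_univ, Fintype.card_fin, nsmul_eq_mul]
  have hfin : n2 (AA M P v) ≤ 2 * n2 (AA M P w) + 2 * n2 (fun x => AA M P v x - AA M P w x) := by
    have h1 := n2_add_le (AA M P w) (fun x => AA M P v x - AA M P w x)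
    have h2 : (fun x => AA M P w x + (AA M P v x - AA M P w x)) = AA M P v := by
      funext x
      ring
    rwa [h2] at h1
  refine hfin.trans ?_
  have e1 : ((2 * Cf : ℕ) : ℝ) * (lam : ℝ) ^ (2 * n) / R * n2 (v l) =
      2 * ((lam : ℝ) ^ (2 * n) * (Cf * n2 (v l) / R)) := by
    push_cast
    ring
  have e2 : ((2 * n ^ 2 * 4 ^ n * (1 + 2 * n) : ℕ) : ℝ) / (lam : ℝ) ^ W =
      2 * (n * (n * ((4 ^ n * (1 + 2 * n) : ℝ) / (lam : ℝ) ^ W))) := by
    push_cast
    ring
  rw [e1, e2]
  linarith

end Pool.Agent.EQD.G
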