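import Pool.Agent.Lib.EQD.StrC
import Pool.Agent.Lib.EQG.MEnA

/-!
# Module MStrC: the module StrC for the general class (same proof)
-/

set_option autoImplicit false

open Finset Polynomial

namespace Pool.Agent.EQD.G

open Pool.Agent.HLT Pool.Agent.NLT Pool.Agent.NLG

open StrCAux

theorem str_rm (D : ℕ) (hD : 1 ≤ D) (p : ℤ[X]) (hp : p.natDegree = D) (A₄ : ℕ) (hA : 1 ≤ A₄) : ∃ (G : ℝ) (K₀ : ℕ), 0 ≤ G ∧
    ∀ (M : ℕ) [NeZero M] (K b : ℕ) (N : ℕ → ℕ) (Z : ℕ → ZMod M → ZMod M → ℂ) (Kz qz : ℕ) (κ Γ τ : ℝ), K₀ ≤ K → Sc N →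
      b < 2 ^ (K * A₄) → 1 ≤ Kz → 1 ≤ qz → 0 ≤ κ → 0 ≤ Γ → τ ≤ 1 → κ * 2 ^ (2 ^ K / 2) * (4 * (Kz : ℝ) * qz) ^ 4 * 2 ^ (4 * K) ≤ τ →
      (∀ i < 2 ^ K, Sl Kz qz κ (Z i)) → avr (fun z => n2 (Z 0 z)) ≤ Γ →
      (∀ k < K, ∑ q ∈ range (2 ^ (K - k - 1)),
        avr (fun z => n2 (fun y => Z ((2 * q + 1) * 2 ^ k) z y - Z (2 * q * 2 ^ k) z y)) ≤ Γ) →
      ∀ c : ZMod M → ℕ, (∀ x, c x < 2 ^ K) →
      n2 (fun x => wb p (2 ^ (K * A₄)) b (N (2 ^ (K + 1) - 1 - c x)) (fun z => Z (c x) z x) x) ≤ G * ((K : ℝ) + 1) ^ 5 * (Γ + τ) := by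
  obtain ⟨G, K₀, hG, hen⟩ := en_wb D hD p hp A₄ hA
  refine ⟨G + 4, K₀, by linarith, ?_⟩
  intro M _ K b N Z Kz qz κ Γ τ hK hN hb hKz hqz hκ hΓ hτ1 hτ hZ hZ0 hZd c hc
  obtain ⟨hτ0, he1, he2⟩ := errs K Kz qz κ τ hKz hqz hκ hτ1 hτ
  set S := 2 ^ (K * A₄) with hS
  set e1 : ℝ := 2 * ((2 * Kz + 2 * Kz : ℕ) : ℝ) ^ 3 * qz ^ 2 * κ with he1d
  set e2 : ℝ := 2 ^ K * 4 * (2 ^ (2 ^ K / 2) * (((2 * Kz : ℕ) : ℝ) * κ)) ^ 2 with he2d
  have he10 : 0 ≤ e1 := by positivity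
  have he20 : 0 ≤ e2 := by positivity
  have hone : (1 : ℝ) ≤ 2 ^ K := one_le_pow₀ (by norm_num)
  have he1' : e1 ≤ τ := le_trans (le_mul_of_one_le_left he10 hone) he1
  have he2' : e2 ≤ τ := le_trans (le_mul_of_one_le_left he20 hone) he2
  -- number of terms
  have hcard : ∀ k < K, ∀ e : ℝ, 0 ≤ e → 2 ^ K * e ≤ τ → ((range (2 ^ (K - k - 1))).card : ℝ) * e ≤ τ := by
    intro k hk e he h
    refine le_trans (mul_le_mul_of_nonneg_right ?_ he) h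
    rw [card_range]
    push_cast
    exact pow_le_pow_right₀ (by norm_num) (by omega)
  -- the two classes of functions
  have hK2 : 0 < 2 ^ K := pow_pos (by norm_num) K
  have hS0 : Sl (2 * Kz) qz κ (Z 0) := sl_mono (hZ 0 hK2) (by omega) le_rfl le_rfl
  have hidx : ∀ k < K, ∀ q < 2 ^ (K - k - 1), (2 * q + 1) * 2 ^ k < 2 ^ K ∧ 2 * q * 2 ^ k < 2 ^ K := by
    intro k hk q hq
    have h1 : 2 ^ K = 2 * 2 ^ (K - k - 1) * 2 ^ k := by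
      rw [← pow_succ', ← pow_add]
      congr 1
      omega
    have h2 : (2 * q + 1) * 2 ^ k < 2 ^ K := by
      rw [h1]
      exact Nat.mul_lt_mul_of_pos_right (by omega) (pow_pos (by norm_num) k)
    exact ⟨h2, lt_of_le_of_lt (Nat.mul_le_mul_right _ (by omega)) h2⟩
  set Φ : ℕ → ℕ → ZMod M → ZMod M → ℂ := fun k q z y => Z ((2 * q + 1) * 2 ^ k) z y - Z (2 * q * 2 ^ k) z y with hΦ
  have hSd : ∀ k < K, ∀ q < 2 ^ (K - k - 1), Sl (2 * Kz) qz κ (Φ k q) := by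
    intro k hk q hq
    have h := sl_sub (hZ _ (hidx k hk q hq).1) (hZ _ (hidx k hk q hq).2)
    exact sl_mono h (by omega) le_rfl le_rfl
  -- energies
  have hEn : ∀ Ψ : ZMod M → ZMod M → ℂ, Sl (2 * Kz) qz κ Ψ → ∀ k < K,
      ∑ q ∈ range (2 ^ (K - k - 1)), En p S b (N (2 ^ (K + 1) - 1 - (2 * q + 1) * 2 ^ k)) (N (2 ^ (K + 1) - 1 - 2 * q * 2 ^ k)) Ψ ≤
        G * K * avr (fun z => n2 (Ψ z)) + e2 := by
    intro Ψ hΨ k hk
    unfold En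
    rw [← avr_sum]
    have h1 : ∀ y, ∑ q ∈ range (2 ^ (K - k - 1)),
        n2 (fun z => wb p S b (N (2 ^ (K + 1) - 1 - (2 * q + 1) * 2 ^ k)) (fun z' => Ψ z' y) z -
          wb p S b (N (2 ^ (K + 1) - 1 - 2 * q * 2 ^ k)) (fun z' => Ψ z' y) z) ≤ G * K * n2 (fun z => Ψ z y) + e2 := by
      intro y
      exact hen M K b N (fun z => Ψ z y) (((2 * Kz : ℕ) : ℝ) * κ) hK hN hb (fun z => sl_lip hκ hΨ y z) k hk
    refine (avr_mono h1).trans (le_of_eq ?_)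
    rw [avr_add (fun y => G * K * n2 (fun z => Ψ z y)) (fun _ => e2), avr_const, avr_mul_left, n2_swap Ψ]
  set G' : ℝ := (G * K + 4) * Γ + 2 * τ with hG'
  have hGK : 0 ≤ G * K := mul_nonneg hG (Nat.cast_nonneg K)
  have hGKΓ : 0 ≤ G * K * Γ := mul_nonneg hGK hΓ
  have hG'e : G' = G * K * Γ + 4 * Γ + 2 * τ := by rw [hG']; ring
  set X : ℕ → ℕ → ZMod M → ℂ := fun i i' x => wb p S b (N (2 ^ (K + 1) - 1 - i)) (fun z => Z i' z x) x with hX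
  have hZ0' : G * K * avr (fun z => n2 (Z 0 z)) ≤ G * K * Γ := mul_le_mul_of_nonneg_left hZ0 hGK
  -- diagonal estimate for a single average
  have hdiag1 : ∀ Ψ : ZMod M → ZMod M → ℂ, Sl (2 * Kz) qz κ Ψ → ∀ L : ℕ,
      n2 (fun x => wb p S b L (fun z => Ψ z x) x) ≤ avr (fun z => n2 (Ψ z)) + e1 := by
    intro Ψ hΨ L
    have h1 := one_w hκ (sl_mono hΨ (by omega : 2 * Kz ≤ 2 * Kz + 2 * Kz) le_rfl le_rfl) p S b L
    exact h1
  have hdiag2 : ∀ Ψ : ZMod M → ZMod M → ℂ, Sl (2 * Kz) qz κ Ψ → ∀ L₁ L₀ : ℕ,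
      n2 (fun x => wb p S b L₁ (fun z => Ψ z x) x - wb p S b L₀ (fun z => Ψ z x) x) ≤ En p S b L₁ L₀ Ψ + e1 := by
    intro Ψ hΨ L₁ L₀
    exact two_w hκ hΨ p S b L₁ L₀
  -- mixed differences
  have hmix : ∀ k < K, ∀ k' < K, ∀ q q', q' < 2 ^ (K - k' - 1) → n2 (RMd X k q k' q') ≤
      En p S b (N (2 ^ (K + 1) - 1 - (2 * q + 1) * 2 ^ k)) (N (2 ^ (K + 1) - 1 - 2 * q * 2 ^ k)) (Φ k' q') + e1 := by
    intro k hk k' hk' q q' hq'
    have h1 := hdiag2 (Φ k' q') (hSd k' hk' q' hq') (N (2 ^ (K + 1) - 1 - (2 * q + 1) * 2 ^ k)) (N (2 ^ (K + 1) - 1 - 2 * q * 2 ^ k))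
    refine le_trans (le_of_eq ?_) h1
    congr 1
    funext x
    simp only [RMd, hX, hΦ]
    rw [wb_sub, wb_sub]
    ring
  have hmain := rm2 K X G' ?_ ?_ ?_ ?_ ?_ c hc
  · refine hmain.trans ?_
    have hK1 : (1 : ℝ) ≤ (K : ℝ) + 1 := by
      have := Nat.cast_nonneg (α := ℝ) K
      linarith
    have hfin : G' ≤ (G + 4) * ((K : ℝ) + 1) * (Γ + τ) := by
      have hK0 : (0 : ℝ) ≤ K := Nat.cast_nonneg K
      have i1 : (G * K + 4) * Γ ≤ (G + 4) * ((K : ℝ) + 1) * Γ := by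
        refine mul_le_mul_of_nonneg_right ?_ hΓ
        nlinarith
      have i2 : 2 * τ ≤ (G + 4) * ((K : ℝ) + 1) * τ := by
        refine mul_le_mul_of_nonneg_right ?_ hτ0
        nlinarith
      rw [hG']
      linarith
    calc ((K : ℝ) + 1) ^ 4 * G' ≤ ((K : ℝ) + 1) ^ 4 * ((G + 4) * ((K : ℝ) + 1) * (Γ + τ)) :=
          mul_le_mul_of_nonneg_left hfin (by positivity)
      _ = (G + 4) * ((K : ℝ) + 1) ^ 5 * (Γ + τ) := by ring
  · -- h0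
    have h1 := hdiag1 (Z 0) hS0 (N (2 ^ (K + 1) - 1 - 0))
    have h2 : n2 (X 0 0) ≤ avr (fun z => n2 (Z 0 z)) + e1 := h1
    linarith
  · -- h1
    intro k hk
    have h1 : ∀ q ∈ range (2 ^ (K - k - 1)), n2 (fun x => X ((2 * q + 1) * 2 ^ k) 0 x - X (2 * q * 2 ^ k) 0 x) ≤
        En p S b (N (2 ^ (K + 1) - 1 - (2 * q + 1) * 2 ^ k)) (N (2 ^ (K + 1) - 1 - 2 * q * 2 ^ k)) (Z 0) + e1 :=
      fun q _ => hdiag2 (Z 0) hS0 _ _
    refine (Finset.sum_le_sum h1).trans ?_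
    rw [Finset.sum_add_distrib, Finset.sum_const, nsmul_eq_mul]
    have h2 := hEn (Z 0) hS0 k hk
    have h3 := hcard k hk e1 he10 he1
    linarith
  · -- h2
    intro k hk
    have h1 : ∀ q ∈ range (2 ^ (K - k - 1)), n2 (fun x => X 0 ((2 * q + 1) * 2 ^ k) x - X 0 (2 * q * 2 ^ k) x) ≤
        avr (fun z => n2 (Φ k q z)) + e1 := by
      intro q hq
      have h2 := hdiag1 (Φ k q) (hSd k hk q (mem_range.1 hq)) (N (2 ^ (K + 1) - 1 - 0))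
      refine le_trans (le_of_eq ?_) h2
      congr 1
      funext x
      simp only [hX, hΦ]
      rw [wb_sub]
    refine (Finset.sum_le_sum h1).trans ?_
    rw [Finset.sum_add_distrib, Finset.sum_const, nsmul_eq_mul]
    have h2 := hZd k hk
    have h3 := hcard k hk e1 he10 he1
    have h4 : ∑ q ∈ range (2 ^ (K - k - 1)), avr (fun z => n2 (Φ k q z)) ≤ Γ := h2
    linarith
  · -- h12
    intro k hk k' hk' hkk
    have hlt : ∀ q ∈ range (2 ^ (K - k - 1)), q / 2 ^ (k' - k) < 2 ^ (K - k' - 1) := by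
      intro q hq
      rw [Nat.div_lt_iff_lt_mul (pow_pos (by norm_num) _), ← pow_add]
      refine lt_of_lt_of_le (mem_range.1 hq) (le_of_eq ?_)
      congr 1
      omega
    have h1 : ∀ q ∈ range (2 ^ (K - k - 1)), n2 (RMd X k q k' (q / 2 ^ (k' - k))) ≤
        ∑ q' ∈ range (2 ^ (K - k' - 1)),
          En p S b (N (2 ^ (K + 1) - 1 - (2 * q + 1) * 2 ^ k)) (N (2 ^ (K + 1) - 1 - 2 * q * 2 ^ k)) (Φ k' q') + e1 := by
      intro q hq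
      have h2 := hmix k hk k' hk' q (q / 2 ^ (k' - k)) (hlt q hq)
      have h3 := Finset.single_le_sum (f := fun q' => En p S b (N (2 ^ (K + 1) - 1 - (2 * q + 1) * 2 ^ k))
        (N (2 ^ (K + 1) - 1 - 2 * q * 2 ^ k)) (Φ k' q')) (fun q' _ => En_nonneg _ _ _ _ _ _) (mem_range.2 (hlt q hq))
      linarith
    refine (Finset.sum_le_sum h1).trans ?_
    rw [Finset.sum_add_distrib, Finset.sum_const, nsmul_eq_mul, Finset.sum_comm]
    have h2 : ∑ q' ∈ range (2 ^ (K - k' - 1)), ∑ q ∈ range (2 ^ (K - k - 1)),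
        En p S b (N (2 ^ (K + 1) - 1 - (2 * q + 1) * 2 ^ k)) (N (2 ^ (K + 1) - 1 - 2 * q * 2 ^ k)) (Φ k' q') ≤
        ∑ q' ∈ range (2 ^ (K - k' - 1)), (G * K * avr (fun z => n2 (Φ k' q' z)) + e2) :=
      Finset.sum_le_sum (fun q' hq' => hEn (Φ k' q') (hSd k' hk' q' (mem_range.1 hq')) k hk)
    have h3 : ∑ q' ∈ range (2 ^ (K - k' - 1)), avr (fun z => n2 (Φ k' q' z)) ≤ Γ := hZd k' hk'
    rw [Finset.sum_add_distrib, ← Finset.mul_sum, Finset.sum_const, nsmul_eq_mul] at h2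
    have h4 := hcard k hk e1 he10 he1
    have h5 := hcard k' hk' e2 he20 he2
    have h6 := mul_le_mul_of_nonneg_left h3 hGK
    linarith
  · -- h21
    intro k hk k' hk' hkk
    have h1 : ∀ q' ∈ range (2 ^ (K - k' - 1)), n2 (RMd X k (q' / 2 ^ (k - k')) k' q') ≤
        4 * avr (fun z => n2 (Φ k' q' z)) + e1 := by
      intro q' hq'
      have h2 := hmix k hk k' hk' (q' / 2 ^ (k - k')) q' (mem_range.1 hq')
      have h3 := En_le p S b (N (2 ^ (K + 1) - 1 - (2 * (q' / 2 ^ (k - k')) + 1) * 2 ^ k))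
        (N (2 ^ (K + 1) - 1 - 2 * (q' / 2 ^ (k - k')) * 2 ^ k)) (Φ k' q')
      linarith
    refine (Finset.sum_le_sum h1).trans ?_
    rw [Finset.sum_add_distrib, Finset.sum_const, nsmul_eq_mul, ← Finset.mul_sum]
    have h3 : ∑ q' ∈ range (2 ^ (K - k' - 1)), avr (fun z => n2 (Φ k' q' z)) ≤ Γ := hZd k' hk'
    have h4 := hcard k' hk' e1 he10 he1
    linarith

end Pool.Agent.EQD.G
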