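import Pool.Agent.Lib.EQD.T3b
import Pool.Agent.Lib.EQG.MBlkA
import Pool.Agent.Lib.EQG.MBlkB

/-!
# Module MT3b: the module T3b for the general class (same proof)
-/

set_option autoImplicit false

open Finset Polynomial

namespace Pool.Agent.EQD.G

open Pool.Agent.HLT Pool.Agent.NLT Pool.Agent.NLG

open T3bAux

theorem block_form {n : ℕ} {P : Fin n → ℤ[X]} {e : Fin n → ℕ} {i₀ : Fin n} (h : GDeg P e i₀) (A B C₄ : ℕ) (hA : 1 ≤ A)
    (hB : 4 * A ≤ B) : ∃ A₄ K₀ : ℕ, 1 ≤ A₄ ∧ ∀ (M : ℕ) [NeZero M] (K j b : ℕ) (N : ℕ → ℕ) (ty : Fin n → ℕ), K₀ ≤ K → Sc N →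
      WS M (QB B (K / 2)) (2 * A + 2) (PP (K / 2) (2 ^ (K * A))) → 2 ^ K ≤ j → j < 2 ^ (K + 1) → b < 2 ^ (K * A₄) →
      ∀ f : Fin n → ZMod M → ℂ, (∀ l, Bd (f l)) →
      n2 (fun x => tv ((b + 1) * N j / 2 ^ (K * A₄) - b * N j / 2 ^ (K * A₄)) (fun m =>
          ∏ l, Vd A B C₄ K (e l) (N j) (ty l) (f l) (x + pz M (P l) (b * N j / 2 ^ (K * A₄) + m))) -
        wb (P i₀) (2 ^ (K * A₄)) b (N j) (fun z => Zf P (QB B (K / 2)) (2 * A + 2) (2 * A + 2) (PP (K / 2) (2 ^ (K * A))) ty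
          (fun l => Lf (QB B (K / 2)) C₄ (K / 2) (N j) (e l)) (fun l => pz M (P l - P i₀) (b * N j / 2 ^ (K * A₄))) f z x) x) ≤
        1 / 2 ^ (3 * K) := by
  obtain ⟨CA, hCA1, hbA⟩ := blkA h
  obtain ⟨CB, N₀, hCB1, hbB⟩ := blkB h
  obtain ⟨A₄, hA₄⟩ : ∃ A₄ : ℕ, A₄ = (1 + (A + 4) * (2 * A + 3)) * n + C₄ + 4 := ⟨_, rfl⟩
  obtain ⟨X, hX⟩ : ∃ X : ℕ, X = 4 + CB + A₄ + 2 * n := ⟨_, rfl⟩
  obtain ⟨K₁, hK₁⟩ := size_block A B (2 * A + 2) (2 * A + 2) X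
  obtain ⟨K₂, hK₂⟩ := Lf_block B C₄
  refine ⟨A₄, K₁ + K₂ + CA + N₀ + 4, by omega, ?_⟩
  intro M _ K j b N ty hK hN hWS hj1 hj2 hb f hf
  obtain ⟨qm, hqm1, hqm, hsz⟩ := hK₁ K (by omega)
  have hLf := fun l => hK₂ K (by omega) N (e l) j hN (h.pos l) hj1 hj2
  set Ps : Finset ℕ := PP (K / 2) (2 ^ (K * A)) with hPs
  have hcard : Ps.card ≤ 2 ^ (K * A) := card_PP _ _
  set Q : ℕ := QB B (K / 2) with hQ
  set L : Fin n → ℕ := fun l => Lf Q C₄ (K / 2) (N j) (e l) with hLdef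
  obtain ⟨W, hW⟩ : ∃ W : ℕ, W = (4 * (Ps.card + 2)) ^ (2 * A + 2 + 1) := ⟨_, rfl⟩
  have hW1 : 1 ≤ W := by
    rw [hW]
    exact Nat.one_le_pow _ _ (by omega)
  rw [← hW] at hsz
  obtain ⟨s1, s2, s3, s4, s5⟩ := sizes CB A₄ n K X qm W hX hqm1 hW1 hsz
  obtain ⟨Y, hY⟩ : ∃ Y : ℕ, Y = 2 ^ (2 ^ K / 8) := ⟨_, rfl⟩
  rw [← hY] at s1 s2 s3 s4
  have hY1 : 1 ≤ Y := by
    rw [hY]
    exact Nat.one_le_two_pow
  obtain ⟨S, hS⟩ : ∃ S : ℕ, S = 2 ^ (K * A₄) := ⟨_, rfl⟩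
  have hS1 : 1 ≤ S := by
    rw [hS]
    exact Nat.one_le_two_pow
  have hNj : 2 ^ (2 ^ K) ≤ N j := (Nat.pow_le_pow_right (by norm_num) hj1).trans (hN j).1
  obtain ⟨Nj, hNjd⟩ : ∃ Nj : ℕ, Nj = N j := ⟨_, rfl⟩
  rw [← hNjd] at hNj
  have hY5 : Y ^ 5 ≤ Nj := by
    refine le_trans ?_ hNj
    rw [hY, ← pow_mul]
    exact Nat.pow_le_pow_right (by norm_num) (by omega)
  have hYN : Y ≤ Nj := le_trans (by
    calc Y = Y ^ 1 := (pow_one Y).symm
      _ ≤ Y ^ 5 := Nat.pow_le_pow_right hY1 (by norm_num)) hY5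
  have hNj1 : 1 ≤ Nj := hY1.trans hYN
  have hYL : ∀ l, Y ≤ L l := by
    intro l
    refine le_trans ?_ (hLf l).2.2.2.2
    rw [hY]
    exact Nat.pow_le_pow_right (by norm_num) (by omega)
  have hqS : ∀ l, qm * S ≤ L l := fun l => by
    rw [hS]
    exact s1.trans (hYL l)
  have hqL : ∀ l, qm ≤ L l := fun l => (Nat.le_mul_of_pos_right qm hS1).trans (hqS l)
  have hSN : S ≤ Nj := by
    refine le_trans ?_ hYN
    rw [hS]
    exact (Nat.le_mul_of_pos_left _ hqm1).trans s1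
  have hNL : ∀ l, Nj ≤ Y * L l := by
    intro l
    rw [hY, hNjd]
    exact (hLf l).2.2.2.1
  have hη : ∀ l, ((Nj : ℝ) ^ e l / S + qm) / L l ≤ 2 ^ (C₄ * (K / 2) + 3) / S := by
    intro l
    have h1 := eta_le (Nj ^ e l) S qm (L l) (C₄ * (K / 2)) hS1 (hY1.trans (hYL l)) (by
      rw [hNjd]
      exact (hLf l).1) (hqS l)
    rw [Nat.cast_pow] at h1
    exact h1
  rw [← hS] at hb
  rw [← hS, ← hNjd]
  -- the two errors
  set V : Fin n → ZMod M → ZMod M → ℂ := fun l =>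
    vT Q (2 * A + 2) (2 * A + 2) (L l) Ps (ty l) (pz M (P l - P i₀) (b * Nj / S)) (f l) with hV
  have hD : ∀ x : ZMod M, (tv ((b + 1) * Nj / S - b * Nj / S) (fun m =>
          ∏ l, Vd A B C₄ K (e l) Nj (ty l) (f l) (x + pz M (P l) (b * Nj / S + m))) -
        wb (P i₀) S b Nj (fun z => Zf P Q (2 * A + 2) (2 * A + 2) Ps ty L (fun l => pz M (P l - P i₀) (b * Nj / S)) f z x) x) =
      tv ((b + 1) * Nj / S - b * Nj / S) (fun m =>
          ∏ l, vT Q (2 * A + 2) (2 * A + 2) (L l) Ps (ty l) 0 (f l) (x + pz M (P l) (b * Nj / S + m)) (x + pz M (P l) (b * Nj / S + m)) -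
          ∏ l, vT Q (2 * A + 2) (2 * A + 2) (L l) Ps (ty l) (pz M (P l - P i₀) (b * Nj / S)) (f l) (x + pz M (P i₀) (b * Nj / S + m))
            (x + pz M (P l) (b * Nj / S + m))) +
      tv ((b + 1) * Nj / S - b * Nj / S) (fun m => ∏ l, V l (x + pz M (P i₀) (b * Nj / S + m)) (x + pz M (P l) (b * Nj / S + m)) -
        AA M P (fun l => V l (x + pz M (P i₀) (b * Nj / S + m))) x) := by
    intro x
    rw [tv_sub, tv_sub]
    have e1 : wb (P i₀) S b Nj (fun z => Zf P Q (2 * A + 2) (2 * A + 2) Ps ty L (fun l => pz M (P l - P i₀) (b * Nj / S)) f z x) x =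
        tv ((b + 1) * Nj / S - b * Nj / S) (fun m => AA M P (fun l => V l (x + pz M (P i₀) (b * Nj / S + m))) x) := by
      rw [hV]
      rfl
    have e2 : tv ((b + 1) * Nj / S - b * Nj / S) (fun m =>
          ∏ l, Vd A B C₄ K (e l) Nj (ty l) (f l) (x + pz M (P l) (b * Nj / S + m))) =
        tv ((b + 1) * Nj / S - b * Nj / S) (fun m =>
          ∏ l, vT Q (2 * A + 2) (2 * A + 2) (L l) Ps (ty l) 0 (f l) (x + pz M (P l) (b * Nj / S + m))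
            (x + pz M (P l) (b * Nj / S + m))) := by
      rw [hLdef, hNjd]
      rfl
    rw [e1, e2]
    ring
  simp only [hD]
  refine (n2_add_le _ _).trans ?_
  have hD1 : n2 (fun x : ZMod M => tv ((b + 1) * Nj / S - b * Nj / S) (fun m =>
          ∏ l, vT Q (2 * A + 2) (2 * A + 2) (L l) Ps (ty l) 0 (f l) (x + pz M (P l) (b * Nj / S + m)) (x + pz M (P l) (b * Nj / S + m)) -
          ∏ l, vT Q (2 * A + 2) (2 * A + 2) (L l) Ps (ty l) (pz M (P l - P i₀) (b * Nj / S)) (f l) (x + pz M (P i₀) (b * Nj / S + m))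
            (x + pz M (P l) (b * Nj / S + m)))) ≤ (1 / 2 ^ (2 * K + 1)) ^ 2 := by
    unfold n2
    refine avr_le (fun x => ?_)
    refine pow_le_pow_left₀ (norm_nonneg _) ?_ 2
    have h1 := hbA M Q (2 * A + 2) (2 * A + 2) qm Nj S b Ps L ty (2 ^ (C₄ * (K / 2) + 3) / S) hWS hqm hqm1 hqL hS1 hSN hb
      hη f hf x
    refine h1.trans ?_
    have h2 := err1 CA A C₄ n K Ps.card A₄ hcard hA₄ (by omega)
    rw [← hS] at h2
    exact h2
  have hD2 : n2 (fun x : ZMod M => tv ((b + 1) * Nj / S - b * Nj / S) (fun m =>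
        ∏ l, V l (x + pz M (P i₀) (b * Nj / S + m)) (x + pz M (P l) (b * Nj / S + m)) -
        AA M P (fun l => V l (x + pz M (P i₀) (b * Nj / S + m))) x)) ≤ 1 / 2 ^ (4 * K + 4) := by
    refine root_le _ (avr_nonneg (fun x => by positivity)) CB K Nj hCB1 ?_ s5 hNj
    have hSH := block_lb Nj S b hS1 hSN
    refine hbB M Nj (2 * W) qm ((b + 1) * Nj / S - b * Nj / S) (b * Nj / S) (((2 * W * qm : ℕ) : ℝ) * Y / Nj) ?_ (by omega) hqm1
      (s2.trans hYN) ?_ ?_ (by positivity) (kap_small n (2 * W * qm) Y Nj hNj1 s3 hY5) V ?_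
    · have h1 : K < 2 ^ K := Nat.lt_two_pow_self
      have h2 : 2 ^ K < 2 ^ (2 ^ K) := Nat.lt_two_pow_self
      omega
    · have h1 : (b + 1) * Nj / S ≤ Nj := by
        refine Nat.div_le_of_le_mul ?_
        exact Nat.mul_le_mul_right Nj (by omega)
      have h2 : b * Nj / S ≤ (b + 1) * Nj / S := Nat.div_le_div_right (Nat.mul_le_mul_right _ (by omega))
      omega
    · refine pow_lb Nj S _ CB hCB1 hNj1 hSH ?_
      rw [hS]
      exact s4.trans hYN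
    · intro l
      have h1 := sl_vT hWS hqm (hqL l) hqm1 (ty l) (pz M (P l - P i₀) (b * Nj / S)) (f l) (hf l)
      refine sl_mono h1 (by rw [hW]) le_rfl ?_
      have h2 := kap_ge W qm (L l) Y Nj (hY1.trans (hYL l)) hNj1 (hNL l)
      rw [hW] at h2 ⊢
      push_cast at h2 ⊢
      exact h2
  have h3 : (1 / 2 ^ (2 * K + 1) : ℝ) ^ 2 ≤ 1 / 4 * (1 / 2 ^ (3 * K)) := by
    have e1 : (1 / 2 ^ (2 * K + 1) : ℝ) ^ 2 = 1 / 2 ^ (4 * K + 2) := by
      rw [div_pow, one_pow, ← pow_mul]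
      congr 2
      ring
    have e2 : (1 / 4 * (1 / 2 ^ (3 * K)) : ℝ) = 1 / 2 ^ (3 * K + 2) := by
      rw [pow_add]
      field_simp
      norm_num
    rw [e1, e2]
    exact one_div_le_one_div_of_le (by positivity) (pow_le_pow_right₀ (by norm_num) (by omega))
  have h4 : (1 / 2 ^ (4 * K + 4) : ℝ) ≤ 1 / 4 * (1 / 2 ^ (3 * K)) := by
    have e2 : (1 / 4 * (1 / 2 ^ (3 * K)) : ℝ) = 1 / 2 ^ (3 * K + 2) := by
      rw [pow_add]
      field_simp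
      norm_num
    rw [e2]
    exact one_div_le_one_div_of_le (by positivity) (pow_le_pow_right₀ (by norm_num) (by omega))
  linarith

end Pool.Agent.EQD.G
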