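import Pool.Agent.Lib.EQD.T3s
import Pool.Agent.Lib.EQG.MStrB
import Pool.Agent.Lib.EQG.MStrC
import Pool.Agent.Lib.EQG.MT3b

/-!
# Module MT3s: the module T3s for the general class (same proof)
-/

set_option autoImplicit false

open Finset Polynomial

namespace Pool.Agent.EQD.G

open Pool.Agent.HLT Pool.Agent.NLT Pool.Agent.NLG

open T3sAux

theorem structured {n : ℕ} {P : Fin n → ℤ[X]} {e : Fin n → ℕ} {i₀ : Fin n} (h : GDeg P e i₀) (A B C₄ : ℕ) (hA : 1 ≤ A)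
    (hB : 4 * A ≤ B) : ∃ C K₀ : ℕ, 1 ≤ C ∧ ∀ (M : ℕ) [NeZero M] (K : ℕ) (N : ℕ → ℕ) (ty : Fin n → ℕ) (i₁ : Fin n), K₀ ≤ K → Sc N →
      qU (QB B (K / 2)) (2 * A + 2) (PP (K / 2) (2 ^ (K * A))) ∣ M → ty i₁ = 2 → ∀ f : Fin n → ZMod M → ℂ, (∀ l, Bd (f l)) →
      ∀ c : ZMod M → ℕ, (∀ x, 2 ^ K ≤ c x ∧ c x < 2 ^ (K + 1)) →
      avr (fun x => ‖AA (N (c x)) P (fun l => Vd A B C₄ K (e l) (N (c x)) (ty l) (f l)) x‖) ≤ C / 2 ^ (K / C) := by
  obtain ⟨A₄, K₁, hA₄, hbf⟩ := block_form h A B C₄ hA hB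
  obtain ⟨Cz, K₂, hCz, hz⟩ := str_z h A B C₄ A₄ hA hB hA₄
  obtain ⟨G, K₃, hG, hrm⟩ := str_rm (P i₀).natDegree ((h.pos i₀).trans (h.le i₀)) (P i₀) rfl A₄ hA₄
  obtain ⟨K₄, hsz⟩ := size_block A B (2 * A + 2) (2 * A + 2) (9 * n + 12 + A₄)
  obtain ⟨K₅, hLf⟩ := Lf_block B C₄
  obtain ⟨C, hC, hfin⟩ := T3sAux.final_bound G hG Cz hCz
  refine ⟨C, K₁ + K₂ + K₃ + K₄ + K₅, hC, ?_⟩
  intro M _ K N ty i₁ hK hSc hdiv hty f hf c hc
  have ws := ws_block M B K A (2 * A + 2) (by omega) hdiv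
  obtain ⟨qm, hqm1, hqm, hW⟩ := hsz K (by omega)
  refine le_trans ?_ (hfin K)
  set T : ℕ := (4 * ((PP (K / 2) (2 ^ (K * A))).card + 2)) ^ (2 * A + 2 + 1) with hT
  have hT1 : 1 ≤ T := Nat.one_le_pow _ _ (by omega)
  set X : ℕ := 9 * n + 12 + A₄ with hX
  have hW1 : 1 ≤ qm * T * 2 ^ (K * X + X) := Nat.mul_pos (Nat.mul_pos hqm1 hT1) (by positivity)
  have hKA : K * A₄ ≤ 2 ^ K := by
    have h1 : 2 ^ (K * X) ≤ 2 ^ (2 ^ K / 8) := by
      calc 2 ^ (K * X) ≤ 2 ^ (K * X + X) := Nat.pow_le_pow_right (by norm_num) (by omega)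
        _ ≤ qm * T * 2 ^ (K * X + X) := Nat.le_mul_of_pos_left _ (Nat.mul_pos hqm1 hT1)
        _ ≤ (qm * T * 2 ^ (K * X + X)) ^ X := Nat.le_self_pow (by omega) _
        _ ≤ 2 ^ (2 ^ K / 8) := hW
    have h2 : K * X ≤ 2 ^ K / 8 := (Nat.pow_le_pow_iff_right (by norm_num)).1 h1
    have h3 : K * A₄ ≤ K * X := Nat.mul_le_mul_left _ (by omega)
    omega
  have hN : ∀ j, 2 ^ K ≤ j → 2 ^ (2 ^ K) ≤ N j := fun j hj =>
    (Nat.pow_le_pow_right (by norm_num) hj).trans (hSc j).1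
  have hNS : ∀ x, 2 ^ (K * A₄) ≤ N (c x) := fun x =>
    (Nat.pow_le_pow_right (by norm_num) hKA).trans (hN _ (hc x).1)
  have hS1 : 1 ≤ 2 ^ (K * A₄) := Nat.one_le_pow _ _ (by norm_num)
  -- decomposition into blocks
  set Xb : ℕ → ZMod M → ℂ := fun b x =>
    tv ((b + 1) * N (c x) / 2 ^ (K * A₄) - b * N (c x) / 2 ^ (K * A₄)) (fun m =>
      ∏ l, Vd A B C₄ K (e l) (N (c x)) (ty l) (f l) (x + pz M (P l) (b * N (c x) / 2 ^ (K * A₄) + m))) with hXb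
  have hkey : ∀ x, ‖AA (N (c x)) P (fun l => Vd A B C₄ K (e l) (N (c x)) (ty l) (f l)) x‖ ≤
      2 / ((2 ^ (K * A₄) : ℕ) : ℝ) * ∑ b ∈ range (2 ^ (K * A₄)), ‖Xb b x‖ := by
    intro x
    exact blocks (N (c x)) (2 ^ (K * A₄)) hS1 (hNS x)
      (fun t => ∏ l, Vd A B C₄ K (e l) (N (c x)) (ty l) (f l) (x + pz M (P l) t))
  have hb : ∀ b ∈ range (2 ^ (K * A₄)), avr (fun x => ‖Xb b x‖) ≤
      √(1 / 2 ^ (2 * K)) + √(G * ((K : ℝ) + 1) ^ 5 * ((Cz : ℝ) / 2 ^ (K / Cz) + 1 / 2 ^ K)) := by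
    intro b hb
    have hb' := mem_range.1 hb
    set Z : ℕ → ZMod M → ZMod M → ℂ := fun i => Zf P (QB B (K / 2)) (2 * A + 2) (2 * A + 2) (PP (K / 2) (2 ^ (K * A))) ty
        (fun l => Lf (QB B (K / 2)) C₄ (K / 2) (N (2 ^ (K + 1) - 1 - i)) (e l))
        (fun l => pz M (P l - P i₀) (b * N (2 ^ (K + 1) - 1 - i) / 2 ^ (K * A₄))) f with hZ
    set Y : ℕ → ZMod M → ℂ := fun j x =>
      wb (P i₀) (2 ^ (K * A₄)) b (N j) (fun z => Zf P (QB B (K / 2)) (2 * A + 2) (2 * A + 2) (PP (K / 2) (2 ^ (K * A))) ty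
          (fun l => Lf (QB B (K / 2)) C₄ (K / 2) (N j) (e l)) (fun l => pz M (P l - P i₀) (b * N j / 2 ^ (K * A₄))) f z x) x with hY
    set Dj : ℕ → ZMod M → ℂ := fun j x => tv ((b + 1) * N j / 2 ^ (K * A₄) - b * N j / 2 ^ (K * A₄)) (fun m =>
          ∏ l, Vd A B C₄ K (e l) (N j) (ty l) (f l) (x + pz M (P l) (b * N j / 2 ^ (K * A₄) + m))) - Y j x with hDj
    have hsplit : ∀ x, ‖Xb b x‖ ≤ ‖Dj (c x) x‖ + ‖Y (c x) x‖ := by
      intro x
      have : Xb b x = Dj (c x) x + Y (c x) x := by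
        simp only [hXb, hDj]
        ring
      rw [this]
      exact norm_add_le _ _
    have hD : avr (fun x => ‖Dj (c x) x‖) ≤ √(1 / 2 ^ (2 * K)) := by
      refine avr_choice_le (Ico (2 ^ K) (2 ^ (K + 1))) Dj _ ?_ c (fun x => mem_Ico.2 (hc x))
      calc ∑ j ∈ Ico (2 ^ K) (2 ^ (K + 1)), n2 (Dj j) ≤ ∑ j ∈ Ico (2 ^ K) (2 ^ (K + 1)), (1 : ℝ) / 2 ^ (3 * K) := by
            refine sum_le_sum fun j hj => ?_
            have hj' := mem_Ico.1 hj
            exact hbf M K j b N ty (by omega) hSc ws hj'.1 hj'.2 hb' f hf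
        _ = 1 / 2 ^ (2 * K) := by
            rw [sum_const, Nat.card_Ico, nsmul_eq_mul]
            have : 2 ^ (K + 1) - 2 ^ K = 2 ^ K := by rw [pow_succ]; omega
            rw [this]
            push_cast
            rw [show 3 * K = K + 2 * K by ring, pow_add]
            have : (2 : ℝ) ^ K ≠ 0 := by positivity
            field_simp
    have hYb : n2 (fun x => Y (c x) x) ≤ G * ((K : ℝ) + 1) ^ 5 * ((Cz : ℝ) / 2 ^ (K / Cz) + 1 / 2 ^ K) := by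
      set c' : ZMod M → ℕ := fun x => 2 ^ (K + 1) - 1 - c x with hc'
      have hcc : ∀ x, 2 ^ (K + 1) - 1 - c' x = c x := by
        intro x
        have := hc x
        simp only [hc']
        omega
      have hc'lt : ∀ x, c' x < 2 ^ K := by
        intro x
        have := hc x
        have h2 : 2 ^ (K + 1) = 2 * 2 ^ K := by rw [pow_succ]; ring
        simp only [hc']
        omega
      obtain ⟨hz0, hz1⟩ := hz M K b N ty i₁ (by omega) hSc ws hb' hty f hf Z (fun i => rfl)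
      have hEq : (fun x => Y (c x) x) =
          fun x => wb (P i₀) (2 ^ (K * A₄)) b (N (2 ^ (K + 1) - 1 - c' x)) (fun z => Z (c' x) z x) x := by
        funext x
        simp only [hZ, hY, hcc x]
      rw [hEq]
      set κ₀ : ℝ := ((2 * T : ℕ) : ℝ) * qm * 2 ^ (2 ^ K / 8) / 2 ^ (2 ^ K) with hκ₀
      have hκ₀0 : 0 ≤ κ₀ := by positivity
      refine hrm M K b N Z ((2 * T) ^ n) (qm ^ n) (n * ((2 * T : ℕ) : ℝ) ^ n * κ₀) _ _ (by omega) hSc hb'
        (Nat.one_le_pow _ _ (by omega)) (Nat.one_le_pow _ _ hqm1) (by positivity) (by positivity) ?_ ?_ ?_ hz0 hz1 c' hc'lt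
      · rw [div_le_one (by positivity)]
        exact one_le_pow₀ (by norm_num)
      · have h1 := T3sAux.size_nat n T qm K X _ (by omega) hT1 hqm1 hW
        have h2 : ((n * (2 * T) ^ n * ((2 * T) * qm) * (4 * (2 * T) ^ n * qm ^ n) ^ 4 * 2 ^ (5 * K) : ℕ) : ℝ) ≤
            ((2 ^ (2 ^ K / 8) : ℕ) : ℝ) := by exact_mod_cast h1
        push_cast at h2
        have h3 : (2 : ℝ) ^ (2 ^ K / 8) * 2 ^ (2 ^ K / 8) * 2 ^ (2 ^ K / 2) ≤ 2 ^ (2 ^ K) := by
          rw [← pow_add, ← pow_add]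
          exact pow_le_pow_right₀ (by norm_num) (by omega)
        rw [hκ₀, le_div_iff₀ (by positivity)]
        push_cast
        calc (n : ℝ) * (2 * T) ^ n * (2 * T * qm * 2 ^ (2 ^ K / 8) / 2 ^ (2 ^ K)) * 2 ^ (2 ^ K / 2) *
              (4 * (2 * T) ^ n * qm ^ n) ^ 4 * 2 ^ (4 * K) * 2 ^ K
            = (n * (2 * T) ^ n * (2 * T * qm) * (4 * (2 * T) ^ n * qm ^ n) ^ 4 * 2 ^ (5 * K)) *
              (2 ^ (2 ^ K / 8) * 2 ^ (2 ^ K / 2)) / 2 ^ (2 ^ K) := by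
                rw [show 5 * K = 4 * K + K by ring, pow_add]
                ring
          _ ≤ 2 ^ (2 ^ K / 8) * (2 ^ (2 ^ K / 8) * 2 ^ (2 ^ K / 2)) / 2 ^ (2 ^ K) := by
                apply div_le_div_of_nonneg_right _ (by positivity)
                exact mul_le_mul_of_nonneg_right h2 (by positivity)
          _ ≤ 1 := by
                rw [div_le_one (by positivity)]
                linarith
      · intro i hi
        have hj1 : 2 ^ K ≤ 2 ^ (K + 1) - 1 - i := by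
          have h2 : 2 ^ (K + 1) = 2 * 2 ^ K := by rw [pow_succ]; ring
          omega
        have hj2 : 2 ^ (K + 1) - 1 - i < 2 ^ (K + 1) := by
          have : 0 < 2 ^ (K + 1) := by positivity
          omega
        have hV : ∀ l, Sl (2 * T) qm κ₀ (vT (QB B (K / 2)) (2 * A + 2) (2 * A + 2)
            (Lf (QB B (K / 2)) C₄ (K / 2) (N (2 ^ (K + 1) - 1 - i)) (e l)) (PP (K / 2) (2 ^ (K * A))) (ty l)
            (pz M (P l - P i₀) (b * N (2 ^ (K + 1) - 1 - i) / 2 ^ (K * A₄))) (f l)) := by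
          intro l
          obtain ⟨-, -, -, hL4, hL5⟩ := hLf K (by omega) N (e l) (2 ^ (K + 1) - 1 - i) hSc (h.pos l) hj1 hj2
          set Lw : ℕ := Lf (QB B (K / 2)) C₄ (K / 2) (N (2 ^ (K + 1) - 1 - i)) (e l) with hLw
          have hqL : qm ≤ Lw := by
            calc qm ≤ qm * T * 2 ^ (K * X + X) := by
                  rw [Nat.mul_assoc]
                  exact Nat.le_mul_of_pos_right _ (Nat.mul_pos hT1 (by positivity))
              _ ≤ (qm * T * 2 ^ (K * X + X)) ^ X := Nat.le_self_pow (by omega) _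
              _ ≤ 2 ^ (2 ^ K / 8) := hW
              _ ≤ 2 ^ (2 ^ K / 2) := Nat.pow_le_pow_right (by norm_num) (by omega)
              _ ≤ Lw := hL5
          have h1 := sl_vT ws hqm hqL hqm1 (ty l) (pz M (P l - P i₀) (b * N (2 ^ (K + 1) - 1 - i) / 2 ^ (K * A₄))) (f l) (hf l)
          refine sl_mono h1 le_rfl le_rfl ?_
          have hLpos : (0 : ℝ) < Lw := by
            exact_mod_cast (lt_of_lt_of_le hqm1 hqL)
          have h2 : ((2 ^ (2 ^ K) : ℕ) : ℝ) ≤ ((2 ^ (2 ^ K / 8) * Lw : ℕ) : ℝ) := by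
            exact_mod_cast (hN _ hj1).trans hL4
          push_cast at h2
          rw [hκ₀, div_le_div_iff₀ hLpos (by positivity)]
          have h3 : (4 * (((PP (K / 2) (2 ^ (K * A))).card : ℝ) + 2)) ^ (2 * A + 2 + 1) = (T : ℝ) := by
            rw [hT]
            push_cast
            rfl
          rw [h3]
          push_cast
          have hTq : (0 : ℝ) ≤ T * qm := by positivity
          nlinarith [mul_le_mul_of_nonneg_left h2 hTq, mul_nonneg hTq (mul_nonneg (by positivity : (0 : ℝ) ≤ 2 ^ (2 ^ K / 8)) hLpos.le)]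
        exact sl_fib hκ₀0 (by omega) hqm1 P _ hV
    calc avr (fun x => ‖Xb b x‖) ≤ avr (fun x => ‖Dj (c x) x‖ + ‖Y (c x) x‖) := avr_mono hsplit
      _ = avr (fun x => ‖Dj (c x) x‖) + avr (fun x => ‖Y (c x) x‖) := avr_add _ _
      _ ≤ _ := add_le_add hD ((avr_norm_le_sqrt_n2 (fun x => Y (c x) x)).trans (Real.sqrt_le_sqrt hYb))
  calc avr (fun x => ‖AA (N (c x)) P (fun l => Vd A B C₄ K (e l) (N (c x)) (ty l) (f l)) x‖)
      ≤ avr (fun x => 2 / ((2 ^ (K * A₄) : ℕ) : ℝ) * ∑ b ∈ range (2 ^ (K * A₄)), ‖Xb b x‖) := avr_mono hkey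
    _ = 2 / ((2 ^ (K * A₄) : ℕ) : ℝ) * ∑ b ∈ range (2 ^ (K * A₄)), avr (fun x => ‖Xb b x‖) := by
        rw [avr_mul_left, avr_sum (range (2 ^ (K * A₄))) (fun b x => ‖Xb b x‖)]
    _ ≤ 2 / ((2 ^ (K * A₄) : ℕ) : ℝ) * ∑ b ∈ range (2 ^ (K * A₄)),
        (√(1 / 2 ^ (2 * K)) + √(G * ((K : ℝ) + 1) ^ 5 * ((Cz : ℝ) / 2 ^ (K / Cz) + 1 / 2 ^ K))) :=
        mul_le_mul_of_nonneg_left (sum_le_sum hb) (by positivity)
    _ = _ := by
        rw [sum_const, card_range, nsmul_eq_mul]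
        have : ((2 ^ (K * A₄) : ℕ) : ℝ) ≠ 0 := by positivity
        field_simp

end Pool.Agent.EQD.G
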