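import Pool.Agent.Lib.EQD.GapB
import Pool.Agent.Lib.EQG.MT3s

/-!
# Module MGapB: the module GapB for the general class (same proof)
-/

set_option autoImplicit false

open Finset Polynomial

namespace Pool.Agent.EQD.G

open Pool.Agent.HLT Pool.Agent.NLT Pool.Agent.NLG

open GapBAux

theorem gapB {n : ℕ} {P : Fin n → ℤ[X]} {e : Fin n → ℕ} {i₀ : Fin n} (h : GDeg P e i₀) : ∃ C₄ B₀ : ℕ, 2 ≤ C₄ ∧ 1 ≤ B₀ ∧
    ∀ B : ℕ, B₀ ≤ B → ∀ ε : ℝ, 0 < ε → ∃ J₀ : ℕ, ∀ J₁ : ℕ, ∃ M₀ : ℕ, 1 ≤ M₀ ∧ ∀ (M : ℕ) [NeZero M], M₀ ∣ M → ∀ N : ℕ → ℕ, Sc N →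
    ∀ f : Fin n → ZMod M → ℂ, (∀ l, Bd (f l)) → ∀ c : ZMod M → ℕ, Ch J₀ J₁ c →
    avr (fun x => ‖AA (N (c x)) P f x -
      AA (N (c x)) P (fun l => Ew B (tj (c x)) (tj (c x)) (N (c x) ^ e l / 2 ^ (C₄ * tj (c x))) (f l)) x‖) ≤ ε := by
  obtain ⟨A, hA, hmin⟩ := minor_block P e h.pos h.inv
  refine ⟨4 * A + 12, 4 * A, by omega, by omega, ?_⟩
  intro B hB ε hε
  obtain ⟨C₁, K₁, hC₁, h1⟩ := structured h A B (4 * A + 12) hA hB
  obtain ⟨C₂, K₂, hC₂, h2⟩ := hmin B (4 * A + 12) hB le_rfl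
  obtain ⟨C₄, hC₄⟩ : ∃ C₄, C₄ = 4 * A + 12 := ⟨_, rfl⟩
  rw [← hC₄] at h1 h2 ⊢
  have hn1 : (0 : ℝ) < (n : ℝ) + 1 := by positivity
  obtain ⟨δ, hδ⟩ : ∃ δ : ℝ, δ = ε / ((n : ℝ) + 1) := ⟨_, rfl⟩
  have hδ0 : 0 < δ := by rw [hδ]; positivity
  have hsum : Summable (fun K : ℕ => (C₁ : ℝ) / 2 ^ (K / C₁) + C₂ / 2 ^ K) := by
    have a1 := (summ C₁ hC₁).mul_left (C₁ : ℝ)
    have a2 := (summ 1 le_rfl).mul_left (C₂ : ℝ)
    have e1 : (fun K : ℕ => (C₁ : ℝ) / 2 ^ (K / C₁) + C₂ / 2 ^ K) =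
        (fun K : ℕ => (C₁ : ℝ) * (1 / 2) ^ (K / C₁) + (C₂ : ℝ) * (1 / 2) ^ (K / 1)) := by
      funext K
      rw [Nat.div_one, one_div, inv_pow, inv_pow]
      rfl
    rw [e1]
    exact a1.add a2
  obtain ⟨K₀, hK₀⟩ := tail _ hsum δ hδ0
  obtain ⟨K', hK'⟩ : ∃ K', K' = max K₀ (max K₁ K₂) := ⟨_, rfl⟩
  have k0 : K₀ ≤ K' := by rw [hK']; exact le_max_left _ _
  have k1 : K₁ ≤ K' := by rw [hK']; exact (le_max_left _ _).trans (le_max_right _ _)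
  have k2 : K₂ ≤ K' := by rw [hK']; exact (le_max_right _ _).trans (le_max_right _ _)
  refine ⟨2 ^ K', fun J₁ => ?_⟩
  refine ⟨∏ K ∈ range (Nat.log 2 J₁ + 1), qU (QB B (K / 2)) (2 * A + 2) (PP (K / 2) (2 ^ (K * A))),
    Nat.succ_le_of_lt (Finset.prod_pos fun K _ => gapB_qU_pos B K A), ?_⟩
  intro M _ hM N hN f hf c hc
  -- the types
  obtain ⟨ty, hty⟩ : ∃ ty : Fin n → Fin n → ℕ, ty = fun i l => if l = i then 2 else if l < i then 0 else 1 :=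
    ⟨_, rfl⟩
  have hslot : ∀ i : Fin n, avr (fun x => ‖AA (N (c x)) P
      (fun l => Gd B C₄ (tj (c x)) (e l) (N (c x)) (ty i l) (f l)) x‖) ≤ δ := by
    intro i
    obtain ⟨cK, hcK⟩ : ∃ cK : ℕ → ZMod M → ℕ, cK = fun K x =>
        if 2 ^ K ≤ c x ∧ c x < 2 ^ (K + 1) then c x else 2 ^ K := ⟨_, rfl⟩
    have hcK1 : ∀ K x, 2 ^ K ≤ cK K x ∧ cK K x < 2 ^ (K + 1) := by
      intro K x
      rw [hcK]
      show 2 ^ K ≤ (if 2 ^ K ≤ c x ∧ c x < 2 ^ (K + 1) then c x else 2 ^ K) ∧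
        (if 2 ^ K ≤ c x ∧ c x < 2 ^ (K + 1) then c x else 2 ^ K) < 2 ^ (K + 1)
      split_ifs with hh
      · exact hh
      · exact ⟨le_rfl, Nat.pow_lt_pow_right (by norm_num) (Nat.lt_succ_self K)⟩
    have hpt : ∀ x, ‖AA (N (c x)) P (fun l => Gd B C₄ (tj (c x)) (e l) (N (c x)) (ty i l) (f l)) x‖ ≤
        ∑ K ∈ Icc K' (Nat.log 2 J₁), ‖AA (N (cK K x)) P
          (fun l => Gd B C₄ (K / 2) (e l) (N (cK K x)) (ty i l) (f l)) x‖ := by
      intro x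
      obtain ⟨c1, c2⟩ := hc x
      have hc0 : c x ≠ 0 := by
        have : 0 < 2 ^ K' := by positivity
        omega
      have l1 : 2 ^ Nat.log 2 (c x) ≤ c x := Nat.pow_log_le_self 2 hc0
      have l2 : c x < 2 ^ (Nat.log 2 (c x) + 1) := Nat.lt_pow_succ_log_self (by norm_num) (c x)
      have l3 : K' ≤ Nat.log 2 (c x) := Nat.le_log_of_pow_le (by norm_num) c1
      have l4 : Nat.log 2 (c x) ≤ Nat.log 2 J₁ := Nat.log_mono_right c2
      have hmem : Nat.log 2 (c x) ∈ Icc K' (Nat.log 2 J₁) := mem_Icc.mpr ⟨l3, l4⟩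
      have h5 := Finset.single_le_sum (f := fun K => ‖AA (N (cK K x)) P
          (fun l => Gd B C₄ (K / 2) (e l) (N (cK K x)) (ty i l) (f l)) x‖)
          (fun K _ => norm_nonneg _) hmem
      refine le_trans (le_of_eq ?_) h5
      have h6 : cK (Nat.log 2 (c x)) x = c x := by
        rw [hcK]
        show (if 2 ^ Nat.log 2 (c x) ≤ c x ∧ c x < 2 ^ (Nat.log 2 (c x) + 1) then c x else _) = c x
        rw [if_pos ⟨l1, l2⟩]
      show _ = ‖AA (N (cK (Nat.log 2 (c x)) x)) P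
          (fun l => Gd B C₄ (Nat.log 2 (c x) / 2) (e l) (N (cK (Nat.log 2 (c x)) x)) (ty i l) (f l)) x‖
      rw [h6, tj_block (Nat.log 2 (c x)) (c x) l1 l2]
    refine (avr_mono hpt).trans ?_
    rw [avr_sum]
    refine le_trans (Finset.sum_le_sum fun K hK => ?_) (hK₀ (Icc K' (Nat.log 2 J₁)) fun K hK =>
      k0.trans (mem_Icc.mp hK).1)
    obtain ⟨m1, m2⟩ := mem_Icc.mp hK
    have hdiv : qU (QB B (K / 2)) (2 * A + 2) (PP (K / 2) (2 ^ (K * A))) ∣ M :=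
      (Finset.dvd_prod_of_mem (fun K => qU (QB B (K / 2)) (2 * A + 2) (PP (K / 2) (2 ^ (K * A))))
        (mem_range.mpr (Nat.lt_succ_of_le m2))).trans hM
    have b1 := h1 M K N (ty i) i (k1.trans m1) hN hdiv (by rw [hty]; exact if_pos rfl) f hf (cK K) (hcK1 K)
    have b2 := h2 M K N (ty i) (k2.trans m1) hN hdiv f hf (cK K) (hcK1 K)
    have b3 : ∀ x, ‖AA (N (cK K x)) P (fun l => Gd B C₄ (K / 2) (e l) (N (cK K x)) (ty i l) (f l)) x‖ ≤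
        ‖AA (N (cK K x)) P (fun l => Vd A B C₄ K (e l) (N (cK K x)) (ty i l) (f l)) x‖ +
        ‖AA (N (cK K x)) P (fun l => Gd B C₄ (K / 2) (e l) (N (cK K x)) (ty i l) (f l)) x -
          AA (N (cK K x)) P (fun l => Vd A B C₄ K (e l) (N (cK K x)) (ty i l) (f l)) x‖ := by
      intro x
      have := norm_add_le (AA (N (cK K x)) P (fun l => Vd A B C₄ K (e l) (N (cK K x)) (ty i l) (f l)) x)
        (AA (N (cK K x)) P (fun l => Gd B C₄ (K / 2) (e l) (N (cK K x)) (ty i l) (f l)) x -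
          AA (N (cK K x)) P (fun l => Vd A B C₄ K (e l) (N (cK K x)) (ty i l) (f l)) x)
      rwa [add_sub_cancel] at this
    refine (avr_mono b3).trans ?_
    rw [avr_add]
    exact add_le_add b1 b2
  have hfin : ∀ x, ‖AA (N (c x)) P f x -
      AA (N (c x)) P (fun l => Ew B (tj (c x)) (tj (c x)) (N (c x) ^ e l / 2 ^ (C₄ * tj (c x))) (f l)) x‖ ≤
      ∑ i : Fin n, ‖AA (N (c x)) P (fun l => Gd B C₄ (tj (c x)) (e l) (N (c x)) (ty i l) (f l)) x‖ := by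
    intro x
    rw [AA_telescope]
    refine (norm_sum_le _ _).trans (le_of_eq ?_)
    refine Finset.sum_congr rfl fun i _ => ?_
    congr 2
    funext l
    by_cases hl : l = i
    · subst hl
      rw [Function.update_self]
      funext y
      unfold Gd
      rw [hty]
      simp
    · rw [Function.update_of_ne hl]
      funext y
      unfold Gd
      rw [hty]
      by_cases hl2 : l < i
      · simp [hl, hl2]
      · simp [hl, hl2]
  refine (avr_mono hfin).trans ?_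
  rw [avr_sum]
  refine (Finset.sum_le_card_nsmul _ _ _ fun i _ => hslot i).trans ?_
  rw [card_univ, Fintype.card_fin, nsmul_eq_mul, hδ]
  have e1 : (n : ℝ) * (ε / ((n : ℝ) + 1)) = n / ((n : ℝ) + 1) * ε := by
    field_simp
  rw [e1]
  have e2 : (n : ℝ) / ((n : ℝ) + 1) ≤ 1 := div_le_one_of_le₀ (by linarith) hn1.le
  nlinarith

end Pool.Agent.EQD.G
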