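import Pool.Agent.Lib.EQG.MLoc
import Pool.Agent.Lib.EQD.L2win

/-!
# Module MWin: gain in L2 for every `M`, functions of the slots of higher degree constant

PROOF. As in `EQD.L2win` (windows of length `~ N ^ deg (P i)`, transplantation to a cyclic group of order `~ N ^ deg (P i)`, `l2loc`). The slots `l` with `deg (P l) > deg (P i)` carry the constant function `1`, so the polynomial
`P l` in such a slot may be replaced by `P i` (`P' l = P i`) without changing `AA`: all the polynomials `P' l` have degree `≤ deg (P i)`, so `|P' l (t)| ≤ c N ^ deg (P i)` for `t < N`. Transplant with `P'`, and in the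
small group go back to `P` (again the functions in these slots are `1`) to apply `l2loc` of `EQG.MLoc` for `P`.
-/

set_option autoImplicit false

open Finset Polynomial

namespace Pool.Agent.EQD.G

open Pool.Agent.HLT Pool.Agent.NLT Pool.Agent.NLG

namespace MWinAux

open Pool.Agent.EQD.L2winAux

variable {M W : ℕ} [NeZero M] [NeZero W]

/-- The averages agree in the central part; in the slots with large values of the polynomial both functions are `1`. -/
lemma AA_loc' {n N A : ℕ} {P : Fin n → ℤ[X]} {a : ZMod M} {y : ZMod W} {G' : Fin n → ZMod W → ℂ} {G : Fin n → ZMod M → ℂ}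
    (hG : ∀ l, ((∀ t, t < N → ((P l).eval (t : ℤ)).natAbs ≤ A) ∧ Loc A a y (G' l) (G l)) ∨
      ((∀ z, G' l z = 1) ∧ ∀ z, G l z = 1)) : AA N P G' y = AA N P G (ph M a y) := by
  unfold AA tv
  congr 1
  refine Finset.sum_congr rfl fun t ht => ?_
  refine Finset.prod_congr rfl fun l _ => ?_
  unfold pz
  rcases hG l with ⟨hP, hl⟩ | ⟨h1, h2⟩
  · exact hl _ (hP t (Finset.mem_range.1 ht))
  · rw [h1, h2]

end MWinAux

open Pool.Agent.EQD.L2winAux MWinAux in
theorem l2gain {n : ℕ} {P : Fin n → ℤ[X]} {e : Fin n → ℕ} {i₀ : Fin n} (h : GDeg P e i₀) :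
    ∃ C : ℕ, 1 ≤ C ∧ ∀ (M : ℕ) [NeZero M] (N R : ℕ), 2 ≤ R → R ^ C ≤ N → ∀ (i : Fin n) (β : ℤ →₀ ℂ), mass β ≤ 4 →
      Supp (N ^ (P i).natDegree) β → NS C R (N ^ e i) β → ∀ g : Fin n → ZMod M → ℂ, (∀ l, Bd (g l)) →
      (∀ l, (P i).natDegree < (P l).natDegree → ∀ x, g l x = 1) → ∀ F : ZMod M → ℂ,
      n2 (AA N P (Function.update g i (cv β F))) ≤ C * n2 F / R := by
  obtain ⟨c₁, hc₁⟩ : ∃ c₁ : ℕ, ∀ (D : ℕ) (l : Fin n) (N t : ℕ), (P l).natDegree ≤ D → t < N →
      ((P l).eval (t : ℤ)).natAbs ≤ c₁ * N ^ D := by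
    refine ⟨∑ l, ∑ k ∈ range ((P l).natDegree + 1), ((P l).coeff k).natAbs, fun D l N t hD ht => ?_⟩
    refine (eval_bound (P l) (P l).natDegree rfl N t ht).trans ?_
    refine Nat.mul_le_mul ?_ (Nat.pow_le_pow_right (by omega) hD)
    exact Finset.single_le_sum (f := fun l => ∑ k ∈ range ((P l).natDegree + 1), ((P l).coeff k).natAbs)
      (fun _ _ => Nat.zero_le _) (Finset.mem_univ l)
  obtain ⟨C, hC1, hC⟩ := l2loc h (4 * (c₁ + 1))
  refine ⟨C * 3, by omega, ?_⟩
  intro M hM N R hR hRN i β hβ hsupp hNS g hg hone F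
  obtain ⟨D, hD⟩ : ∃ D, D = (P i).natDegree := ⟨_, rfl⟩
  rw [← hD] at hsupp hone
  have hR1 : 1 ≤ R := by omega
  have hN1 : 1 ≤ N := le_trans (Nat.one_le_pow _ _ hR1) hRN
  have hND : 1 ≤ N ^ D := Nat.one_le_pow _ _ hN1
  obtain ⟨A, hA⟩ : ∃ A, A = (c₁ + 1) * N ^ D := ⟨_, rfl⟩
  have hA1 : 1 ≤ A := by
    rw [hA]
    exact Nat.mul_pos (by omega) hND
  obtain ⟨W, hW⟩ : ∃ W, W = 4 * A := ⟨_, rfl⟩
  haveI : NeZero W := ⟨by omega⟩
  have hA' : c₁ * N ^ D + N ^ D ≤ A := by rw [hA]; exact le_of_eq (by ring)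
  -- the local estimate
  have hR3 : 2 ≤ R ^ 3 := le_trans hR (Nat.le_self_pow (by norm_num) R)
  have hRN3 : (R ^ 3) ^ C ≤ N := by
    rw [← pow_mul, mul_comm 3 C]
    exact hRN
  have hNS3 : NS C (R ^ 3) (N ^ e i) β := by
    intro r hr hr2 θ
    have e1 : (R ^ 3) ^ C = R ^ (C * 3) := by rw [← pow_mul, mul_comm 3 C]
    have e2 : (((R ^ 3 : ℕ) : ℝ)) ^ C = (R : ℝ) ^ (C * 3) := by
      rw [Nat.cast_pow, ← pow_mul, mul_comm 3 C]
    rw [e1] at hr2 ⊢
    rw [e2]
    exact hNS r hr hr2 θ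
  have hWB : W ≤ 4 * (c₁ + 1) * N ^ (P i).natDegree := by
    rw [hW, hA, hD]
    exact le_of_eq (by ring)
  have hRr : (0 : ℝ) < R := by exact_mod_cast (by omega : 0 < R)
  have hloc := fun (a : ZMod M) => hC W N (R ^ 3) i hR3 hRN3 hWB β hβ hNS3
    (fun l z => g l (ph M a z)) (fun l z => hg l _) (fun z => F (ph M a z))
  -- from the chart to everything
  have key : ∀ (X : ZMod M → ℂ) (X' : ZMod M → ZMod W → ℂ),
      (∀ a (y : ZMod W), Cen A y → X' a y = X (ph M a y)) →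
      (∀ a, n2 (X' a) ≤ C * n2 (fun z : ZMod W => F (ph M a z)) / ((R ^ 3 : ℕ) : ℝ)) →
      n2 X ≤ ((C * 3 : ℕ) : ℝ) * n2 F / R := by
    intro X X' h1 h2
    have h3 : n2 X ≤ 2 * (C / ((R ^ 3 : ℕ) : ℝ)) * n2 F := by
      refine averaging (W := W) hA1 hW (fun x => ‖X x‖ ^ 2) (fun x => ‖F x‖ ^ 2) _ fun a => ?_
      have h4 : ∑ y ∈ univ.filter (fun y : ZMod W => A ≤ y.val ∧ y.val + A < W),
          ‖X (ph M a y)‖ ^ 2 ≤ ∑ y : ZMod W, ‖X' a y‖ ^ 2 := by
        calc ∑ y ∈ univ.filter (fun y : ZMod W => A ≤ y.val ∧ y.val + A < W),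
            ‖X (ph M a y)‖ ^ 2 =
            ∑ y ∈ univ.filter (fun y : ZMod W => A ≤ y.val ∧ y.val + A < W), ‖X' a y‖ ^ 2 := by
              refine Finset.sum_congr rfl fun y hy => ?_
              rw [h1 a y (Finset.mem_filter.1 hy).2]
          _ ≤ ∑ y : ZMod W, ‖X' a y‖ ^ 2 :=
              Finset.sum_le_sum_of_subset_of_nonneg (Finset.filter_subset _ _)
                fun _ _ _ => by positivity
      have h5 := h2 a
      unfold n2 avr at h5
      have hW0 : (0 : ℝ) < W := by exact_mod_cast (by omega : 0 < W)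
      rw [div_le_iff₀ hW0] at h5
      refine h4.trans (h5.trans (le_of_eq ?_))
      field_simp
    refine h3.trans ?_
    have hF0 : 0 ≤ n2 F := by
      unfold n2 avr
      positivity
    have h6 : 2 * ((C : ℝ) / ((R ^ 3 : ℕ) : ℝ)) ≤ ((C * 3 : ℕ) : ℝ) / R := by
      have hRR : (R : ℝ) ≤ ((R ^ 3 : ℕ) : ℝ) := by
        exact_mod_cast Nat.le_self_pow (by norm_num) R
      have h7 : (C : ℝ) / ((R ^ 3 : ℕ) : ℝ) ≤ C / R :=
        div_le_div_of_nonneg_left (Nat.cast_nonneg _) hRr hRR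
      have h8 : ((C * 3 : ℕ) : ℝ) / R = 3 * ((C : ℝ) / R) := by
        push_cast
        ring
      rw [h8]
      have h9 : (0 : ℝ) ≤ C / R := by positivity
      linarith
    calc 2 * ((C : ℝ) / ((R ^ 3 : ℕ) : ℝ)) * n2 F ≤ ((C * 3 : ℕ) : ℝ) / R * n2 F :=
          mul_le_mul_of_nonneg_right h6 hF0
      _ = ((C * 3 : ℕ) : ℝ) * n2 F / R := by ring
  refine key _ (fun a => AA N P (Function.update (fun l z => g l (ph M a z)) i
    (cv β (fun z => F (ph M a z))))) ?_ hloc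
  intro a y hy
  refine AA_loc' (A := c₁ * N ^ D) fun m => ?_
  by_cases hm : m = i
  · subst hm
    left
    refine ⟨fun t ht => hc₁ D m N t (le_of_eq hD.symm) ht, ?_⟩
    rw [Function.update_self, Function.update_self]
    exact loc_cv hA' a hy F hsupp
  · rw [Function.update_of_ne hm, Function.update_of_ne hm]
    rcases Nat.lt_or_ge D (P m).natDegree with hm2 | hm2
    · right
      exact ⟨fun z => hone m hm2 _, hone m hm2⟩
    · left
      exact ⟨fun t ht => hc₁ D m N t hm2 ht,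
        loc_mono (le_trans (Nat.le_add_right _ _) hA') (loc_pull a hy (g m))⟩

end Pool.Agent.EQD.G
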