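import Pool.Agent.Lib.EQG.Defs

/-!
# Module TTel: telescoping over the slots, slots of higher degree first

PROOF. There is a permutation `σ` of `Fin n` with `bef d l i ↔ σ l < σ i` (sort the pairs `(- d l, l)`; for example `σ l = #{i | bef d i l}`, which is injective because `bef d` is a strict total order). `AA_telescope` (`EQD.AAB`) for `P ∘ σ⁻¹`, `f ∘ σ⁻¹`, `g ∘ σ⁻¹`
(`AA N (P ∘ σ⁻¹) (g ∘ σ⁻¹) = AA N P g` by `Fintype.prod_equiv`), and reindexing. Alternatively: `Finset.prod_sub_ordered`-type identity for the linear order, or induction on the number of replaced slots.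
-/

set_option autoImplicit false

open Finset Polynomial

namespace Pool.Agent.EQD.G

open Pool.Agent.HLT Pool.Agent.NLT Pool.Agent.NLG

/-- The slot `l` comes before the slot `i`: higher degree, or the same degree and smaller index. -/
def bef {n : ℕ} (d : Fin n → ℕ) (l i : Fin n) : Prop := d i < d l ∨ (d l = d i ∧ l < i)

instance {n : ℕ} (d : Fin n → ℕ) (l i : Fin n) : Decidable (bef d l i) := inferInstanceAs (Decidable (_ ∨ _))

namespace TTelAux

/-- the key by which the slots are sorted -/
def key {n : ℕ} (d : Fin n → ℕ) (l : Fin n) : ℕᵒᵈ ×ₗ Fin n := toLex (OrderDual.toDual (d l), l)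

theorem key_lt {n : ℕ} (d : Fin n → ℕ) (l i : Fin n) : key d l < key d i ↔ bef d l i := by
  unfold key bef
  rw [Prod.Lex.toLex_lt_toLex]
  simp only [OrderDual.toDual_lt_toDual, EmbeddingLike.apply_eq_iff_eq]

theorem exists_perm {n : ℕ} (d : Fin n → ℕ) :
    ∃ τ : Equiv.Perm (Fin n), ∀ l i, bef d (τ l) (τ i) ↔ l < i := by
  refine ⟨Tuple.sort (key d), fun l i => ?_⟩
  have hinj : Function.Injective (key d) := by
    intro a b h
    have := congrArg (fun z => (ofLex z).2) h
    exact this
  have hm : StrictMono (key d ∘ Tuple.sort (key d)) :=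
    (Tuple.monotone_sort (key d)).strictMono_of_injective
      (hinj.comp (Tuple.sort (key d)).injective)
  rw [← key_lt]
  exact hm.lt_iff_lt

theorem AA_perm {M n : ℕ} [NeZero M] (τ : Equiv.Perm (Fin n)) (N : ℕ) (P : Fin n → ℤ[X])
    (f : Fin n → ZMod M → ℂ) (x : ZMod M) :
    AA N (fun l => P (τ l)) (fun l => f (τ l)) x = AA N P f x := by
  unfold AA
  congr 1
  funext t
  exact Equiv.prod_comp τ (fun l => f l (x + pz M (P l) t))

end TTelAux

open TTelAux

theorem AA_tele_d {M n : ℕ} [NeZero M] (d : Fin n → ℕ) (N : ℕ) (P : Fin n → ℤ[X]) (f g : Fin n → ZMod M → ℂ) (x : ZMod M) :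
    AA N P f x - AA N P g x =
      ∑ i : Fin n, AA N P (Function.update (fun l => if bef d l i then g l else f l) i (fun y => f i y - g i y)) x := by
  obtain ⟨τ, hτ⟩ := exists_perm d
  rw [← AA_perm τ N P f x, ← AA_perm τ N P g x, AA_telescope]
  refine Eq.trans ?_ (Equiv.sum_comp τ (fun i => AA N P
    (Function.update (fun l => if bef d l i then g l else f l) i (fun y => f i y - g i y)) x))
  refine Finset.sum_congr rfl (fun j _ => ?_)
  rw [← AA_perm τ N P _ x]
  congr 1
  funext l y
  by_cases hl : l = j
  · subst hl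
    simp
  · have hl' : τ l ≠ τ j := fun h => hl (τ.injective h)
    rw [Function.update_of_ne hl, Function.update_of_ne hl']
    simp only [hτ]

end Pool.Agent.EQD.G
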