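import Pool.Agent.Lib.EQG.TSlot
import Pool.Agent.Lib.EQG.TTel
import Pool.Agent.Lib.EQG.MGapB
import Pool.Agent.Lib.EQD.ShB

/-!
# Module TAsm: all slots, the vector of widths; the first half of the approximation

PROOF of `shellG`. `D = max deg (P l)`, `r l = D - deg (P l)`. Choose `K : ℕ → ℕ` recursively: `K 0 = max_i κ₀(i, 0)`, `K (r + 1) = max (K r) (max_i κ₀(i, K r))` with `κ₀(i, κ')` from `slotG` with `ε / (n + 1)`; `κ l = K (r l)`. `AA_tele_d` with `d l = deg (P l)`, `f l` = the functions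
of width `C₄ tj`, `g l` = those of width `κ l`: in the term `i` the slots before `i` have the width exponent `κ l`, the others `C₄ tj (c x)`: `w j l = if bef d l i then κ l else C₄ * tj j`. A slot `l` of degree `> deg (P i)` is before `i` and has `r l < r i`, `κ l = K (r l) ≤ K (r i - 1) = κ'`
(`κ' = 0` and no such slot if `r i = 0`), and `κ i = K (r i) ≥ κ₀(i, κ')`. `J₀`: the maximum of those of `slotG` over `i` and such that `κ l ≤ C₄ tj j` for `j ≥ J₀` (`w j l ≤ C₄ tj j`). `M₀ = QB B (tj J₁)`.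
PROOF of `midG`. `gapB` (this class) and `shellG` with its `C₄`, `ε / 2` each, `J₀` = maximum, `M₀` = product (see `EQD.MidM`).
-/

set_option autoImplicit false

open Finset Polynomial

namespace Pool.Agent.EQD.G

open Pool.Agent.HLT Pool.Agent.NLT Pool.Agent.NLG

namespace TAsmAux

/-- The widths: recursive choice. -/
def KK {n : ℕ} (κ₀ : Fin n → ℕ → ℕ) : ℕ → ℕ
  | 0 => Finset.univ.sup (fun i => κ₀ i 0)
  | r + 1 => max (KK κ₀ r) (Finset.univ.sup (fun i => κ₀ i (KK κ₀ r)))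

theorem KK_mono {n : ℕ} (κ₀ : Fin n → ℕ → ℕ) {a b : ℕ} (h : a ≤ b) : KK κ₀ a ≤ KK κ₀ b := by
  induction h with
  | refl => exact le_rfl
  | step _ ih => exact ih.trans (le_max_left _ _)

theorem KK_base {n : ℕ} (κ₀ : Fin n → ℕ → ℕ) (i : Fin n) (r : ℕ) :
    κ₀ i (if r = 0 then 0 else KK κ₀ (r - 1)) ≤ KK κ₀ r := by
  cases r with
  | zero =>
    simp only [if_true]
    exact Finset.le_sup (f := fun i => κ₀ i 0) (Finset.mem_univ i)
  | succ r =>
    rw [if_neg (by omega), Nat.add_sub_cancel]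
    exact (Finset.le_sup (f := fun i => κ₀ i (KK κ₀ r)) (Finset.mem_univ i)).trans (le_max_right _ _)

end TAsmAux

theorem shellG {n : ℕ} {P : Fin n → ℤ[X]} {e : Fin n → ℕ} {i₀ : Fin n} (h : GDeg P e i₀) (B C₄ : ℕ) (hB : 1 ≤ B) (hC : 2 ≤ C₄)
    (ε : ℝ) (hε : 0 < ε) : ∃ κ : Fin n → ℕ, ∃ J₀ : ℕ, ∀ (J₁ M : ℕ) [NeZero M], QB B (tj J₁) ∣ M → ∀ N : ℕ → ℕ, Sc N →
    ∀ f : Fin n → ZMod M → ℂ, (∀ l, Bd (f l)) → ∀ c : ZMod M → ℕ, Ch J₀ J₁ c →
    avr (fun x => ‖AA (N (c x)) P (fun l => Ew B (tj (c x)) (tj (c x)) (N (c x) ^ e l / 2 ^ (C₄ * tj (c x))) (f l)) x -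
      AA (N (c x)) P (fun l => Ew B (tj (c x)) (tj (c x)) (N (c x) ^ e l / 2 ^ κ l) (f l)) x‖) ≤ ε := by
  classical
  have hn1 : (0 : ℝ) < (n : ℝ) + 1 := by positivity
  have hδ : 0 < ε / ((n : ℝ) + 1) := by positivity
  choose κ₀ hκ₀ using fun (i : Fin n) (κ' : ℕ) => slotG h B C₄ hB hC i κ' (ε / ((n : ℝ) + 1)) hδ
  set K : ℕ → ℕ := TAsmAux.KK κ₀ with hK
  set D : ℕ := Finset.univ.sup (fun l => (P l).natDegree) with hD
  have hle : ∀ l, (P l).natDegree ≤ D := fun l =>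
    Finset.le_sup (f := fun l => (P l).natDegree) (Finset.mem_univ l)
  set κ : Fin n → ℕ := fun l => K (D - (P l).natDegree) with hκ
  set κp : Fin n → ℕ := fun i => if D - (P i).natDegree = 0 then 0 else K (D - (P i).natDegree - 1) with hκp
  have hbase : ∀ i, κ₀ i (κp i) ≤ κ i := by
    intro i
    simp only [hκ, hκp, hK]
    exact TAsmAux.KK_base κ₀ i _
  choose J hJ using fun i : Fin n => hκ₀ i (κp i) (κ i) (hbase i)
  obtain ⟨J₂, hJ₂⟩ := ShBAux.num_scale B C₄ (Finset.univ.sup κ)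
  refine ⟨κ, max J₂ (Finset.univ.sup J), ?_⟩
  intro J₁ M _ hdvd N hN f hf c hc
  have hcJ : ∀ i x, J i ≤ c x := fun i x =>
    (Finset.le_sup (f := J) (Finset.mem_univ i)).trans ((le_max_right _ _).trans (hc x).1)
  have hck : ∀ l x, κ l ≤ C₄ * tj (c x) := by
    intro l x
    have h1 := (hJ₂ (c x) ((le_max_left _ _).trans (hc x).1)).1
    have h2 : κ l ≤ Finset.univ.sup κ := Finset.le_sup (f := κ) (Finset.mem_univ l)
    nlinarith
  have hslot : ∀ i : Fin n, avr (fun x => ‖AA (N (c x)) P (Function.update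
      (fun l => if bef (fun l => (P l).natDegree) l i
        then Ew B (tj (c x)) (tj (c x)) (N (c x) ^ e l / 2 ^ κ l) (f l)
        else Ew B (tj (c x)) (tj (c x)) (N (c x) ^ e l / 2 ^ (C₄ * tj (c x))) (f l)) i
      (fun y => Ew B (tj (c x)) (tj (c x)) (N (c x) ^ e i / 2 ^ (C₄ * tj (c x))) (f i) y -
        Ew B (tj (c x)) (tj (c x)) (N (c x) ^ e i / 2 ^ κ i) (f i) y)) x‖) ≤ ε / ((n : ℝ) + 1) := by
    intro i
    have h1 := hJ i J₁ M hdvd N hN
      (fun j l => if bef (fun l => (P l).natDegree) l i then min (κ l) (C₄ * tj j) else C₄ * tj j)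
      (by
        intro j _ l
        split_ifs
        · exact min_le_right _ _
        · exact le_rfl)
      (by
        intro j l hl
        rw [if_pos (show bef (fun l => (P l).natDegree) l i from Or.inl hl)]
        refine (min_le_left _ _).trans ?_
        simp only [hκ, hκp, hK]
        have h2 := hle l
        rw [if_neg (by omega)]
        exact TAsmAux.KK_mono κ₀ (by omega))
      f hf c (fun x => ⟨hcJ i x, (hc x).2⟩)
    refine le_trans (le_of_eq ?_) h1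
    congr 1
    funext x
    congr 4
    funext l
    by_cases hb : bef (fun l => (P l).natDegree) l i
    · rw [if_pos hb, if_pos hb, min_eq_left (hck l x)]
    · rw [if_neg hb, if_neg hb]
  have hfin : ∀ x, ‖AA (N (c x)) P (fun l => Ew B (tj (c x)) (tj (c x)) (N (c x) ^ e l / 2 ^ (C₄ * tj (c x))) (f l)) x -
      AA (N (c x)) P (fun l => Ew B (tj (c x)) (tj (c x)) (N (c x) ^ e l / 2 ^ κ l) (f l)) x‖ ≤
      ∑ i : Fin n, ‖AA (N (c x)) P (Function.update
      (fun l => if bef (fun l => (P l).natDegree) l i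
        then Ew B (tj (c x)) (tj (c x)) (N (c x) ^ e l / 2 ^ κ l) (f l)
        else Ew B (tj (c x)) (tj (c x)) (N (c x) ^ e l / 2 ^ (C₄ * tj (c x))) (f l)) i
      (fun y => Ew B (tj (c x)) (tj (c x)) (N (c x) ^ e i / 2 ^ (C₄ * tj (c x))) (f i) y -
        Ew B (tj (c x)) (tj (c x)) (N (c x) ^ e i / 2 ^ κ i) (f i) y)) x‖ := by
    intro x
    rw [AA_tele_d (fun l => (P l).natDegree)]
    exact norm_sum_le _ _
  refine (avr_mono hfin).trans ?_
  rw [avr_sum]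
  refine (Finset.sum_le_card_nsmul _ _ _ fun i _ => hslot i).trans ?_
  rw [card_univ, Fintype.card_fin, nsmul_eq_mul]
  have e1 : (n : ℝ) * (ε / ((n : ℝ) + 1)) = n / ((n : ℝ) + 1) * ε := by
    field_simp
  rw [e1]
  have e2 : (n : ℝ) / ((n : ℝ) + 1) ≤ 1 := div_le_one_of_le₀ (by linarith) hn1.le
  nlinarith

theorem midG {n : ℕ} {P : Fin n → ℤ[X]} {e : Fin n → ℕ} {i₀ : Fin n} (h : GDeg P e i₀) : MidG P e := by
  obtain ⟨C₄, B₀, hC, hB₀, hg⟩ := gapB h
  refine ⟨B₀, hB₀, fun B hB ε hε => ?_⟩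
  obtain ⟨κ, J₀', hJ'⟩ := shellG h B C₄ (hB₀.trans hB) hC (ε / 2) (by positivity)
  obtain ⟨J₀, hJ⟩ := hg B hB (ε / 2) (by positivity)
  refine ⟨κ, max J₀ J₀', fun J₁ => ?_⟩
  obtain ⟨M₀, hM₀, hM⟩ := hJ J₁
  refine ⟨M₀ * QB B (tj J₁), Nat.mul_pos hM₀ (QB_pos B _), ?_⟩
  intro M _ hdvd N hN f hf c hc
  have h1 := hM M ((Dvd.intro _ rfl).trans hdvd) N hN f hf c
    (fun x => ⟨(le_max_left _ _).trans (hc x).1, (hc x).2⟩)
  have h2 := hJ' J₁ M ((Dvd.intro_left _ rfl).trans hdvd) N hN f hf c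
    (fun x => ⟨(le_max_right _ _).trans (hc x).1, (hc x).2⟩)
  have h3 : avr (fun x => ‖AA (N (c x)) P f x -
      AA (N (c x)) P (fun l => Ew B (tj (c x)) (tj (c x)) (N (c x) ^ e l / 2 ^ κ l) (f l)) x‖) ≤
      avr (fun x => ‖AA (N (c x)) P f x -
        AA (N (c x)) P (fun l => Ew B (tj (c x)) (tj (c x)) (N (c x) ^ e l / 2 ^ (C₄ * tj (c x))) (f l)) x‖ +
        ‖AA (N (c x)) P (fun l => Ew B (tj (c x)) (tj (c x)) (N (c x) ^ e l / 2 ^ (C₄ * tj (c x))) (f l)) x -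
        AA (N (c x)) P (fun l => Ew B (tj (c x)) (tj (c x)) (N (c x) ^ e l / 2 ^ κ l) (f l)) x‖) :=
    avr_mono (fun x => norm_sub_le_norm_sub_add_norm_sub _ _ _)
  rw [avr_add] at h3
  linarith

end Pool.Agent.EQD.G
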