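import Pool.Agent.Lib.EQG.TSw
import Pool.Agent.Lib.EQG.MBlkA
import Pool.Agent.Lib.EQG.MBlkB
import Pool.Agent.Lib.EQD.T3s

/-!
# Module TDec: the residues of `m` are independent of the slow variables

PROOF. Let `C₁` be the constant of `blkB` (this class). Blocks: `S = ⌊N ^ (1 / (8 C₁))⌋`-type (`S ≥ 1`, `(2 S) ^ C₁ ≤ N`, `S ≥ N ^ c / 2`), `H_b = (b + 1) N / S - b N / S`, `m₀ = b N / S`; `AA N` is the average with weights `H_b / N` of the
averages over the blocks, for both terms (`T3sAux.sum_blocks`, `sum_eq_mul_tv` in `EQD.T3s`; the average over `r` is fixed), so that `n2` of the difference is at most the maximum over `b` of `n2` of the difference of the block averages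
(convexity). On the block `b`, `u_m = x + pz M (P i₀) (m₀ + m)`, `ρ l = pz M (P l - P i₀) m₀`:
(i) `∏ V l (x + P l m) (x + P l m) → ∏ V l (u_m + ρ l) (x + P l m)`, pointwise: `x + P l (m₀ + m) = u_m + ρ l + ((P l - P i₀)(m₀ + m) - (P l - P i₀) m₀)`, an integer shift of size `≤ 2 C N ^ (e l) / S` (`BlkAAux.eval_diff`, `block_len`, `block_end`),
`sw_int`: each factor changes by at most `lam l (2 C N ^ (e l) / S + Q) ≤ 2 C W / S + Q W / N`; `BlkAAux.prod_diff` with the bound `4`.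
(ii) `blkB` for `fun z y => V l (z + ρ l) y` (`sw_sl`, `sl_shift`): the block average is `tv (AA M P (fun l => V l (u_m + ρ l)) x)` up to a function with `n2 ^ C₁ N ≤ 1`; `(n κ) ^ 4 N ^ 3 ≤ 1` for `κ = 2 W Q / N` because `N ^ (e l) ≥ N`.
(iii) `AA M P (fun l => V l (u_m + ρ l)) x = av (fun r => ∏ V l (u_m + ρ l) (x + pz M (P l) r.val))` (`BlkBAux.tv_eq_av`) and back: `V l (u_m + ρ l) y → V l (x + P l m) y` for every fixed `y`, the same pointwise estimate as in (i).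
Final `C` large: all errors are at most `(C' (W / S + Q W / N)) ^ 2 + N ^ (- 1 / C₁)`, `≤ N ^ (- 1 / C)` for `(Q W) ^ C ≤ N`, `N ≥ N₀`.
-/

set_option autoImplicit false

open Finset Polynomial

namespace Pool.Agent.EQD.G

open Pool.Agent.HLT Pool.Agent.NLT Pool.Agent.NLG

namespace TDecAux

theorem slow_pt {n : ℕ} {P : Fin n → ℤ[X]} {e : Fin n → ℕ} {i₀ : Fin n} (h : GDeg P e i₀) : ∃ C₁ : ℕ, 1 ≤ C₁ ∧
    ∀ (M : ℕ) [NeZero M] (N S b Q : ℕ) (lam c : ℝ) (V : ZMod M → ZMod M → ℂ) (l : Fin n) (m : ℕ), 1 ≤ S → S ≤ N → b < S →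
      m < (b + 1) * N / S - b * N / S → 0 ≤ lam → Sw Q c lam V → ∀ x y : ZMod M,
      ‖V (x + pz M (P l) (b * N / S + m)) y -
        V (x + pz M (P i₀) (b * N / S + m) + pz M (P l - P i₀) (b * N / S)) y‖ ≤ lam * (C₁ * ((N : ℝ) ^ e l / S) + Q) := by
  classical
  set C₁ : ℕ := 1 + ∑ l : Fin n, e l * ∑ j ∈ range (e l + 1), ((P l - P i₀).coeff j).natAbs with hC₁
  refine ⟨C₁, by omega, ?_⟩
  intro M _ N S b Q lam c V l m hS hSN hb hm hlam hV x y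
  have hN1 : 1 ≤ N := hS.trans hSN
  have hS0 : (0 : ℝ) < S := by exact_mod_cast hS
  set m₀ : ℕ := b * N / S with hm₀
  set δ : ℤ := (P l - P i₀).eval (((m₀ + m : ℕ)) : ℤ) - (P l - P i₀).eval ((m₀ : ℕ) : ℤ) with hδ
  have e1 : x + pz M (P l) (m₀ + m) = (x + pz M (P i₀) (m₀ + m) + pz M (P l - P i₀) m₀) + (δ : ZMod M) := by
    rw [hδ]
    unfold pz
    rw [Polynomial.eval_sub, Polynomial.eval_sub]
    push_cast
    ring
  have h2 := sw_int hV (x + pz M (P i₀) (m₀ + m) + pz M (P l - P i₀) m₀) y δ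
  rw [← e1] at h2
  refine h2.trans (mul_le_mul_of_nonneg_left ?_ hlam)
  have h3 := BlkAAux.eval_diff (P l - P i₀) (e l) N m₀ m (h.pos l) (h.base l) (BlkAAux.block_end N S b hS hb m hm) hN1
  rw [← hδ] at h3
  have h4 : (e l : ℤ) * (∑ j ∈ range (e l + 1), |(P l - P i₀).coeff j|) ≤ C₁ := by
    have h5 : e l * ∑ j ∈ range (e l + 1), ((P l - P i₀).coeff j).natAbs ≤ C₁ := by
      have h6 := Finset.single_le_sum (f := fun l : Fin n => e l * ∑ j ∈ range (e l + 1), ((P l - P i₀).coeff j).natAbs)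
        (fun l _ => Nat.zero_le _) (mem_univ l)
      exact h6.trans (Nat.le_add_left _ _)
    have h6 : (e l : ℤ) * (∑ j ∈ range (e l + 1), |(P l - P i₀).coeff j|) =
        ((e l * ∑ j ∈ range (e l + 1), ((P l - P i₀).coeff j).natAbs : ℕ) : ℤ) := by
      push_cast
      rfl
    rw [h6]
    exact_mod_cast h5
  have h5 : |δ| ≤ (C₁ : ℤ) * (N : ℤ) ^ (e l - 1) * m :=
    h3.trans (mul_le_mul_of_nonneg_right (mul_le_mul_of_nonneg_right h4 (by positivity)) (by positivity))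
  have h6 : |(δ : ℝ)| ≤ (C₁ : ℝ) * (N : ℝ) ^ (e l - 1) * m := by
    have : ((|δ| : ℤ) : ℝ) ≤ (((C₁ : ℤ) * (N : ℤ) ^ (e l - 1) * m : ℤ) : ℝ) := by exact_mod_cast h5
    rw [Int.cast_abs] at this
    refine this.trans (le_of_eq ?_)
    push_cast
    ring
  have h7 : (m : ℝ) ≤ N / S := by
    have h8 : m ≤ N / S := BlkAAux.block_len N S b hS m hm
    calc (m : ℝ) ≤ ((N / S : ℕ) : ℝ) := by exact_mod_cast h8
      _ ≤ N / S := Nat.cast_div_le
  have h8 : |(δ : ℝ)| ≤ C₁ * ((N : ℝ) ^ e l / S) := by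
    refine h6.trans ?_
    calc (C₁ : ℝ) * (N : ℝ) ^ (e l - 1) * m ≤ (C₁ : ℝ) * (N : ℝ) ^ (e l - 1) * (N / S) := by gcongr
      _ = C₁ * ((N : ℝ) ^ (e l - 1) * N / S) := by ring
      _ = C₁ * ((N : ℝ) ^ e l / S) := by
        rw [← pow_succ, Nat.sub_add_cancel (h.pos l)]
  have h9 : ((δ.natAbs : ℕ) : ℝ) = |(δ : ℝ)| := by
    rw [Nat.cast_natAbs, Int.cast_abs]
  rw [h9]
  linarith

/-- Choice of the number of blocks. -/
theorem choose_S (c N : ℕ) (hc : 1 ≤ c) (hN : 2 ^ c ≤ N) : ∃ S : ℕ, 1 ≤ S ∧ S ≤ N ∧ (2 * S) ^ c ≤ N ∧ N ≤ (4 * S) ^ c := by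
  classical
  have hex : ∃ S : ℕ, N < (2 * (S + 1)) ^ c := by
    refine ⟨N, ?_⟩
    calc N < 2 * (N + 1) := by omega
      _ ≤ (2 * (N + 1)) ^ c := Nat.le_self_pow (by omega) _
  set S := Nat.find hex with hS
  have h1 : N < (2 * (S + 1)) ^ c := Nat.find_spec hex
  have h2 : 1 ≤ S := by
    by_contra hcon
    have h3 : S = 0 := by omega
    rw [h3] at h1
    simp only [zero_add, mul_one] at h1
    omega
  have h3 : (2 * S) ^ c ≤ N := by
    have h4 := Nat.find_min hex (m := S - 1) (by omega)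
    have h5 : S - 1 + 1 = S := by omega
    rw [h5] at h4
    omega
  refine ⟨S, h2, ?_, h3, ?_⟩
  · calc S ≤ 2 * S := by omega
      _ ≤ (2 * S) ^ c := Nat.le_self_pow (by omega) _
      _ ≤ N := h3
  · exact h1.le.trans (Nat.pow_le_pow_left (by omega) _)

theorem block_big (N S b c : ℕ) (hS : 1 ≤ S) (hSN : S ≤ N) (hc : 1 ≤ c) (h : (2 * S) ^ c ≤ N) :
    N ^ (c - 1) ≤ ((b + 1) * N / S - b * N / S) ^ c := by
  set H := (b + 1) * N / S - b * N / S with hH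
  have h1 : N / S ≤ H := by
    have h2 : b * N / S + N / S ≤ (b + 1) * N / S := by
      rw [Nat.add_mul, one_mul]
      exact Nat.div_add_div_le_add_div
    omega
  have h3 : N ≤ 2 * S * H := by
    have h4 : 1 ≤ N / S := Nat.div_pos hSN hS
    have h5 := Nat.div_add_mod N S
    have h6 := Nat.mod_lt N (show 0 < S by omega)
    have h7 : S * 1 ≤ S * (N / S) := Nat.mul_le_mul_left S h4
    have h8 : S * (N / S) ≤ S * H := Nat.mul_le_mul_left S h1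
    nlinarith
  have h4 : N * N ^ (c - 1) ≤ N * H ^ c := by
    calc N * N ^ (c - 1) = N ^ c := by
          rw [← pow_succ']
          congr 1
          omega
      _ ≤ (2 * S * H) ^ c := Nat.pow_le_pow_left h3 _
      _ = (2 * S) ^ c * H ^ c := by rw [mul_pow]
      _ ≤ N * H ^ c := Nat.mul_le_mul_right _ h
  exact Nat.le_of_mul_le_mul_left h4 (by omega)

theorem tv_le_pt {H : ℕ} {F : ℕ → ℂ} {c : ℝ} (hc : 0 ≤ c) (h : ∀ m, m < H → ‖F m‖ ≤ c) : ‖tv H F‖ ≤ c :=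
  (norm_tv_le _ _).trans (tvr_le _ hc (fun m hm => h m hm))

theorem n2_nonneg' {M : ℕ} [NeZero M] (g : ZMod M → ℂ) : 0 ≤ n2 g := BlkBAux.n2_nn g

/-- Square of the block bound. -/
theorem sq_blocks (S : ℕ) (hS : 1 ≤ S) (a B : ℕ → ℝ) (d A : ℝ) (hA0 : 0 ≤ A) (hA : A ≤ 2 / S * ∑ b ∈ range S, a b)
    (ha : ∀ b, b < S → a b ≤ d + B b) (ha0 : ∀ b, 0 ≤ a b) (hB : ∀ b, 0 ≤ B b) (hd : 0 ≤ d) :
    A ^ 2 ≤ 8 * d ^ 2 + 8 / S * ∑ b ∈ range S, B b ^ 2 := by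
  have hS' : (0 : ℝ) < S := by exact_mod_cast hS
  have h1 : A ^ 2 ≤ (2 / S * ∑ b ∈ range S, a b) ^ 2 := pow_le_pow_left₀ hA0 hA 2
  have h2 : (∑ b ∈ range S, a b) ^ 2 ≤ S * ∑ b ∈ range S, a b ^ 2 := by
    have := sq_sum_le_card_mul_sum_sq (s := range S) (f := a)
    rwa [Finset.card_range] at this
  have h3 : ∑ b ∈ range S, a b ^ 2 ≤ ∑ b ∈ range S, (2 * d ^ 2 + 2 * B b ^ 2) := by
    refine Finset.sum_le_sum (fun b hb => ?_)
    have h4 : a b ^ 2 ≤ (d + B b) ^ 2 := pow_le_pow_left₀ (ha0 b) (ha b (Finset.mem_range.mp hb)) 2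
    nlinarith [sq_nonneg (d - B b)]
  have h5 : ∑ b ∈ range S, (2 * d ^ 2 + 2 * B b ^ 2) = S * (2 * d ^ 2) + 2 * ∑ b ∈ range S, B b ^ 2 := by
    rw [Finset.sum_add_distrib, Finset.sum_const, Finset.card_range, nsmul_eq_mul, ← Finset.mul_sum]
  rw [h5] at h3
  calc A ^ 2 ≤ (2 / S * ∑ b ∈ range S, a b) ^ 2 := h1
    _ = 4 / (S : ℝ) ^ 2 * (∑ b ∈ range S, a b) ^ 2 := by
      rw [mul_pow, div_pow]
      norm_num
    _ ≤ 4 / (S : ℝ) ^ 2 * (S * (S * (2 * d ^ 2) + 2 * ∑ b ∈ range S, B b ^ 2)) := by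
      refine mul_le_mul_of_nonneg_left (h2.trans (mul_le_mul_of_nonneg_left h3 hS'.le)) (by positivity)
    _ = 8 * d ^ 2 + 8 / S * ∑ b ∈ range S, B b ^ 2 := by
      field_simp
      ring

/-- Final numerology. -/
theorem final (n c C₁ : ℕ) (hc : 1 ≤ c) : ∃ N₀ : ℕ, ∀ (N S Z : ℕ) (μ η G : ℝ), N₀ ≤ N → 1 ≤ S → S ≤ N → N ≤ (4 * S) ^ c →
    Z ^ (8 * c) ≤ N → 0 ≤ μ → μ ^ c * N ≤ 1 → 0 ≤ η → η ≤ (C₁ + 1) * (Z / S) → 0 ≤ G →
    G ≤ 8 * (2 * ((n : ℝ) * 4 ^ n * η)) ^ 2 + 8 * μ → G ^ (8 * c) * N ≤ 1 := by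
  set K₁ : ℕ := 16 * (2 * (n * 4 ^ n)) ^ 2 * (C₁ + 1) ^ 2 with hK₁
  refine ⟨K₁ ^ (8 * c) * 4 ^ (16 * c) + 16 ^ (8 * c) + 1, ?_⟩
  intro N S Z μ η G hN hS hSN hNS hZ hμ0 hμ hη0 hη hG0 hG
  have hN1 : 1 ≤ N := by omega
  have hNr : (1 : ℝ) ≤ N := by exact_mod_cast hN1
  have hN0 : (0 : ℝ) < N := by linarith
  have hS0 : (0 : ℝ) < S := by exact_mod_cast hS
  have hNb : (K₁ : ℝ) ^ (8 * c) * 4 ^ (16 * c) ≤ N := by
    have : K₁ ^ (8 * c) * 4 ^ (16 * c) ≤ N :=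
      le_trans (le_trans (Nat.le_add_right _ _) (Nat.le_add_right _ _)) hN
    exact_mod_cast this
  have hNc : (16 : ℝ) ^ (8 * c) ≤ N := by
    have : 16 ^ (8 * c) ≤ N :=
      le_trans (le_trans (Nat.le_add_left _ _) (Nat.le_add_right _ _)) hN
    exact_mod_cast this
  -- first part
  have hA : (16 * μ) ^ (8 * c) * N ≤ 1 := by
    have h1 : (16 * μ) ^ (8 * c) = 16 ^ (8 * c) * (μ ^ c) ^ 8 := by
      rw [mul_pow, ← pow_mul, mul_comm c 8]
    have h2 : μ ^ c ≤ 1 / N := by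
      rw [le_div_iff₀ hN0]
      exact hμ
    have h3 : (μ ^ c) ^ 8 ≤ (1 / (N : ℝ)) ^ 8 := pow_le_pow_left₀ (by positivity) h2 8
    calc (16 * μ) ^ (8 * c) * N = 16 ^ (8 * c) * (μ ^ c) ^ 8 * N := by rw [h1]
      _ ≤ N * (1 / (N : ℝ)) ^ 8 * N := by gcongr
      _ = 1 / (N : ℝ) ^ 6 := by field_simp
      _ ≤ 1 := by
        rw [div_le_one (by positivity)]
        exact one_le_pow₀ hNr
  have hB : (16 * (2 * ((n : ℝ) * 4 ^ n * η)) ^ 2) ^ (8 * c) * N ≤ 1 := by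
    have h1 : 16 * (2 * ((n : ℝ) * 4 ^ n * η)) ^ 2 ≤ K₁ * ((Z : ℝ) / S) ^ 2 := by
      calc 16 * (2 * ((n : ℝ) * 4 ^ n * η)) ^ 2 ≤ 16 * (2 * ((n : ℝ) * 4 ^ n * ((C₁ + 1) * (Z / S)))) ^ 2 := by gcongr
        _ = K₁ * ((Z : ℝ) / S) ^ 2 := by
          rw [hK₁]
          push_cast
          ring
    have h2 : (16 * (2 * ((n : ℝ) * 4 ^ n * η)) ^ 2) ^ (8 * c) ≤ (K₁ * ((Z : ℝ) / S) ^ 2) ^ (8 * c) :=
      pow_le_pow_left₀ (by positivity) h1 _
    have h3 : (K₁ * ((Z : ℝ) / S) ^ 2) ^ (8 * c) * (S : ℝ) ^ (16 * c) = (K₁ : ℝ) ^ (8 * c) * ((Z : ℝ) ^ (8 * c)) ^ 2 := by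
      rw [mul_pow, ← pow_mul, ← pow_mul, div_pow, show 2 * (8 * c) = 16 * c by ring, show 8 * c * 2 = 16 * c by ring]
      field_simp
    have h4 : (Z : ℝ) ^ (8 * c) ≤ N := by exact_mod_cast hZ
    have h5 : (N : ℝ) ^ 16 ≤ 4 ^ (16 * c) * (S : ℝ) ^ (16 * c) := by
      have h6 : (N : ℝ) ≤ (4 * S) ^ c := by exact_mod_cast hNS
      calc (N : ℝ) ^ 16 ≤ ((4 * (S : ℝ)) ^ c) ^ 16 := pow_le_pow_left₀ hN0.le h6 16
        _ = 4 ^ (16 * c) * (S : ℝ) ^ (16 * c) := by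
          rw [← pow_mul, mul_pow, mul_comm c 16]
    have h6 : 0 < (S : ℝ) ^ (16 * c) := by positivity
    have h7 : (K₁ * ((Z : ℝ) / S) ^ 2) ^ (8 * c) * N * (S : ℝ) ^ (16 * c) ≤ 1 * (S : ℝ) ^ (16 * c) := by
      have h8 : (K₁ * ((Z : ℝ) / S) ^ 2) ^ (8 * c) * N * (S : ℝ) ^ (16 * c) = (K₁ : ℝ) ^ (8 * c) * ((Z : ℝ) ^ (8 * c)) ^ 2 * N := by
        rw [← h3]
        ring
      rw [h8, one_mul]
      have h9 : (K₁ : ℝ) ^ (8 * c) * ((Z : ℝ) ^ (8 * c)) ^ 2 * N ≤ (K₁ : ℝ) ^ (8 * c) * (N : ℝ) ^ 3 := by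
        calc (K₁ : ℝ) ^ (8 * c) * ((Z : ℝ) ^ (8 * c)) ^ 2 * N ≤ (K₁ : ℝ) ^ (8 * c) * (N : ℝ) ^ 2 * N := by gcongr
          _ = (K₁ : ℝ) ^ (8 * c) * (N : ℝ) ^ 3 := by ring
      refine h9.trans ?_
      have h10 : (K₁ : ℝ) ^ (8 * c) * (N : ℝ) ^ 3 * 4 ^ (16 * c) ≤ (S : ℝ) ^ (16 * c) * 4 ^ (16 * c) := by
        calc (K₁ : ℝ) ^ (8 * c) * (N : ℝ) ^ 3 * 4 ^ (16 * c) = ((K₁ : ℝ) ^ (8 * c) * 4 ^ (16 * c)) * (N : ℝ) ^ 3 := by ring
          _ ≤ N * (N : ℝ) ^ 3 := by gcongr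
          _ = (N : ℝ) ^ 4 := by ring
          _ ≤ (N : ℝ) ^ 16 := pow_le_pow_right₀ hNr (by norm_num)
          _ ≤ 4 ^ (16 * c) * (S : ℝ) ^ (16 * c) := h5
          _ = (S : ℝ) ^ (16 * c) * 4 ^ (16 * c) := by ring
      exact le_of_mul_le_mul_right h10 (by positivity)
    have h8 : (K₁ * ((Z : ℝ) / S) ^ 2) ^ (8 * c) * N ≤ 1 := le_of_mul_le_mul_right h7 h6
    exact (mul_le_mul_of_nonneg_right h2 hN0.le).trans h8
  rcases le_total (16 * μ) (16 * (2 * ((n : ℝ) * 4 ^ n * η)) ^ 2) with hc' | hc'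
  · have h1 : G ≤ 16 * (2 * ((n : ℝ) * 4 ^ n * η)) ^ 2 := by linarith
    exact (mul_le_mul_of_nonneg_right (pow_le_pow_left₀ hG0 h1 _) hN0.le).trans hB
  · have h1 : G ≤ 16 * μ := by linarith
    exact (mul_le_mul_of_nonneg_right (pow_le_pow_left₀ hG0 h1 _) hN0.le).trans hA

theorem num_q (c : ℕ) (hc : 1 ≤ c) : ∃ N₀ : ℕ, ∀ N Q W : ℕ, N₀ ≤ N → 1 ≤ W → (Q * W) ^ (8 * c) ≤ N → (4 * Q) ^ c ≤ N := by
  refine ⟨4 ^ (8 * c) + 1, ?_⟩
  intro N Q W hN hW hQ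
  have h1 : ((4 * Q) ^ c) ^ 8 ≤ N ^ 8 := by
    calc ((4 * Q) ^ c) ^ 8 = 4 ^ (8 * c) * Q ^ (8 * c) := by
          rw [← pow_mul, mul_pow, mul_comm c 8]
      _ ≤ N * N := by
          refine Nat.mul_le_mul ((Nat.le_add_right _ _).trans hN) (le_trans ?_ hQ)
          exact Nat.pow_le_pow_left (Nat.le_mul_of_pos_right Q hW) _
      _ = N ^ 2 := by ring
      _ ≤ N ^ 8 := Nat.pow_le_pow_right ((Nat.le_add_left _ _).trans hN) (by norm_num)
  exact (Nat.pow_le_pow_iff_left (by norm_num)).mp h1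

theorem num_k (n c : ℕ) (hc : 1 ≤ c) : ∃ N₀ : ℕ, ∀ N Q W : ℕ, N₀ ≤ N → 1 ≤ Q → 1 ≤ W → (Q * W) ^ (8 * c) ≤ N →
    ((n : ℝ) * (2 * (W / N) * Q)) ^ 4 * (N : ℝ) ^ 3 ≤ 1 := by
  refine ⟨(2 * n) ^ 8 + 1, ?_⟩
  intro N Q W hN hQ1 hW hQ
  have hN1 : 1 ≤ N := by omega
  have hN0 : (0 : ℝ) < N := by exact_mod_cast hN1
  have h0 : (Q * W) ^ 8 ≤ N := by
    refine le_trans (Nat.pow_le_pow_right (Nat.mul_pos hQ1 hW) ?_) hQ
    omega
  have h1 : ((2 * n * (Q * W)) ^ 4) ^ 2 ≤ N ^ 2 := by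
    calc ((2 * n * (Q * W)) ^ 4) ^ 2 = (2 * n) ^ 8 * (Q * W) ^ 8 := by ring
      _ ≤ N * N := Nat.mul_le_mul (by omega) h0
      _ = N ^ 2 := by ring
  have h2 : (2 * n * (Q * W)) ^ 4 ≤ N := (Nat.pow_le_pow_iff_left (by norm_num)).mp h1
  have h3 : (2 * (n : ℝ) * (Q * W)) ^ 4 ≤ N := by exact_mod_cast h2
  calc ((n : ℝ) * (2 * (W / N) * Q)) ^ 4 * (N : ℝ) ^ 3 = (2 * (n : ℝ) * (Q * W)) ^ 4 / N := by
        field_simp
    _ ≤ 1 := by
        rw [div_le_one hN0]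
        exact h3

/-- The second average as an average over `m` of averages over `r`. -/
theorem av_AA {M : ℕ} [NeZero M] {n : ℕ} (N : ℕ) (P : Fin n → ℤ[X]) (V : Fin n → ZMod M → ZMod M → ℂ) (x : ZMod M) :
    av (fun r : ZMod M => AA N P (fun l x' => V l x' (x + pz M (P l) r.val)) x) =
      tv N (fun m => av (fun r : ZMod M => ∏ l, V l (x + pz M (P l) m) (x + pz M (P l) r.val))) := by
  unfold AA tv av
  rw [← Finset.sum_div, Finset.sum_comm, ← Finset.sum_div, div_div, div_div, mul_comm]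

end TDecAux

open TDecAux

theorem decouple {n : ℕ} {P : Fin n → ℤ[X]} {e : Fin n → ℕ} {i₀ : Fin n} (h : GDeg P e i₀) : ∃ C N₀ : ℕ, 1 ≤ C ∧
    ∀ (M : ℕ) [NeZero M] (N Q W : ℕ) (lam : Fin n → ℝ) (V : Fin n → ZMod M → ZMod M → ℂ), N₀ ≤ N → 1 ≤ Q → Q ∣ M → 1 ≤ W →
      (Q * W) ^ C ≤ N → (∀ l, 0 ≤ lam l ∧ lam l * (N : ℝ) ^ e l ≤ W) → (∀ l, Sw Q 4 (lam l) (V l)) →
      n2 (fun x => AA N P (fun l x' => V l x' x') x -
        av (fun r : ZMod M => AA N P (fun l x' => V l x' (x + pz M (P l) r.val)) x)) ^ C * N ≤ 1 := by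
  obtain ⟨C₁, hC₁, hslow⟩ := slow_pt h
  obtain ⟨c, N₁, hc, hblk⟩ := blkB h
  obtain ⟨N₂, hfin⟩ := final n c C₁ hc
  obtain ⟨N₃, hnq⟩ := num_q c hc
  obtain ⟨N₄, hnk⟩ := num_k n c hc
  refine ⟨8 * c, max N₁ (max N₂ (max N₃ (max N₄ (2 ^ c)))), by omega, ?_⟩
  intro M _ N Q W lam V hN hQ hQM hW hQW hlam hV
  have hN1 : N₁ ≤ N := (le_max_left _ _).trans hN
  have hN2 : N₂ ≤ N := ((le_max_left _ _).trans (le_max_right _ _)).trans hN
  have hN3 : N₃ ≤ N := (((le_max_left _ _).trans (le_max_right _ _)).trans (le_max_right _ _)).trans hN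
  have hN4 : N₄ ≤ N :=
    ((((le_max_left _ _).trans (le_max_right _ _)).trans (le_max_right _ _)).trans (le_max_right _ _)).trans hN
  have hN5 : 2 ^ c ≤ N :=
    ((((le_max_right _ _).trans (le_max_right _ _)).trans (le_max_right _ _)).trans (le_max_right _ _)).trans hN
  obtain ⟨S, hS, hSN, hS2, hS4⟩ := choose_S c N hc hN5
  have hNpos : 1 ≤ N := hS.trans hSN
  have hN0 : (0 : ℝ) < N := by exact_mod_cast hNpos
  have hNr : (1 : ℝ) ≤ N := by exact_mod_cast hNpos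
  have hS0 : (0 : ℝ) < S := by exact_mod_cast hS
  have hSNr : (S : ℝ) ≤ N := by exact_mod_cast hSN
  have hQr : (1 : ℝ) ≤ Q := by exact_mod_cast hQ
  have hWr : (1 : ℝ) ≤ W := by exact_mod_cast hW
  -- the pointwise error
  set η : ℝ := C₁ * (W / S) + W * Q / N with hη
  have hη0 : 0 ≤ η := by positivity
  have hηl : ∀ l, lam l * (C₁ * ((N : ℝ) ^ e l / S) + Q) ≤ η := by
    intro l
    obtain ⟨hl0, hl1⟩ := hlam l
    have h1 : lam l * (C₁ * ((N : ℝ) ^ e l / S)) ≤ C₁ * (W / S) := by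
      calc lam l * (C₁ * ((N : ℝ) ^ e l / S)) = C₁ * (lam l * (N : ℝ) ^ e l / S) := by ring
        _ ≤ C₁ * (W / S) := by gcongr
    have h2 : lam l * N ≤ W := by
      refine le_trans (mul_le_mul_of_nonneg_left ?_ hl0) hl1
      exact le_self_pow₀ hNr (by have := h.pos l; omega)
    have h3 : lam l * Q ≤ W * Q / N := by
      rw [le_div_iff₀ hN0]
      calc lam l * Q * N = lam l * N * Q := by ring
        _ ≤ W * Q := by gcongr
    calc lam l * (C₁ * ((N : ℝ) ^ e l / S) + Q) = lam l * (C₁ * ((N : ℝ) ^ e l / S)) + lam l * Q := by ring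
      _ ≤ η := add_le_add h1 h3
  have hlamW : ∀ l, lam l ≤ W / N := by
    intro l
    obtain ⟨hl0, hl1⟩ := hlam l
    rw [le_div_iff₀ hN0]
    refine le_trans (mul_le_mul_of_nonneg_left ?_ hl0) hl1
    exact le_self_pow₀ hNr (by have := h.pos l; omega)
  have hηZ : η ≤ (C₁ + 1) * (((Q * W : ℕ) : ℝ) / S) := by
    have h1 : (C₁ : ℝ) * (W / S) ≤ C₁ * (((Q * W : ℕ) : ℝ) / S) := by
      push_cast
      have : (W : ℝ) ≤ Q * W := le_mul_of_one_le_left (by positivity) hQr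
      gcongr
    have h2 : (W : ℝ) * Q / N ≤ ((Q * W : ℕ) : ℝ) / S := by
      push_cast
      rw [mul_comm (W : ℝ) Q]
      gcongr
    calc η ≤ C₁ * (((Q * W : ℕ) : ℝ) / S) + ((Q * W : ℕ) : ℝ) / S := add_le_add h1 h2
      _ = (C₁ + 1) * (((Q * W : ℕ) : ℝ) / S) := by ring
  -- the functions
  set F1 : ZMod M → ℕ → ℂ := fun x m => ∏ l, V l (x + pz M (P l) m) (x + pz M (P l) m) with hF1
  set F2 : ZMod M → ℕ → ℂ := fun x m => av (fun r : ZMod M => ∏ l, V l (x + pz M (P l) m) (x + pz M (P l) r.val)) with hF2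
  set ρ : ℕ → Fin n → ZMod M := fun b l => pz M (P l - P i₀) (b * N / S) with hρ
  set Gb : ℕ → ZMod M → ℂ := fun b x => tv ((b + 1) * N / S - b * N / S) (fun m =>
    ∏ l, V l (x + pz M (P i₀) (b * N / S + m) + ρ b l) (x + pz M (P l) (b * N / S + m)) -
      AA M P (fun l => V l (x + pz M (P i₀) (b * N / S + m) + ρ b l)) x) with hGb
  have hD : ∀ x, AA N P (fun l x' => V l x' x') x -
        av (fun r : ZMod M => AA N P (fun l x' => V l x' (x + pz M (P l) r.val)) x) = tv N (fun m => F1 x m - F2 x m) := by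
    intro x
    rw [av_AA, tv_sub]
    rfl
  have hprod : ∀ (a b : Fin n → ℂ), (∀ l, ‖a l‖ ≤ 4) → (∀ l, ‖b l‖ ≤ 4) → (∀ l, ‖a l - b l‖ ≤ η) →
      ‖∏ l, a l - ∏ l, b l‖ ≤ (n : ℝ) * 4 ^ n * η := by
    intro a b ha hb hab
    have := BlkBAux.prod_lip (univ : Finset (Fin n)) a b 4 η (by norm_num) hη0 ha hb hab
    rwa [Finset.card_univ, Fintype.card_fin] at this
  have hd0 : 0 ≤ (n : ℝ) * 4 ^ n * η := by positivity
  have hblock : ∀ x b, b < S → ‖tv ((b + 1) * N / S - b * N / S) (fun m => F1 x (b * N / S + m) - F2 x (b * N / S + m))‖ ≤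
      2 * ((n : ℝ) * 4 ^ n * η) + ‖Gb b x‖ := by
    intro x b hb
    set H := (b + 1) * N / S - b * N / S with hH
    have e1 : (fun m => F1 x (b * N / S + m) - F2 x (b * N / S + m)) = fun m =>
        ((F1 x (b * N / S + m) - ∏ l, V l (x + pz M (P i₀) (b * N / S + m) + ρ b l) (x + pz M (P l) (b * N / S + m))) +
        (AA M P (fun l => V l (x + pz M (P i₀) (b * N / S + m) + ρ b l)) x - F2 x (b * N / S + m))) +
        (∏ l, V l (x + pz M (P i₀) (b * N / S + m) + ρ b l) (x + pz M (P l) (b * N / S + m)) -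
          AA M P (fun l => V l (x + pz M (P i₀) (b * N / S + m) + ρ b l)) x) := by
      funext m
      ring
    have e2 : tv H (fun m => F1 x (b * N / S + m) - F2 x (b * N / S + m)) = tv H (fun m =>
        (F1 x (b * N / S + m) - ∏ l, V l (x + pz M (P i₀) (b * N / S + m) + ρ b l) (x + pz M (P l) (b * N / S + m))) +
        (AA M P (fun l => V l (x + pz M (P i₀) (b * N / S + m) + ρ b l)) x - F2 x (b * N / S + m))) + Gb b x := by
      rw [e1, hGb]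
      unfold tv
      rw [Finset.sum_add_distrib, add_div]
    rw [e2]
    refine (norm_add_le _ _).trans (add_le_add ?_ le_rfl)
    refine tv_le_pt (by positivity) (fun m hm => ?_)
    have hs : ∀ l y, ‖V l (x + pz M (P l) (b * N / S + m)) y - V l (x + pz M (P i₀) (b * N / S + m) + ρ b l) y‖ ≤ η := by
      intro l y
      exact (hslow M N S b Q (lam l) 4 (V l) l m hS hSN hb hm (hlam l).1 (hV l) x y).trans (hηl l)
    refine (norm_add_le _ _).trans ?_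
    have t1 : ‖F1 x (b * N / S + m) - ∏ l, V l (x + pz M (P i₀) (b * N / S + m) + ρ b l) (x + pz M (P l) (b * N / S + m))‖ ≤
        (n : ℝ) * 4 ^ n * η :=
      hprod _ _ (fun l => (hV l).bd _ _) (fun l => (hV l).bd _ _) (fun l => hs l _)
    have t2 : ‖AA M P (fun l => V l (x + pz M (P i₀) (b * N / S + m) + ρ b l)) x - F2 x (b * N / S + m)‖ ≤
        (n : ℝ) * 4 ^ n * η := by
      have e3 : AA M P (fun l => V l (x + pz M (P i₀) (b * N / S + m) + ρ b l)) x =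
          av (fun r : ZMod M => ∏ l, V l (x + pz M (P i₀) (b * N / S + m) + ρ b l) (x + pz M (P l) r.val)) := by
        unfold AA
        exact BlkBAux.tv_eq_av _
      rw [e3, hF2]
      have e4 : av (fun r : ZMod M => ∏ l, V l (x + pz M (P i₀) (b * N / S + m) + ρ b l) (x + pz M (P l) r.val)) -
          av (fun r : ZMod M => ∏ l, V l (x + pz M (P l) (b * N / S + m)) (x + pz M (P l) r.val)) =
          av (fun r : ZMod M => ∏ l, V l (x + pz M (P i₀) (b * N / S + m) + ρ b l) (x + pz M (P l) r.val) -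
            ∏ l, V l (x + pz M (P l) (b * N / S + m)) (x + pz M (P l) r.val)) := by
        unfold av
        rw [Finset.sum_sub_distrib, sub_div]
      rw [e4]
      refine (Pool.Agent.NLT.norm_av_le _).trans (Pool.Agent.NLT.avr_le (fun r => ?_))
      refine hprod _ _ (fun l => (hV l).bd _ _) (fun l => (hV l).bd _ _) (fun l => ?_)
      rw [norm_sub_rev]
      exact hs l _
    linarith
  -- the blocks
  have hGn : ∀ b, b < S → n2 (Gb b) ^ c * N ≤ 1 := by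
    intro b hb
    have hsl : ∀ l, Sl 4 Q (2 * (W / N) * Q) (fun z y => V l (z + ρ b l) y) := by
      intro l
      refine sl_shift (sw_sl (sw_mono (hV l) le_rfl (hlamW l)) hQ hQM (by positivity) (by norm_num) (by norm_num)) (ρ b l)
    have hend : b * N / S + ((b + 1) * N / S - b * N / S) ≤ N := by
      have h1 : b * N / S ≤ (b + 1) * N / S := Nat.div_le_div_right (Nat.mul_le_mul_right _ (Nat.le_succ b))
      have h2 : (b + 1) * N / S ≤ N := by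
        refine Nat.div_le_of_le_mul ?_
        exact Nat.mul_le_mul_right N (by omega)
      omega
    exact hblk M N 4 Q ((b + 1) * N / S - b * N / S) (b * N / S) (2 * (W / N) * Q) hN1 (by norm_num) hQ
      (hnq N Q W hN3 hW hQW) hend (block_big N S b c hS hSN hc hS2) (by positivity) (hnk N Q W hN4 hQ hW hQW)
      (fun l z y => V l (z + ρ b l) y) hsl
  obtain ⟨b₀, hb₀, hmax⟩ := Finset.exists_max_image (range S) (fun b => n2 (Gb b)) ⟨0, Finset.mem_range.mpr hS⟩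
  rw [Finset.mem_range] at hb₀
  refine hfin N S (Q * W) (n2 (Gb b₀)) η _ hN2 hS hSN hS4 hQW (n2_nonneg' _) (hGn b₀ hb₀) hη0 hηZ (n2_nonneg' _) ?_
  have hpt : ∀ x, ‖AA N P (fun l x' => V l x' x') x -
        av (fun r : ZMod M => AA N P (fun l x' => V l x' (x + pz M (P l) r.val)) x)‖ ^ 2 ≤
      8 * (2 * ((n : ℝ) * 4 ^ n * η)) ^ 2 + 8 / S * ∑ b ∈ range S, ‖Gb b x‖ ^ 2 := by
    intro x
    rw [hD x]
    exact sq_blocks S hS _ (fun b => ‖Gb b x‖) _ _ (norm_nonneg _) (blocks N S hS hSN (fun m => F1 x m - F2 x m))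
      (fun b hb => hblock x b hb) (fun b => norm_nonneg _) (fun b => norm_nonneg _) (by positivity)
  have h1 : n2 (fun x => AA N P (fun l x' => V l x' x') x -
        av (fun r : ZMod M => AA N P (fun l x' => V l x' (x + pz M (P l) r.val)) x)) ≤
      avr (fun x => 8 * (2 * ((n : ℝ) * 4 ^ n * η)) ^ 2 + 8 / S * ∑ b ∈ range S, ‖Gb b x‖ ^ 2) :=
    avr_mono hpt
  refine h1.trans ?_
  rw [avr_add, avr_const, avr_mul_left, avr_sum]
  refine add_le_add le_rfl ?_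
  have h2 : ∑ b ∈ range S, avr (fun x => ‖Gb b x‖ ^ 2) ≤ ∑ _b ∈ range S, n2 (Gb b₀) :=
    Finset.sum_le_sum (fun b hb => hmax b hb)
  rw [Finset.sum_const, Finset.card_range, nsmul_eq_mul] at h2
  calc 8 / (S : ℝ) * ∑ b ∈ range S, avr (fun x => ‖Gb b x‖ ^ 2) ≤ 8 / (S : ℝ) * (S * n2 (Gb b₀)) := by gcongr
    _ = 8 * n2 (Gb b₀) := by field_simp

end Pool.Agent.EQD.G
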