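import Pool.Agent.Lib.EQD.PcS

/-!
# Module TEn: energies of the bands

PROOF. As in the proof of `piece_shell` (`EQD.PcS`, the part on multipliers, with `D` replaced by `e`): `Ew B t (tj j) (N j ^ e / 2 ^ (k + 1)) f - Ew B t (tj j) (N j ^ e / 2 ^ k) f = cv (bk Q (K_(k+1) j) - bk Q (K_k j)) f`,
`Q = QB B t`, `K_k j = KK (N j ^ e) k (QB B (tj j)) Q`; Parseval (`n2_cv_le`-type lemma used in `shell`, `EQD.Shl`): `∑_j n2 (cv (δ j) f) ≤ sup_θ (∑_j ‖mul (δ j) θ‖ ^ 2) n2 f`, `n2 f ≤ 1`, `en_dk`, `en_dk2`.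
-/

set_option autoImplicit false

open Finset Polynomial

namespace Pool.Agent.EQD.G

open Pool.Agent.HLT Pool.Agent.NLT Pool.Agent.NLG

theorem en_shell (e : ℕ) (he : 1 ≤ e) : ∃ C : ℕ, 1 ≤ C ∧ ∀ (M : ℕ) [NeZero M] (N : ℕ → ℕ), Sc N → ∀ (B t k m : ℕ) (s : Finset ℕ), 1 ≤ B →
    1 ≤ t → m ≤ k → (∀ j ∈ s, t ≤ tj j ∧ 2 ^ (k + 3) * QB B (tj j) ^ 2 ≤ N j) → ∀ f : ZMod M → ℂ, Bd f →
    ∑ j ∈ s, n2 (fun x => Ew B t (tj j) (N j ^ e / 2 ^ (k + 1)) f x - Ew B t (tj j) (N j ^ e / 2 ^ k) f x) ≤ C ∧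
    ∑ j ∈ s, n2 (Eb (QB B t) (PcSAux.KK (N j ^ e) m (QB B (tj j)) (QB B t))
      (fun x => Ew B t (tj j) (N j ^ e / 2 ^ (k + 1)) f x - Ew B t (tj j) (N j ^ e / 2 ^ k) f x)) ≤ C * ((2 : ℝ) ^ m / 2 ^ k) := by
  have hA : (1:ℝ) ≤ 4 * 2 ^ e := by
    have : (1:ℝ) ≤ 2 ^ e := one_le_pow₀ (by norm_num)
    linarith
  obtain ⟨G₁, hG₁, he1⟩ := en_dk (4 * 2 ^ e) hA
  obtain ⟨G₂, hG₂, he2⟩ := en_dk2 (4 * 2 ^ e) hA
  refine ⟨max 1 (max ⌈G₁⌉₊ ⌈2 * G₂⌉₊), le_max_left _ _, ?_⟩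
  set C := max 1 (max ⌈G₁⌉₊ ⌈2 * G₂⌉₊) with hC
  have hCG₁ : G₁ ≤ C := (Nat.le_ceil _).trans (by
    exact_mod_cast (le_max_left _ _).trans (le_max_right _ _))
  have hCG₂ : 2 * G₂ ≤ (C : ℝ) := (Nat.le_ceil _).trans (by
    exact_mod_cast (le_max_right _ _).trans (le_max_right _ _))
  intro M _ N hN B t k m s hB ht hmk hs f hf
  have hf1 : n2 f ≤ 1 := n2_le_of_Bd f hf
  set Q := QB B t with hQ
  have hQ1 : 1 ≤ Q := QB_pos B t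
  have hQ0 : (0:ℝ) < Q := by exact_mod_cast hQ1
  have hdv : ∀ j ∈ s, Q ∣ QB B (tj j) := fun j hj => QB_dvd B t (tj j) (hs j hj).1
  have hN1 : ∀ j, 1 ≤ N j := fun j => (Nat.one_le_two_pow).trans (hN j).1
  have hXN : ∀ j, N j ≤ N j ^ e := by
    intro j
    calc N j = N j ^ 1 := (pow_one _).symm
      _ ≤ N j ^ e := Nat.pow_le_pow_right (hN1 j) he
  have hbig : ∀ j ∈ s, ∀ κ, κ ≤ k + 1 → 2 ^ κ * QB B (tj j) ≤ N j ^ e := by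
    intro j hj κ hκ
    have h1 : 2 ^ κ ≤ 2 ^ (k + 3) := Nat.pow_le_pow_right (by norm_num) (by omega)
    have h2 : QB B (tj j) ≤ QB B (tj j) ^ 2 := by
      have := QB_pos B (tj j)
      nlinarith
    calc 2 ^ κ * QB B (tj j) ≤ 2 ^ (k + 3) * QB B (tj j) ^ 2 := Nat.mul_le_mul h1 h2
      _ ≤ N j := (hs j hj).2
      _ ≤ N j ^ e := hXN j
  have hXlo : ∀ j, (2:ℝ) ^ (e * j) ≤ ((N j ^ e : ℕ) : ℝ) := by
    intro j
    have h1 : (2 ^ j) ^ e ≤ N j ^ e := Nat.pow_le_pow_left (hN j).1 _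
    have h2 : 2 ^ (e * j) ≤ N j ^ e := by
      calc 2 ^ (e * j) = (2 ^ j) ^ e := by rw [← pow_mul, mul_comm]
        _ ≤ N j ^ e := h1
    exact_mod_cast h2
  have hXhi : ∀ j, ((N j ^ e : ℕ) : ℝ) ≤ 2 ^ e * 2 ^ (e * j) := by
    intro j
    have h1 : N j ^ e ≤ (2 ^ (j + 1)) ^ e := Nat.pow_le_pow_left (hN j).2.le _
    have h2 : N j ^ e ≤ 2 ^ e * 2 ^ (e * j) := by
      calc N j ^ e ≤ (2 ^ (j + 1)) ^ e := h1
        _ = 2 ^ e * 2 ^ (e * j) := by rw [← pow_mul, ← pow_add]; ring_nf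
    exact_mod_cast h2
  set w : ℝ := 1 / (4 * (2 ^ k * Q)) with hw
  have hw0 : 0 < w := by positivity
  have hlo : ∀ j ∈ s, ∀ κ, κ ≤ k + 1 → w * 2 ^ (e * j) ≤ PcSAux.KK (N j ^ e) κ (QB B (tj j)) Q := by
    intro j hj κ hκ
    refine le_trans ?_ (PcSAux.le_real (hdv j hj) hQ1 (QB_pos B _) (hbig j hj κ hκ))
    have h1 : (2:ℝ) ^ κ ≤ 2 ^ (k + 1) := pow_le_pow_right₀ (by norm_num) hκ
    have h2 : (2:ℝ) * (2 ^ κ * Q) ≤ 4 * (2 ^ k * Q) := by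
      calc (2:ℝ) * (2 ^ κ * Q) ≤ 2 * (2 ^ (k + 1) * Q) := by gcongr
        _ = 4 * (2 ^ k * Q) := by rw [pow_succ]; ring
    rw [hw, one_div, inv_mul_eq_div]
    exact div_le_div₀ (by positivity) (hXlo j) (by positivity) h2
  have hhi : ∀ j ∈ s, ∀ κ, k ≤ κ → (PcSAux.KK (N j ^ e) κ (QB B (tj j)) Q : ℝ) ≤
      4 * 2 ^ e * (w * 2 ^ (e * j)) := by
    intro j hj κ hκ
    refine (PcSAux.real_le (hdv j hj) hQ1).trans ?_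
    have h1 : (2:ℝ) ^ k ≤ 2 ^ κ := pow_le_pow_right₀ (by norm_num) hκ
    have h2 : (2:ℝ) ^ k * Q ≤ 2 ^ κ * Q := by gcongr
    calc ((N j ^ e : ℕ) : ℝ) / (2 ^ κ * Q) ≤ (2 ^ e * 2 ^ (e * j)) / (2 ^ k * Q) :=
          div_le_div₀ (by positivity) (hXhi j) (by positivity) h2
      _ = 4 * 2 ^ e * (w * 2 ^ (e * j)) := by rw [hw]; field_simp
  have hθ : ∀ j ∈ s, (PcSAux.KK (N j ^ e) k (QB B (tj j)) Q : ℝ) ≤
      (2 * 2 ^ m / 2 ^ k) * (PcSAux.KK (N j ^ e) m (QB B (tj j)) Q : ℕ) := by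
    intro j hj
    have h1 := PcSAux.real_le (X := N j ^ e) (κ := k) (hdv j hj) hQ1
    have h2 := PcSAux.le_real (κ := m) (hdv j hj) hQ1 (QB_pos B _) (hbig j hj m (by omega))
    calc (PcSAux.KK (N j ^ e) k (QB B (tj j)) Q : ℝ) ≤ ((N j ^ e : ℕ) : ℝ) / (2 ^ k * Q) := h1
      _ = (2 * 2 ^ m / 2 ^ k) * (((N j ^ e : ℕ) : ℝ) / (2 * (2 ^ m * Q))) := by
          field_simp
      _ ≤ _ := mul_le_mul_of_nonneg_left h2 (by positivity)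
  set δ : ℕ → ℤ →₀ ℂ := fun j => bk Q (PcSAux.KK (N j ^ e) (k + 1) (QB B (tj j)) Q) -
    bk Q (PcSAux.KK (N j ^ e) k (QB B (tj j)) Q) with hδ
  have hcv : ∀ j, (fun x => Ew B t (tj j) (N j ^ e / 2 ^ (k + 1)) f x -
      Ew B t (tj j) (N j ^ e / 2 ^ k) f x) = cv (δ j) f := by
    intro j
    funext x
    rw [hδ, cv_sub, cv_bk, cv_bk]
    rfl
  simp only [hcv]
  constructor
  · have hm1 : ∀ θ : ℝ, ∑ j ∈ s, ‖mul (δ j) θ‖ ^ 2 ≤ G₁ := by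
      intro θ
      have h1 := he1 e he s (fun j => PcSAux.KK (N j ^ e) k (QB B (tj j)) Q)
        (fun j => PcSAux.KK (N j ^ e) (k + 1) (QB B (tj j)) Q) w hw0
        (fun j hj => ⟨hlo j hj k (by omega), hhi j hj k le_rfl, hlo j hj (k + 1) le_rfl,
          hhi j hj (k + 1) (by omega)⟩) (Q * θ)
      refine le_trans (le_of_eq (sum_congr rfl (fun j _ => ?_))) h1
      rw [hδ, mul_sub', mul_bk, mul_bk]
    refine (sum_n2_cv_le s δ G₁ hm1 f).trans ?_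
    calc G₁ * n2 f ≤ G₁ * 1 := mul_le_mul_of_nonneg_left hf1 hG₁
      _ ≤ C := by rw [mul_one]; exact hCG₁
  · have hm2 : ∀ θ : ℝ, ∑ j ∈ s, ‖mul (δ j) θ‖ ^ 2 * ‖dk (PcSAux.KK (N j ^ e) m (QB B (tj j)) Q) (Q * θ)‖ ^ 2 ≤
        G₂ * (2 * 2 ^ m / 2 ^ k) := by
      intro θ
      have h1 := he2 e he s (fun j => PcSAux.KK (N j ^ e) k (QB B (tj j)) Q)
        (fun j => PcSAux.KK (N j ^ e) (k + 1) (QB B (tj j)) Q) (fun j => PcSAux.KK (N j ^ e) m (QB B (tj j)) Q)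
        w (2 * 2 ^ m / 2 ^ k) hw0 (by positivity)
        (fun j hj => ⟨hlo j hj k (by omega), hhi j hj k le_rfl, hlo j hj (k + 1) le_rfl,
          hhi j hj (k + 1) (by omega), hθ j hj⟩) (Q * θ)
      refine le_trans (le_of_eq (sum_congr rfl (fun j _ => ?_))) h1
      rw [hδ, mul_sub', mul_bk, mul_bk, mul_pow, mul_comm]
    have h1 : ∀ j ∈ s, n2 (Eb Q (PcSAux.KK (N j ^ e) m (QB B (tj j)) Q) (cv (δ j) f)) = ∑ ξ : ZMod M,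
        (‖mul (δ j) ((ξ.val : ℝ) / M)‖ ^ 2 * ‖dk (PcSAux.KK (N j ^ e) m (QB B (tj j)) Q) (Q * ((ξ.val : ℝ) / M))‖ ^ 2) *
          ‖ft f ξ‖ ^ 2 := by
      intro j _
      rw [n2_eq_ft]
      refine Finset.sum_congr rfl fun ξ _ => ?_
      rw [ft_Eb, ft_cv, norm_mul, norm_mul]
      ring
    rw [Finset.sum_congr rfl h1, Finset.sum_comm]
    have h2 : ∀ ξ ∈ (univ : Finset (ZMod M)), ∑ j ∈ s,
        (‖mul (δ j) ((ξ.val : ℝ) / M)‖ ^ 2 * ‖dk (PcSAux.KK (N j ^ e) m (QB B (tj j)) Q) (Q * ((ξ.val : ℝ) / M))‖ ^ 2) *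
          ‖ft f ξ‖ ^ 2 ≤ G₂ * (2 * 2 ^ m / 2 ^ k) * ‖ft f ξ‖ ^ 2 := by
      intro ξ _
      rw [← Finset.sum_mul]
      exact mul_le_mul_of_nonneg_right (hm2 _) (by positivity)
    refine (Finset.sum_le_sum h2).trans ?_
    rw [← Finset.mul_sum, ← n2_eq_ft]
    have hnn : 0 ≤ G₂ * (2 * (2:ℝ) ^ m / 2 ^ k) := by positivity
    calc G₂ * (2 * 2 ^ m / 2 ^ k) * n2 f ≤ G₂ * (2 * 2 ^ m / 2 ^ k) * 1 := mul_le_mul_of_nonneg_left hf1 hnn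
      _ = (2 * G₂) * ((2:ℝ) ^ m / 2 ^ k) := by ring
      _ ≤ C * ((2:ℝ) ^ m / 2 ^ k) := mul_le_mul_of_nonneg_right hCG₂ (by positivity)

end Pool.Agent.EQD.G
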