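import Pool.Agent.Lib.EQG.GSg
import Pool.Agent.Lib.EQG.TEn
import Pool.Agent.Lib.EQG.GMu

/-!
# Module TPd: the double differences

PROOF. For `j ∈ s`: `N = N j`, `T = tj j`, `Q = QB B T`, `V l = mU Q (L l) 0 (f l)`, `L l = N ^ e l / 2 ^ w j l / Q * Q` for `l ≠ i`, `V i = (1 / 2) ((mU q' L' - mU q' L'') - (mU q L' - mU q L''))` (functions `0 (f i)`), `q' = QB B (t + 1)`, `q = QB B t`,
`L' = N ^ e i / 2 ^ (k + 1) / Q * Q`, `L''` the same with `k` (`Ew_mU`); `Sw Q 4 (lam l)` by `sw_mU`, `sw_sub`, with `lam l N ^ e l ≤ W = 2 ^ (C₄ T + C₄ + 8)`. `Eb q M (V i z) y = 0`: the average of `y ↦ mU q' L 0 f z y` over the coset `y + q ZMod M` is `mU q L 0 f z y`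
(`q ∣ q' ∣ M`; for a fixed window element `u` with `q ∣ u - y` exactly `q / q'` of the `i < M` satisfy `q' ∣ u - y - q i`), and `mU q L` has the period `q`. `sgain` with `R = 2 ^ (t / C₁)` (`r ≤ R ^ C₁ ≤ 2 ^ t` divides `q`: `dvd_QB`; if
`t < C₁` the claim is trivial with a large `C`: use `n2 (AA ..) ≤ n2 (slot i)`, `n2_AA_le`, and the energy bound), `l = i`, `η = N ^ (- 1 / C₁)`. `AA` is homogeneous in the slot `i` (`AA_update_mul`): factor `4`. Sum over `j`: energies by `en_shell` for `t + 1` and for `t`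
(`m = 0`, `n2 (a - b) ≤ 2 n2 a + 2 n2 b`), `∑_j η_j ≤ ∑_{j ≥ 4 ^ t} 2 ^ (- j / C₁) ≤ C' 2 ^ (- t / C')` (`j ≥ 4 ^ (tj j) ≥ 4 ^ (t + 1)`).
-/

set_option autoImplicit false

open Finset Polynomial

namespace Pool.Agent.EQD.G

open Pool.Agent.HLT Pool.Agent.NLT Pool.Agent.NLG

namespace TPdAux

open PcSAux

/-- Sum of powers with rounded exponents. -/
theorem sum_floor (c : ℕ) (hc : 1 ≤ c) (s : Finset ℕ) : ∑ j ∈ s, (1 / 2 : ℝ) ^ (j / c) ≤ 2 * c := by
  classical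
  have h1 : ∀ n : ℕ, ∑ j ∈ range (c * n), (1 / 2 : ℝ) ^ (j / c) = 2 * c - 2 * c * (1 / 2) ^ n := by
    intro n
    induction n with
    | zero => simp
    | succ n ih =>
      rw [Nat.mul_succ, sum_range_add, ih]
      have h2 : ∑ x ∈ range c, (1 / 2 : ℝ) ^ ((c * n + x) / c) = ∑ _x ∈ range c, (1 / 2 : ℝ) ^ n := by
        refine sum_congr rfl fun x hx => ?_
        rw [Nat.mul_add_div (by omega), Nat.div_eq_of_lt (mem_range.1 hx), add_zero]
      rw [h2, sum_const, card_range, nsmul_eq_mul, pow_succ]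
      ring
  obtain ⟨n, hn⟩ : ∃ n, s ⊆ range (c * n) := ⟨s.sup id + 1, fun j hj => by
    have h3 : j ≤ s.sup id := le_sup (f := id) hj
    rw [mem_range]
    calc j < s.sup id + 1 := by omega
      _ ≤ c * (s.sup id + 1) := Nat.le_mul_of_pos_left _ (by omega)⟩
  refine (sum_le_sum_of_subset_of_nonneg hn (fun _ _ _ => by positivity)).trans ?_
  rw [h1]
  have h4 : 0 ≤ 2 * (c : ℝ) * (1 / 2) ^ n := by positivity
  linarith

/-- Length of the progression against its size. -/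
theorem len_le {X κ QT : ℕ} (hQT : 1 ≤ QT) (hX : 2 ^ κ * QT ≤ X) :
    X ≤ 2 * (X / 2 ^ κ / QT * QT * 2 ^ κ) ∧ QT ≤ X / 2 ^ κ ∧ QT ≤ X / 2 ^ κ / QT * QT := by
  have h1 : QT ≤ X / 2 ^ κ := by
    rw [Nat.le_div_iff_mul_le (by positivity)]
    calc QT * 2 ^ κ = 2 ^ κ * QT := by ring
      _ ≤ X := hX
  refine ⟨?_, h1, ?_⟩
  · have h2 := le_KK (κ := κ) (dvd_refl QT) hQT hX
    rwa [KK_mul (dvd_refl QT), ← Nat.div_div_eq_div_mul] at h2
  · exact Nat.le_mul_of_pos_left _ (Nat.div_pos h1 hQT)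

theorem lam_le {X κ L : ℕ} (hL : 1 ≤ L) (hX : X ≤ 2 * (L * 2 ^ κ)) (hX0 : 1 ≤ X) :
    (2 : ℝ) / L ≤ 4 * 2 ^ κ / X := by
  have hL0 : (0 : ℝ) < L := by exact_mod_cast hL
  have hX1 : (0 : ℝ) < X := by exact_mod_cast hX0
  have h : (X : ℝ) ≤ ((2 * (L * 2 ^ κ) : ℕ) : ℝ) := by exact_mod_cast hX
  push_cast at h
  rw [div_le_div_iff₀ hL0 hX1]
  linarith

/-- One class sum. -/
theorem sw_one {M : ℕ} [NeZero M] {q Q L : ℕ} (hq : 1 ≤ q) (hqQ : q ∣ Q) (hQ : 1 ≤ Q) (hQM : Q ∣ M) (hQL : Q ∣ L) (hL : 1 ≤ L)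
    (f : ZMod M → ℂ) (hf : Bd f) : Sw Q 1 (2 / L) (mU q L 0 f) where
  bd z y := mU_le_one q L hq (hqQ.trans hQL) hL (hqQ.trans hQM) 0 f hf z y
  per z y := MuAAux.mU_per_dvd (hqQ.trans hQM) hqQ L 0 f z y
  slow z y u := by
    have h := mU_shift q L hq hL (hqQ.trans hQM) 0 f hf z y u
    have hL0 : (0 : ℝ) < L := by exact_mod_cast hL
    have hq' : (q : ℝ) ≤ Q := by exact_mod_cast Nat.le_of_dvd hQ hqQ
    refine h.trans ?_
    rw [div_mul_eq_mul_div]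
    refine div_le_div_of_nonneg_right ?_ hL0.le
    linarith

theorem sw_sub' {M : ℕ} [NeZero M] {Q : ℕ} {c c' lam lam' : ℝ} {V V' : ZMod M → ZMod M → ℂ} (h : Sw Q c lam V)
    (h' : Sw Q c' lam' V') : Sw Q (c + c') (lam + lam') (fun z y => V z y - V' z y) where
  bd z y := (norm_sub_le _ _).trans (add_le_add (h.bd z y) (h'.bd z y))
  per z y := by rw [h.per, h'.per]
  slow z y u := by
    have e : (V (z + (u : ZMod M)) y - V' (z + (u : ZMod M)) y) - (V z y - V' z y) =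
        (V (z + (u : ZMod M)) y - V z y) - (V' (z + (u : ZMod M)) y - V' z y) := by ring
    rw [e, add_mul]
    exact (norm_sub_le _ _).trans (add_le_add (h.slow z y u) (h'.slow z y u))

theorem sw_mono' {M : ℕ} [NeZero M] {Q : ℕ} {c c' lam lam' : ℝ} {V : ZMod M → ZMod M → ℂ} (h : Sw Q c lam V) (hc : c ≤ c')
    (hl : lam ≤ lam') : Sw Q c' lam' V where
  bd z y := (h.bd z y).trans hc
  per z y := h.per z y
  slow z y u := (h.slow z y u).trans (mul_le_mul_of_nonneg_right hl (by positivity))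

theorem Ew_diag {M : ℕ} [NeZero M] (B t T X : ℕ) (ht : t ≤ T) (hM : QB B T ∣ M) (hX : QB B T ≤ X) (f : ZMod M → ℂ)
    (x : ZMod M) : Ew B t T X f x = mU (QB B t) (X / QB B T * QB B T) 0 f x x := by
  have hqQ : QB B t ∣ QB B T := QB_dvd B t T ht
  have hQ1 : 1 ≤ QB B T := QB_pos B T
  have h1 : 1 ≤ X / QB B T * QB B T := Nat.mul_pos (Nat.div_pos hX hQ1) hQ1
  rw [mU_diag_dvd (QB B t) _ (QB_pos B t) (hqQ.trans hM) (hqQ.trans (Dvd.intro_left _ rfl)) h1,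
    Nat.mul_div_assoc _ hqQ]
  rfl

theorem n2_sub_le' {M : ℕ} [NeZero M] (f g : ZMod M → ℂ) : n2 (fun x => f x - g x) ≤ 2 * n2 f + 2 * n2 g := by
  have h1 := n2_add_le f (fun x => - g x)
  have h2 : n2 (fun x => - g x) = n2 g := by
    unfold n2
    simp only [norm_neg]
  rw [h2] at h1
  simpa only [sub_eq_add_neg] using h1

theorem Eb_sub' {M : ℕ} [NeZero M] (q K : ℕ) (f g : ZMod M → ℂ) (x : ZMod M) :
    Eb q K (fun y => f y - g y) x = Eb q K f x - Eb q K g x := by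
  unfold Eb tv
  rw [Finset.sum_sub_distrib, sub_div]

theorem Ew_Bd' {M : ℕ} [NeZero M] (B t T lam : ℕ) (f : ZMod M → ℂ) (hf : Bd f) : Bd (Ew B t T lam f) := by
  intro x
  unfold Ew Eb
  exact (norm_tv_le _ _).trans (tvr_le _ zero_le_one fun t _ => hf _)

theorem pow_R {t c : ℕ} : (2 ^ (t / c)) ^ c ≤ 2 ^ t := by
  rw [← pow_mul]
  exact Nat.pow_le_pow_right (by norm_num) (Nat.div_mul_le_self t c)

theorem eta_ok {c j N : ℕ} (hN : 2 ^ j ≤ N) : 1 ≤ ((1 / 2 : ℝ) ^ (j / c)) ^ c * N := by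
  have h2 : (1 / 2 : ℝ) ^ j ≤ ((1 / 2 : ℝ) ^ (j / c)) ^ c := by
    rw [← pow_mul]
    exact pow_le_pow_of_le_one (by norm_num) (by norm_num) (Nat.div_mul_le_self j c)
  have h3 : (2 : ℝ) ^ j ≤ N := by exact_mod_cast hN
  calc (1 : ℝ) = (1 / 2) ^ j * 2 ^ j := by
        rw [← mul_pow]
        norm_num
    _ ≤ ((1 / 2 : ℝ) ^ (j / c)) ^ c * N := mul_le_mul h2 h3 (by positivity) (by positivity)

end TPdAux

open TPdAux

theorem piece_dbl {n : ℕ} {P : Fin n → ℤ[X]} {e : Fin n → ℕ} {i₀ : Fin n} (h : GDeg P e i₀) (C₄ : ℕ) : ∃ C : ℕ, 1 ≤ C ∧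
    ∀ (M : ℕ) [NeZero M] (N : ℕ → ℕ), Sc N → ∀ (B t k : ℕ) (s : Finset ℕ) (i : Fin n) (w : ℕ → Fin n → ℕ), 1 ≤ B → 1 ≤ t →
      k ≤ C₄ * (t + 1) →
      (∀ j ∈ s, t + 1 ≤ tj j ∧ QB B (tj j) ∣ M ∧ (QB B (tj j) * 2 ^ (C₄ * tj j + C)) ^ C ≤ 2 ^ j ∧ ∀ l, w j l ≤ C₄ * tj j) →
      ∀ f : Fin n → ZMod M → ℂ, (∀ l, Bd (f l)) →
      ∑ j ∈ s, n2 (AA (N j) P (Function.update (fun l => Ew B (tj j) (tj j) (N j ^ e l / 2 ^ w j l) (f l)) i
        (fun x => (Ew B (t + 1) (tj j) (N j ^ e i / 2 ^ (k + 1)) (f i) x - Ew B (t + 1) (tj j) (N j ^ e i / 2 ^ k) (f i) x) -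
          (Ew B t (tj j) (N j ^ e i / 2 ^ (k + 1)) (f i) x - Ew B t (tj j) (N j ^ e i / 2 ^ k) (f i) x)))) ≤ C / 2 ^ (t / C) := by
  classical
  obtain ⟨C₁, N₀, hC₁, hsg⟩ := sgain h
  have hen := fun i => en_shell (e i) (h.pos i)
  choose G hG hen using hen
  set C₂ : ℕ := ∑ i, G i with hC₂
  have hGC : ∀ i, G i ≤ C₂ := fun i => single_le_sum (f := G) (fun _ _ => Nat.zero_le _) (mem_univ i)
  refine ⟨4 * C₁ * C₂ + 4 * C₂ + 4 * C₁ + N₀ + 8, by omega, ?_⟩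
  set C : ℕ := 4 * C₁ * C₂ + 4 * C₂ + 4 * C₁ + N₀ + 8 with hC
  intro M _ N hN B t k s i w hB ht hk hs f hf
  set q : ℕ := QB B t with hq
  set q' : ℕ := QB B (t + 1) with hq'
  have hq1 : 1 ≤ q := QB_pos B t
  have hq'1 : 1 ≤ q' := QB_pos B (t + 1)
  have hqq' : q ∣ q' := QB_dvd B t (t + 1) (by omega)
  have hN1 : ∀ j, 1 ≤ N j := fun j => (Nat.one_le_two_pow).trans (hN j).1
  have hXN : ∀ j l, N j ≤ N j ^ e l := by
    intro j l
    calc N j = N j ^ 1 := (pow_one _).symm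
      _ ≤ N j ^ e l := Nat.pow_le_pow_right (hN1 j) (h.pos l)
  -- sizes
  have hpow : ∀ j ∈ s, ∀ x c, c ≤ C → x ≤ C₄ * tj j + C → (QB B (tj j) * 2 ^ x) ^ c ≤ N j := by
    intro j hj x c hc hx
    have h0 : 1 ≤ QB B (tj j) * 2 ^ (C₄ * tj j + C) := Nat.mul_pos (QB_pos B _) (by positivity)
    calc (QB B (tj j) * 2 ^ x) ^ c ≤ (QB B (tj j) * 2 ^ (C₄ * tj j + C)) ^ c :=
          Nat.pow_le_pow_left (Nat.mul_le_mul_left _ (Nat.pow_le_pow_right (by norm_num) hx)) c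
      _ ≤ (QB B (tj j) * 2 ^ (C₄ * tj j + C)) ^ C := Nat.pow_le_pow_right h0 hc
      _ ≤ 2 ^ j := (hs j hj).2.2.1
      _ ≤ N j := (hN j).1
  have hpow1 : ∀ j ∈ s, ∀ x, x ≤ C₄ * tj j + C → 2 ^ x * QB B (tj j) ≤ N j := by
    intro j hj x hx
    have h0 := hpow j hj x 1 (by omega) hx
    rwa [pow_one, mul_comm] at h0
  have hpow2 : ∀ j ∈ s, ∀ x, x ≤ C₄ * tj j + C → 2 ^ x ≤ N j := by
    intro j hj x hx
    exact (Nat.le_mul_of_pos_right _ (QB_pos B _)).trans (hpow1 j hj x hx)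
  have hkT : ∀ j ∈ s, k ≤ C₄ * tj j := by
    intro j hj
    exact hk.trans (Nat.mul_le_mul_left _ (hs j hj).1)
  -- the energies
  set D : ℕ → ZMod M → ℂ := fun j x => (Ew B (t + 1) (tj j) (N j ^ e i / 2 ^ (k + 1)) (f i) x -
    Ew B (t + 1) (tj j) (N j ^ e i / 2 ^ k) (f i) x) -
    (Ew B t (tj j) (N j ^ e i / 2 ^ (k + 1)) (f i) x - Ew B t (tj j) (N j ^ e i / 2 ^ k) (f i) x) with hD
  have hsz : ∀ j ∈ s, 2 ^ (k + 3) * QB B (tj j) ^ 2 ≤ N j := by
    intro j hj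
    have h1 := hpow j hj (k + 3) 2 (by omega) (by have := hkT j hj; omega)
    calc 2 ^ (k + 3) * QB B (tj j) ^ 2 ≤ (2 ^ (k + 3)) ^ 2 * QB B (tj j) ^ 2 :=
          Nat.mul_le_mul_right _ (Nat.le_self_pow (by norm_num) _)
      _ = (QB B (tj j) * 2 ^ (k + 3)) ^ 2 := by ring
      _ ≤ N j := h1
  have hE1 := (hen i M N hN B (t + 1) k 0 s hB (by omega) (Nat.zero_le _)
    (fun j hj => ⟨(hs j hj).1, hsz j hj⟩) (f i) (hf i)).1
  have hE0 := (hen i M N hN B t k 0 s hB ht (Nat.zero_le _)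
    (fun j hj => ⟨by have := (hs j hj).1; omega, hsz j hj⟩) (f i) (hf i)).1
  have hG0 : (G i : ℝ) ≤ C₂ := by exact_mod_cast hGC i
  have hCC : (0 : ℝ) ≤ C₂ := Nat.cast_nonneg _
  have hC10 : (0 : ℝ) ≤ C₁ := Nat.cast_nonneg _
  have hED : ∑ j ∈ s, n2 (D j) ≤ 4 * C₂ := by
    have h1 : ∀ j ∈ s, n2 (D j) ≤ 2 * n2 (fun x => Ew B (t + 1) (tj j) (N j ^ e i / 2 ^ (k + 1)) (f i) x -
        Ew B (t + 1) (tj j) (N j ^ e i / 2 ^ k) (f i) x) +
        2 * n2 (fun x => Ew B t (tj j) (N j ^ e i / 2 ^ (k + 1)) (f i) x -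
          Ew B t (tj j) (N j ^ e i / 2 ^ k) (f i) x) := fun j _ => n2_sub_le' _ _
    refine (sum_le_sum h1).trans ?_
    rw [sum_add_distrib, ← mul_sum, ← mul_sum]
    linarith
  have hc2 : (4 * C₂ : ℝ) ≤ C := by
    have h1 : 4 * C₂ ≤ C := by omega
    exact_mod_cast h1
  rcases Nat.lt_or_ge t C₁ with htC | htC
  · -- small levels
    have h1 : ∀ j ∈ s, n2 (AA (N j) P (Function.update
        (fun l => Ew B (tj j) (tj j) (N j ^ e l / 2 ^ w j l) (f l)) i (D j))) ≤ n2 (D j) := by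
      intro j _
      have h2 := n2_AA_le (N j) P (Function.update
        (fun l => Ew B (tj j) (tj j) (N j ^ e l / 2 ^ w j l) (f l)) i (D j)) i (fun l hl => by
          rw [Function.update_of_ne hl]
          exact Ew_Bd' _ _ _ _ _ (hf l))
      rwa [Function.update_self] at h2
    have h3 : t / C = 0 := Nat.div_eq_of_lt (by omega)
    rw [h3, pow_zero, div_one]
    exact (sum_le_sum h1).trans (hED.trans hc2)
  -- one scale
  have key : ∀ j ∈ s, n2 (AA (N j) P (Function.update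
        (fun l => Ew B (tj j) (tj j) (N j ^ e l / 2 ^ w j l) (f l)) i (D j))) ≤
      C₁ / ((2 ^ (t / C₁) : ℕ) : ℝ) * n2 (D j) + (1 / 2 : ℝ) ^ (j / C₁) := by
    intro j hj
    obtain ⟨htj, hQM, -, hw1⟩ := hs j hj
    set T := tj j with hT
    set Q := QB B T with hQ
    have hQ1 : 1 ≤ Q := QB_pos B T
    have hq'Q : q' ∣ Q := QB_dvd B (t + 1) T htj
    have hqQ : q ∣ Q := hqq'.trans hq'Q
    have hkT' : k ≤ C₄ * T := hkT j hj
    have hN0 : (0 : ℝ) < N j := by exact_mod_cast hN1 j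
    have hX0 : ∀ l, 1 ≤ N j ^ e l := fun l => (hN1 j).trans (hXN j l)
    have hbig : ∀ x, x ≤ C₄ * T + C → ∀ l, 2 ^ x * Q ≤ N j ^ e l := fun x hx l =>
      (hpow1 j hj x hx).trans (hXN j l)
    have hlenw : ∀ l, N j ^ e l ≤ 2 * (N j ^ e l / 2 ^ w j l / Q * Q * 2 ^ w j l) ∧
        Q ≤ N j ^ e l / 2 ^ w j l ∧ Q ≤ N j ^ e l / 2 ^ w j l / Q * Q := fun l =>
      len_le hQ1 (hbig _ (by have := hw1 l; omega) l)
    have hlen1 := len_le hQ1 (hbig (k + 1) (by omega) i)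
    have hlen0 := len_le hQ1 (hbig k (by omega) i)
    -- the functions
    set L1 : ℕ := N j ^ e i / 2 ^ (k + 1) / Q * Q with hL1
    set L0 : ℕ := N j ^ e i / 2 ^ k / Q * Q with hL0
    have hQL1 : Q ∣ L1 := Dvd.intro_left _ rfl
    have hQL0 : Q ∣ L0 := Dvd.intro_left _ rfl
    set V : Fin n → ZMod M → ZMod M → ℂ := Function.update
      (fun l => mU Q (N j ^ e l / 2 ^ w j l / Q * Q) 0 (f l)) i
      (fun z y => (mU q' L1 0 (f i) z y - mU q' L0 0 (f i) z y) -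
        (mU q L1 0 (f i) z y - mU q L0 0 (f i) z y)) with hV
    set lam : Fin n → ℝ := Function.update (fun l => 4 * 2 ^ w j l / (N j : ℝ) ^ e l) i
      (32 * 2 ^ k / (N j : ℝ) ^ e i) with hlam
    have hVi : V i = fun z y => (mU q' L1 0 (f i) z y - mU q' L0 0 (f i) z y) -
        (mU q L1 0 (f i) z y - mU q L0 0 (f i) z y) := by
      rw [hV, Function.update_self]
    have hVl : ∀ l, l ≠ i → V l = mU Q (N j ^ e l / 2 ^ w j l / Q * Q) 0 (f l) := fun l hl => by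
      rw [hV, Function.update_of_ne hl]
    have hlami : lam i = 32 * 2 ^ k / (N j : ℝ) ^ e i := by
      rw [hlam, Function.update_self]
    have hlaml : ∀ l, l ≠ i → lam l = 4 * 2 ^ w j l / (N j : ℝ) ^ e l := fun l hl => by
      rw [hlam, Function.update_of_ne hl]
    have hdiag : (fun x => V i x x) = D j := by
      funext x
      rw [hVi, hD]
      simp only
      rw [Ew_diag B (t + 1) T _ htj hQM hlen1.2.1, Ew_diag B (t + 1) T _ htj hQM hlen0.2.1,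
        Ew_diag B t T _ (by omega) hQM hlen1.2.1, Ew_diag B t T _ (by omega) hQM hlen0.2.1]
    have hall : (fun l x' => V l x' x') = Function.update
        (fun l => Ew B T T (N j ^ e l / 2 ^ w j l) (f l)) i (D j) := by
      funext l
      by_cases hl : l = i
      · subst hl
        rw [Function.update_self]
        exact hdiag
      · rw [Function.update_of_ne hl, hVl l hl]
        funext x
        rw [Ew_diag B T T _ le_rfl hQM (hlenw l).2.1]
    have hSw : ∀ l, Sw Q 4 (lam l) (V l) := by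
      intro l
      by_cases hl : l = i
      · subst hl
        rw [hVi, hlami]
        have a1 := sw_one hq'1 hq'Q hQ1 hQM hQL1 (hQ1.trans hlen1.2.2) (f l) (hf l)
        have a2 := sw_one hq'1 hq'Q hQ1 hQM hQL0 (hQ1.trans hlen0.2.2) (f l) (hf l)
        have a3 := sw_one hq1 hqQ hQ1 hQM hQL1 (hQ1.trans hlen1.2.2) (f l) (hf l)
        have a4 := sw_one hq1 hqQ hQ1 hQM hQL0 (hQ1.trans hlen0.2.2) (f l) (hf l)
        have b1 := lam_le (hQ1.trans hlen1.2.2) hlen1.1 (hX0 l)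
        have b2 := lam_le (hQ1.trans hlen0.2.2) hlen0.1 (hX0 l)
        refine sw_mono' (sw_sub' (sw_sub' a1 a2) (sw_sub' a3 a4)) (by norm_num)
          ((add_le_add (add_le_add b1 b2) (add_le_add b1 b2)).trans ?_)
        have hX1 : (0 : ℝ) < ((N j ^ e l : ℕ) : ℝ) := by exact_mod_cast hX0 l
        rw [← add_div, ← add_div, ← Nat.cast_pow]
        refine div_le_div_of_nonneg_right ?_ hX1.le
        rw [pow_succ]
        have : (0 : ℝ) < 2 ^ k := by positivity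
        linarith
      · rw [hVl l hl, hlaml l hl]
        have a1 := sw_one hQ1 (dvd_refl Q) hQ1 hQM (Dvd.intro_left _ rfl) (hQ1.trans (hlenw l).2.2) (f l) (hf l)
        have b1 := lam_le (hQ1.trans (hlenw l).2.2) (hlenw l).1 (hX0 l)
        rw [Nat.cast_pow] at b1
        exact sw_mono' a1 (by norm_num) b1
    have hcall := hsg M (N j) (2 ^ (t / C₁)) Q q (2 ^ (C₄ * T + 5)) lam V ?_ ?_ hQM Nat.one_le_two_pow ?_ ?_ hSw
      hqQ ?_ i ?_ i ((1 / 2 : ℝ) ^ (j / C₁)) (by positivity) (eta_ok (hN j).1)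
    · rw [hall, hdiag] at hcall
      exact hcall
    · -- N₀ ≤ N j
      calc N₀ ≤ C := by omega
        _ ≤ 2 ^ C := Nat.lt_two_pow_self.le
        _ ≤ N j := hpow2 j hj C (by omega)
    · -- 2 ≤ R
      calc 2 = 2 ^ 1 := rfl
        _ ≤ 2 ^ (t / C₁) := Nat.pow_le_pow_right (by norm_num) (Nat.div_pos htC hC₁)
    · exact hpow j hj (C₄ * T + 5) C₁ (by omega) (by show C₄ * T + 5 ≤ C₄ * T + C; omega)
    · intro l
      push_cast
      by_cases hl : l = i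
      · subst hl
        rw [hlami]
        refine ⟨by positivity, ?_⟩
        rw [div_mul_cancel₀ _ (by positivity)]
        calc (32 : ℝ) * 2 ^ k = 2 ^ (k + 5) := by
              rw [pow_add]
              norm_num
              ring
          _ ≤ 2 ^ (C₄ * T + 5) := pow_le_pow_right₀ (by norm_num) (by omega)
      · rw [hlaml l hl]
        refine ⟨by positivity, ?_⟩
        rw [div_mul_cancel₀ _ (by positivity)]
        calc (4 : ℝ) * 2 ^ w j l = 2 ^ (w j l + 2) := by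
              rw [pow_add]
              norm_num
              ring
          _ ≤ 2 ^ (C₄ * T + 5) :=
              pow_le_pow_right₀ (by norm_num) (by have := hw1 l; omega)
    · intro r hr1 hr2
      exact dvd_QB B t r hB ht hr1 (hr2.trans pow_R)
    · intro z y
      rw [hVi]
      simp only
      rw [Eb_sub', Eb_sub', Eb_sub', Eb_mU hq'1 hqq' (hq'Q.trans hQM), Eb_mU hq'1 hqq' (hq'Q.trans hQM),
        Eb_mU hq1 (dvd_refl q) (hqQ.trans hQM), Eb_mU hq1 (dvd_refl q) (hqQ.trans hQM), sub_self]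
  -- the sum over the scales
  set u : ℕ := t / (2 * C₁) with hu
  refine (sum_le_sum key).trans ?_
  rw [sum_add_distrib, ← mul_sum]
  have b1 : (C₁ : ℝ) / ((2 ^ (t / C₁) : ℕ) : ℝ) ≤ C₁ * (1 / 2 ^ u) := by
    push_cast
    rw [mul_one_div]
    refine div_le_div_of_nonneg_left hC10 (by positivity) (pow_le_pow_right₀ (by norm_num) ?_)
    exact Nat.div_le_div_left (by omega) hC₁
  have b4 : ∑ j ∈ s, (1 / 2 : ℝ) ^ (j / C₁) ≤ 4 * C₁ * (1 / 2 ^ u) := by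
    have h1 : ∀ j ∈ s, (1 / 2 : ℝ) ^ (j / C₁) ≤ (1 / 2 : ℝ) ^ u * (1 / 2) ^ (j / (2 * C₁)) := by
      intro j hj
      rw [← pow_add]
      refine pow_le_pow_of_le_one (by norm_num) (by norm_num) ?_
      have h2 : j / (2 * C₁) = j / C₁ / 2 := by
        rw [mul_comm, Nat.div_div_eq_div_mul]
      have h3 : u ≤ j / (2 * C₁) := by
        refine Nat.div_le_div_right ?_
        have h5 := (hs j hj).1
        unfold tj at h5
        have h6 := Nat.log_le_self 2 j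
        omega
      rw [h2] at h3 ⊢
      omega
    refine (sum_le_sum h1).trans ?_
    rw [← mul_sum]
    have h8 := sum_floor (2 * C₁) (by omega) s
    calc (1 / 2 : ℝ) ^ u * ∑ j ∈ s, (1 / 2 : ℝ) ^ (j / (2 * C₁)) ≤
          (1 / 2 : ℝ) ^ u * (2 * ((2 * C₁ : ℕ) : ℝ)) :=
          mul_le_mul_of_nonneg_left h8 (by positivity)
      _ = 4 * C₁ * (1 / 2 ^ u) := by
          rw [one_div_pow]
          push_cast
          ring
  have c1 : C₁ / ((2 ^ (t / C₁) : ℕ) : ℝ) * ∑ j ∈ s, n2 (D j) ≤ C₁ * (1 / 2 ^ u) * (4 * C₂) :=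
    mul_le_mul b1 hED (sum_nonneg fun _ _ => n2_nonneg _) (by positivity)
  have c3 : (4 * C₁ * C₂ + 4 * C₁ : ℝ) ≤ C := by
    have h1 : 4 * C₁ * C₂ + 4 * C₁ ≤ C := by omega
    exact_mod_cast h1
  have c4 : (1 : ℝ) / 2 ^ u ≤ 1 / 2 ^ (t / C) := by
    refine one_div_le_one_div_of_le (by positivity) (pow_le_pow_right₀ (by norm_num) ?_)
    exact Nat.div_le_div_left (by omega) (by omega)
  calc _ ≤ (C₁ : ℝ) * (1 / 2 ^ u) * (4 * C₂) + 4 * C₁ * (1 / 2 ^ u) := add_le_add c1 b4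
    _ = (4 * C₁ * C₂ + 4 * C₁ : ℝ) * (1 / 2 ^ u) := by ring
    _ ≤ (C : ℝ) * (1 / 2 ^ (t / C)) := mul_le_mul c3 c4 (by positivity) (Nat.cast_nonneg _)
    _ = C / 2 ^ (t / C) := by ring

end Pool.Agent.EQD.G
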