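import Pool.Agent.Lib.EQG.TShp
import Pool.Agent.Lib.EQG.TEn

/-!
# Module TPs: the bands with a fixed modulus

PROOF. For `j ∈ s`: `N = N j`, `T = tj j`, `Q = QB B T`, `V l = mU Q (L l) 0 (f l)`, `L l = N ^ e l / 2 ^ w j l / Q * Q`, for `l ≠ i`, `V i = mU q L' 0 (f i) - mU q L'' 0 (f i)` with `q = QB B t` and the lengths for `k + 1`, `k` (`Ew_mU`); by `sw_mU`, `sw_sub`:
`Sw Q 4 (lam l)`, `lam l ≤ 2 / L l ≤ 8 * 2 ^ (w j l) / N ^ e l` (`hbig`: `L l ≥ N ^ e l / (2 * 2 ^ (w j l))`), for `i`: `lam i = 4 / L'`-type `≤ 16 * 2 ^ (k + 1) / N ^ e i`; `W = 2 ^ (C₄ * T + C₄ + 6)` (`k ≤ C₄ (t + 1) ≤ C₄ (T + 1)`).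
Let `C₁` be the constant of `shell_one`, `E = max e l`, and with `a = 64 (C₁ + 1) (C₄ + 1) (E + 1)`: `R = 2 ^ (8 (k / a))`, `S = 2 ^ (k / a)`, `m = k / 2`, `K = KK (N ^ e i) m Q q` (`q K ≤ N ^ e i / 2 ^ m`):
`R ^ C₁ ≤ 2 ^ (8 C₁ k / a) ≤ 2 ^ t` because `8 C₁ k ≤ 8 C₁ C₄ (t + 1) ≤ 16 C₁ C₄ t ≤ a t`, so every `r ≤ R ^ C₁` divides `q` (`dvd_QB`); `8 R ^ (2 C₁) (2 S) ^ e i ≤ 2 ^ (3 + 16 C₁ k / a + E + E k / a) ≤ 2 ^ m` for `k ≥ C`;
`η = 2 ^ (κ + 4) / S + small ≤ 2 ^ (κ + 5) / S` (`lam l N ^ e l / S ≤ 8 * 2 ^ κ / S`), so `η ^ 2 ≤ C' 2 ^ (2 κ) / S ^ 2 ≤ C' / S` if `k / a ≥ 2 κ`, i.e. for `C (κ + 1) ≤ k`. `shell_one`, sum over `j`, `en_shell`: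
`∑_j ≤ C' (S ^ 2 / R + 1 / S) + C' S ^ 2 2 ^ m / 2 ^ k + ∑_j τ_j`, the first two are `≤ C'' 2 ^ (- k / a)`, and `τ_j ≤ N j ^ (- 1 / C₁) ≤ 2 ^ (- j / C₁)` with `j ≥ 4 ^ t` (`t ≤ tj j`), `∑_j τ_j ≤ C'' 2 ^ (- 4 ^ t / C₁) ≤ C''' 2 ^ (- k / C''')`.
-/

set_option autoImplicit false

open Finset Polynomial

namespace Pool.Agent.EQD.G

open Pool.Agent.HLT Pool.Agent.NLT Pool.Agent.NLG

namespace TPsAux

open PcSAux

/-- Sum of powers with rounded exponents. -/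
theorem sum_floor (c : ℕ) (hc : 1 ≤ c) (s : Finset ℕ) : ∑ j ∈ s, (1 / 2 : ℝ) ^ (j / c) ≤ 2 * c := by
  classical
  have h1 : ∀ n : ℕ, ∑ j ∈ range (c * n), (1 / 2 : ℝ) ^ (j / c) = 2 * c - 2 * c * (1 / 2) ^ n := by
    intro n
    induction n with
    | zero => simp
    | succ n ih =>
      rw [Nat.mul_succ, sum_range_add, ih]
      have h2 : ∑ x ∈ range c, (1 / 2 : ℝ) ^ ((c * n + x) / c) = ∑ _x ∈ range c, (1 / 2 : ℝ) ^ n := by
        refine sum_congr rfl fun x hx => ?_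
        rw [Nat.mul_add_div (by omega), Nat.div_eq_of_lt (mem_range.1 hx), add_zero]
      rw [h2, sum_const, card_range, nsmul_eq_mul, pow_succ]
      ring
  obtain ⟨n, hn⟩ : ∃ n, s ⊆ range (c * n) := ⟨s.sup id + 1, fun j hj => by
    have h3 : j ≤ s.sup id := le_sup (f := id) hj
    rw [mem_range]
    calc j < s.sup id + 1 := by omega
      _ ≤ c * (s.sup id + 1) := Nat.le_mul_of_pos_left _ (by omega)⟩
  refine (sum_le_sum_of_subset_of_nonneg hn (fun _ _ _ => by positivity)).trans ?_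
  rw [h1]
  have h4 : 0 ≤ 2 * (c : ℝ) * (1 / 2) ^ n := by positivity
  linarith

theorem tau_le {c j N : ℕ} {τ : ℝ} (hc : 1 ≤ c) (hN : 2 ^ j ≤ N) (h : τ ^ c * N ≤ 1) :
    τ ≤ (1 / 2 : ℝ) ^ (j / c) := by
  by_contra hlt
  rw [not_le] at hlt
  have h1 : ((1 / 2 : ℝ) ^ (j / c)) ^ c < τ ^ c := pow_lt_pow_left₀ hlt (by positivity) (by omega)
  have h2 : (1 / 2 : ℝ) ^ j ≤ ((1 / 2 : ℝ) ^ (j / c)) ^ c := by
    rw [← pow_mul]
    exact pow_le_pow_of_le_one (by norm_num) (by norm_num) (Nat.div_mul_le_self j c)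
  have h3 : (2 : ℝ) ^ j ≤ N := by exact_mod_cast hN
  have h3' : (0 : ℝ) < N := lt_of_lt_of_le (by positivity) h3
  have h4 : (1 : ℝ) ≤ (1 / 2) ^ j * N := by
    calc (1 : ℝ) = (1 / 2) ^ j * 2 ^ j := by
          rw [← mul_pow]
          norm_num
      _ ≤ (1 / 2) ^ j * N := mul_le_mul_of_nonneg_left h3 (by positivity)
  have h5 : (1 / 2 : ℝ) ^ j * N < τ ^ c * N := mul_lt_mul_of_pos_right (h2.trans_lt h1) h3'
  linarith

theorem nums {C₁ C₄ E a k t u κ : ℕ} (ha : a = 64 * (C₁ + 1) * (C₄ + 1) * (E + 1)) (hu : u = k / a)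
    (hk1 : 2 * a * (κ + 1) ≤ k) (hk2 : k ≤ C₄ * (t + 1)) (ht : 1 ≤ t) :
    2 * (κ + 1) ≤ u ∧ 8 * C₁ * u ≤ t ∧ 3 + 16 * C₁ * u + E + E * u ≤ k / 2 ∧ 3 * u ≤ k / 2 ∧
      (1 + 8 * C₁) * u ≤ k := by
  have ha1 : 64 * ((C₁ + 1) * (E + 1)) ≤ a := by
    rw [ha]
    calc 64 * ((C₁ + 1) * (E + 1)) ≤ 64 * ((C₁ + 1) * (E + 1)) * (C₄ + 1) :=
          Nat.le_mul_of_pos_right _ (by omega)
      _ = 64 * (C₁ + 1) * (C₄ + 1) * (E + 1) := by ring
  have ha2 : 64 * ((C₁ + 1) * (C₄ + 1)) ≤ a := by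
    rw [ha]
    calc 64 * ((C₁ + 1) * (C₄ + 1)) ≤ 64 * ((C₁ + 1) * (C₄ + 1)) * (E + 1) :=
          Nat.le_mul_of_pos_right _ (by omega)
      _ = 64 * (C₁ + 1) * (C₄ + 1) * (E + 1) := by ring
  have ha3 : 64 * (C₁ + E + 1) ≤ a := by
    refine le_trans ?_ ha1
    nlinarith [Nat.zero_le (C₁ * E)]
  have ha4 : 64 * (C₁ * C₄) ≤ a := by
    refine le_trans ?_ ha2
    nlinarith
  have ha0 : 0 < a := by omega
  have hau : a * u ≤ k := by
    rw [hu]
    exact Nat.mul_div_le k a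
  have hu1 : 2 * (κ + 1) ≤ u := by
    rw [hu, Nat.le_div_iff_mul_le ha0]
    calc 2 * (κ + 1) * a = 2 * a * (κ + 1) := by ring
      _ ≤ k := hk1
  have hu2 : 1 ≤ u := by omega
  have hb : 64 * (C₁ + E + 1) * u ≤ k := (Nat.mul_le_mul_right u ha3).trans hau
  have hb' : 64 * (C₁ * u) + 64 * (E * u) + 64 * u ≤ k := by
    calc 64 * (C₁ * u) + 64 * (E * u) + 64 * u = 64 * (C₁ + E + 1) * u := by ring
      _ ≤ k := hb
  have hE : E ≤ E * u := Nat.le_mul_of_pos_right _ (by omega)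
  refine ⟨hu1, ?_, ?_, ?_, ?_⟩
  · refine Nat.le_of_mul_le_mul_left ?_ ha0
    calc a * (8 * C₁ * u) = 8 * C₁ * (a * u) := by ring
      _ ≤ 8 * C₁ * (C₄ * (t + 1)) := Nat.mul_le_mul_left _ (hau.trans hk2)
      _ ≤ 8 * C₁ * (C₄ * (2 * t)) := Nat.mul_le_mul_left _ (Nat.mul_le_mul_left _ (by omega))
      _ = 16 * (C₁ * C₄) * t := by ring
      _ ≤ a * t := Nat.mul_le_mul_right _ (by omega)
  · have e1 : 16 * C₁ * u = 16 * (C₁ * u) := by ring
    rw [e1]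
    omega
  · omega
  · have e1 : (1 + 8 * C₁) * u = u + 8 * (C₁ * u) := by ring
    rw [e1]
    omega

/-- Length of the progression against its size. -/
theorem len_le {X κ QT : ℕ} (hQT : 1 ≤ QT) (hX : 2 ^ κ * QT ≤ X) :
    X ≤ 2 * (X / 2 ^ κ / QT * QT * 2 ^ κ) ∧ QT ≤ X / 2 ^ κ ∧ QT ≤ X / 2 ^ κ / QT * QT := by
  have h1 : QT ≤ X / 2 ^ κ := by
    rw [Nat.le_div_iff_mul_le (by positivity)]
    calc QT * 2 ^ κ = 2 ^ κ * QT := by ring
      _ ≤ X := hX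
  refine ⟨?_, h1, ?_⟩
  · have h2 := le_KK (κ := κ) (dvd_refl QT) hQT hX
    rwa [KK_mul (dvd_refl QT), ← Nat.div_div_eq_div_mul] at h2
  · exact Nat.le_mul_of_pos_left _ (Nat.div_pos h1 hQT)

theorem lam_le {X κ L : ℕ} (hL : 1 ≤ L) (hX : X ≤ 2 * (L * 2 ^ κ)) (hX0 : 1 ≤ X) :
    (2 : ℝ) / L ≤ 4 * 2 ^ κ / X := by
  have hL0 : (0 : ℝ) < L := by exact_mod_cast hL
  have hX1 : (0 : ℝ) < X := by exact_mod_cast hX0
  have h : (X : ℝ) ≤ ((2 * (L * 2 ^ κ) : ℕ) : ℝ) := by exact_mod_cast hX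
  push_cast at h
  rw [div_le_div_iff₀ hL0 hX1]
  linarith

end TPsAux

open TPsAux PcSAux

theorem piece_shell {n : ℕ} {P : Fin n → ℤ[X]} {e : Fin n → ℕ} {i₀ : Fin n} (h : GDeg P e i₀) (C₄ : ℕ) : ∃ C : ℕ, 1 ≤ C ∧
    ∀ (M : ℕ) [NeZero M] (N : ℕ → ℕ), Sc N → ∀ (B t k κ : ℕ) (s : Finset ℕ) (i : Fin n) (w : ℕ → Fin n → ℕ), 1 ≤ B → 1 ≤ t →
      C * (κ + 1) ≤ k → k ≤ C₄ * (t + 1) →
      (∀ j ∈ s, t ≤ tj j ∧ QB B (tj j) ∣ M ∧ (QB B (tj j) * 2 ^ (C₄ * tj j + C)) ^ C ≤ 2 ^ j ∧ (∀ l, w j l ≤ C₄ * tj j) ∧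
        ∀ l, (P i).natDegree < (P l).natDegree → w j l ≤ κ) →
      ∀ f : Fin n → ZMod M → ℂ, (∀ l, Bd (f l)) →
      ∑ j ∈ s, n2 (AA (N j) P (Function.update (fun l => Ew B (tj j) (tj j) (N j ^ e l / 2 ^ w j l) (f l)) i
        (fun x => Ew B t (tj j) (N j ^ e i / 2 ^ (k + 1)) (f i) x - Ew B t (tj j) (N j ^ e i / 2 ^ k) (f i) x))) ≤ C / 2 ^ (k / C) := by
  classical
  obtain ⟨C₁, N₀, hC₁, hsh⟩ := shell_one h
  have hen := fun i => en_shell (e i) (h.pos i)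
  choose G hG hen using hen
  set C₂ : ℕ := ∑ i, G i with hC₂
  have hGC : ∀ i, G i ≤ C₂ := fun i => single_le_sum (f := G) (fun _ _ => Nat.zero_le _) (mem_univ i)
  set E : ℕ := ∑ l, e l with hE
  have heE : ∀ l, e l ≤ E := fun l => single_le_sum (f := e) (fun _ _ => Nat.zero_le _) (mem_univ l)
  set a : ℕ := 64 * (C₁ + 1) * (C₄ + 1) * (E + 1) with ha
  have ha0 : 0 < a := by positivity
  refine ⟨2 * a + 66 * C₁ * C₂ + 4 * C₁ + C₄ + N₀ + 6, by omega, ?_⟩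
  set C : ℕ := 2 * a + 66 * C₁ * C₂ + 4 * C₁ + C₄ + N₀ + 6 with hC
  intro M _ N hN B t k κ s i w hB ht hk1 hk2 hs f hf
  set u : ℕ := k / a with hu
  have hk1' : 2 * a * (κ + 1) ≤ k := le_trans (Nat.mul_le_mul_right _ (by omega)) hk1
  obtain ⟨hu1, hu2, hu3, hu4, hu5⟩ := nums ha hu hk1' hk2 ht
  set m : ℕ := k / 2 with hm
  set q : ℕ := QB B t with hq
  have hq1 : 1 ≤ q := QB_pos B t
  have hN1 : ∀ j, 1 ≤ N j := fun j => (Nat.one_le_two_pow).trans (hN j).1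
  have hXN : ∀ j l, N j ≤ N j ^ e l := by
    intro j l
    calc N j = N j ^ 1 := (pow_one _).symm
      _ ≤ N j ^ e l := Nat.pow_le_pow_right (hN1 j) (h.pos l)
  -- sizes
  have hpow : ∀ j ∈ s, ∀ x c, c ≤ C → x ≤ C₄ * tj j + C → (QB B (tj j) * 2 ^ x) ^ c ≤ N j := by
    intro j hj x c hc hx
    have h0 : 1 ≤ QB B (tj j) * 2 ^ (C₄ * tj j + C) := Nat.mul_pos (QB_pos B _) (by positivity)
    calc (QB B (tj j) * 2 ^ x) ^ c ≤ (QB B (tj j) * 2 ^ (C₄ * tj j + C)) ^ c :=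
          Nat.pow_le_pow_left (Nat.mul_le_mul_left _ (Nat.pow_le_pow_right (by norm_num) hx)) c
      _ ≤ (QB B (tj j) * 2 ^ (C₄ * tj j + C)) ^ C := Nat.pow_le_pow_right h0 hc
      _ ≤ 2 ^ j := (hs j hj).2.2.1
      _ ≤ N j := (hN j).1
  have hpow1 : ∀ j ∈ s, ∀ x, x ≤ C₄ * tj j + C → 2 ^ x * QB B (tj j) ≤ N j := by
    intro j hj x hx
    have h0 := hpow j hj x 1 (by omega) hx
    rwa [pow_one, mul_comm] at h0
  have hpow2 : ∀ j ∈ s, ∀ x, x ≤ C₄ * tj j + C → 2 ^ x ≤ N j := by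
    intro j hj x hx
    exact (Nat.le_mul_of_pos_right _ (QB_pos B _)).trans (hpow1 j hj x hx)
  have hkT : ∀ j ∈ s, k ≤ C₄ * tj j + C₄ := by
    intro j hj
    calc k ≤ C₄ * (t + 1) := hk2
      _ ≤ C₄ * (tj j + 1) := Nat.mul_le_mul_left _ (by have := (hs j hj).1; omega)
      _ = C₄ * tj j + C₄ := by ring
  have hS0 : (0 : ℝ) < 2 ^ u := by positivity
  -- one scale
  have key : ∀ j ∈ s, ∃ τ : ℝ, τ ≤ (1 / 2 : ℝ) ^ (j / C₁) ∧
      n2 (AA (N j) P (Function.update (fun l => Ew B (tj j) (tj j) (N j ^ e l / 2 ^ w j l) (f l)) i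
        (fun x => Ew B t (tj j) (N j ^ e i / 2 ^ (k + 1)) (f i) x -
          Ew B t (tj j) (N j ^ e i / 2 ^ k) (f i) x))) ≤
      C₁ * (((2 ^ u : ℕ) : ℝ) ^ 2 / ((2 ^ (8 * u) : ℕ) : ℝ) + (8 * 2 ^ κ / 2 ^ u) ^ 2) *
        n2 (fun x => Ew B t (tj j) (N j ^ e i / 2 ^ (k + 1)) (f i) x -
          Ew B t (tj j) (N j ^ e i / 2 ^ k) (f i) x) +
      C₁ * ((2 ^ u : ℕ) : ℝ) ^ 2 * n2 (Eb q (KK (N j ^ e i) m (QB B (tj j)) q)
        (fun x => Ew B t (tj j) (N j ^ e i / 2 ^ (k + 1)) (f i) x -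
          Ew B t (tj j) (N j ^ e i / 2 ^ k) (f i) x)) + τ := by
    intro j hj
    obtain ⟨htj, hQM, -, hw1, hw2⟩ := hs j hj
    set T := tj j with hT
    set Q := QB B T with hQ
    have hQ1 : 1 ≤ Q := QB_pos B T
    have hqQ : q ∣ Q := QB_dvd B t T htj
    have hkT' : k ≤ C₄ * T + C₄ := hkT j hj
    have hN0 : (0 : ℝ) < N j := by exact_mod_cast hN1 j
    have hX0 : ∀ l, 1 ≤ N j ^ e l := fun l => (hN1 j).trans (hXN j l)
    have hbig : ∀ x, x ≤ C₄ * T + C → ∀ l, 2 ^ x * Q ≤ N j ^ e l := fun x hx l =>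
      (hpow1 j hj x hx).trans (hXN j l)
    have hlenw : ∀ l, N j ^ e l ≤ 2 * (N j ^ e l / 2 ^ w j l / Q * Q * 2 ^ w j l) ∧
        Q ≤ N j ^ e l / 2 ^ w j l ∧ Q ≤ N j ^ e l / 2 ^ w j l / Q * Q := fun l =>
      len_le hQ1 (hbig _ (by have := hw1 l; omega) l)
    have hlen1 := len_le hQ1 (hbig (k + 1) (by omega) i)
    have hlen0 := len_le hQ1 (hbig k (by omega) i)
    -- the functions
    set V : Fin n → ZMod M → ZMod M → ℂ := Function.update
      (fun l => mU Q (N j ^ e l / 2 ^ w j l / Q * Q) 0 (f l)) i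
      (fun z y => mU q (N j ^ e i / 2 ^ (k + 1) / Q * Q) 0 (f i) z y -
        mU q (N j ^ e i / 2 ^ k / Q * Q) 0 (f i) z y) with hV
    set lam : Fin n → ℝ := Function.update (fun l => 4 * 2 ^ w j l / (N j : ℝ) ^ e l) i
      (16 * 2 ^ k / (N j : ℝ) ^ e i) with hlam
    have hVi : V i = fun z y => mU q (N j ^ e i / 2 ^ (k + 1) / Q * Q) 0 (f i) z y -
        mU q (N j ^ e i / 2 ^ k / Q * Q) 0 (f i) z y := by
      rw [hV, Function.update_self]
    have hVl : ∀ l, l ≠ i → V l = mU Q (N j ^ e l / 2 ^ w j l / Q * Q) 0 (f l) := fun l hl => by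
      rw [hV, Function.update_of_ne hl]
    have hlami : lam i = 16 * 2 ^ k / (N j : ℝ) ^ e i := by
      rw [hlam, Function.update_self]
    have hlaml : ∀ l, l ≠ i → lam l = 4 * 2 ^ w j l / (N j : ℝ) ^ e l := fun l hl => by
      rw [hlam, Function.update_of_ne hl]
    have hdiag : (fun x => V i x x) = fun x => Ew B t T (N j ^ e i / 2 ^ (k + 1)) (f i) x -
        Ew B t T (N j ^ e i / 2 ^ k) (f i) x := by
      funext x
      rw [hVi, Ew_mU B t T _ htj hQM hlen1.2.1, Ew_mU B t T _ htj hQM hlen0.2.1]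
    have hall : (fun l x' => V l x' x') = Function.update
        (fun l => Ew B T T (N j ^ e l / 2 ^ w j l) (f l)) i
        (fun x => Ew B t T (N j ^ e i / 2 ^ (k + 1)) (f i) x -
          Ew B t T (N j ^ e i / 2 ^ k) (f i) x) := by
      funext l
      by_cases hl : l = i
      · subst hl
        rw [Function.update_self]
        exact hdiag
      · rw [Function.update_of_ne hl, hVl l hl]
        funext x
        rw [Ew_mU B T T _ le_rfl hQM (hlenw l).2.1]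
    have hSw : ∀ l, Sw Q 4 (lam l) (V l) := by
      intro l
      by_cases hl : l = i
      · subst hl
        rw [hVi, hlami]
        have a1 := sw_mU hq1 hqQ hQ1 hQM hlen1.2.2 (f l) (hf l)
        have a2 := sw_mU hq1 hqQ hQ1 hQM hlen0.2.2 (f l) (hf l)
        have b1 := lam_le (hQ1.trans hlen1.2.2) hlen1.1 (hX0 l)
        have b2 := lam_le (hQ1.trans hlen0.2.2) hlen0.1 (hX0 l)
        refine sw_mono (sw_sub a1 a2) (by norm_num) ((add_le_add b1 b2).trans ?_)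
        have hX1 : (0 : ℝ) < ((N j ^ e l : ℕ) : ℝ) := by exact_mod_cast hX0 l
        rw [← add_div, ← Nat.cast_pow]
        refine div_le_div_of_nonneg_right ?_ hX1.le
        rw [pow_succ]
        have : (0 : ℝ) < 2 ^ k := by positivity
        linarith
      · rw [hVl l hl, hlaml l hl]
        have a1 := sw_mU hQ1 (dvd_refl Q) hQ1 hQM (hlenw l).2.2 (f l) (hf l)
        have b1 := lam_le (hQ1.trans (hlenw l).2.2) (hlenw l).1 (hX0 l)
        rw [Nat.cast_pow] at b1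
        exact sw_mono a1 (by norm_num) b1
    -- application of the one-scale inequality
    have hcall : ∃ τ : ℝ, 0 ≤ τ ∧ τ ^ C₁ * (N j : ℝ) ≤ 1 ∧
        n2 (AA (N j) P (fun l x' => V l x' x')) ≤
          C₁ * (((2 ^ u : ℕ) : ℝ) ^ 2 / ((2 ^ (8 * u) : ℕ) : ℝ) + (8 * 2 ^ κ / 2 ^ u) ^ 2) *
            n2 (fun x => V i x x) +
          C₁ * ((2 ^ u : ℕ) : ℝ) ^ 2 * n2 (Eb q (KK (N j ^ e i) m Q q) (fun x => V i x x)) + τ := by
      refine hsh M (N j) Q (2 ^ (C₄ * T + C₄ + 6)) (2 ^ (8 * u)) (2 ^ u) q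
        (KK (N j ^ e i) m Q q) i lam V (8 * 2 ^ κ / 2 ^ u) ?_ hQ1 hQM ?_ ?_ ?_ hSw ?_ ?_ ?_ ?_ hq1 ?_ ?_
        ?_ ?_ ?_ ?_
      · -- N₀ ≤ N j
        calc N₀ ≤ C := by omega
          _ ≤ 2 ^ C := Nat.lt_two_pow_self.le
          _ ≤ N j := hpow2 j hj C (by omega)
      · exact Nat.one_le_two_pow
      · exact hpow j hj (C₄ * T + C₄ + 6) C₁ (by omega) (by show C₄ * T + C₄ + 6 ≤ C₄ * T + C; omega)
      · intro l
        push_cast
        by_cases hl : l = i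
        · subst hl
          rw [hlami]
          refine ⟨by positivity, ?_⟩
          rw [div_mul_cancel₀ _ (by positivity)]
          calc (16 : ℝ) * 2 ^ k = 2 ^ (k + 4) := by
                rw [pow_add]
                norm_num
                ring
            _ ≤ 2 ^ (C₄ * T + C₄ + 6) := pow_le_pow_right₀ (by norm_num) (by omega)
        · rw [hlaml l hl]
          refine ⟨by positivity, ?_⟩
          rw [div_mul_cancel₀ _ (by positivity)]
          calc (4 : ℝ) * 2 ^ w j l = 2 ^ (w j l + 2) := by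
                rw [pow_add]
                norm_num
                ring
            _ ≤ 2 ^ (C₄ * T + C₄ + 6) :=
                pow_le_pow_right₀ (by norm_num) (by have := hw1 l; omega)
      · -- 2 ≤ R
        calc 2 = 2 ^ 1 := rfl
          _ ≤ 2 ^ (8 * u) := Nat.pow_le_pow_right (by norm_num) (by omega)
      · exact Nat.one_le_two_pow
      · -- S ^ C₁ ≤ N
        rw [← pow_mul]
        refine hpow2 j hj _ (show _ ≤ C₄ * T + C from ?_)
        have e1 : (1 + 8 * C₁) * u = u + 8 * (u * C₁) := by ring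
        rw [e1] at hu5
        omega
      · -- 2 S R ^ C₁ ≤ N
        have e0 : 2 * 2 ^ u * (2 ^ (8 * u)) ^ C₁ = 2 ^ (1 + u + 8 * u * C₁) := by
          rw [← pow_mul, pow_add, pow_add, pow_one]
        rw [e0]
        refine hpow2 j hj _ (show _ ≤ C₄ * T + C from ?_)
        have e1 : (1 + 8 * C₁) * u = u + 8 * u * C₁ := by ring
        rw [e1] at hu5
        omega
      · -- 1 ≤ K
        have hk := le_KK (κ := m) hqQ hQ1 (hbig m (by omega) i)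
        by_contra hc
        have hz : KK (N j ^ e i) m Q q = 0 := by omega
        rw [hz, Nat.mul_zero, Nat.zero_mul, Nat.mul_zero] at hk
        have := hX0 i
        omega
      · intro z y
        have hqM : q ∣ M := hqQ.trans hQM
        rw [hVi]
        simp only
        rw [mU_per q _ hq1 hqM, mU_per q _ hq1 hqM]
      · intro r hr1 hr2
        refine dvd_QB B t r hB ht hr1 (hr2.trans ?_)
        rw [← pow_mul]
        refine Nat.pow_le_pow_right (by norm_num) ?_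
        calc 8 * u * C₁ = 8 * C₁ * u := by ring
          _ ≤ t := hu2
      · -- the length condition
        have hle := KK_le (X := N j ^ e i) (κ := m) hqQ
        have e0 : 8 * (2 ^ (8 * u)) ^ (2 * C₁) * (2 * 2 ^ u) ^ e i =
            2 ^ (3 + 16 * C₁ * u + e i + e i * u) := by
          rw [← pow_mul, mul_pow, ← pow_mul, pow_add, pow_add, pow_add]
          have e1 : 8 * u * (2 * C₁) = 16 * C₁ * u := by ring
          rw [e1, mul_comm u (e i)]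
          ring
        have e2 : 3 + 16 * C₁ * u + e i + e i * u ≤ m := by
          refine le_trans ?_ hu3
          have h1 := heE i
          have h2 : e i * u ≤ E * u := Nat.mul_le_mul_right u h1
          omega
        calc 8 * (q * KK (N j ^ e i) m Q q) * (2 ^ (8 * u)) ^ (2 * C₁) * (2 * 2 ^ u) ^ e i =
              (q * KK (N j ^ e i) m Q q) * (8 * (2 ^ (8 * u)) ^ (2 * C₁) * (2 * 2 ^ u) ^ e i) := by ring
          _ ≤ (q * KK (N j ^ e i) m Q q) * 2 ^ m := by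
              rw [e0]
              exact Nat.mul_le_mul_left _ (Nat.pow_le_pow_right (by norm_num) e2)
          _ ≤ N j ^ e i := hle
      · positivity
      · intro l hl
        have hne : l ≠ i := by
          rintro rfl
          exact lt_irrefl _ hl
        rw [hlaml l hne]
        push_cast
        have hwκ := hw2 l hl
        have hNe : (0 : ℝ) < (N j : ℝ) ^ e l := by positivity
        have h1 : (2 : ℝ) ^ w j l ≤ 2 ^ κ := pow_le_pow_right₀ (by norm_num) hwκ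
        have h2 : (Q : ℝ) ≤ (N j : ℝ) ^ e l / 2 ^ u := by
          rw [le_div_iff₀ hS0]
          have h3 : 2 ^ u * Q ≤ N j ^ e l := hbig u (by omega) l
          have h4 : (((2 ^ u * Q : ℕ)) : ℝ) ≤ ((N j ^ e l : ℕ) : ℝ) := by exact_mod_cast h3
          push_cast at h4
          linarith
        calc 4 * 2 ^ w j l / (N j : ℝ) ^ e l * ((N j : ℝ) ^ e l / 2 ^ u + Q) ≤
              4 * 2 ^ κ / (N j : ℝ) ^ e l * ((N j : ℝ) ^ e l / 2 ^ u + (N j : ℝ) ^ e l / 2 ^ u) := by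
              gcongr
          _ = 8 * 2 ^ κ / 2 ^ u := by
              field_simp
              ring
    obtain ⟨τ, hτ0, hτ1, hτ2⟩ := hcall
    refine ⟨τ, tau_le hC₁ (hN j).1 hτ1, ?_⟩
    rw [hall, hdiag] at hτ2
    exact hτ2
  choose! τ hτ1 hτ2 using key
  have hCi := hen i M N hN B t k m s hB ht (by omega) (fun j hj => ⟨(hs j hj).1, ?_⟩) (f i) (hf i)
  · -- the sum over the scales
    obtain ⟨hX, hY⟩ := hCi
    refine (sum_le_sum hτ2).trans ?_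
    rw [sum_add_distrib, sum_add_distrib, ← mul_sum, ← mul_sum]
    have hG0 : (G i : ℝ) ≤ C₂ := by exact_mod_cast hGC i
    have hCC : (0 : ℝ) ≤ C₂ := Nat.cast_nonneg _
    have hC10 : (0 : ℝ) ≤ C₁ := Nat.cast_nonneg _
    have b1 : ((2 ^ u : ℕ) : ℝ) ^ 2 / ((2 ^ (8 * u) : ℕ) : ℝ) ≤ 1 / 2 ^ u := by
      push_cast
      rw [div_le_div_iff₀ (by positivity) hS0, ← pow_mul, ← pow_add, one_mul]
      exact pow_le_pow_right₀ (by norm_num) (by omega)
    have b2 : ((8 : ℝ) * 2 ^ κ / 2 ^ u) ^ 2 ≤ 64 * (1 / 2 ^ u) := by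
      have h1 : ((2 : ℝ) ^ κ) ^ 2 ≤ 2 ^ u := by
        rw [← pow_mul]
        exact pow_le_pow_right₀ (by norm_num) (by omega)
      calc ((8 : ℝ) * 2 ^ κ / 2 ^ u) ^ 2 = 64 * ((2 ^ κ) ^ 2 / (2 ^ u * 2 ^ u)) := by
            field_simp
            ring
        _ ≤ 64 * (2 ^ u / (2 ^ u * 2 ^ u)) := by gcongr
        _ = 64 * (1 / 2 ^ u) := by
            field_simp
    have b3 : ((2 ^ u : ℕ) : ℝ) ^ 2 * ((2 : ℝ) ^ m / 2 ^ k) ≤ 1 / 2 ^ u := by
      push_cast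
      rw [← mul_div_assoc, div_le_div_iff₀ (by positivity) hS0, ← pow_mul, ← pow_add, ← pow_add,
        one_mul]
      exact pow_le_pow_right₀ (by norm_num) (by omega)
    have b4 : ∑ j ∈ s, τ j ≤ 4 * C₁ * (1 / 2 ^ u) := by
      have h1 : ∀ j ∈ s, τ j ≤ (1 / 2 : ℝ) ^ u * (1 / 2) ^ (j / (2 * C₁)) := by
        intro j hj
        refine (hτ1 j hj).trans ?_
        rw [← pow_add]
        refine pow_le_pow_of_le_one (by norm_num) (by norm_num) ?_
        have h2 : j / (2 * C₁) = j / C₁ / 2 := by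
          rw [mul_comm, Nat.div_div_eq_div_mul]
        have h3 : u ≤ j / (2 * C₁) := by
          rw [Nat.le_div_iff_mul_le (by omega)]
          have h4 : t ≤ j := by
            have h5 := (hs j hj).1
            unfold tj at h5
            have h6 := Nat.log_le_self 2 j
            omega
          have h7 : u * (2 * C₁) ≤ 8 * C₁ * u := by
            calc u * (2 * C₁) = 2 * (C₁ * u) := by ring
              _ ≤ 8 * (C₁ * u) := by omega
              _ = 8 * C₁ * u := by ring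
          omega
        rw [h2] at h3 ⊢
        omega
      refine (sum_le_sum h1).trans ?_
      rw [← mul_sum]
      have h8 := sum_floor (2 * C₁) (by omega) s
      calc (1 / 2 : ℝ) ^ u * ∑ j ∈ s, (1 / 2 : ℝ) ^ (j / (2 * C₁)) ≤
            (1 / 2 : ℝ) ^ u * (2 * ((2 * C₁ : ℕ) : ℝ)) :=
            mul_le_mul_of_nonneg_left h8 (by positivity)
        _ = 4 * C₁ * (1 / 2 ^ u) := by
            rw [one_div_pow]
            push_cast
            ring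
    have c1 : C₁ * (((2 ^ u : ℕ) : ℝ) ^ 2 / ((2 ^ (8 * u) : ℕ) : ℝ) + (8 * 2 ^ κ / 2 ^ u) ^ 2) *
        ∑ j ∈ s, n2 (fun x => Ew B t (tj j) (N j ^ e i / 2 ^ (k + 1)) (f i) x -
          Ew B t (tj j) (N j ^ e i / 2 ^ k) (f i) x) ≤ C₁ * (65 * (1 / 2 ^ u)) * C₂ := by
      refine mul_le_mul ?_ (hX.trans hG0) (sum_nonneg fun _ _ => n2_nonneg _) (by positivity)
      exact mul_le_mul_of_nonneg_left (by linarith) hC10
    have c2 : C₁ * ((2 ^ u : ℕ) : ℝ) ^ 2 * ∑ j ∈ s, n2 (Eb q (KK (N j ^ e i) m (QB B (tj j)) q)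
        (fun x => Ew B t (tj j) (N j ^ e i / 2 ^ (k + 1)) (f i) x -
          Ew B t (tj j) (N j ^ e i / 2 ^ k) (f i) x)) ≤ C₁ * C₂ * (1 / 2 ^ u) := by
      have h1 : (G i : ℝ) * ((2 : ℝ) ^ m / 2 ^ k) ≤ C₂ * (2 ^ m / 2 ^ k) :=
        mul_le_mul_of_nonneg_right hG0 (by positivity)
      calc _ ≤ C₁ * ((2 ^ u : ℕ) : ℝ) ^ 2 * (C₂ * (2 ^ m / 2 ^ k)) :=
            mul_le_mul_of_nonneg_left (hY.trans h1) (by positivity)
        _ = C₁ * C₂ * (((2 ^ u : ℕ) : ℝ) ^ 2 * (2 ^ m / 2 ^ k)) := by ring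
        _ ≤ C₁ * C₂ * (1 / 2 ^ u) := mul_le_mul_of_nonneg_left b3 (by positivity)
    have c3 : (66 * C₁ * C₂ + 4 * C₁ : ℝ) ≤ C := by
      have h1 : 66 * C₁ * C₂ + 4 * C₁ ≤ C := by omega
      exact_mod_cast h1
    have c4 : (1 : ℝ) / 2 ^ u ≤ 1 / 2 ^ (k / C) := by
      refine one_div_le_one_div_of_le (by positivity) (pow_le_pow_right₀ (by norm_num) ?_)
      exact Nat.div_le_div_left (by omega) ha0
    calc _ ≤ (C₁ : ℝ) * (65 * (1 / 2 ^ u)) * C₂ + C₁ * C₂ * (1 / 2 ^ u) + 4 * C₁ * (1 / 2 ^ u) :=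
          add_le_add (add_le_add c1 c2) b4
      _ = (66 * C₁ * C₂ + 4 * C₁ : ℝ) * (1 / 2 ^ u) := by ring
      _ ≤ (C : ℝ) * (1 / 2 ^ (k / C)) := mul_le_mul c3 c4 (by positivity) (Nat.cast_nonneg _)
      _ = C / 2 ^ (k / C) := by ring
  · -- the size condition of the energies
    have h1 := hpow j hj (k + 3) 2 (by omega) (by have := hkT j hj; omega)
    calc 2 ^ (k + 3) * QB B (tj j) ^ 2 ≤ (2 ^ (k + 3)) ^ 2 * QB B (tj j) ^ 2 :=
          Nat.mul_le_mul_right _ (Nat.le_self_pow (by norm_num) _)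
      _ = (QB B (tj j) * 2 ^ (k + 3)) ^ 2 := by ring
      _ ≤ N j := h1

end Pool.Agent.EQD.G
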