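import Pool.Agent.Lib.EQG.MWin
import Pool.Agent.Lib.EQG.MBlkA
import Pool.Agent.Lib.EQD.NSb

/-!
# Module TReal: the real-scale gain in a slot `i`, slowly varying functions in the slots of higher degree

PROOF. `F = cv β F + Eb q K F`, `β = dlt - bk q K` (`cv_sub`, `cv_bk`). Let `S` blocks, `m_b = b N / S`, `b = 0, .., S`. Let `g' l = g l` for `deg (P l) ≤ deg (P i)`, `g' l = 1` for the higher slots, and let `A_m = AA m P (update g' i F)`.
For `m` in the block `[m_b, m_(b+1))` and a higher slot `l` (there `e l = deg (P l)`, `h.top`): `|P l m - P l m_b| ≤ 2 C₀ N ^ (e l) / S` (mean value estimate, as `BlkAAux.eval_diff`), so `g l (x + P l m)` may be replaced by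
`g l (x + P l m_b)` with the error `≤ lam l (2 C₀ N ^ (e l) / S + Q) ≤ 2 C₀ η` (`hη`). After these replacements the sum over the block is (a product of numbers of absolute value `≤ 1`) `*` `(m_(b+1) A_(m_(b+1)) x - m_b A_(m_b) x)`.
Hence `‖AA N P (update g i F) x‖ ≤ 2 ∑_{b=1}^{S} ‖A_(m_b) x‖ + 2 n C₀ η AR N (P i) (‖F‖) x` and `n2 ≤ 8 S ∑_b n2 (A_(m_b)) + 8 n ^ 2 C₀ ^ 2 η ^ 2 n2 F` (`n2_AR_le`). For `1 ≤ b ≤ S`: `m_b ≥ N / (2 S)`, `n2 (A_(m_b)) ≤ 2 C n2 F / R + 2 n2 (Eb q K F)`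
by `l2gain` (this class) at the scale `m_b` (`ns_box` at `L = m_b ^ e i ≥ (N / (2 S)) ^ e i`; `Supp`: `q K ≤ m_b ^ e i ≤ m_b ^ deg (P i)`; `mass β ≤ 2`) and `n2_AA_le`.
-/

set_option autoImplicit false

open Finset Polynomial

namespace Pool.Agent.EQD.G

open Pool.Agent.HLT Pool.Agent.NLT Pool.Agent.NLG

namespace TRealAux

open Pool.Agent.EQD.BlkAAux (eval_diff block_len block_end)

/-- Difference of products of numbers bounded by one. -/
theorem prod_sub {ι : Type} [DecidableEq ι] (s : Finset ι) (a b : ι → ℂ) (ha : ∀ i ∈ s, ‖a i‖ ≤ 1) (hb : ∀ i ∈ s, ‖b i‖ ≤ 1) :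
    ‖∏ i ∈ s, a i - ∏ i ∈ s, b i‖ ≤ ∑ i ∈ s, ‖a i - b i‖ := by
  induction s using Finset.induction_on with
  | empty => simp
  | insert i s hi ih =>
    rw [Finset.prod_insert hi, Finset.prod_insert hi, Finset.sum_insert hi]
    have e1 : a i * ∏ x ∈ s, a x - b i * ∏ x ∈ s, b x =
        (a i - b i) * ∏ x ∈ s, a x + b i * (∏ x ∈ s, a x - ∏ x ∈ s, b x) := by ring
    rw [e1]
    refine (norm_add_le _ _).trans (add_le_add ?_ ?_)
    · rw [norm_mul]
      refine mul_le_of_le_one_right (norm_nonneg _) ?_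
      rw [norm_prod]
      exact Finset.prod_le_one (fun _ _ => norm_nonneg _) (fun j hj => ha j (Finset.mem_insert_of_mem hj))
    · rw [norm_mul]
      exact (mul_le_of_le_one_left (norm_nonneg _) (hb i (Finset.mem_insert_self _ _))).trans
        (ih (fun j hj => ha j (Finset.mem_insert_of_mem hj)) (fun j hj => hb j (Finset.mem_insert_of_mem hj)))

/-- Splitting a sum into blocks. -/
theorem sum_blocks (f : ℕ → ℂ) (m : ℕ → ℕ) (hm : Monotone m) (S : ℕ) :
    ∑ b ∈ range S, ∑ t ∈ Ico (m b) (m (b + 1)), f t = ∑ t ∈ Ico (m 0) (m S), f t := by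
  induction S with
  | zero => simp
  | succ S ih =>
    rw [Finset.sum_range_succ, ih, Finset.sum_Ico_consecutive _ (hm (Nat.zero_le _)) (hm (Nat.le_succ _))]

theorem sum_blocks_real (f : ℕ → ℝ) (m : ℕ → ℕ) (hm : Monotone m) (S : ℕ) :
    ∑ b ∈ range S, ∑ t ∈ Ico (m b) (m (b + 1)), f t = ∑ t ∈ Ico (m 0) (m S), f t := by
  induction S with
  | zero => simp
  | succ S ih =>
    rw [Finset.sum_range_succ, ih, Finset.sum_Ico_consecutive _ (hm (Nat.zero_le _)) (hm (Nat.le_succ _))]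

/-- Abel summation over blocks. -/
theorem abel (A c : ℕ → ℂ) (m : ℕ → ℕ) (hm : Monotone m) (h0 : m 0 = 0) (S : ℕ) (δ : ℝ)
    (hA : ∀ b, b < S → ‖A (m b)‖ ≤ 1) (hd : ∀ b, b < S → ∀ t, m b ≤ t → t < m (b + 1) → ‖A t - A (m b)‖ ≤ δ) :
    ‖∑ t ∈ range (m S), A t * c t‖ ≤ 2 * ∑ b ∈ range S, ‖∑ t ∈ range (m (b + 1)), c t‖ + δ * ∑ t ∈ range (m S), ‖c t‖ := by
  have e1 : ∑ t ∈ range (m S), A t * c t = ∑ b ∈ range S, ∑ t ∈ Ico (m b) (m (b + 1)), A t * c t := by
    rw [sum_blocks _ m hm, h0, Finset.range_eq_Ico]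
  have e2 : ∑ t ∈ range (m S), ‖c t‖ = ∑ b ∈ range S, ∑ t ∈ Ico (m b) (m (b + 1)), ‖c t‖ := by
    rw [sum_blocks_real _ m hm, h0, Finset.range_eq_Ico]
  have e3 : ∀ b, ∑ t ∈ Ico (m b) (m (b + 1)), A t * c t =
      A (m b) * (∑ t ∈ range (m (b + 1)), c t - ∑ t ∈ range (m b), c t) +
        ∑ t ∈ Ico (m b) (m (b + 1)), (A t - A (m b)) * c t := by
    intro b
    rw [← Finset.sum_Ico_eq_sub _ (hm (Nat.le_succ b)), Finset.mul_sum, ← Finset.sum_add_distrib]
    exact Finset.sum_congr rfl fun t _ => by ring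
  have e4 : ∑ b ∈ range S, ‖∑ t ∈ range (m b), c t‖ ≤ ∑ b ∈ range S, ‖∑ t ∈ range (m (b + 1)), c t‖ := by
    have h1 := Finset.sum_range_succ' (fun b => ‖∑ t ∈ range (m b), c t‖) S
    have h2 := Finset.sum_range_succ (fun b => ‖∑ t ∈ range (m b), c t‖) S
    have h3 : ‖∑ t ∈ range (m 0), c t‖ = 0 := by rw [h0]; simp
    have h4 := norm_nonneg (∑ t ∈ range (m S), c t)
    linarith
  rw [e1, e2, Finset.mul_sum]
  refine (norm_sum_le _ _).trans ?_
  have h5 : ∀ b ∈ range S, ‖∑ t ∈ Ico (m b) (m (b + 1)), A t * c t‖ ≤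
      (‖∑ t ∈ range (m (b + 1)), c t‖ + ‖∑ t ∈ range (m b), c t‖) + δ * ∑ t ∈ Ico (m b) (m (b + 1)), ‖c t‖ := by
    intro b hb
    have hb' := Finset.mem_range.1 hb
    rw [e3]
    refine (norm_add_le _ _).trans (add_le_add ?_ ?_)
    · rw [norm_mul]
      exact (mul_le_of_le_one_left (norm_nonneg _) (hA b hb')).trans (norm_sub_le _ _)
    · rw [Finset.mul_sum]
      refine (norm_sum_le _ _).trans (Finset.sum_le_sum fun t ht => ?_)
      have ht' := Finset.mem_Ico.1 ht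
      rw [norm_mul]
      exact mul_le_mul_of_nonneg_right (hd b hb' t ht'.1 ht'.2) (norm_nonneg _)
  refine (Finset.sum_le_sum h5).trans ?_
  rw [Finset.sum_add_distrib, Finset.sum_add_distrib, ← Finset.mul_sum, Finset.mul_sum]
  linarith [Finset.mul_sum (range S) (fun b => ‖∑ t ∈ range (m (b + 1)), c t‖) (2 : ℝ)]

variable {M : ℕ} [NeZero M]

theorem n2_nn (f : ZMod M → ℂ) : 0 ≤ n2 f := avr_nonneg fun _ => sq_nonneg _

/-- Shift of a slowly varying function by an integer. -/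
theorem slow_int {g : ZMod M → ℂ} {lam : ℝ} {Q : ℕ} (h : ∀ z (u : ℕ), ‖g (z + (u : ZMod M)) - g z‖ ≤ lam * ((u : ℝ) + Q))
    (z : ZMod M) (a b : ℤ) : ‖g (z + ((a : ℤ) : ZMod M)) - g (z + ((b : ℤ) : ZMod M))‖ ≤ lam * ((|a - b| : ℤ) + Q) := by
  rcases le_total b a with hab | hab
  · obtain ⟨u, hu⟩ := Int.eq_ofNat_of_zero_le (sub_nonneg.2 hab)
    have e1 : a = b + (u : ℤ) := by omega
    have h1 := h (z + ((b : ℤ) : ZMod M)) u
    have e2 : z + ((b : ℤ) : ZMod M) + (u : ZMod M) = z + ((a : ℤ) : ZMod M) := by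
      rw [e1]; push_cast; ring
    rw [e2] at h1
    have e3 : |a - b| = (u : ℤ) := by rw [hu]; exact abs_of_nonneg (Int.natCast_nonneg u)
    rw [e3]
    exact_mod_cast h1
  · obtain ⟨u, hu⟩ := Int.eq_ofNat_of_zero_le (sub_nonneg.2 hab)
    have e1 : b = a + (u : ℤ) := by omega
    have h1 := h (z + ((a : ℤ) : ZMod M)) u
    have e2 : z + ((a : ℤ) : ZMod M) + (u : ZMod M) = z + ((b : ℤ) : ZMod M) := by
      rw [e1]; push_cast; ring
    rw [e2, norm_sub_rev] at h1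
    have e3 : |a - b| = (u : ℤ) := by rw [abs_sub_comm, hu]; exact abs_of_nonneg (Int.natCast_nonneg u)
    rw [e3]
    exact_mod_cast h1

/-- The pointwise estimate. -/
theorem ptw {n : ℕ} (P : Fin n → ℤ[X]) (i : Fin n) (hi : Fin n → Prop) [DecidablePred hi] (hii : ¬ hi i) (N S : ℕ) (hS : 1 ≤ S)
    (hN : 1 ≤ N) (g : Fin n → ZMod M → ℂ) (hg : ∀ l, Bd (g l)) (F : ZMod M → ℂ) (δ : ℝ) (hδ : 0 ≤ δ)
    (hd : ∀ l, hi l → ∀ b, b < S → ∀ t, b * N / S ≤ t → t < (b + 1) * N / S → ∀ x : ZMod M,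
      ‖g l (x + pz M (P l) t) - g l (x + pz M (P l) (b * N / S))‖ ≤ δ) (x : ZMod M) :
    ‖AA N P (Function.update g i F) x‖ ≤
      2 * ∑ b ∈ range S, ‖AA ((b + 1) * N / S) P (Function.update (fun l => if hi l then fun _ => 1 else g l) i F) x‖ +
        (n * δ) * AR N (P i) (fun y => ‖F y‖) x := by
  classical
  set g' : Fin n → ZMod M → ℂ := fun l => if hi l then fun _ => 1 else g l with hg'
  set A : ℕ → ℂ := fun t => ∏ l, (if hi l then g l (x + pz M (P l) t) else 1) with hA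
  set c : ℕ → ℂ := fun t => ∏ l, Function.update g' i F l (x + pz M (P l) t) with hc
  have hN0 : (0 : ℝ) < N := by exact_mod_cast hN
  have hprod : ∀ t, ∏ l, Function.update g i F l (x + pz M (P l) t) = A t * c t := by
    intro t
    rw [hA, hc, ← Finset.prod_mul_distrib]
    refine Finset.prod_congr rfl fun l _ => ?_
    by_cases hl : l = i
    · subst hl
      rw [if_neg hii, Function.update_self, Function.update_self, one_mul]
    · rw [Function.update_of_ne hl, Function.update_of_ne hl, hg']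
      by_cases hh : hi l
      · simp only [hh, if_true, mul_one]
      · simp only [hh, if_false, one_mul]
  have hcle : ∀ t, ‖c t‖ ≤ ‖F (x + pz M (P i) t)‖ := by
    intro t
    show ‖∏ l, Function.update g' i F l (x + pz M (P l) t)‖ ≤ _
    rw [← Finset.mul_prod_erase univ _ (mem_univ i), Function.update_self, norm_mul, norm_prod]
    refine mul_le_of_le_one_right (norm_nonneg _) ?_
    refine Finset.prod_le_one (fun _ _ => norm_nonneg _) fun l hl => ?_
    rw [Function.update_of_ne (Finset.ne_of_mem_erase hl), hg']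
    dsimp only
    split_ifs
    · simp
    · exact hg l _
  have hAle : ∀ t, ‖A t‖ ≤ 1 := by
    intro t
    show ‖∏ l, (if hi l then g l (x + pz M (P l) t) else 1)‖ ≤ _
    rw [norm_prod]
    refine Finset.prod_le_one (fun _ _ => norm_nonneg _) fun l _ => ?_
    split_ifs
    · exact hg l _
    · simp
  have hmono : Monotone (fun b : ℕ => b * N / S) := fun a b hab => Nat.div_le_div_right (Nat.mul_le_mul_right N hab)
  have hmS : S * N / S = N := Nat.mul_div_cancel_left N (by omega)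
  have habel := abel A c (fun b => b * N / S) hmono (by simp) S (n * δ) (fun b _ => hAle _) (fun b hb t h1 h2 => by
    rw [hA]
    refine (prod_sub univ _ _ (fun l _ => ?_) (fun l _ => ?_)).trans ?_
    · split_ifs
      · exact hg l _
      · simp
    · split_ifs
      · exact hg l _
      · simp
    · calc ∑ l : Fin n, ‖(if hi l then g l (x + pz M (P l) t) else 1) - (if hi l then g l (x + pz M (P l) (b * N / S)) else 1)‖
          ≤ ∑ _l : Fin n, δ := by
            refine Finset.sum_le_sum fun l _ => ?_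
            split_ifs with hh
            · exact hd l hh b hb t h1 h2 x
            · simpa using hδ
        _ = n * δ := by rw [Finset.sum_const, Finset.card_univ, Fintype.card_fin, nsmul_eq_mul])
  simp only [hmS] at habel
  have h1 : ‖AA N P (Function.update g i F) x‖ = ‖∑ t ∈ range N, A t * c t‖ / N := by
    unfold AA tv
    rw [norm_div, Complex.norm_natCast]
    simp only [hprod]
  rw [h1, div_le_iff₀ hN0]
  refine habel.trans ?_
  have h2 : ∀ b ∈ range S, ‖∑ t ∈ range ((b + 1) * N / S), c t‖ ≤ ‖AA ((b + 1) * N / S) P (Function.update g' i F) x‖ * N := by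
    intro b hb
    have hb' := Finset.mem_range.1 hb
    set m := (b + 1) * N / S with hm
    have hmN : m ≤ N := by
      rw [hm]
      refine Nat.div_le_of_le_mul ?_
      exact Nat.mul_le_mul_right N (by omega)
    have h3 : ‖AA m P (Function.update g' i F) x‖ = ‖∑ t ∈ range m, c t‖ / m := by
      unfold AA tv
      rw [norm_div, Complex.norm_natCast]
    rcases Nat.eq_zero_or_pos m with h0 | h0
    · rw [h0]
      simp only [Finset.range_zero, Finset.sum_empty, norm_zero]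
      positivity
    · have hm0 : (0 : ℝ) < m := by exact_mod_cast h0
      have h4 : ‖∑ t ∈ range m, c t‖ = ‖AA m P (Function.update g' i F) x‖ * m := by
        rw [h3]; field_simp
      rw [h4]
      exact mul_le_mul_of_nonneg_left (by exact_mod_cast hmN) (norm_nonneg _)
  have h5 : ∑ t ∈ range N, ‖c t‖ ≤ AR N (P i) (fun y => ‖F y‖) x * N := by
    unfold AR tvr
    rw [div_mul_cancel₀ _ hN0.ne']
    exact Finset.sum_le_sum fun t _ => hcle t
  have h6 := Finset.sum_le_sum h2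
  rw [← Finset.sum_mul] at h6
  have h7 : (0 : ℝ) ≤ n * δ := by positivity
  have h8 := mul_le_mul_of_nonneg_left h5 h7
  calc 2 * ∑ b ∈ range S, ‖∑ t ∈ range ((b + 1) * N / S), c t‖ + n * δ * ∑ t ∈ range N, ‖c t‖
      ≤ 2 * ((∑ b ∈ range S, ‖AA ((b + 1) * N / S) P (Function.update g' i F) x‖) * N) +
        n * δ * (AR N (P i) (fun y => ‖F y‖) x * N) := by linarith
    _ = _ := by ring

/-- From the pointwise estimate to mean squares. -/
theorem sq_est (S : ℕ) (X : ZMod M → ℂ) (Y : ℕ → ZMod M → ℂ) (δ : ℝ) (R F : ZMod M → ℝ) (hδ : 0 ≤ δ) (hR : ∀ x, 0 ≤ R x)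
    (h : ∀ x, ‖X x‖ ≤ 2 * ∑ b ∈ range S, ‖Y b x‖ + δ * R x) (hRF : avr (fun x => R x ^ 2) ≤ avr (fun x => F x ^ 2)) :
    n2 X ≤ 8 * S * ∑ b ∈ range S, n2 (Y b) + 2 * δ ^ 2 * avr (fun x => F x ^ 2) := by
  have h1 : ∀ x, ‖X x‖ ^ 2 ≤ 8 * S * ∑ b ∈ range S, ‖Y b x‖ ^ 2 + 2 * δ ^ 2 * R x ^ 2 := by
    intro x
    have h2 := h x
    have h3 : (∑ b ∈ range S, ‖Y b x‖) ^ 2 ≤ S * ∑ b ∈ range S, ‖Y b x‖ ^ 2 := by
      have := sq_sum_le_card_mul_sum_sq (s := range S) (f := fun b => ‖Y b x‖)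
      rwa [card_range] at this
    have h4 : ‖X x‖ ^ 2 ≤ (2 * ∑ b ∈ range S, ‖Y b x‖ + δ * R x) ^ 2 := pow_le_pow_left₀ (norm_nonneg _) h2 2
    nlinarith [sq_nonneg (2 * ∑ b ∈ range S, ‖Y b x‖ - δ * R x)]
  have h2 : n2 X ≤ avr (fun x => 8 * S * ∑ b ∈ range S, ‖Y b x‖ ^ 2 + 2 * δ ^ 2 * R x ^ 2) := avr_mono h1
  have h3 : avr (fun x => 8 * S * ∑ b ∈ range S, ‖Y b x‖ ^ 2 + 2 * δ ^ 2 * R x ^ 2) =
      8 * S * ∑ b ∈ range S, n2 (Y b) + 2 * δ ^ 2 * avr (fun x => R x ^ 2) := by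
    unfold n2 avr
    rw [Finset.sum_add_distrib, ← Finset.mul_sum, ← Finset.mul_sum, Finset.sum_comm, ← Finset.sum_div]
    ring
  rw [h3] at h2
  have h4 : 2 * δ ^ 2 * avr (fun x => R x ^ 2) ≤ 2 * δ ^ 2 * avr (fun x => F x ^ 2) :=
    mul_le_mul_of_nonneg_left hRF (by positivity)
  linarith

end TRealAux

open TRealAux in
open Pool.Agent.EQD.BlkAAux (eval_diff block_len block_end) in
theorem real_gain {n : ℕ} {P : Fin n → ℤ[X]} {e : Fin n → ℕ} {i₀ : Fin n} (h : GDeg P e i₀) : ∃ C : ℕ, 1 ≤ C ∧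
    ∀ (M : ℕ) [NeZero M] (N R S q K Q : ℕ) (i : Fin n) (lam : Fin n → ℝ) (η : ℝ), 2 ≤ R → 1 ≤ S → 2 * S * R ^ C ≤ N → 1 ≤ q → 1 ≤ K →
      (∀ r, 1 ≤ r → r ≤ R ^ C → r ∣ q) → 8 * (q * K) * R ^ (2 * C) * (2 * S) ^ e i ≤ N ^ e i →
      ∀ g : Fin n → ZMod M → ℂ, (∀ l, Bd (g l)) → 0 ≤ η →
      (∀ l, (P i).natDegree < (P l).natDegree → 0 ≤ lam l ∧ lam l * ((N : ℝ) ^ e l / S + Q) ≤ η ∧
        ∀ z (u : ℕ), ‖g l (z + (u : ZMod M)) - g l z‖ ≤ lam l * ((u : ℝ) + Q)) →
      ∀ F : ZMod M → ℂ, n2 (AA N P (Function.update g i F)) ≤ C * ((S : ℝ) ^ 2 / R + η ^ 2) * n2 F + C * (S : ℝ) ^ 2 * n2 (Eb q K F) := by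
  classical
  obtain ⟨C₁, hC₁, hl2⟩ := l2gain h
  set C₀ : ℕ := 1 + ∑ l : Fin n, e l * ∑ j ∈ range (e l + 1), ((P l).coeff j).natAbs with hC₀
  set C : ℕ := 16 * C₁ + 16 + 2 * n ^ 2 * C₀ ^ 2 with hC
  have hCC : C₁ ≤ C := by omega
  refine ⟨C, by omega, ?_⟩
  intro M _ N R S q K Q i lam η hR hS hN hq hK hdiv hL g hg hη hslow F
  have hR1 : 1 ≤ R := by omega
  have hRC : R ^ C₁ ≤ R ^ C := Nat.pow_le_pow_right hR1 hCC
  have hRC1 : 1 ≤ R ^ C := Nat.one_le_pow _ _ hR1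
  have hSN : 2 * S ≤ N := le_trans (Nat.le_mul_of_pos_right _ hRC1) hN
  have hN1 : 1 ≤ N := by omega
  have hS0 : (0 : ℝ) < S := by exact_mod_cast hS
  have hR0 : (0 : ℝ) < R := by exact_mod_cast hR1
  -- the slots of higher degree
  have hlip : ∀ l, (P i).natDegree < (P l).natDegree → ∀ b, b < S → ∀ t, b * N / S ≤ t → t < (b + 1) * N / S →
      ∀ x : ZMod M, ‖g l (x + pz M (P l) t) - g l (x + pz M (P l) (b * N / S))‖ ≤ C₀ * η := by
    intro l hl b hb t h1 h2 x
    obtain ⟨hlam, hlamη, hsl⟩ := hslow l hl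
    have htop : e l = (P l).natDegree := h.top l (lt_of_le_of_lt (h.dmin i) hl)
    obtain ⟨m, rfl⟩ := Nat.exists_eq_add_of_le h1
    have hm : m < (b + 1) * N / S - b * N / S := by omega
    have h3 := eval_diff (P l) (e l) N (b * N / S) m (h.pos l) (le_of_eq htop.symm) (block_end N S b hS hb m hm) hN1
    have h4 := slow_int hsl x ((P l).eval (((b * N / S + m : ℕ)) : ℤ)) ((P l).eval ((b * N / S : ℕ) : ℤ))
    refine h4.trans ?_
    have hmS : m ≤ N / S := block_len N S b hS m hm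
    have hmS' : (m : ℝ) ≤ N / S := by
      calc (m : ℝ) ≤ ((N / S : ℕ) : ℝ) := by exact_mod_cast hmS
        _ ≤ N / S := Nat.cast_div_le
    set c : ℕ := e l * ∑ j ∈ range (e l + 1), ((P l).coeff j).natAbs with hc
    have hcC : c + 1 ≤ C₀ := by
      have := Finset.single_le_sum (f := fun l : Fin n => e l * ∑ j ∈ range (e l + 1), ((P l).coeff j).natAbs)
        (fun _ _ => Nat.zero_le _) (mem_univ l)
      rw [hC₀]
      omega
    have h5 : ((|(P l).eval (((b * N / S + m : ℕ)) : ℤ) - (P l).eval ((b * N / S : ℕ) : ℤ)| : ℤ) : ℝ) ≤ c * ((N : ℝ) ^ e l / S) := by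
      have h6 : ((|(P l).eval (((b * N / S + m : ℕ)) : ℤ) - (P l).eval ((b * N / S : ℕ) : ℤ)| : ℤ) : ℝ) ≤
          (((e l : ℤ) * (∑ j ∈ range (e l + 1), |(P l).coeff j|) * (N : ℤ) ^ (e l - 1) * m : ℤ) : ℝ) := by exact_mod_cast h3
      refine h6.trans ?_
      have h7 : (((e l : ℤ) * (∑ j ∈ range (e l + 1), |(P l).coeff j|) * (N : ℤ) ^ (e l - 1) * m : ℤ) : ℝ) =
          c * ((N : ℝ) ^ (e l - 1) * m) := by
        rw [hc]
        push_cast
        simp only [Nat.cast_natAbs]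
        push_cast
        ring
      rw [h7]
      refine mul_le_mul_of_nonneg_left ?_ (Nat.cast_nonneg _)
      have h8 : (N : ℝ) ^ e l = (N : ℝ) ^ (e l - 1) * N := by
        rw [← pow_succ]
        congr 1
        have := h.pos l
        omega
      rw [h8, mul_div_assoc]
      exact mul_le_mul_of_nonneg_left hmS' (by positivity)
    have hNe : (0 : ℝ) ≤ (N : ℝ) ^ e l / S := by positivity
    have hQ0 : (0 : ℝ) ≤ Q := Nat.cast_nonneg _
    have hc0 : (0 : ℝ) ≤ c := Nat.cast_nonneg _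
    have hcC' : (c : ℝ) + 1 ≤ C₀ := by exact_mod_cast hcC
    calc lam l * ((|(P l).eval (((b * N / S + m : ℕ)) : ℤ) - (P l).eval ((b * N / S : ℕ) : ℤ)| : ℤ) + Q)
        ≤ lam l * (c * ((N : ℝ) ^ e l / S) + Q) := mul_le_mul_of_nonneg_left (by linarith) hlam
      _ ≤ lam l * ((c + 1) * ((N : ℝ) ^ e l / S + Q)) := by
          refine mul_le_mul_of_nonneg_left ?_ hlam
          nlinarith [mul_nonneg hc0 hQ0]
      _ = (c + 1) * (lam l * ((N : ℝ) ^ e l / S + Q)) := by ring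
      _ ≤ C₀ * η := mul_le_mul hcC' hlamη (mul_nonneg hlam (by positivity)) (Nat.cast_nonneg _)
  -- the pointwise estimate
  have hC₀η : (0 : ℝ) ≤ C₀ * η := by positivity
  have hpt := fun x => ptw P i (fun l => (P i).natDegree < (P l).natDegree) (lt_irrefl _) N S hS hN1 g hg F (C₀ * η) hC₀η hlip x
  set g' : Fin n → ZMod M → ℂ := fun l => if (P i).natDegree < (P l).natDegree then fun _ => 1 else g l with hg'
  have hn0 : (0 : ℝ) ≤ n := Nat.cast_nonneg _
  have hsq := sq_est S (AA N P (Function.update g i F)) (fun b => AA ((b + 1) * N / S) P (Function.update g' i F))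
    (n * (C₀ * η)) (AR N (P i) (fun y => ‖F y‖)) (fun y => ‖F y‖) (by positivity)
    (fun x => AR_nonneg N (P i) _ (fun _ => norm_nonneg _) x) hpt (n2_AR_le N (P i) _)
  -- one block
  have hg'B : ∀ l, Bd (g' l) := by
    intro l z
    rw [hg']
    dsimp only
    split_ifs
    · simp
    · exact hg l z
  have hone : ∀ l, (P i).natDegree < (P l).natDegree → ∀ x, g' l x = 1 := by
    intro l hl x
    rw [hg']
    simp only [hl, if_true]
  have hblk : ∀ b ∈ range S, n2 (AA ((b + 1) * N / S) P (Function.update g' i F)) ≤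
      2 * (C₁ * n2 F / R) + 2 * n2 (Eb q K F) := by
    intro b _
    set m := (b + 1) * N / S with hm
    have hmN : N ≤ 2 * S * m := by
      have h1 : N / S ≤ m := by
        rw [hm]
        refine Nat.div_le_div_right ?_
        exact Nat.le_mul_of_pos_left _ (by omega)
      have h2 : N < S * (N / S) + S := by
        have := Nat.lt_mul_div_succ N (by omega : 0 < S)
        rw [Nat.mul_add, Nat.mul_one] at this
        exact this
      have h3 : 2 * (S * (N / S)) ≤ 2 * S * m := by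
        calc 2 * (S * (N / S)) = 2 * S * (N / S) := by ring
          _ ≤ 2 * S * m := Nat.mul_le_mul_left _ h1
      omega
    have hRm : R ^ C ≤ m := by
      have h1 : 2 * S * R ^ C ≤ 2 * S * m := hN.trans hmN
      exact Nat.le_of_mul_le_mul_left h1 (by omega)
    have hm1 : 1 ≤ m := hRC1.trans hRm
    have hLm : 8 * (q * K) * R ^ (2 * C) ≤ m ^ e i := by
      have h1 : 8 * (q * K) * R ^ (2 * C) * (2 * S) ^ e i ≤ m ^ e i * (2 * S) ^ e i := by
        calc 8 * (q * K) * R ^ (2 * C) * (2 * S) ^ e i ≤ N ^ e i := hL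
          _ ≤ (2 * S * m) ^ e i := Nat.pow_le_pow_left hmN _
          _ = m ^ e i * (2 * S) ^ e i := by rw [mul_pow, Nat.mul_comm]
      exact Nat.le_of_mul_le_mul_right h1 (Nat.pow_pos (by omega))
    have hLm1 : 8 * (q * K) * R ^ (2 * C₁) ≤ m ^ e i :=
      (Nat.mul_le_mul_left _ (Nat.pow_le_pow_right hR1 (by omega))).trans hLm
    have hqK : q * K ≤ m ^ e i := by
      have h1 : 1 ≤ R ^ (2 * C) := Nat.one_le_pow _ _ hR1
      have h2 : q * K ≤ 8 * (q * K) * R ^ (2 * C) := by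
        calc q * K ≤ 8 * (q * K) := by omega
          _ ≤ 8 * (q * K) * R ^ (2 * C) := Nat.le_mul_of_pos_right _ h1
      exact h2.trans hLm
    have hqK' : q * K ≤ m ^ (P i).natDegree := hqK.trans (Nat.pow_le_pow_right hm1 (h.le i))
    set β : ℤ →₀ ℂ := dlt - bk q K with hβ
    have hmass : mass β ≤ 4 := by
      have h1 := mass_sub_le dlt (bk q K)
      rw [mass_dlt] at h1
      have h2 := mass_bk_le q K
      linarith
    have hsupp : Supp (m ^ (P i).natDegree) β := supp_sub _ _ _ (supp_dlt _) (supp_bk q K _ hqK')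
    have hNS : NS C₁ R (m ^ e i) β :=
      ns_box C₁ R (m ^ e i) q K hR hK (fun r h1 h2 => hdiv r h1 (h2.trans hRC)) hq hLm1
    have h1 := hl2 M m R hR (hRC.trans hRm) i β hmass hsupp hNS g' hg'B hone F
    have h2 : n2 (AA m P (Function.update g' i (Eb q K F))) ≤ n2 (Eb q K F) := by
      have := n2_AA_le m P (Function.update g' i (Eb q K F)) i (fun l hl => by
        rw [Function.update_of_ne hl]; exact hg'B l)
      rwa [Function.update_self] at this
    have h3 : AA m P (Function.update g' i F) = fun x => AA m P (Function.update g' i (cv β F)) x +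
        AA m P (Function.update g' i (Eb q K F)) x := by
      funext x
      rw [← AA_update_add]
      congr 2
      funext y
      rw [hβ, cv_sub, cv_dlt, cv_bk]
      ring
    have h4 : n2 (AA m P (Function.update g' i F)) ≤ 2 * n2 (AA m P (Function.update g' i (cv β F))) +
        2 * n2 (AA m P (Function.update g' i (Eb q K F))) := by
      rw [h3]
      unfold n2
      have h5 : ∀ x, ‖AA m P (Function.update g' i (cv β F)) x + AA m P (Function.update g' i (Eb q K F)) x‖ ^ 2 ≤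
          2 * ‖AA m P (Function.update g' i (cv β F)) x‖ ^ 2 + 2 * ‖AA m P (Function.update g' i (Eb q K F)) x‖ ^ 2 := by
        intro x
        have h6 := norm_add_le (AA m P (Function.update g' i (cv β F)) x) (AA m P (Function.update g' i (Eb q K F)) x)
        have h7 := pow_le_pow_left₀ (norm_nonneg _) h6 2
        nlinarith [sq_nonneg (‖AA m P (Function.update g' i (cv β F)) x‖ - ‖AA m P (Function.update g' i (Eb q K F)) x‖)]
      refine (avr_mono h5).trans (le_of_eq ?_)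
      unfold avr
      rw [Finset.sum_add_distrib, ← Finset.mul_sum, ← Finset.mul_sum]
      ring
    linarith
  have hsum := Finset.sum_le_sum hblk
  rw [Finset.sum_const, card_range, nsmul_eq_mul] at hsum
  have hF0 : 0 ≤ n2 F := n2_nn F
  have hE0 : 0 ≤ n2 (Eb q K F) := n2_nn _
  have hFF : avr (fun x => (fun y => ‖F y‖) x ^ 2) = n2 F := rfl
  rw [hFF] at hsq
  refine hsq.trans ?_
  have h8 : 8 * (S : ℝ) * ∑ b ∈ range S, n2 (AA ((b + 1) * N / S) P (Function.update g' i F)) ≤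
      8 * S * (S * (2 * (C₁ * n2 F / R) + 2 * n2 (Eb q K F))) := mul_le_mul_of_nonneg_left hsum (by positivity)
  have hCr : (C : ℝ) = 16 * C₁ + 16 + 2 * n ^ 2 * C₀ ^ 2 := by rw [hC]; push_cast; ring
  have hA : (0 : ℝ) ≤ S ^ 2 / R * n2 F := by positivity
  have hB : (0 : ℝ) ≤ η ^ 2 * n2 F := by positivity
  have hD : (0 : ℝ) ≤ S ^ 2 * n2 (Eb q K F) := by positivity
  have hx1 : (0 : ℝ) ≤ C₁ := Nat.cast_nonneg _
  have hx2 : (0 : ℝ) ≤ 2 * (n : ℝ) ^ 2 * (C₀ : ℝ) ^ 2 := by positivity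
  have e1 : 8 * (S : ℝ) * (S * (2 * (C₁ * n2 F / R) + 2 * n2 (Eb q K F))) + 2 * (n * (C₀ * η)) ^ 2 * n2 F =
      16 * C₁ * (S ^ 2 / R * n2 F) + 2 * n ^ 2 * C₀ ^ 2 * (η ^ 2 * n2 F) + 16 * (S ^ 2 * n2 (Eb q K F)) := by
    field_simp
    ring
  have e2 : (C : ℝ) * ((S : ℝ) ^ 2 / R + η ^ 2) * n2 F + C * (S : ℝ) ^ 2 * n2 (Eb q K F) =
      C * (S ^ 2 / R * n2 F) + C * (η ^ 2 * n2 F) + C * (S ^ 2 * n2 (Eb q K F)) := by ring
  rw [e2, hCr]
  have k1 := mul_le_mul_of_nonneg_right (show (16 * (C₁ : ℝ)) ≤ 16 * C₁ + 16 + 2 * n ^ 2 * C₀ ^ 2 by linarith) hA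
  have k2 := mul_le_mul_of_nonneg_right (show (2 * (n : ℝ) ^ 2 * (C₀ : ℝ) ^ 2) ≤ 16 * C₁ + 16 + 2 * n ^ 2 * C₀ ^ 2 by linarith) hB
  have k3 := mul_le_mul_of_nonneg_right (show (16 : ℝ) ≤ 16 * C₁ + 16 + 2 * n ^ 2 * C₀ ^ 2 by linarith) hD
  linarith

end Pool.Agent.EQD.G
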