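import Pool.Agent.Lib.EQG.TDec
import Pool.Agent.Lib.EQG.TReal

/-!
# Module TShp: the real-scale gain for structured functions

PROOF. (1) `decouple`: up to a function with `n2 ^ C N ≤ 1` the average is `av_r AA N P (fun l x' => V l x' (x + pz M (P l) r.val)) x`; by Jensen `n2` of it is at most `av_r n2 (x ↦ Φ_r x x)` with
`Φ_r z y = AA N P (fun l x' => V l x' (y + pz M (P l) r.val)) z`. (2) `Φ_r` is in `Sl (4 ^ n) Q (n 4 ^ n * 2 lam Q)`, `lam = max lam l ≤ W / N` (product of slowly varying functions, average of shifts; one index), so `diag_n2`: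
`n2 (x ↦ Φ_r x x) ≤ avr_z avr_y ‖Φ_r z y‖ ^ 2 + tiny = avr_y n2_z (Φ_r · y) + tiny` (Fubini, `StrCAux.n2_swap`). (3) For every `y`: `real_gain` for `g l = V l · (y + P l r) / 4`, `F = V i · (y + P i r) / 4`, average over `y`
(translation): `avr_y n2_z (Φ_r · y) ≤ 16 ^ n (C (S ^ 2 / R + η ^ 2) avr_y n2_z (V i · y) + C S ^ 2 avr_y n2_z (Eb q K (V i · y)))`. (4) Back to the diagonal by `diag_n2` (`V i` and `(z, y) ↦ Eb q K (V i · y) z` are in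
`Sl 4 Q (2 lam Q)`, `sl_tv`): `x ↦ Eb q K (V i · x) x` is `Eb q K (x ↦ V i x x)` because `V i z (y + q) = V i z y`. All tiny errors are at most `C' 4 ^ (4 n) Q ^ 3 W S ^ 2 / N`, hence the sum `τ` of them and of `N ^ (- 1 / C₁)` satisfies
`τ ^ C N ≤ 1` for `(Q W) ^ C ≤ N`, `S ^ C ≤ N`, `N ≥ N₀` (write the result with `N ^ (- 1 / C)` as a real power and then `τ`).
-/

set_option autoImplicit false

open Finset Polynomial

namespace Pool.Agent.EQD.G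

open Pool.Agent.HLT Pool.Agent.NLT Pool.Agent.NLG

namespace TShpAux

section

variable {M : ℕ} [NeZero M]

theorem n2_nn (f : ZMod M → ℂ) : 0 ≤ n2 f := avr_nonneg fun _ => sq_nonneg _

theorem n2_add2 (f g : ZMod M → ℂ) : n2 (fun x => f x + g x) ≤ 2 * n2 f + 2 * n2 g := by
  unfold n2
  rw [← avr_mul_left, ← avr_mul_left, ← avr_add]
  refine avr_mono fun x => ?_
  have h1 := norm_add_le (f x) (g x)
  have h2 := norm_nonneg (f x + g x)
  nlinarith [sq_nonneg (‖f x‖ - ‖g x‖), norm_nonneg (f x), norm_nonneg (g x)]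

theorem n2_cm (c : ℂ) (f : ZMod M → ℂ) : n2 (fun x => c * f x) = ‖c‖ ^ 2 * n2 f := by
  unfold n2
  rw [← avr_mul_left]
  congr 1
  funext x
  rw [norm_mul, mul_pow]

theorem n2_sw (Ψ : ZMod M → ZMod M → ℂ) :
    avr (fun z => n2 (Ψ z)) = avr (fun y => n2 (fun z => Ψ z y)) := by
  unfold n2
  exact avr_comm (fun z y => ‖Ψ z y‖ ^ 2)

/-- Jensen. -/
theorem n2_av (Φ : ZMod M → ZMod M → ℂ) :
    n2 (fun x => av (fun r => Φ r x)) ≤ avr (fun r => n2 (Φ r)) := by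
  unfold n2
  rw [avr_comm (fun r x => ‖Φ r x‖ ^ 2)]
  exact avr_mono (fun x => norm_av_sq_le _)

/-- The averages of slowly varying functions. -/
theorem sl_AA {n : ℕ} {P : Fin n → ℤ[X]} {Q : ℕ} {lam : Fin n → ℝ} {μ : ℝ}
    {V : Fin n → ZMod M → ZMod M → ℂ} (hQ : 1 ≤ Q) (hQM : Q ∣ M) (hμ : 0 ≤ μ)
    (hlam : ∀ l, lam l ≤ μ) (hV : ∀ l, Sw Q 4 (lam l) (V l)) (N : ℕ) (c : Fin n → ZMod M) :
    Sl (4 ^ n) Q (n * 4 ^ n * (2 * μ * Q)) (fun z y => AA N P (fun l x' => V l x' (y + c l)) z) := by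
  have hQ1 : (1 : ℝ) ≤ Q := by exact_mod_cast hQ
  refine ⟨Unit, inferInstance, fun _ z y => AA N P (fun l x' => V l x' (y + c l)) z, fun _ => Q,
    ?_, ?_, ?_, ?_, ?_, ?_⟩
  · rw [Fintype.card_unit]
    exact Nat.one_le_pow _ _ (by norm_num)
  · intro _
    exact ⟨hQ, le_rfl, hQM⟩
  · intro _ z y
    unfold AA
    refine congrArg _ (funext fun t => Finset.prod_congr rfl fun l _ => ?_)
    have e : y + ((Q : ℕ) : ZMod M) + c l = y + c l + (Q : ZMod M) := by ring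
    show V l _ (y + ((Q : ℕ) : ZMod M) + c l) = V l _ (y + c l)
    rw [e, (hV l).per]
  · intro _ z y
    unfold AA
    refine (norm_tv_le _ _).trans (tvr_le N (by positivity) (fun t _ => ?_))
    rw [norm_prod]
    push_cast
    calc ∏ l, ‖V l (z + pz M (P l) t) (y + c l)‖ ≤ ∏ _l : Fin n, (4 : ℝ) :=
          Finset.prod_le_prod (fun l _ => norm_nonneg _) (fun l _ => (hV l).bd _ _)
      _ = 4 ^ n := by rw [prod_const, card_univ, Fintype.card_fin]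
  · intro _ z y
    unfold AA
    rw [← tv_sub]
    have h0 : 0 ≤ (n : ℝ) * 4 ^ n * (2 * μ * Q) := by positivity
    refine (norm_tv_le _ _).trans (tvr_le N h0 (fun t _ => ?_))
    have h1 := SlCAux.prod_diff (Finset.univ : Finset (Fin n))
      (fun l => V l (z + 1 + pz M (P l) t) (y + c l)) (fun l => V l (z + pz M (P l) t) (y + c l)) 4
      (2 * μ * Q) (by norm_num) (by positivity) (fun l => (hV l).bd _ _) (fun l => (hV l).bd _ _)
      (fun l => by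
        have h2 := (hV l).slow (z + pz M (P l) t) (y + c l) 1
        have e : z + pz M (P l) t + ((1 : ℕ) : ZMod M) = z + 1 + pz M (P l) t := by
          push_cast
          ring
        rw [e] at h2
        refine h2.trans ?_
        have h3 := hlam l
        push_cast
        calc lam l * (1 + (Q : ℝ)) ≤ μ * (1 + Q) := mul_le_mul_of_nonneg_right h3 (by positivity)
          _ ≤ μ * (2 * Q) := mul_le_mul_of_nonneg_left (by linarith) hμ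
          _ = 2 * μ * Q := by ring)
    rw [card_univ, Fintype.card_fin] at h1
    exact h1
  · intro z y
    simp

/-- From the diagonal to the product. -/
theorem diag_le {K q : ℕ} {κ : ℝ} (hκ : 0 ≤ κ) {Φ : ZMod M → ZMod M → ℂ} (h : Sl K q κ Φ) :
    n2 (fun x => Φ x x) ≤ avr (fun y => n2 (fun z => Φ z y)) + 2 * (K : ℝ) ^ 3 * q ^ 2 * κ := by
  have h1 := (abs_le.1 (diag_n2 hκ h)).2
  rw [n2_sw] at h1
  linarith

/-- Back. -/
theorem le_diag {K q : ℕ} {κ : ℝ} (hκ : 0 ≤ κ) {Φ : ZMod M → ZMod M → ℂ} (h : Sl K q κ Φ) :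
    avr (fun y => n2 (fun z => Φ z y)) ≤ n2 (fun x => Φ x x) + 2 * (K : ℝ) ^ 3 * q ^ 2 * κ := by
  have h1 := (abs_le.1 (diag_n2 hκ h)).1
  rw [n2_sw] at h1
  linarith

omit [NeZero M] in
theorem AA_scale {n : ℕ} (N : ℕ) (P : Fin n → ℤ[X]) (G : Fin n → ZMod M → ℂ) (x : ZMod M) :
    AA N P G x = 4 ^ n * AA N P (fun l z => 1 / 4 * G l z) x := by
  unfold AA tv
  rw [mul_div_assoc', Finset.mul_sum]
  congr 1
  refine Finset.sum_congr rfl fun t _ => ?_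
  rw [Finset.prod_mul_distrib, prod_const, card_univ, Fintype.card_fin, ← mul_assoc, ← mul_pow]
  norm_num

end

/-- The gain for fixed second variables. -/
theorem gain_fixed {n : ℕ} {P : Fin n → ℤ[X]} {e : Fin n → ℕ} {i₀ : Fin n} (h : GDeg P e i₀) :
    ∃ C : ℕ, 1 ≤ C ∧
    ∀ (M : ℕ) [NeZero M] (N R S q K Q : ℕ) (i : Fin n) (lam : Fin n → ℝ) (η : ℝ), 2 ≤ R → 1 ≤ S →
      2 * S * R ^ C ≤ N → 1 ≤ q → 1 ≤ K → (∀ r, 1 ≤ r → r ≤ R ^ C → r ∣ q) →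
      8 * (q * K) * R ^ (2 * C) * (2 * S) ^ e i ≤ N ^ e i →
      ∀ G : Fin n → ZMod M → ℂ, (∀ l z, ‖G l z‖ ≤ 4) → 0 ≤ η →
      (∀ l, (P i).natDegree < (P l).natDegree → 0 ≤ lam l ∧ lam l * ((N : ℝ) ^ e l / S + Q) ≤ η ∧
        ∀ z (u : ℕ), ‖G l (z + (u : ZMod M)) - G l z‖ ≤ lam l * ((u : ℝ) + Q)) →
      n2 (AA N P G) ≤ 16 ^ n * (C * ((S : ℝ) ^ 2 / R + η ^ 2) * n2 (G i) +
        C * (S : ℝ) ^ 2 * n2 (Eb q K (G i))) := by
  obtain ⟨C, hC, hreal⟩ := real_gain h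
  refine ⟨C, hC, ?_⟩
  intro M _ N R S q K Q i lam η hR hS hN hq hK hdv hbig G hG hη hl
  have h4 : ‖(1 / 4 : ℂ)‖ = 1 / 4 := by norm_num
  have h1 := hreal M N R S q K Q i lam η hR hS hN hq hK hdv hbig (fun l z => 1 / 4 * G l z) (by
    intro l z
    rw [norm_mul, h4]
    have := hG l z
    linarith) hη (by
    intro l hlt
    obtain ⟨a1, a2, a3⟩ := hl l hlt
    refine ⟨a1, a2, ?_⟩
    intro z u
    rw [← mul_sub, norm_mul, h4]
    have := a3 z u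
    have h0 := norm_nonneg (G l (z + (u : ZMod M)) - G l z)
    linarith) (fun z => 1 / 4 * G i z)
  have e1 : Function.update (fun l z => 1 / 4 * G l z) i (fun z => 1 / 4 * G i z) =
      fun l z => 1 / 4 * G l z := Function.update_eq_self i (fun l z => 1 / 4 * G l z)
  rw [e1] at h1
  have e2 : n2 (AA N P G) = 16 ^ n * n2 (AA N P (fun l z => 1 / 4 * G l z)) := by
    have : AA N P G = fun x => (4 ^ n : ℂ) * AA N P (fun l z => 1 / 4 * G l z) x :=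
      funext (AA_scale N P G)
    rw [this, n2_cm]
    congr 1
    rw [norm_pow, ← pow_mul, mul_comm, pow_mul]
    norm_num
  have e3 : Eb q K (fun z => 1 / 4 * G i z) = fun x => 1 / 4 * Eb q K (G i) x := by
    funext x
    unfold Eb tv
    rw [← Finset.mul_sum, mul_div_assoc]
  rw [e2]
  apply mul_le_mul_of_nonneg_left _ (by positivity)
  rw [n2_cm, e3, n2_cm, h4] at h1
  refine h1.trans ?_
  have b1 := n2_nn (G i)
  have b2 := n2_nn (Eb q K (G i))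
  have hR0 : (0 : ℝ) < R := by
    have : 0 < R := by omega
    exact_mod_cast this
  have c1 : 0 ≤ (C : ℝ) * ((S : ℝ) ^ 2 / R + η ^ 2) := by positivity
  have c2 : 0 ≤ (C : ℝ) * (S : ℝ) ^ 2 := by positivity
  apply add_le_add
  · exact mul_le_mul_of_nonneg_left (by linarith) c1
  · exact mul_le_mul_of_nonneg_left (by linarith) c2

/-- The numerical end. -/
theorem num_end {c₁ A : ℕ} (hc₁ : 2 ≤ c₁) : ∃ N₀ : ℕ, ∀ (b C N Q W S : ℕ) (d : ℝ), N₀ ≤ N →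
    1 ≤ Q → 1 ≤ W → 1 ≤ S → 20 ≤ b → C = c₁ * b → (Q * W) ^ C ≤ N → S ^ C ≤ N → 0 ≤ d →
    d ^ c₁ * N ≤ 1 →
    (A * ((Q : ℝ) ^ 3 * W * S ^ 2 / N) + 2 * d) ^ C * N ≤ 1 := by
  refine ⟨(3 ^ c₁) ^ 2 + A ^ 4 + 1, ?_⟩
  intro b C N Q W S d hN hQ hW hS hb hC hQW hSC hd hd1
  have hN1 : 1 ≤ N := le_trans (Nat.le_add_left 1 _) hN
  have hN0 : (0 : ℝ) < N := by exact_mod_cast hN1
  have hN1' : (1 : ℝ) ≤ N := by exact_mod_cast hN1
  have hb2 : 20 ≤ C := by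
    rw [hC]
    nlinarith
  obtain ⟨X, hX⟩ : ∃ X : ℝ, X = A * ((Q : ℝ) ^ 3 * W * S ^ 2 / N) := ⟨_, rfl⟩
  have hX0 : 0 ≤ X := by rw [hX]; positivity
  have hQW1 : (1 : ℝ) ≤ (Q : ℝ) * W := by
    have : 1 ≤ Q * W := Nat.mul_pos hQ hW
    exact_mod_cast this
  have hS1 : (1 : ℝ) ≤ S := by exact_mod_cast hS
  have hQ1 : (1 : ℝ) ≤ Q := by exact_mod_cast hQ
  have hW1 : (1 : ℝ) ≤ W := by exact_mod_cast hW
  -- `y = N ^ (1 / 20)`
  obtain ⟨y, hy⟩ : ∃ y : ℝ, y = (N : ℝ) ^ ((1 : ℝ) / 20) := ⟨_, rfl⟩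
  have hy1 : 1 ≤ y := by rw [hy]; exact Real.one_le_rpow hN1' (by norm_num)
  have hy0 : 0 < y := by linarith
  have hyN : y ^ 20 = N := by
    rw [hy, ← Real.rpow_natCast, ← Real.rpow_mul hN0.le]
    norm_num
  have hQWy : (Q : ℝ) * W ≤ y := by
    have h1 : ((Q : ℝ) * W) ^ C ≤ N := by exact_mod_cast hQW
    have h2 : ((Q : ℝ) * W) ^ 20 ≤ y ^ 20 := by
      rw [hyN]
      exact (pow_le_pow_right₀ hQW1 hb2).trans h1
    exact le_of_pow_le_pow_left₀ (by norm_num) hy0.le h2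
  have hSy : (S : ℝ) ≤ y := by
    have h1 : (S : ℝ) ^ C ≤ N := by exact_mod_cast hSC
    have h2 : (S : ℝ) ^ 20 ≤ y ^ 20 := by
      rw [hyN]
      exact (pow_le_pow_right₀ hS1 hb2).trans h1
    exact le_of_pow_le_pow_left₀ (by norm_num) hy0.le h2
  have hAy : (A : ℝ) ≤ y ^ 5 := by
    have h1 : A ^ 4 ≤ N := by
      refine le_trans ?_ hN
      exact le_trans (Nat.le_add_left _ _) (Nat.le_add_right _ _)
    have h2 : (A : ℝ) ^ 4 ≤ (y ^ 5) ^ 4 := by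
      rw [← pow_mul, hyN]
      exact_mod_cast h1
    exact le_of_pow_le_pow_left₀ (by norm_num) (by positivity) h2
  have hXy : X * y ^ 10 ≤ 1 := by
    have h1 : (Q : ℝ) ^ 3 * W ≤ y ^ 3 := by
      have h2 : (W : ℝ) ≤ (W : ℝ) ^ 3 := by
        calc (W : ℝ) = (W : ℝ) ^ 1 := (pow_one _).symm
          _ ≤ (W : ℝ) ^ 3 := pow_le_pow_right₀ hW1 (by norm_num)
      calc (Q : ℝ) ^ 3 * W ≤ (Q : ℝ) ^ 3 * (W : ℝ) ^ 3 := by gcongr
        _ = ((Q : ℝ) * W) ^ 3 := by rw [mul_pow]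
        _ ≤ y ^ 3 := by gcongr
    have h2 : X ≤ y ^ 5 * (y ^ 3 * y ^ 2 / y ^ 20) := by
      rw [hX, ← hyN]
      gcongr
    have h3 : y ^ 5 * (y ^ 3 * y ^ 2 / y ^ 20) * y ^ 10 = 1 := by
      field_simp
    calc X * y ^ 10 ≤ y ^ 5 * (y ^ 3 * y ^ 2 / y ^ 20) * y ^ 10 := by gcongr
      _ = 1 := h3
  have hX1 : X ≤ 1 := by
    have h1 : 1 ≤ y ^ 10 := one_le_pow₀ hy1
    nlinarith
  have hX2 : X ^ 2 * N ≤ 1 := by
    have e : X ^ 2 * N = (X * y ^ 10) ^ 2 := by rw [← hyN]; ring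
    rw [e]
    have : 0 ≤ X * y ^ 10 := by positivity
    exact pow_le_one₀ this hXy
  have hXc : X ^ c₁ * N ≤ 1 := by
    refine le_trans ?_ hX2
    exact mul_le_mul_of_nonneg_right (pow_le_pow_of_le_one hX0 hX1 hc₁) hN0.le
  obtain ⟨m, hm0, hXm, hdm, hm⟩ : ∃ m : ℝ, 0 ≤ m ∧ X ≤ m ∧ d ≤ m ∧ m ^ c₁ * N ≤ 1 := by
    rcases le_total X d with h | h
    · exact ⟨d, hd, h, le_rfl, hd1⟩
    · exact ⟨X, hX0, le_rfl, h, hXc⟩
  have hm1 : m ^ c₁ ≤ 1 / N := by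
    rw [le_div_iff₀ hN0]
    exact hm
  have ht : (3 ^ c₁) ^ 2 ≤ N := by
    refine le_trans ?_ hN
    exact le_trans (Nat.le_add_right _ _) (Nat.le_add_right _ _)
  have ht1 : 3 ^ c₁ ≤ N := by
    refine le_trans ?_ ht
    exact Nat.le_self_pow (by norm_num) _
  have htb : (3 ^ c₁) ^ b * N ≤ N ^ b := by
    obtain ⟨b', rfl⟩ : ∃ b', b = b' + 2 := ⟨b - 2, by omega⟩
    calc (3 ^ c₁) ^ (b' + 2) * N = (3 ^ c₁) ^ b' * (3 ^ c₁) ^ 2 * N := by rw [pow_add]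
      _ ≤ N ^ b' * N * N := by gcongr
      _ = N ^ (b' + 2) := by ring
  rw [← hX]
  have h3 : X + 2 * d ≤ 3 * m := by linarith
  have h0 : 0 ≤ X + 2 * d := by positivity
  calc (X + 2 * d) ^ C * N ≤ (3 * m) ^ C * N := by gcongr
    _ = ((3 : ℝ) ^ c₁ * m ^ c₁) ^ b * N := by rw [hC, pow_mul, mul_pow]
    _ ≤ ((3 : ℝ) ^ c₁ * (1 / N)) ^ b * N := by gcongr
    _ = (((3 : ℝ) ^ c₁) ^ b * N) / N ^ b := by
      rw [mul_one_div, div_pow]
      ring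
    _ ≤ 1 := by
      rw [div_le_one (by positivity)]
      exact_mod_cast htb

/-- The trivial bound. -/
theorem triv {M : ℕ} [NeZero M] {n : ℕ} (N : ℕ) (P : Fin n → ℤ[X]) (G : Fin n → ZMod M → ℂ)
    (hG : ∀ l z, ‖G l z‖ ≤ 4) (i : Fin n) : n2 (AA N P G) ≤ 16 ^ n * n2 (G i) := by
  have h4 : ‖(1 / 4 : ℂ)‖ = 1 / 4 := by norm_num
  have e2 : n2 (AA N P G) = 16 ^ n * n2 (AA N P (fun l z => 1 / 4 * G l z)) := by
    have : AA N P G = fun x => (4 ^ n : ℂ) * AA N P (fun l z => 1 / 4 * G l z) x :=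
      funext (AA_scale N P G)
    rw [this, n2_cm]
    congr 1
    rw [norm_pow, ← pow_mul, mul_comm, pow_mul]
    norm_num
  rw [e2]
  apply mul_le_mul_of_nonneg_left _ (by positivity)
  refine (n2_AA_le N P (fun l z => 1 / 4 * G l z) i ?_).trans ?_
  · intro l _ z
    show ‖1 / 4 * G l z‖ ≤ 1
    rw [norm_mul, h4]
    have := hG l z
    linarith
  · rw [n2_cm, h4]
    have := n2_nn (G i)
    nlinarith

/-- The gain for the diagonal, one shift. -/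
theorem one_shift {n : ℕ} {P : Fin n → ℤ[X]} {e : Fin n → ℕ} {i₀ : Fin n} (h : GDeg P e i₀) :
    ∃ C : ℕ, 1 ≤ C ∧
    ∀ (M : ℕ) [NeZero M] (N R S q K Q : ℕ) (i : Fin n) (lam : Fin n → ℝ) (μ η : ℝ)
      (V : Fin n → ZMod M → ZMod M → ℂ), 2 ≤ R → 1 ≤ S →
      2 * S * R ^ C ≤ N → 1 ≤ q → 1 ≤ K → (∀ r, 1 ≤ r → r ≤ R ^ C → r ∣ q) →
      8 * (q * K) * R ^ (2 * C) * (2 * S) ^ e i ≤ N ^ e i → 1 ≤ Q → Q ∣ M → 0 ≤ μ →
      (∀ l, 0 ≤ lam l) → (∀ l, lam l ≤ μ) → (∀ l, Sw Q 4 (lam l) (V l)) →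
      (∀ z y, V i z (y + (q : ZMod M)) = V i z y) → 0 ≤ η → η ≤ 1 →
      (∀ l, (P i).natDegree < (P l).natDegree → lam l * ((N : ℝ) ^ e l / S + Q) ≤ η) →
      ∀ c : Fin n → ZMod M,
      n2 (fun x => AA N P (fun l x' => V l x' (x + c l)) x) ≤
        16 ^ n * (C * ((S : ℝ) ^ 2 / R + η ^ 2) * n2 (fun x => V i x x) +
        C * (S : ℝ) ^ 2 * n2 (Eb q K (fun x => V i x x))) +
        (4 * n * 256 ^ n + 768 * 16 ^ n * C) * (Q : ℝ) ^ 3 * μ * S ^ 2 := by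
  obtain ⟨C, hC, hg⟩ := gain_fixed h
  refine ⟨C, hC, ?_⟩
  intro M _ N R S q K Q i lam μ η V hR hS hN hq hK hdv hbig hQ hQM hμ hlam0 hlam hV hper hη hη1 hhi c
  have hR0 : (0 : ℝ) < R := by
    have : 0 < R := by omega
    exact_mod_cast this
  have hR1 : (1 : ℝ) ≤ R := by
    have : 1 ≤ R := by omega
    exact_mod_cast this
  have hS1 : (1 : ℝ) ≤ S := by exact_mod_cast hS
  have hQ1 : (1 : ℝ) ≤ Q := by exact_mod_cast hQ
  -- from the diagonal to the product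
  have h1 := diag_le (by positivity) (sl_AA (P := P) hQ hQM hμ hlam hV N c)
  -- the gain
  have h2 : avr (fun y => n2 (fun z => AA N P (fun l x' => V l x' (y + c l)) z)) ≤
      16 ^ n * (C * ((S : ℝ) ^ 2 / R + η ^ 2) * avr (fun y => n2 (fun z => V i z y)) +
        C * (S : ℝ) ^ 2 * avr (fun y => n2 (Eb q K (fun z => V i z y)))) := by
    have h3 : ∀ y, n2 (fun z => AA N P (fun l x' => V l x' (y + c l)) z) ≤
        16 ^ n * (C * ((S : ℝ) ^ 2 / R + η ^ 2) * n2 (fun z => V i z (y + c i)) +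
        C * (S : ℝ) ^ 2 * n2 (Eb q K (fun z => V i z (y + c i)))) := by
      intro y
      exact hg M N R S q K Q i lam η hR hS hN hq hK hdv hbig (fun l z => V l z (y + c l))
        (fun l z => (hV l).bd _ _) hη (fun l hl => ⟨hlam0 l, hhi l hl, fun z u => (hV l).slow z _ u⟩)
    refine (avr_mono h3).trans (le_of_eq ?_)
    have e1 := avr_shift (fun y => n2 (fun z => V i z y)) (c i)
    have e2 := avr_shift (fun y => n2 (Eb q K (fun z => V i z y))) (c i)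
    rw [← e1, ← e2, ← avr_mul_left, ← avr_mul_left, ← avr_add, ← avr_mul_left]
  -- back to the diagonal
  have hsl : Sl 4 Q (2 * μ * Q) (V i) :=
    sw_sl (sw_mono (hV i) le_rfl (hlam i)) hQ hQM hμ (by norm_num) (by norm_num)
  have h4 := le_diag (by positivity) hsl
  have h5 := le_diag (by positivity) (sl_tv (by positivity) hsl K (fun m => ((q * m : ℕ) : ZMod M)))
  have e5 : (fun x => tv K (fun m => V i (x + ((q * m : ℕ) : ZMod M)) x)) =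
      Eb q K (fun x => V i x x) := by
    funext x
    unfold Eb
    congr 1
    funext m
    exact (SlCAux.per_mul (g := fun y => V i (x + ((q * m : ℕ) : ZMod M)) y) (d := q)
      (fun y => hper _ y) m x).symm
  have h5' : avr (fun y => n2 (Eb q K (fun z => V i z y))) ≤ n2 (Eb q K (fun x => V i x x)) +
      2 * ((4 : ℕ) : ℝ) ^ 3 * Q ^ 2 * (2 * μ * Q) := by
    rw [← e5]
    exact h5
  clear h5 e5
  obtain ⟨D, hD⟩ : ∃ D : ℝ, D = n2 (fun x => V i x x) := ⟨_, rfl⟩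
  obtain ⟨D', hD'⟩ : ∃ D' : ℝ, D' = n2 (Eb q K (fun x => V i x x)) := ⟨_, rfl⟩
  rw [← hD] at h4 ⊢
  rw [← hD'] at h5' ⊢
  obtain ⟨t, ht⟩ : ∃ t : ℝ, t = (Q : ℝ) ^ 3 * μ := ⟨_, rfl⟩
  have ht0 : 0 ≤ t := by rw [ht]; positivity
  have e4 : 2 * ((4 : ℕ) : ℝ) ^ 3 * Q ^ 2 * (2 * μ * Q) = 256 * t := by
    rw [ht]
    push_cast
    ring
  rw [e4] at h4 h5'
  have e6 : 2 * (((4 ^ n : ℕ) : ℕ) : ℝ) ^ 3 * (Q : ℝ) ^ 2 * (n * 4 ^ n * (2 * μ * Q)) =
      4 * n * 256 ^ n * t := by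
    rw [ht]
    have : (256 : ℝ) ^ n = (4 ^ n) ^ 3 * 4 ^ n := by
      rw [← pow_mul, ← pow_add, show n * 3 + n = 4 * n by ring, pow_mul]
      norm_num
    rw [this]
    push_cast
    ring
  rw [e6] at h1
  have hS2 : 1 ≤ (S : ℝ) ^ 2 := one_le_pow₀ hS1
  have hc1 : (S : ℝ) ^ 2 / R + η ^ 2 ≤ 2 * S ^ 2 := by
    have a1 : (S : ℝ) ^ 2 / R ≤ S ^ 2 := div_le_self (by positivity) hR1
    have a2 : η ^ 2 ≤ 1 := pow_le_one₀ hη hη1
    linarith
  have hc0 : 0 ≤ (S : ℝ) ^ 2 / R + η ^ 2 := by positivity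
  have h6 : C * ((S : ℝ) ^ 2 / R + η ^ 2) * avr (fun y => n2 (fun z => V i z y)) +
        C * (S : ℝ) ^ 2 * avr (fun y => n2 (Eb q K (fun z => V i z y))) ≤
      (C * ((S : ℝ) ^ 2 / R + η ^ 2) * D + C * (S : ℝ) ^ 2 * D') + 768 * C * t * S ^ 2 := by
    have a1 : C * ((S : ℝ) ^ 2 / R + η ^ 2) * avr (fun y => n2 (fun z => V i z y)) ≤
        C * ((S : ℝ) ^ 2 / R + η ^ 2) * (D + 256 * t) :=
      mul_le_mul_of_nonneg_left h4 (by positivity)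
    have a2 : C * (S : ℝ) ^ 2 * avr (fun y => n2 (Eb q K (fun z => V i z y))) ≤
        C * (S : ℝ) ^ 2 * (D' + 256 * t) :=
      mul_le_mul_of_nonneg_left h5' (by positivity)
    have a3 : C * ((S : ℝ) ^ 2 / R + η ^ 2) * (256 * t) ≤ C * (2 * S ^ 2) * (256 * t) := by
      have : 0 ≤ (C : ℝ) := Nat.cast_nonneg _
      gcongr
    nlinarith
  have h7 : n2 (fun x => AA N P (fun l x' => V l x' (x + c l)) x) ≤
      16 ^ n * ((C * ((S : ℝ) ^ 2 / R + η ^ 2) * D + C * (S : ℝ) ^ 2 * D') + 768 * C * t * S ^ 2) +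
        4 * n * 256 ^ n * t := by
    have a1 : (0 : ℝ) ≤ 16 ^ n := by positivity
    have a2 := mul_le_mul_of_nonneg_left h6 a1
    linarith
  refine h7.trans ?_
  have h8 : 4 * n * 256 ^ n * t ≤ 4 * n * 256 ^ n * t * S ^ 2 := by
    have : 0 ≤ 4 * n * 256 ^ n * t := by positivity
    nlinarith
  have e9 : (4 * (n : ℝ) * 256 ^ n + 768 * 16 ^ n * C) * (Q : ℝ) ^ 3 * μ * S ^ 2 =
      4 * n * 256 ^ n * t * S ^ 2 + 768 * 16 ^ n * C * t * S ^ 2 := by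
    rw [ht]
    ring
  rw [e9]
  nlinarith

end TShpAux

open TShpAux

theorem shell_one {n : ℕ} {P : Fin n → ℤ[X]} {e : Fin n → ℕ} {i₀ : Fin n} (h : GDeg P e i₀) : ∃ C N₀ : ℕ, 1 ≤ C ∧
    ∀ (M : ℕ) [NeZero M] (N Q W R S q K : ℕ) (i : Fin n) (lam : Fin n → ℝ) (V : Fin n → ZMod M → ZMod M → ℂ) (η : ℝ), N₀ ≤ N → 1 ≤ Q →
      Q ∣ M → 1 ≤ W → (Q * W) ^ C ≤ N → (∀ l, 0 ≤ lam l ∧ lam l * (N : ℝ) ^ e l ≤ W) → (∀ l, Sw Q 4 (lam l) (V l)) →
      2 ≤ R → 1 ≤ S → S ^ C ≤ N → 2 * S * R ^ C ≤ N → 1 ≤ q → 1 ≤ K → (∀ z y, V i z (y + (q : ZMod M)) = V i z y) →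
      (∀ r, 1 ≤ r → r ≤ R ^ C → r ∣ q) → 8 * (q * K) * R ^ (2 * C) * (2 * S) ^ e i ≤ N ^ e i → 0 ≤ η →
      (∀ l, (P i).natDegree < (P l).natDegree → lam l * ((N : ℝ) ^ e l / S + Q) ≤ η) →
      ∃ τ : ℝ, 0 ≤ τ ∧ τ ^ C * N ≤ 1 ∧
      n2 (AA N P (fun l x' => V l x' x')) ≤ C * ((S : ℝ) ^ 2 / R + η ^ 2) * n2 (fun x => V i x x) +
        C * (S : ℝ) ^ 2 * n2 (Eb q K (fun x => V i x x)) + τ := by
  obtain ⟨C₁, N₁, hC₁, hdec⟩ := decouple h
  obtain ⟨C₂, hC₂, hone⟩ := one_shift h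
  obtain ⟨N₂, hN₂⟩ := num_end (c₁ := C₁ + 2) (A := 2 * (4 * n * 256 ^ n + 768 * 16 ^ n * C₂)) (by omega)
  obtain ⟨b, hb⟩ : ∃ b, b = 2 * 16 ^ n * C₂ + 20 := ⟨_, rfl⟩
  obtain ⟨C, hC⟩ : ∃ C, C = (C₁ + 2) * b := ⟨_, rfl⟩
  have hb1 : 20 ≤ b := by rw [hb]; exact Nat.le_add_left _ _
  have hCb : b ≤ C := by
    rw [hC]
    exact Nat.le_mul_of_pos_left _ (by omega)
  have hCC₁ : C₁ ≤ C := by
    rw [hC]
    calc C₁ ≤ C₁ + 2 := by omega
      _ ≤ (C₁ + 2) * b := Nat.le_mul_of_pos_right _ (by omega)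
  have hCC : 2 * 16 ^ n * C₂ ≤ C := le_trans (by rw [hb]; exact Nat.le_add_right _ _) hCb
  have h16 : 1 ≤ 16 ^ n := Nat.one_le_pow _ _ (by norm_num)
  have hCC₂ : C₂ ≤ C := by
    refine le_trans ?_ hCC
    calc C₂ = 1 * 1 * C₂ := by ring
      _ ≤ 2 * 16 ^ n * C₂ := by gcongr; norm_num
  have hC16 : 16 ^ n ≤ C := by
    refine le_trans ?_ hCC
    calc 16 ^ n = 1 * 16 ^ n * 1 := by ring
      _ ≤ 2 * 16 ^ n * C₂ := by gcongr; norm_num
  refine ⟨C, N₁ + N₂ + 1, by omega, ?_⟩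
  intro M _ N Q W R S q K i lam V η hN hQ hQM hW hQW hlam hV hR hS hSC hSR hq hK hper hdv hbig hη hhi
  have hN1 : 1 ≤ N := by omega
  have hN0 : (0 : ℝ) < N := by exact_mod_cast hN1
  have hN1' : (1 : ℝ) ≤ N := by exact_mod_cast hN1
  have hR1 : 1 ≤ R := by omega
  have hRpos : (0 : ℝ) < R := by exact_mod_cast hR1
  have hQW1 : 1 ≤ Q * W := Nat.mul_pos hQ hW
  have hd1 := hdec M N Q W lam V (by omega) hQ hQM hW ((Nat.pow_le_pow_right hQW1 hCC₁).trans hQW)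
    hlam hV
  obtain ⟨B, hB⟩ : ∃ B : ZMod M → ℂ, B = fun x => av (fun r : ZMod M =>
    AA N P (fun l x' => V l x' (x + pz M (P l) r.val)) x) := ⟨_, rfl⟩
  obtain ⟨d, hd⟩ : ∃ d : ℝ, d = n2 (fun x => AA N P (fun l x' => V l x' x') x - B x) := ⟨_, rfl⟩
  have hd1' : d ^ C₁ * N ≤ 1 := by
    rw [hd, hB]
    exact hd1
  have hd0 : 0 ≤ d := by rw [hd]; exact n2_nn _
  have hdle : d ≤ 1 := by
    by_contra hcon
    push Not at hcon
    have h1 : 1 < d ^ C₁ := one_lt_pow₀ hcon (by omega)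
    nlinarith
  have hd2 : d ^ (C₁ + 2) * N ≤ 1 := by
    refine le_trans ?_ hd1'
    exact mul_le_mul_of_nonneg_right (pow_le_pow_of_le_one hd0 hdle (by omega)) hN0.le
  have hτ := hN₂ b C N Q W S d (by omega) hQ hW hS hb1 hC hQW hSC hd0 hd2
  refine ⟨_, by positivity, hτ, ?_⟩
  have hD := n2_nn (fun x => V i x x)
  have hD' := n2_nn (Eb q K (fun x => V i x x))
  obtain ⟨A', hA'⟩ : ∃ A' : ℕ, A' = 4 * n * 256 ^ n + 768 * 16 ^ n * C₂ := ⟨_, rfl⟩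
  rcases le_total 1 η with h1η | hη1
  · have h1 := triv N P (fun l x => V l x x) (fun l z => (hV l).bd _ _) i
    have h2 : (16 : ℝ) ^ n ≤ C := by exact_mod_cast hC16
    have h3 : 1 ≤ η ^ 2 := one_le_pow₀ h1η
    have h4 : (16 : ℝ) ^ n * n2 (fun x => V i x x) ≤
        C * ((S : ℝ) ^ 2 / R + η ^ 2) * n2 (fun x => V i x x) := by
      apply mul_le_mul_of_nonneg_right _ hD
      have h5 : 0 ≤ (S : ℝ) ^ 2 / R := by positivity
      calc (16 : ℝ) ^ n ≤ C * 1 := by linarith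
        _ ≤ C * ((S : ℝ) ^ 2 / R + η ^ 2) := by gcongr; linarith
    have h5 : 0 ≤ C * (S : ℝ) ^ 2 * n2 (Eb q K (fun x => V i x x)) := by positivity
    have h6 : 0 ≤ ((2 * (4 * n * 256 ^ n + 768 * 16 ^ n * C₂) : ℕ) : ℝ) *
      ((Q : ℝ) ^ 3 * W * S ^ 2 / N) + 2 * d := by positivity
    linarith
  · have hlamμ : ∀ l, lam l ≤ (W : ℝ) / N := by
      intro l
      rw [le_div_iff₀ hN0]
      refine le_trans ?_ (hlam l).2
      apply mul_le_mul_of_nonneg_left _ (hlam l).1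
      calc (N : ℝ) = (N : ℝ) ^ 1 := (pow_one _).symm
        _ ≤ (N : ℝ) ^ e l := pow_le_pow_right₀ hN1' (h.pos l)
    have hS1 : (1 : ℝ) ≤ S := by exact_mod_cast hS
    have hR2 : R ^ C₂ ≤ R ^ C := Nat.pow_le_pow_right hR1 hCC₂
    have hR3 : R ^ (2 * C₂) ≤ R ^ (2 * C) := Nat.pow_le_pow_right hR1 (by omega)
    have hsh := fun c => hone M N R S q K Q i lam ((W : ℝ) / N) η V hR hS
      ((Nat.mul_le_mul_left _ hR2).trans hSR) hq hK (fun r hr1 hr2 => hdv r hr1 (hr2.trans hR2))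
      (le_trans (by gcongr) hbig) hQ hQM (by positivity) (fun l => (hlam l).1) hlamμ hV hper hη hη1
      hhi c
    have hBn : n2 B ≤ 16 ^ n * (C₂ * ((S : ℝ) ^ 2 / R + η ^ 2) * n2 (fun x => V i x x) +
        C₂ * (S : ℝ) ^ 2 * n2 (Eb q K (fun x => V i x x))) +
        (4 * n * 256 ^ n + 768 * 16 ^ n * C₂) * (Q : ℝ) ^ 3 * ((W : ℝ) / N) * S ^ 2 := by
      rw [hB]
      refine (n2_av (fun r x => AA N P (fun l x' => V l x' (x + pz M (P l) r.val)) x)).trans ?_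
      refine (avr_mono (fun r => hsh (fun l => pz M (P l) r.val))).trans (le_of_eq ?_)
      exact avr_const _
    have hsum : n2 (AA N P (fun l x' => V l x' x')) ≤ 2 * d + 2 * n2 B := by
      have h1 := n2_add2 (fun x => AA N P (fun l x' => V l x' x') x - B x) B
      rw [← hd] at h1
      refine le_trans (le_of_eq ?_) h1
      congr 1
      funext x
      ring
    have hCR : 2 * 16 ^ n * (C₂ : ℝ) ≤ C := by exact_mod_cast hCC
    have h0 : 0 ≤ (S : ℝ) ^ 2 / R + η ^ 2 := by positivity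
    have h1 : 2 * 16 ^ n * (C₂ : ℝ) * (((S : ℝ) ^ 2 / R + η ^ 2) * n2 (fun x => V i x x)) ≤
        C * (((S : ℝ) ^ 2 / R + η ^ 2) * n2 (fun x => V i x x)) :=
      mul_le_mul_of_nonneg_right hCR (by positivity)
    have h2 : 2 * 16 ^ n * (C₂ : ℝ) * ((S : ℝ) ^ 2 * n2 (Eb q K (fun x => V i x x))) ≤
        C * ((S : ℝ) ^ 2 * n2 (Eb q K (fun x => V i x x))) :=
      mul_le_mul_of_nonneg_right hCR (by positivity)
    have e3 : 2 * ((4 * n * 256 ^ n + 768 * 16 ^ n * C₂) * (Q : ℝ) ^ 3 * ((W : ℝ) / N) * S ^ 2) =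
        ((2 * (4 * n * 256 ^ n + 768 * 16 ^ n * C₂) : ℕ) : ℝ) * ((Q : ℝ) ^ 3 * W * S ^ 2 / N) := by
      push_cast
      ring
    rw [← e3]
    nlinarith

end Pool.Agent.EQD.G
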