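import Pool.Agent.Lib.EQG.TPs
import Pool.Agent.Lib.EQG.TPd
import Pool.Agent.Lib.EQD.ShB

/-!
# Module TSlot: one slot, from the width `2 ^ (- C₄ t(j))` to the width `2 ^ (- κ)`

PROOF. As in `EQD.ShB` (`ShBAux.decomp`, `ShBAux.slot_avr`, `ShBAux.tail`, `ShBAux.summ`, `ShBAux.num_scale` can be used). For the scale `j` and `E t k = Ew B t (tj j) (N j ^ e i / 2 ^ k) (f i)`, `T = tj j`, `decomp`:
`E T (C₄ T) - E T κ = ∑_{κ ≤ k < C₄ t₀} (E t₀ (k+1) - E t₀ k) + ∑_{t₀ ≤ t < T} (∑_{κ ≤ k < C₄ (t+1)} double differences + ∑_{C₄ t ≤ k < C₄ (t+1)} (E t (k+1) - E t k))`.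
`slot_avr` with `s = Icc J₀ J₁`, `X t k j = AA (N j) P (update (..) i (E t (k+1) - E t k))`, `Y t k j` the same for the double differences (additivity: `ShBAux.lin`), `a k = C / 2 ^ (k / C)` (`piece_shell`, `k ≤ C₄ t₀ ≤ C₄ (t₀ + 1)`, `C (κ' + 1) ≤ κ ≤ k`),
`b t = C' / 2 ^ (t / C')` (`piece_dbl`; `piece_shell` with `k ≥ C₄ t ≥ C₄ t₀ ≥ C (κ' + 1)`). The sums of the square roots (with the factor `C₄ (t + 2)`) are tails of convergent series: first `κ₀`, then for `κ ≥ κ₀` the number `t₀` (also `κ ≤ C₄ t₀`, `κ ≤ t₀`), then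
`J₀`: `t₀ ≤ tj j` and the numerical condition of the two theorems for all `j ≥ J₀` (as `num_scale`, `QB_le`: `QB B T ≤ 2 ^ (B T ^ 2 2 ^ T)`, `2 ^ T ≤ j ^ (1 / 2)`). `QB B (tj j) ∣ QB B (tj J₁) ∣ M`.
-/

set_option autoImplicit false

open Finset Polynomial

namespace Pool.Agent.EQD.G

open Pool.Agent.HLT Pool.Agent.NLT Pool.Agent.NLG

namespace TSlotAux

open Pool.Agent.EQD.ShBAux

/-- largeness of the scales -/
theorem num_cond (B C₄ A t₀ : ℕ) (hA : 1 ≤ A) : ∃ J₀ : ℕ, ∀ j, J₀ ≤ j → t₀ ≤ tj j ∧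
    ∀ C, C ≤ A → (QB B (tj j) * 2 ^ (C₄ * tj j + C)) ^ C ≤ 2 ^ j := by
  obtain ⟨j₀, hj4, hj⟩ := num_small B (C₄ + A) A hA
  refine ⟨max j₀ (4 ^ t₀), fun j hjj => ?_⟩
  have a1 : j₀ ≤ j := (le_max_left _ _).trans hjj
  have a2 : 4 ^ t₀ ≤ j := (le_max_right _ _).trans hjj
  have a3 : 4 ^ t₀ < 4 ^ (tj j + 1) := lt_of_le_of_lt a2 (lt_tj_pow j)
  have a4 : t₀ < tj j + 1 := (Nat.pow_lt_pow_iff_right (by norm_num)).mp a3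
  refine ⟨by omega, fun C hC => ?_⟩
  have q1 : 1 ≤ QB B (tj j) := QB_pos B (tj j)
  have c1 : 2 ^ (C₄ * tj j + C) ≤ 2 ^ ((C₄ + A) * tj j + (C₄ + A)) := by
    apply Nat.pow_le_pow_right (by norm_num)
    have : C₄ * tj j ≤ (C₄ + A) * tj j := Nat.mul_le_mul_right _ (by omega)
    omega
  have c2 : QB B (tj j) ≤ QB B (tj j) ^ (C₄ + A) := Nat.le_self_pow (by omega) _
  have c3 : 1 ≤ j ^ (C₄ + A) := Nat.one_le_pow _ _ (by omega)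
  have c4 : QB B (tj j) * 2 ^ (C₄ * tj j + C) ≤
      2 ^ ((C₄ + A) * tj j + (C₄ + A)) * QB B (tj j) ^ (C₄ + A) * j ^ (C₄ + A) := by
    calc QB B (tj j) * 2 ^ (C₄ * tj j + C) = 2 ^ (C₄ * tj j + C) * QB B (tj j) * 1 := by ring
      _ ≤ _ := Nat.mul_le_mul (Nat.mul_le_mul c1 c2) c3
  have c5 : 1 ≤ QB B (tj j) * 2 ^ (C₄ * tj j + C) := Nat.mul_pos q1 (by positivity)
  calc (QB B (tj j) * 2 ^ (C₄ * tj j + C)) ^ C ≤ (QB B (tj j) * 2 ^ (C₄ * tj j + C)) ^ A :=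
        Nat.pow_le_pow_right c5 hC
    _ ≤ _ := Nat.pow_le_pow_left c4 A
    _ ≤ 2 ^ j := hj j a1

/-- comparison of the bounds -/
theorem bd_cmp (C A a b : ℕ) (hC : 1 ≤ C) (hCA : C ≤ A) (hab : b ≤ a) :
    (C : ℝ) / 2 ^ (a / C) ≤ (A : ℝ) / 2 ^ (b / A) := by
  have h1 : b / A ≤ a / C := Nat.div_le_div hab hCA (by omega)
  have h2 : (2 : ℝ) ^ (b / A) ≤ 2 ^ (a / C) := pow_le_pow_right₀ (by norm_num) h1
  have h3 : (C : ℝ) ≤ A := Nat.cast_le.mpr hCA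
  exact div_le_div₀ (Nat.cast_nonneg A) h3 (by positivity) h2

end TSlotAux

open TSlotAux ShBAux

theorem slotG {n : ℕ} {P : Fin n → ℤ[X]} {e : Fin n → ℕ} {i₀ : Fin n} (h : GDeg P e i₀) (B C₄ : ℕ) (hB : 1 ≤ B) (hC : 2 ≤ C₄)
    (i : Fin n) (κ' : ℕ) (ε : ℝ) (hε : 0 < ε) : ∃ κ₀ : ℕ, ∀ κ : ℕ, κ₀ ≤ κ → ∃ J₀ : ℕ, ∀ (J₁ M : ℕ) [NeZero M], QB B (tj J₁) ∣ M →
    ∀ N : ℕ → ℕ, Sc N → ∀ w : ℕ → Fin n → ℕ, (∀ j, J₀ ≤ j → ∀ l, w j l ≤ C₄ * tj j) →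
    (∀ j l, (P i).natDegree < (P l).natDegree → w j l ≤ κ') → ∀ f : Fin n → ZMod M → ℂ, (∀ l, Bd (f l)) →
    ∀ c : ZMod M → ℕ, Ch J₀ J₁ c →
    avr (fun x => ‖AA (N (c x)) P (Function.update
      (fun l => Ew B (tj (c x)) (tj (c x)) (N (c x) ^ e l / 2 ^ w (c x) l) (f l)) i
      (fun y => Ew B (tj (c x)) (tj (c x)) (N (c x) ^ e i / 2 ^ (C₄ * tj (c x))) (f i) y -
        Ew B (tj (c x)) (tj (c x)) (N (c x) ^ e i / 2 ^ κ) (f i) y)) x‖) ≤ ε := by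
  obtain ⟨C₁, hC₁, H₁⟩ := piece_shell h C₄
  obtain ⟨C₂, hC₂, H₂⟩ := piece_dbl h C₄
  obtain ⟨A, hAdef⟩ : ∃ A, A = max C₁ C₂ := ⟨_, rfl⟩
  have l1 : C₁ ≤ A := by rw [hAdef]; exact le_max_left _ _
  have l2 : C₂ ≤ A := by rw [hAdef]; exact le_max_right _ _
  have hA : 1 ≤ A := hC₁.trans l1
  have hC4 : (0 : ℝ) < C₄ := by
    have : 0 < C₄ := by omega
    exact_mod_cast this
  obtain ⟨K₁, hK₁⟩ := tail _ (summ A hA A (Nat.cast_nonneg A)) (ε / 2) (by positivity)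
  obtain ⟨K₂, hK₂⟩ := tail _ (summ A hA A (Nat.cast_nonneg A)) (ε / 2 / C₄) (by positivity)
  refine ⟨max K₁ (C₁ * (κ' + 1)), fun κ hκ => ?_⟩
  have hκ1 : K₁ ≤ κ := (le_max_left _ _).trans hκ
  have hκ2 : C₁ * (κ' + 1) ≤ κ := (le_max_right _ _).trans hκ
  obtain ⟨t₀, ht₀⟩ : ∃ t₀, t₀ = max (max κ K₂) 1 := ⟨_, rfl⟩
  have t1 : κ ≤ t₀ := by rw [ht₀]; exact (le_max_left _ _).trans (le_max_left _ _)
  have t2 : K₂ ≤ t₀ := by rw [ht₀]; exact (le_max_right _ _).trans (le_max_left _ _)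
  have t3 : 1 ≤ t₀ := by rw [ht₀]; exact le_max_right _ _
  have t5 : κ ≤ C₄ * t₀ := t1.trans (Nat.le_mul_of_pos_left _ (by omega))
  obtain ⟨J₀, hJ₀⟩ := num_cond B C₄ A t₀ hA
  refine ⟨J₀, ?_⟩
  intro J₁ M _ hM N hN w hw hw' f hf c hc
  have hcs : ∀ x, c x ∈ Icc J₀ J₁ := fun x => mem_Icc.mpr (hc x)
  have hT₁ : ∀ j ∈ Icc J₀ J₁, tj j ≤ tj J₁ := fun j hj => tj_mono (mem_Icc.mp hj).2
  have hdv : ∀ j ∈ Icc J₀ J₁, QB B (tj j) ∣ M := fun j hj => (QB_dvd B _ _ (hT₁ j hj)).trans hM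
  have key := slot_avr (Icc J₀ J₁) κ t₀ C₄ (tj J₁)
    (fun j => AA (N j) P (Function.update
      (fun l => Ew B (tj j) (tj j) (N j ^ e l / 2 ^ w j l) (f l)) i
      (fun y => Ew B (tj j) (tj j) (N j ^ e i / 2 ^ (C₄ * tj j)) (f i) y -
        Ew B (tj j) (tj j) (N j ^ e i / 2 ^ κ) (f i) y)))
    (fun t k j => AA (N j) P (Function.update
      (fun l => Ew B (tj j) (tj j) (N j ^ e l / 2 ^ w j l) (f l)) i
      (fun y => Ew B t (tj j) (N j ^ e i / 2 ^ (k + 1)) (f i) y -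
        Ew B t (tj j) (N j ^ e i / 2 ^ k) (f i) y)))
    (fun t k j => AA (N j) P (Function.update
      (fun l => Ew B (tj j) (tj j) (N j ^ e l / 2 ^ w j l) (f l)) i
      (fun y => (Ew B (t + 1) (tj j) (N j ^ e i / 2 ^ (k + 1)) (f i) y -
        Ew B (t + 1) (tj j) (N j ^ e i / 2 ^ k) (f i) y) -
        (Ew B t (tj j) (N j ^ e i / 2 ^ (k + 1)) (f i) y - Ew B t (tj j) (N j ^ e i / 2 ^ k) (f i) y))))
    hT₁ ?_ (fun k => (A : ℝ) / 2 ^ (k / A)) (fun t => (A : ℝ) / 2 ^ (t / A))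
    ?_ ?_ ?_ c hcs
  · refine key.trans ?_
    have s1 : ∑ k ∈ Ico κ (C₄ * t₀), Real.sqrt ((A : ℝ) / 2 ^ (k / A)) ≤ ε / 2 := by
      refine le_trans (Finset.sum_le_sum fun k _ => ?_)
        (hK₁ (Ico κ (C₄ * t₀)) fun k hk => hκ1.trans (mem_Ico.mp hk).1)
      have q0 : 0 ≤ Real.sqrt ((A : ℝ) / 2 ^ (k / A)) := Real.sqrt_nonneg _
      have q1 : (0 : ℝ) ≤ k := Nat.cast_nonneg k
      nlinarith
    have s2 : ∑ t ∈ Ico t₀ (tj J₁), (C₄ : ℝ) * (((t : ℝ) + 2) *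
        Real.sqrt ((A : ℝ) / 2 ^ (t / A))) ≤ ε / 2 := by
      rw [← Finset.mul_sum]
      have q2 := hK₂ (Ico t₀ (tj J₁)) fun k hk => t2.trans (mem_Ico.mp hk).1
      calc _ ≤ (C₄ : ℝ) * (ε / 2 / C₄) := mul_le_mul_of_nonneg_left q2 hC4.le
        _ = ε / 2 := mul_div_cancel₀ _ hC4.ne'
    linarith
  · intro j hj x
    exact congrArg (lin (N j) P (fun l => Ew B (tj j) (tj j) (N j ^ e l / 2 ^ w j l) (f l)) i x)
      (decomp (fun t k => Ew B t (tj j) (N j ^ e i / 2 ^ k) (f i)) κ t₀ C₄ t5 (tj j)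
        (hJ₀ j (mem_Icc.mp hj).1).1) |>.trans
      (by simp only [map_add, map_sum]; rfl)
  · -- base
    intro k hk
    obtain ⟨k1, k2⟩ := mem_Ico.mp hk
    refine (H₁ M N hN B t₀ k κ' (Icc J₀ J₁) i w hB t3 (hκ2.trans k1)
      (k2.le.trans (Nat.mul_le_mul_left _ (Nat.le_succ _))) (fun j hj => ?_) f hf).trans
      (bd_cmp C₁ A k k hC₁ l1 le_rfl)
    obtain ⟨a1, a2⟩ := hJ₀ j (mem_Icc.mp hj).1
    exact ⟨a1, hdv j hj, a2 C₁ l1, hw j (mem_Icc.mp hj).1, hw' j⟩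
  · -- double differences
    intro t ht k hk
    obtain ⟨u1, u2⟩ := mem_Ico.mp ht
    obtain ⟨k1, k2⟩ := mem_Ico.mp hk
    refine (H₂ M N hN B t k ((Icc J₀ J₁).filter (fun j => t + 1 ≤ tj j)) i w hB (t3.trans u1) k2.le
      (fun j hj => ?_) f hf).trans (bd_cmp C₂ A t t hC₂ l2 le_rfl)
    obtain ⟨hj1, hj2⟩ := mem_filter.mp hj
    obtain ⟨a1, a2⟩ := hJ₀ j (mem_Icc.mp hj1).1
    exact ⟨hj2, hdv j hj1, a2 C₂ l2, hw j (mem_Icc.mp hj1).1⟩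
  · -- bands
    intro t ht k hk
    obtain ⟨u1, u2⟩ := mem_Ico.mp ht
    obtain ⟨k1, k2⟩ := mem_Ico.mp hk
    have c0 : t ≤ k := (Nat.le_mul_of_pos_left _ (by omega)).trans k1
    refine (H₁ M N hN B t k κ' ((Icc J₀ J₁).filter (fun j => t + 1 ≤ tj j)) i w hB (t3.trans u1)
      (hκ2.trans (t1.trans (u1.trans c0))) k2.le (fun j hj => ?_) f hf).trans
      (bd_cmp C₁ A k t hC₁ l1 c0)
    obtain ⟨hj1, hj2⟩ := mem_filter.mp hj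
    obtain ⟨a1, a2⟩ := hJ₀ j (mem_Icc.mp hj1).1
    exact ⟨by omega, hdv j hj1, a2 C₁ l1, hw j (mem_Icc.mp hj1).1, hw' j⟩

end Pool.Agent.EQD.G
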